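import Pool.Agent.TLK.B1

/-!
# [TLK-A0] first properties of a `Setting`

* `dim_eq`: `finrank ℝ (Fin n → ℝ) = n`, `finrank ℝ (CP p × (Fin m → ℝ)) = 2 p + m`.
* `A_one`, `A_mul`: from `hΘ` and surjectivity of `Θ` (`(z, 0) = Θ x`).
* `lam_one`, `lam_mul`: `0 < p` gives `z ≠ 0` in `CP p`; compare norms.
* `det_rel`: `det (R g) = ±1` (`R g * R g⁻¹ = 1` over `ℤ`), and the real linear map `Θ ∘ R g ∘ Θ⁻¹ = A g × L g` has determinant
  `det_ℝ (A g) * det (L g)` (`LinearMap.det_conj`, `LinearMap.det_prodMap`). `|det_ℝ (A g)| = (lam g) ^ (2 p)`: `(lam g)⁻¹ • A g`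
  is a linear isometry of the Euclidean space `CP p` of real dimension `2 p`; the determinant of a linear isometry is `±1`
  (`LinearIsometryEquiv.det…`, `LinearIsometry.…`, or because it preserves the volume:
  `MeasureTheory.Measure.addHaar_image_linearMap` on a ball). If `p = 0` this is `1 = 1`.
* `R_inv`: `R g * R g⁻¹ = 1`.
-/

open scoped Matrix

namespace TLK

variable {n p m : ℕ} {G : Type} [Group G]

theorem Setting.dim_eq (S : Setting n p m G) : n = 2 * p + m := by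
  have h := S.Θ.finrank_eq
  rw [Module.finrank_prod, finrank_real_of_complex, finrank_euclideanSpace_fin,
    Module.finrank_fin_fun, Module.finrank_fin_fun] at h
  exact h

theorem Setting.A_one (S : Setting n p m G) : S.A 1 = LinearMap.id := by
  ext1 z
  obtain ⟨x, hx⟩ := S.Θ.surjective (z, 0)
  have h := S.hΘ 1 x
  rw [map_one, Matrix.map_one _ Int.cast_zero Int.cast_one, Matrix.one_mulVec, hx] at h
  exact (congrArg Prod.fst h).symm

theorem Setting.A_mul (S : Setting n p m G) (g h : G) : S.A (g * h) = (S.A g) ∘ₗ (S.A h) := by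
  ext1 z
  obtain ⟨x, hx⟩ := S.Θ.surjective (z, 0)
  have h1 := S.hΘ (g * h) x
  have h2 := S.hΘ g ((S.R h).map (Int.cast : ℤ → ℝ) *ᵥ x)
  have h3 := S.hΘ h x
  have e : (S.R (g * h)).map (Int.cast : ℤ → ℝ)
      = (S.R g).map (Int.cast : ℤ → ℝ) * (S.R h).map (Int.cast : ℤ → ℝ) := by
    rw [map_mul]
    exact Matrix.map_mul (f := Int.castRingHom ℝ)
  rw [Matrix.mulVec_mulVec, ← e, h1, h3] at h2
  have h4 := congrArg Prod.fst h2
  simp only [hx] at h4
  exact h4

theorem Setting.lam_one (S : Setting n p m G) (hp : 0 < p) : S.lam 1 = 1 := by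
  let z : CP p := EuclideanSpace.single (⟨0, hp⟩ : Fin p) (1 : ℂ)
  have hz : ‖z‖ = 1 := by simp [z]
  have h := S.norm_A 1 z
  rw [S.A_one, LinearMap.id_apply, hz] at h
  linarith

theorem Setting.lam_mul (S : Setting n p m G) (hp : 0 < p) (g h : G) :
    S.lam (g * h) = S.lam g * S.lam h := by
  let z : CP p := EuclideanSpace.single (⟨0, hp⟩ : Fin p) (1 : ℂ)
  have hz : ‖z‖ = 1 := by simp [z]
  have h := S.norm_A (g * h) z
  rw [S.A_mul, LinearMap.comp_apply, S.norm_A, S.norm_A, hz] at h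
  linarith

theorem abs_det_smul_isometry {E : Type} [NormedAddCommGroup E] [InnerProductSpace ℝ E]
    [FiniteDimensional ℝ E] (f : E →ₗ[ℝ] E) {c : ℝ} (hc : 0 < c) (hf : ∀ z, ‖f z‖ = c * ‖z‖) :
    |LinearMap.det f| = c ^ Module.finrank ℝ E := by
  let g : E →ₗᵢ[ℝ] E := ⟨c⁻¹ • f, fun z => by
    rw [LinearMap.smul_apply, norm_smul, hf, norm_inv, Real.norm_eq_abs, abs_of_pos hc,
      ← mul_assoc, inv_mul_cancel₀ hc.ne', one_mul]⟩
  have h1 : g.toLinearMap.normDet = 1 := g.normDet_eq_one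
  have h2 : f = c • g.toLinearMap := by
    change f = c • (c⁻¹ • f)
    rw [smul_smul, mul_inv_cancel₀ hc.ne', one_smul]
  rw [← Real.norm_eq_abs, ← LinearMap.normDet_eq_norm_det]
  conv_lhs => rw [h2]
  rw [LinearMap.normDet_smul, h1, mul_one, Real.norm_eq_abs, abs_of_pos hc]

theorem Setting.det_rel (S : Setting n p m G) (g : G) : |(S.L g).det| * S.lam g ^ (2 * p) = 1 := by
  have hA : |LinearMap.det ((S.A g).restrictScalars ℝ)| = S.lam g ^ (2 * p) := by
    have h := abs_det_smul_isometry ((S.A g).restrictScalars ℝ) (S.lam_pos g) (S.norm_A g)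
    rw [finrank_real_of_complex, finrank_euclideanSpace_fin] at h
    exact h
  have hR : |((S.R g).map (Int.cast : ℤ → ℝ)).det| = 1 := by
    have h1 : (S.R g).det * (S.R g⁻¹).det = 1 := by
      rw [← Matrix.det_mul, ← map_mul, mul_inv_cancel, map_one, Matrix.det_one]
    have h2 : IsUnit (S.R g).det := IsUnit.of_mul_eq_one _ h1
    have h3 : ((S.R g).map (Int.cast : ℤ → ℝ)).det = (((S.R g).det : ℤ) : ℝ) := by
      have := (Int.castRingHom ℝ).map_det (S.R g)
      exact this.symm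
    rw [h3, ← Int.cast_abs, Int.isUnit_iff_abs_eq.mp h2, Int.cast_one]
  have hc : LinearMap.det (((S.Θ : (Fin n → ℝ) →ₗ[ℝ] CP p × (Fin m → ℝ))
      ∘ₗ ((S.R g).map (Int.cast : ℤ → ℝ)).mulVecLin)
      ∘ₗ (S.Θ.symm : CP p × (Fin m → ℝ) →ₗ[ℝ] (Fin n → ℝ)))
      = ((S.R g).map (Int.cast : ℤ → ℝ)).det := by
    rw [LinearMap.comp_assoc, LinearMap.det_conj, ← Matrix.toLin'_apply', LinearMap.det_toLin']
  have he : (((S.Θ : (Fin n → ℝ) →ₗ[ℝ] CP p × (Fin m → ℝ))
      ∘ₗ ((S.R g).map (Int.cast : ℤ → ℝ)).mulVecLin)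
      ∘ₗ (S.Θ.symm : CP p × (Fin m → ℝ) →ₗ[ℝ] (Fin n → ℝ)))
      = LinearMap.prodMap ((S.A g).restrictScalars ℝ) (S.L g).mulVecLin := by
    apply LinearMap.ext
    intro w
    have h := S.hΘ g (S.Θ.symm w)
    rw [LinearEquiv.apply_symm_apply] at h
    exact h
  rw [he, LinearMap.det_prodMap, ← Matrix.toLin'_apply', LinearMap.det_toLin'] at hc
  rw [← hA, mul_comm, ← abs_mul, hc, hR]

end TLK
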