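import Pool.Agent.TLK.A0

/-!
# [TLK-A1] consequences of `Bdd`: growth of `lam`, density, no mixing

PROOFS. `lam_bound`: let `B` be the bound of `Bdd`. `M = s⁻¹ • L g` and `M' = s • L g⁻¹` satisfy `M * M' = 1`, entries bounded by `B`: so
`|det M| ≤ c`, `|det M'| ≤ c`, `c⁻¹ ≤ |det M| ≤ c` (`c ≥ 1` depending on `B, m`). `|det (L g)| = s ^ m |det M|`, and by
`det_rel` `lam ^ (2 p) = (s ^ m)⁻¹ |det M|⁻¹ ∈ [c⁻¹ s^(-m), c s^(-m)]`.
`no_functional`: suppose `ξ ≠ 0`; multiply by a common denominator: `ξ` integral. `f(x) = ∑ ξ_i x_i` vanishes on `Θ⁻¹(ℂ^p × 0)`, so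
`f(x) = ℓ ((Θ x).2)` for a linear `ℓ : ℝ^m → ℝ` (`ℓ v = f (Θ⁻¹ (0, v))`). For every `g` the integral vector `(R g)ᵀ ξ` is nonzero
(`R g` invertible over `ℤ`) and `((R g)ᵀ ξ) ⬝ x = f (R g x) = ℓ (L g (Θ x).2)`. For `s → 0` there is `g` with the entries of `L g` bounded by
`B s`, so all entries `((R g)ᵀ ξ)_i = ℓ (L g (Θ e_i).2)` become smaller than `1` in absolute value, so they are `0`, contradiction.
`no_vector`: suppose `x ≠ 0`; multiply by a common denominator: `x` integral. `R g x` is integral and nonzero and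
`Θ (R g x) = (A g (Θ x).1, 0)` has norm `lam g * ‖(Θ x).1‖`; by `lam_bound` with `s → ∞` (here `0 < m`, `0 < p`) `lam g → 0`, so the entries of
`R g x` become smaller than `1`: contradiction.
`no_hom1`: suppose `f z ≠ 0`. `‖f (A g z)‖ ≤ ‖f‖ * lam g * ‖z‖` and `f z = L g⁻¹ (f (A g z))`, the entries of `L g⁻¹` are bounded by `B / s`:
`‖f z‖ ≤ m (B/s) ‖f‖ lam g ‖z‖ → 0` for `s → ∞`.
`no_hom2`: suppose `f v ≠ 0`. `‖A g (f v)‖ = lam g ‖f v‖`, `‖f (L g v)‖ ≤ ‖f‖ m B s ‖v‖`; for `s → 0`: `lam g → ∞`, right side `→ 0`: contradiction.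
-/

open scoped Matrix

namespace TLK

variable {n p m : ℕ} {G : Type} [Group G]

theorem Setting.lam_bound (S : Setting n p m G) (hB : S.Bdd) :
    ∃ B c : ℝ, 1 ≤ c ∧ ∀ s : ℝ, 0 < s → ∃ g, Bd (s⁻¹ • S.L g) B ∧ Bd (s • S.L g⁻¹) B ∧
      c⁻¹ * (s ^ m)⁻¹ ≤ S.lam g ^ (2 * p) ∧ S.lam g ^ (2 * p) ≤ c * (s ^ m)⁻¹ := by
  obtain ⟨B, hB⟩ := hB
  refine ⟨B, max 1 (m.factorial • B ^ m), le_max_left _ _, fun s hs => ?_⟩
  obtain ⟨g, h1, h2⟩ := hB s hs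
  refine ⟨g, h1, h2, ?_⟩
  set c := max 1 (m.factorial • B ^ m) with hc
  have hc1 : 1 ≤ c := le_max_left _ _
  have hc0 : 0 < c := lt_of_lt_of_le one_pos hc1
  have d1 : |(s⁻¹ • S.L g).det| ≤ c := by
    have := Matrix.det_le (abv := AbsoluteValue.abs) (A := s⁻¹ • S.L g) (x := B) h1
    rw [Fintype.card_fin] at this
    exact this.trans (le_max_right _ _)
  have d2 : |(s • S.L g⁻¹).det| ≤ c := by
    have := Matrix.det_le (abv := AbsoluteValue.abs) (A := s • S.L g⁻¹) (x := B) h2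
    rw [Fintype.card_fin] at this
    exact this.trans (le_max_right _ _)
  have d3 : (s⁻¹ • S.L g).det * (s • S.L g⁻¹).det = 1 := by
    rw [← Matrix.det_mul, Matrix.smul_mul, Matrix.mul_smul, ← map_mul, mul_inv_cancel, map_one,
      smul_smul, inv_mul_cancel₀ hs.ne', one_smul, Matrix.det_one]
  have d4 : |(s⁻¹ • S.L g).det| * |(s • S.L g⁻¹).det| = 1 := by
    rw [← abs_mul, d3, abs_one]
  have hsm : 0 < s ^ m := pow_pos hs m
  have d5 : |(S.L g).det| = s ^ m * |(s⁻¹ • S.L g).det| := by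
    rw [Matrix.det_smul, Fintype.card_fin, abs_mul, abs_of_pos (pow_pos (inv_pos.mpr hs) m),
      ← mul_assoc, ← mul_pow, mul_inv_cancel₀ hs.ne', one_pow, one_mul]
  have d6 := S.det_rel g
  have hd : 0 < |(s⁻¹ • S.L g).det| := by
    rcases (abs_nonneg (s⁻¹ • S.L g).det).lt_or_eq with h | h
    · exact h
    · rw [← h, zero_mul] at d4
      exact absurd d4 zero_ne_one
  have hd' : 0 < |(s • S.L g⁻¹).det| := by
    rcases (abs_nonneg (s • S.L g⁻¹).det).lt_or_eq with h | h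
    · exact h
    · rw [← h, mul_zero] at d4
      exact absurd d4 zero_ne_one
  have key : S.lam g ^ (2 * p) = |(s • S.L g⁻¹).det| * (s ^ m)⁻¹ := by
    rw [d5] at d6
    rw [eq_comm, ← div_eq_mul_inv, div_eq_iff hsm.ne']
    calc |(s • S.L g⁻¹).det| = |(s • S.L g⁻¹).det| *
          (s ^ m * |(s⁻¹ • S.L g).det| * S.lam g ^ (2 * p)) := by rw [d6, mul_one]
      _ = (|(s⁻¹ • S.L g).det| * |(s • S.L g⁻¹).det|) * (S.lam g ^ (2 * p) * s ^ m) := by ring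
      _ = S.lam g ^ (2 * p) * s ^ m := by rw [d4, one_mul]
  rw [key]
  refine ⟨mul_le_mul_of_nonneg_right ?_ (inv_pos.mpr hsm).le,
    mul_le_mul_of_nonneg_right d2 (inv_pos.mpr hsm).le⟩
  rw [inv_le_iff_one_le_mul₀ hc0, ← d4]
  nlinarith [mul_le_mul_of_nonneg_right d1 hd'.le]

theorem bd_mulVec {k l : ℕ} (M : Matrix (Fin k) (Fin l) ℝ) {b : ℝ} (hb : 0 ≤ b)
    (hM : ∀ i j, |M i j| ≤ b) (w : Fin l → ℝ) : ‖M *ᵥ w‖ ≤ l * b * ‖w‖ := by
  refine (pi_norm_le_iff_of_nonneg (by positivity)).mpr fun i => ?_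
  rw [Real.norm_eq_abs]
  calc |∑ j, M i j * w j| ≤ ∑ j, |M i j * w j| := Finset.abs_sum_le_sum_abs _ _
    _ ≤ ∑ _j : Fin l, b * ‖w‖ := Finset.sum_le_sum fun j _ => by
        rw [abs_mul]
        exact mul_le_mul (hM i j) (norm_le_pi_norm w j) (abs_nonneg _) hb
    _ = l * b * ‖w‖ := by
        rw [Finset.sum_const, Finset.card_univ, Fintype.card_fin, nsmul_eq_mul, mul_assoc]

theorem Setting.scale (S : Setting n p m G) (hB : S.Bdd) :
    ∃ B c : ℝ, 0 ≤ B ∧ 1 ≤ c ∧ ∀ s : ℝ, 0 < s → ∃ g, (∀ i j, |S.L g i j| ≤ B * s) ∧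
      (∀ i j, |S.L g⁻¹ i j| ≤ B * s⁻¹) ∧
      c⁻¹ * (s ^ m)⁻¹ ≤ S.lam g ^ (2 * p) ∧ S.lam g ^ (2 * p) ≤ c * (s ^ m)⁻¹ := by
  obtain ⟨B, c, hc, h⟩ := S.lam_bound hB
  refine ⟨max B 0, c, le_max_right _ _, hc, fun s hs => ?_⟩
  obtain ⟨g, h1, h2, h3⟩ := h s hs
  refine ⟨g, fun i j => ?_, fun i j => ?_, h3⟩
  · have := (h1 i j).trans (le_max_left B 0)
    rw [Matrix.smul_apply, smul_eq_mul, abs_mul, abs_of_pos (inv_pos.mpr hs),
      inv_mul_le_iff₀ hs] at this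
    rw [mul_comm]
    exact this
  · have := (h2 i j).trans (le_max_left B 0)
    rw [Matrix.smul_apply, smul_eq_mul, abs_mul, abs_of_pos hs] at this
    rw [← div_eq_mul_inv, le_div_iff₀ hs, mul_comm]
    exact this

theorem Setting.lam_small (S : Setting n p m G) (hm : 0 < m) (hB : S.Bdd) :
    ∃ B : ℝ, 0 ≤ B ∧ ∀ ε : ℝ, 0 < ε → ∃ g, (∀ i j, |S.L g⁻¹ i j| ≤ B) ∧ S.lam g < ε := by
  obtain ⟨B, c, hB0, hc, h⟩ := S.scale hB
  refine ⟨B, hB0, fun ε hε => ?_⟩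
  have hc0 : 0 < c := lt_of_lt_of_le one_pos hc
  have hεp : 0 < ε ^ (2 * p) := pow_pos hε _
  obtain ⟨g, -, h2, -, h4⟩ := h (1 + c / ε ^ (2 * p)) (by positivity)
  have hs1 : 1 ≤ 1 + c / ε ^ (2 * p) := by
    have : 0 < c / ε ^ (2 * p) := by positivity
    linarith
  have hs0 : 0 < 1 + c / ε ^ (2 * p) := by positivity
  refine ⟨g, fun i j => (h2 i j).trans ?_, ?_⟩
  · exact mul_le_of_le_one_right hB0 (inv_le_one_of_one_le₀ hs1)
  · by_contra hcon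
    rw [not_lt] at hcon
    have h5 : ε ^ (2 * p) ≤ S.lam g ^ (2 * p) := pow_le_pow_left₀ hε.le hcon _
    have h6 : 1 + c / ε ^ (2 * p) ≤ (1 + c / ε ^ (2 * p)) ^ m :=
      le_self_pow₀ hs1 hm.ne'
    have h7 : ε ^ (2 * p) ≤ c * ((1 + c / ε ^ (2 * p)) ^ m)⁻¹ := h5.trans h4
    rw [← div_eq_mul_inv, le_div_iff₀ (by positivity)] at h7
    have h8 : ε ^ (2 * p) * (1 + c / ε ^ (2 * p)) ≤ c :=
      (mul_le_mul_of_nonneg_left h6 hεp.le).trans h7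
    rw [mul_add, mul_one, mul_div_cancel₀ _ hεp.ne'] at h8
    linarith

theorem Setting.lam_large (S : Setting n p m G) (hp : 0 < p) (hm : 0 < m) (hB : S.Bdd) :
    ∃ B : ℝ, 0 ≤ B ∧ ∀ N : ℝ, 0 < N → ∃ g, (∀ i j, |S.L g i j| ≤ B) ∧ N < S.lam g := by
  obtain ⟨B, hB0, h⟩ := S.lam_small hm hB
  refine ⟨B, hB0, fun N hN => ?_⟩
  obtain ⟨g, h1, h2⟩ := h N⁻¹ (inv_pos.mpr hN)
  refine ⟨g⁻¹, h1, ?_⟩
  have h3 : S.lam g * S.lam g⁻¹ = 1 := by
    rw [← S.lam_mul hp, mul_inv_cancel, S.lam_one hp]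
  have h4 : S.lam g⁻¹ = (S.lam g)⁻¹ := eq_inv_of_mul_eq_one_right h3
  rw [h4]
  exact (lt_inv_comm₀ (S.lam_pos g) hN).mp h2

theorem exists_int_mul {k : ℕ} (ξ : Fin k → ℚ) :
    ∃ (N : ℕ) (_ : N ≠ 0) (η : Fin k → ℤ), ∀ i, (η i : ℚ) = N * ξ i := by
  classical
  refine ⟨∏ i, (ξ i).den, Finset.prod_ne_zero_iff.mpr fun i _ => (ξ i).den_ne_zero,
    fun i => ((∏ j ∈ Finset.univ.erase i, (ξ j).den : ℕ) : ℤ) * (ξ i).num, fun i => ?_⟩
  have h1 : (∏ j, (ξ j).den) = (ξ i).den * ∏ j ∈ Finset.univ.erase i, (ξ j).den :=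
    (Finset.mul_prod_erase _ _ (Finset.mem_univ i)).symm
  rw [h1]
  push_cast
  have h2 : ((ξ i).num : ℚ) = ξ i * (ξ i).den := (Rat.mul_den_eq_num (ξ i)).symm
  rw [h2]
  ring

theorem Setting.R_unit (S : Setting n p m G) (g : G) : S.R g * S.R g⁻¹ = 1 := by
  rw [← map_mul, mul_inv_cancel, map_one]

theorem Setting.no_functional (S : Setting n p m G) (hB : S.Bdd) (ξ : Fin n → ℚ)
    (h : ∀ x, (S.Θ x).2 = 0 → ∑ i, (ξ i : ℝ) * x i = 0) : ξ = 0 := by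
  classical
  obtain ⟨N, hN, η, hη⟩ := exists_int_mul ξ
  suffices hη0 : η = 0 by
    funext i
    have := hη i
    rw [hη0, Pi.zero_apply, Int.cast_zero, eq_comm, mul_eq_zero] at this
    rcases this with h | h
    · exact absurd (Nat.cast_eq_zero.mp h) hN
    · exact h
  have hηR : ∀ i, (η i : ℝ) = N * (ξ i : ℝ) := fun i => by
    have := congrArg (Rat.cast : ℚ → ℝ) (hη i)
    push_cast at this
    exact this
  -- the real functional
  let f : (Fin n → ℝ) →ₗ[ℝ] ℝ := ∑ i, (η i : ℝ) • LinearMap.proj i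
  have hf : ∀ x, f x = ∑ i, (η i : ℝ) * x i := fun x => by
    simp [f, LinearMap.sum_apply]
  have hf0 : ∀ x, (S.Θ x).2 = 0 → f x = 0 := fun x hx => by
    rw [hf]
    have := h x hx
    simp only [hηR, mul_assoc]
    rw [← Finset.mul_sum, this, mul_zero]
  let ℓ : (Fin m → ℝ) →ₗ[ℝ] ℝ := f ∘ₗ (S.Θ.symm : CP p × (Fin m → ℝ) →ₗ[ℝ] (Fin n → ℝ))
    ∘ₗ LinearMap.inr ℝ (CP p) (Fin m → ℝ)
  have hℓ : ∀ x, f x = ℓ (S.Θ x).2 := fun x => by
    have h1 : S.Θ (x - S.Θ.symm (0, (S.Θ x).2)) = ((S.Θ x).1, 0) := by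
      rw [map_sub, LinearEquiv.apply_symm_apply]
      ext1 <;> simp
    have h2 := hf0 _ (congrArg Prod.snd h1)
    rw [map_sub, sub_eq_zero] at h2
    exact h2
  obtain ⟨B, c, hB0, -, hsc⟩ := S.scale hB
  let L' : (Fin m → ℝ) →L[ℝ] ℝ := LinearMap.toContinuousLinearMap ℓ
  let K : ℝ := ∑ i, ‖(S.Θ (Pi.single i 1)).2‖
  have hK : 0 ≤ K := Finset.sum_nonneg fun i _ => norm_nonneg _
  let C : ℝ := ‖L'‖ * (m * B * K)
  have hC : 0 ≤ C := by positivity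
  obtain ⟨g, hg, -⟩ := hsc (C + 1)⁻¹ (by positivity)
  have hgi : ∀ i, (η ᵥ* S.R g) i = 0 := fun i => by
    have e1 : (((η ᵥ* S.R g) i : ℤ) : ℝ) = f ((S.R g).map (Int.cast : ℤ → ℝ) *ᵥ Pi.single i 1) := by
      rw [hf, Matrix.mulVec_single_one]
      simp [Matrix.vecMul, dotProduct]
    rw [hℓ, S.hΘ] at e1
    have e2 : |ℓ (S.L g *ᵥ (S.Θ (Pi.single i 1)).2)| < 1 := by
      have a1 : ‖S.L g *ᵥ (S.Θ (Pi.single i 1)).2‖ ≤ m * (B * (C + 1)⁻¹) * K := by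
        refine (bd_mulVec (S.L g) (by positivity) hg _).trans ?_
        exact mul_le_mul_of_nonneg_left
          (Finset.single_le_sum (f := fun i => ‖(S.Θ (Pi.single i 1)).2‖)
            (fun i _ => norm_nonneg _) (Finset.mem_univ i)) (by positivity)
      have a2 : ‖L' (S.L g *ᵥ (S.Θ (Pi.single i 1)).2)‖ ≤ ‖L'‖ * (m * (B * (C + 1)⁻¹) * K) :=
        (L'.le_opNorm _).trans (mul_le_mul_of_nonneg_left a1 (norm_nonneg _))
      have a3 : ‖L'‖ * (m * (B * (C + 1)⁻¹) * K) = C / (C + 1) := by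
        simp only [C]
        rw [div_eq_mul_inv]
        ring
      rw [a3] at a2
      refine lt_of_le_of_lt a2 ?_
      rw [div_lt_one (by positivity)]
      linarith
    rw [← e1, ← Int.cast_abs] at e2
    exact Int.abs_lt_one_iff.mp (by exact_mod_cast e2)
  have h0 : η ᵥ* S.R g = 0 := funext hgi
  have h1 : (η ᵥ* S.R g) ᵥ* S.R g⁻¹ = η := by
    rw [Matrix.vecMul_vecMul, S.R_unit, Matrix.vecMul_one]
  rw [← h1, h0, Matrix.zero_vecMul]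

theorem Setting.no_vector (S : Setting n p m G) (hp : 0 < p) (hm : 0 < m) (hB : S.Bdd)
    (x : Fin n → ℚ) (h : (S.Θ (fun i => (x i : ℝ))).2 = 0) : x = 0 := by
  classical
  obtain ⟨N, hN, y, hy⟩ := exists_int_mul x
  suffices hy0 : y = 0 by
    funext i
    have := hy i
    rw [hy0, Pi.zero_apply, Int.cast_zero, eq_comm, mul_eq_zero] at this
    rcases this with h | h
    · exact absurd (Nat.cast_eq_zero.mp h) hN
    · exact h
  have hyR : (fun i => (y i : ℝ)) = (N : ℝ) • fun i => (x i : ℝ) := by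
    funext i
    have := congrArg (Rat.cast : ℚ → ℝ) (hy i)
    push_cast at this
    rw [Pi.smul_apply, smul_eq_mul]
    exact this
  have hy2 : (S.Θ (fun i => (y i : ℝ))).2 = 0 := by
    rw [hyR, map_smul, Prod.smul_snd, h, smul_zero]
  let T : CP p × (Fin m → ℝ) →L[ℝ] (Fin n → ℝ) :=
    LinearMap.toContinuousLinearMap (S.Θ.symm : CP p × (Fin m → ℝ) →ₗ[ℝ] (Fin n → ℝ))
  let z := (S.Θ (fun i => (y i : ℝ))).1
  let C : ℝ := ‖T‖ * ‖z‖
  have hC : 0 ≤ C := by positivity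
  obtain ⟨B, -, hsm⟩ := S.lam_small hm hB
  obtain ⟨g, -, hg⟩ := hsm (C + 1)⁻¹ (by positivity)
  have e1 : (fun i => (((S.R g *ᵥ y) i : ℤ) : ℝ)) = T (S.A g z, 0) := by
    have e2 : (fun i => (((S.R g *ᵥ y) i : ℤ) : ℝ))
        = (S.R g).map (Int.cast : ℤ → ℝ) *ᵥ fun i => (y i : ℝ) := by
      funext i
      simp [Matrix.mulVec, dotProduct]
    have e3 := S.hΘ g (fun i => (y i : ℝ))
    rw [hy2, Matrix.mulVec_zero] at e3
    rw [e2]
    exact (S.Θ.symm_apply_eq.mpr e3.symm).symm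
  have e4 : ‖(fun i => (((S.R g *ᵥ y) i : ℤ) : ℝ))‖ < 1 := by
    rw [e1]
    have a1 : ‖((S.A g z, 0) : CP p × (Fin m → ℝ))‖ = S.lam g * ‖z‖ := by
      rw [Prod.norm_mk, norm_zero, S.norm_A, max_eq_left]
      exact mul_nonneg (S.lam_pos g).le (norm_nonneg _)
    have a2 := T.le_opNorm (S.A g z, 0)
    rw [a1] at a2
    refine lt_of_le_of_lt a2 ?_
    have a3 : ‖T‖ * (S.lam g * ‖z‖) = C * S.lam g := by
      simp only [C]
      ring
    rw [a3]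
    refine lt_of_le_of_lt (mul_le_mul_of_nonneg_left hg.le hC) ?_
    rw [← div_eq_mul_inv, div_lt_one (by positivity)]
    linarith
  have h0 : S.R g *ᵥ y = 0 := by
    funext i
    have a1 := lt_of_le_of_lt (norm_le_pi_norm (fun i => (((S.R g *ᵥ y) i : ℤ) : ℝ)) i) e4
    rw [Real.norm_eq_abs, ← Int.cast_abs] at a1
    exact Int.abs_lt_one_iff.mp (by exact_mod_cast a1)
  have h1 : S.R g⁻¹ *ᵥ (S.R g *ᵥ y) = y := by
    have := S.R_unit g⁻¹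
    rw [inv_inv] at this
    rw [Matrix.mulVec_mulVec, this, Matrix.one_mulVec]
  rw [← h1, h0, Matrix.mulVec_zero]

theorem eq_zero_of_small {a C : ℝ} (ha : 0 ≤ a) (hC : 0 ≤ C)
    (h : ∀ ε : ℝ, 0 < ε → ∃ l : ℝ, l < ε ∧ a ≤ C * l) : a = 0 := by
  by_contra hne
  have ha' : 0 < a := lt_of_le_of_ne ha (Ne.symm hne)
  obtain ⟨l, h1, h2⟩ := h (a / (C + 1)) (by positivity)
  have h3 : a ≤ C * (a / (C + 1)) := h2.trans (mul_le_mul_of_nonneg_left h1.le hC)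
  rw [← mul_div_assoc, le_div_iff₀ (by positivity)] at h3
  nlinarith

theorem Setting.no_hom1 (S : Setting n p m G) (hp : 0 < p) (hm : 0 < m) (hB : S.Bdd)
    (f : CP p →ₗ[ℝ] (Fin m → ℝ)) (hf : ∀ g z, f (S.A g z) = S.L g *ᵥ f z) : f = 0 := by
  obtain ⟨B, hB0, hsm⟩ := S.lam_small hm hB
  ext1 z
  rw [LinearMap.zero_apply, ← norm_eq_zero]
  let F : CP p →L[ℝ] (Fin m → ℝ) := LinearMap.toContinuousLinearMap f
  refine eq_zero_of_small (C := m * B * (‖F‖ * ‖z‖)) (norm_nonneg _) (by positivity)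
    fun ε hε => ?_
  obtain ⟨g, h1, h2⟩ := hsm ε hε
  refine ⟨S.lam g, h2, ?_⟩
  have e1 : S.L g⁻¹ *ᵥ f (S.A g z) = f z := by
    rw [hf, Matrix.mulVec_mulVec, ← map_mul, inv_mul_cancel, map_one, Matrix.one_mulVec]
  have e2 := bd_mulVec (S.L g⁻¹) hB0 h1 (f (S.A g z))
  rw [e1] at e2
  have e3 : ‖f (S.A g z)‖ ≤ ‖F‖ * (S.lam g * ‖z‖) := by
    rw [← S.norm_A]
    exact F.le_opNorm _
  calc ‖f z‖ ≤ m * B * ‖f (S.A g z)‖ := e2
    _ ≤ m * B * (‖F‖ * (S.lam g * ‖z‖)) := mul_le_mul_of_nonneg_left e3 (by positivity)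
    _ = m * B * (‖F‖ * ‖z‖) * S.lam g := by ring

theorem Setting.no_hom2 (S : Setting n p m G) (hp : 0 < p) (hm : 0 < m) (hB : S.Bdd)
    (f : (Fin m → ℝ) →ₗ[ℝ] CP p) (hf : ∀ g v, f (S.L g *ᵥ v) = S.A g (f v)) : f = 0 := by
  obtain ⟨B, hB0, hla⟩ := S.lam_large hp hm hB
  apply LinearMap.ext
  intro v
  rw [LinearMap.zero_apply, ← norm_eq_zero]
  let F : (Fin m → ℝ) →L[ℝ] CP p := LinearMap.toContinuousLinearMap f
  refine eq_zero_of_small (C := ‖F‖ * (m * B * ‖v‖)) (norm_nonneg _) (by positivity)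
    fun ε hε => ?_
  obtain ⟨g, h1, h2⟩ := hla ε⁻¹ (inv_pos.mpr hε)
  refine ⟨(S.lam g)⁻¹, (inv_lt_comm₀ hε (S.lam_pos g)).mp h2, ?_⟩
  have e1 : S.lam g * ‖f v‖ ≤ ‖F‖ * (m * B * ‖v‖) := by
    rw [← S.norm_A, ← hf]
    exact (F.le_opNorm _).trans
      (mul_le_mul_of_nonneg_left (bd_mulVec (S.L g) hB0 h1 v) (norm_nonneg _))
  rw [← div_eq_mul_inv, le_div_iff₀ (S.lam_pos g), mul_comm]
  exact e1

end TLK
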