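import Mathlib

/-!
# [TLK-L0] descent: solutions of linear systems with coefficients in a subfield

PROOF of `descent`. Let `V = Submodule.span k (Set.range x)`, a finite dimensional `k`-subspace of `F`, with `k`-basis
`e_1, …, e_r` (`Module.finBasis`), linearly independent over `k` in `F`. Write `x i = ∑_a c a i • e_a` with `c a i : k`. For `s ∈ S`:
`0 = ∑_i s i • x i = ∑_a (∑_i s i * c a i) • e_a`, so `∑_i s i * c a i = 0` for all `a`: the vector `c a` is a solution over `k`,
and `x = ∑_a e_a • (algebraMap ∘ c a)`.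

`descent_dense`: for `k = ℚ`, `F = ℝ`: by `descent` (`Submodule.mem_span…`) `x = ∑_a r_a z_a`, finite sum, `r_a : ℝ`,
`z_a` rational solutions; replace the `r_a` by close rational numbers.
`descent_zero`: if the only solution over `k` is `0` then the only solution over `F` is `0`.
-/

namespace TLK

theorem descent {k F : Type} [Field k] [Field F] [Algebra k F] {ι : Type} [Fintype ι]
    (S : Set (ι → k)) (x : ι → F) (hx : ∀ s ∈ S, ∑ i, algebraMap k F (s i) * x i = 0) :
    ∃ (r : ℕ) (e : Fin r → F) (c : Fin r → ι → k), (∀ a, ∀ s ∈ S, ∑ i, s i * c a i = 0) ∧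
      ∀ i, x i = ∑ a, e a * algebraMap k F (c a i) := by
  classical
  let V : Submodule k F := Submodule.span k (Set.range x)
  have : FiniteDimensional k V := FiniteDimensional.span_of_finite k (Set.finite_range x)
  let b := Module.finBasis k V
  have hxV : ∀ i, x i ∈ V := fun i => Submodule.subset_span ⟨i, rfl⟩
  refine ⟨Module.finrank k V, fun a => (b a : F), fun a i => b.repr ⟨x i, hxV i⟩ a, ?_, ?_⟩
  · intro a s hs
    have h1 : (∑ i, s i • (⟨x i, hxV i⟩ : V)) = 0 := by
      apply Subtype.ext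
      rw [Submodule.coe_sum]
      simp only [Submodule.coe_smul, Algebra.smul_def]
      exact hx s hs
    have h2 : b.repr (∑ i, s i • (⟨x i, hxV i⟩ : V)) a = 0 := by rw [h1]; simp
    rw [map_sum, Finsupp.finsetSum_apply] at h2
    simpa only [map_smul, Finsupp.smul_apply, smul_eq_mul] using h2
  · intro i
    have h1 := b.sum_repr ⟨x i, hxV i⟩
    have h2 := congrArg (fun v : V => (v : F)) h1
    simp only [Submodule.coe_sum, Submodule.coe_smul, Algebra.smul_def] at h2
    rw [← h2]
    exact Finset.sum_congr rfl (fun a _ => mul_comm _ _)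

theorem descent_zero {k F : Type} [Field k] [Field F] [Algebra k F] {ι : Type} [Fintype ι]
    (S : Set (ι → k)) (h0 : ∀ c : ι → k, (∀ s ∈ S, ∑ i, s i * c i = 0) → c = 0)
    (x : ι → F) (hx : ∀ s ∈ S, ∑ i, algebraMap k F (s i) * x i = 0) : x = 0 := by
  obtain ⟨r, e, c, hc, hxc⟩ := descent S x hx
  funext i
  rw [hxc i]
  refine Finset.sum_eq_zero (fun a _ => ?_)
  rw [h0 (c a) (hc a)]
  simp

theorem descent_dense {ι : Type} [Fintype ι] (S : Set (ι → ℚ)) (x : ι → ℝ)
    (hx : ∀ s ∈ S, ∑ i, (s i : ℝ) * x i = 0) {ε : ℝ} (hε : 0 < ε) :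
    ∃ c : ι → ℚ, (∀ s ∈ S, ∑ i, s i * c i = 0) ∧ ∀ i, |x i - c i| ≤ ε := by
  classical
  obtain ⟨r, e, c, hc, hxc⟩ := descent (k := ℚ) (F := ℝ) S x (by simpa using hx)
  let M : ℝ := 1 + ∑ a, ∑ i, |(c a i : ℝ)|
  have hM0 : 0 ≤ ∑ a, ∑ i, |(c a i : ℝ)| :=
    Finset.sum_nonneg (fun a _ => Finset.sum_nonneg (fun i _ => abs_nonneg _))
  have hM : 0 < M := by positivity
  have hδ : 0 < ε / M := div_pos hε hM
  have hq : ∀ a, ∃ q : ℚ, |e a - q| < ε / M := fun a => by
    obtain ⟨q, h1, h2⟩ := exists_rat_btwn (show e a - ε / M < e a by linarith)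
    refine ⟨q, ?_⟩
    rw [abs_lt]; constructor <;> linarith
  choose q hq using hq
  refine ⟨fun i => ∑ a, q a * c a i, ?_, ?_⟩
  · intro s hs
    simp only [Finset.mul_sum]
    rw [Finset.sum_comm]
    refine Finset.sum_eq_zero (fun a _ => ?_)
    have := hc a s hs
    calc ∑ i, s i * (q a * c a i) = q a * ∑ i, s i * c a i := by
          rw [Finset.mul_sum]; exact Finset.sum_congr rfl (fun i _ => by ring)
      _ = 0 := by rw [this, mul_zero]
  · intro i
    have h1 : x i - ((∑ a, q a * c a i : ℚ) : ℝ) = ∑ a, (e a - q a) * (c a i : ℝ) := by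
      rw [hxc i]
      push_cast
      rw [← Finset.sum_sub_distrib]
      refine Finset.sum_congr rfl (fun a _ => ?_)
      simp
      ring
    rw [h1]
    calc |∑ a, (e a - q a) * (c a i : ℝ)| ≤ ∑ a, |(e a - q a) * (c a i : ℝ)| :=
          Finset.abs_sum_le_sum_abs _ _
      _ ≤ ∑ a, (ε / M) * |(c a i : ℝ)| := by
          refine Finset.sum_le_sum (fun a _ => ?_)
          rw [abs_mul]
          exact mul_le_mul_of_nonneg_right (hq a).le (abs_nonneg _)
      _ = (ε / M) * ∑ a, |(c a i : ℝ)| := by rw [Finset.mul_sum]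
      _ ≤ (ε / M) * M := by
          refine mul_le_mul_of_nonneg_left ?_ hδ.le
          have : ∑ a, |(c a i : ℝ)| ≤ ∑ a, ∑ i, |(c a i : ℝ)| :=
            Finset.sum_le_sum (fun a _ =>
              Finset.single_le_sum (f := fun i => |(c a i : ℝ)|) (fun j _ => abs_nonneg _)
                (Finset.mem_univ i))
          show _ ≤ 1 + _
          linarith
      _ = ε := div_mul_cancel₀ _ hM.ne'

end TLK
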