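import Pool.Agent.TLK.A1
import Pool.Agent.TLK.L0

/-!
# [TLK-A3] the rational matrix `T` close to the complex structure of `ℂ^p`

PROOF. Let `X0 : Matrix (Fin n) (Fin n) ℝ` be the matrix of `x ↦ Θ⁻¹ (i (Θ x).1, 0)` (multiplication by `Complex.I` on `ℂ^p`, `0` on `ℝ^m`).
It commutes with all `R g` (`A g` is complex linear, `hΘ`). `X * R g = R g * X` for all `g` is a linear system for the entries of
`X` with integral coefficients. So by `descent_dense` (`ι = Fin n × Fin n`) there is for every `ε > 0` a rational matrix `T`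
commuting with all `R g` whose entries differ from those of `X0` by at most `ε`.
Let `TW = Θ ∘ T ∘ Θ⁻¹` with blocks `TP : ℂ^p → ℂ^p`, `T12 : ℝ^m → ℂ^p`, `T21 : ℂ^p → ℝ^m`, `TV : ℝ^m → ℝ^m` (real linear).
`TW` commutes with `(A g, L g)`: `T21 (A g z) = L g (T21 z)`, `T12 (L g v) = A g (T12 v)`: by `no_hom1`, `no_hom2`
`T21 = 0`, `T12 = 0`. And `TV L g = L g TV`. `TP` is close to multiplication by `i`: for small `ε`, `‖TP z - i z‖ ≤ (1/2) ‖z‖`. If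
`TP z = x • z` with `x` real then `‖x z - i z‖ = sqrt (1 + x²) ‖z‖ ≥ ‖z‖`, so `z = 0`.
-/

open scoped Matrix

namespace TLK

variable {n p m : ℕ} {G : Type} [Group G]

theorem comm_sum {F : Type} [CommRing F] (M X : Matrix (Fin n) (Fin n) F) (i j : Fin n) :
    ∑ ab : Fin n × Fin n, ((if ab.1 = i then M ab.2 j else 0) -
      (if ab.2 = j then M i ab.1 else 0)) * X ab.1 ab.2 = (X * M - M * X) i j := by
  rw [Fintype.sum_prod_type]
  simp only [sub_mul, Finset.sum_sub_distrib, ite_mul, zero_mul, Matrix.sub_apply,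
    Matrix.mul_apply]
  congr 1
  · rw [Finset.sum_comm]
    refine Finset.sum_congr rfl fun b _ => ?_
    rw [Finset.sum_ite_eq' Finset.univ i, if_pos (Finset.mem_univ i), mul_comm]
  · refine Finset.sum_congr rfl fun a _ => ?_
    rw [Finset.sum_ite_eq' Finset.univ j, if_pos (Finset.mem_univ j)]

theorem Setting.exists_T (S : Setting n p m G) (hp : 0 < p) (hm : 0 < m) (hB : S.Bdd) :
    ∃ (T : Matrix (Fin n) (Fin n) ℚ) (TP : CP p →ₗ[ℝ] CP p) (TV : Matrix (Fin m) (Fin m) ℝ),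
      S.TD T TP TV := by
  classical
  -- the matrix of the complex structure
  let J0 : (Fin n → ℝ) →ₗ[ℝ] (Fin n → ℝ) :=
    (S.Θ.symm : CP p × (Fin m → ℝ) →ₗ[ℝ] (Fin n → ℝ)) ∘ₗ
      (LinearMap.inl ℝ (CP p) (Fin m → ℝ)) ∘ₗ
      ((Complex.I • (LinearMap.id : CP p →ₗ[ℂ] CP p)).restrictScalars ℝ) ∘ₗ
      (LinearMap.fst ℝ (CP p) (Fin m → ℝ)) ∘ₗ
      (S.Θ : (Fin n → ℝ) →ₗ[ℝ] CP p × (Fin m → ℝ))
  have hJ0 : ∀ x, S.Θ (J0 x) = (Complex.I • (S.Θ x).1, 0) := fun x => by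
    simp [J0]
  let X0 : Matrix (Fin n) (Fin n) ℝ := LinearMap.toMatrix' J0
  have hX0 : ∀ x, X0 *ᵥ x = J0 x := fun x => LinearMap.toMatrix'_mulVec J0 x
  have hcomm : ∀ g, X0 * (S.R g).map (Int.cast : ℤ → ℝ) = (S.R g).map (Int.cast : ℤ → ℝ) * X0 := by
    intro g
    apply Matrix.ext_of_mulVec_single
    intro i
    rw [← Matrix.mulVec_mulVec, ← Matrix.mulVec_mulVec, hX0, hX0]
    apply S.Θ.injective
    rw [hJ0, S.hΘ, S.hΘ, hJ0]
    simp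
  -- the linear system
  let Sy : Set (Fin n × Fin n → ℚ) := {s | ∃ g i j, s = fun ab =>
    (if ab.1 = i then ((S.R g).map (Int.cast : ℤ → ℚ)) ab.2 j else 0) -
      (if ab.2 = j then ((S.R g).map (Int.cast : ℤ → ℚ)) i ab.1 else 0)}
  let Th : (Fin n → ℝ) →L[ℝ] CP p × (Fin m → ℝ) :=
    LinearMap.toContinuousLinearMap (S.Θ : (Fin n → ℝ) →ₗ[ℝ] CP p × (Fin m → ℝ))
  let Ti : CP p × (Fin m → ℝ) →L[ℝ] (Fin n → ℝ) :=
    LinearMap.toContinuousLinearMap (S.Θ.symm : CP p × (Fin m → ℝ) →ₗ[ℝ] (Fin n → ℝ))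
  let C : ℝ := ‖Th‖ * (n * ‖Ti‖)
  have hC : 0 ≤ C := by positivity
  have hε : 0 < (2 * (C + 1))⁻¹ := by positivity
  obtain ⟨c, hc1, hc2⟩ := descent_dense Sy (fun ab => X0 ab.1 ab.2) (by
    rintro s ⟨g, i, j, rfl⟩
    have h1 := comm_sum ((S.R g).map (Int.cast : ℤ → ℝ)) X0 i j
    rw [hcomm g, sub_self, Matrix.zero_apply] at h1
    rw [← h1]
    refine Finset.sum_congr rfl fun ab _ => ?_
    congr 1
    simp only [Matrix.map_apply]
    split_ifs <;> push_cast <;> rfl) hε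
  let T : Matrix (Fin n) (Fin n) ℚ := Matrix.of fun a b => c (a, b)
  have hT : ∀ g, T * (S.R g).map (Int.cast : ℤ → ℚ) = (S.R g).map (Int.cast : ℤ → ℚ) * T := by
    intro g
    rw [← sub_eq_zero]
    ext i j
    rw [← comm_sum]
    exact hc1 _ ⟨g, i, j, rfl⟩
  have hTR : ∀ g, T.map (Rat.cast : ℚ → ℝ) * (S.R g).map (Int.cast : ℤ → ℝ)
      = (S.R g).map (Int.cast : ℤ → ℝ) * T.map (Rat.cast : ℚ → ℝ) := by
    intro g
    have h1 := congrArg (fun M => M.map (Rat.castHom ℝ)) (hT g)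
    simp only [Matrix.map_mul, Matrix.map_map] at h1
    have h2 : (⇑(Rat.castHom ℝ) ∘ (Int.cast : ℤ → ℚ)) = (Int.cast : ℤ → ℝ) := by
      funext k
      simp
    rw [h2] at h1
    exact h1
  let TW : CP p × (Fin m → ℝ) →ₗ[ℝ] CP p × (Fin m → ℝ) :=
    (S.Θ : (Fin n → ℝ) →ₗ[ℝ] CP p × (Fin m → ℝ)) ∘ₗ (T.map (Rat.cast : ℚ → ℝ)).mulVecLin ∘ₗ
      (S.Θ.symm : CP p × (Fin m → ℝ) →ₗ[ℝ] (Fin n → ℝ))
  have hTW : ∀ x, S.Θ (T.map (Rat.cast : ℚ → ℝ) *ᵥ x) = TW (S.Θ x) := fun x => by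
    simp [TW]
  have hTWc : ∀ g z v, TW (S.A g z, S.L g *ᵥ v) = (S.A g (TW (z, v)).1, S.L g *ᵥ (TW (z, v)).2) := by
    intro g z v
    obtain ⟨x, hx⟩ := S.Θ.surjective (z, v)
    have h1 : S.Θ ((S.R g).map (Int.cast : ℤ → ℝ) *ᵥ x) = (S.A g z, S.L g *ᵥ v) := by
      rw [S.hΘ, hx]
    rw [← h1, ← hTW, Matrix.mulVec_mulVec, hTR, ← Matrix.mulVec_mulVec, S.hΘ, hTW, hx]
  let TP : CP p →ₗ[ℝ] CP p := LinearMap.fst ℝ _ _ ∘ₗ TW ∘ₗ LinearMap.inl ℝ (CP p) (Fin m → ℝ)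
  let T21 : CP p →ₗ[ℝ] (Fin m → ℝ) :=
    LinearMap.snd ℝ _ _ ∘ₗ TW ∘ₗ LinearMap.inl ℝ (CP p) (Fin m → ℝ)
  let T12 : (Fin m → ℝ) →ₗ[ℝ] CP p :=
    LinearMap.fst ℝ _ _ ∘ₗ TW ∘ₗ LinearMap.inr ℝ (CP p) (Fin m → ℝ)
  let TVl : (Fin m → ℝ) →ₗ[ℝ] (Fin m → ℝ) :=
    LinearMap.snd ℝ _ _ ∘ₗ TW ∘ₗ LinearMap.inr ℝ (CP p) (Fin m → ℝ)
  have h21 : T21 = 0 := by
    refine S.no_hom1 hp hm hB T21 fun g z => ?_
    have h1 := hTWc g z 0
    rw [Matrix.mulVec_zero] at h1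
    exact congrArg Prod.snd h1
  have h12 : T12 = 0 := by
    refine S.no_hom2 hp hm hB T12 fun g v => ?_
    have h1 := hTWc g 0 v
    rw [map_zero] at h1
    exact congrArg Prod.fst h1
  have hTV : ∀ v, (LinearMap.toMatrix' TVl) *ᵥ v = TVl v := fun v =>
    LinearMap.toMatrix'_mulVec TVl v
  refine ⟨T, TP, LinearMap.toMatrix' TVl, ?_, ?_, ?_, ?_⟩
  · exact hT
  · intro x
    rw [hTW, hTV]
    have h1 : S.Θ x = ((S.Θ x).1, 0) + (0, (S.Θ x).2) := by simp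
    have h2 : TW (S.Θ x) = TW ((S.Θ x).1, 0) + TW (0, (S.Θ x).2) := by
      conv_lhs => rw [h1]
      rw [map_add]
    rw [h2]
    have h3 : (TW ((S.Θ x).1, 0)).2 = 0 := DFunLike.congr_fun h21 (S.Θ x).1
    have h4 : (TW (0, (S.Θ x).2)).1 = 0 := DFunLike.congr_fun h12 (S.Θ x).2
    ext1
    · rw [Prod.fst_add, h4, add_zero]
      rfl
    · rw [Prod.snd_add, h3, zero_add]
      rfl
  · intro x z hz
    have h1 : ‖TP z - Complex.I • z‖ ≤ 1 / 2 * ‖z‖ := by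
      let w := S.Θ.symm (z, (0 : Fin m → ℝ))
      have hw : S.Θ w = (z, 0) := S.Θ.apply_symm_apply _
      have e1 : TP z - Complex.I • z = (Th ((T.map (Rat.cast : ℚ → ℝ) - X0) *ᵥ w)).1 := by
        have e2 : Th ((T.map (Rat.cast : ℚ → ℝ) - X0) *ᵥ w)
            = S.Θ ((T.map (Rat.cast : ℚ → ℝ) - X0) *ᵥ w) := rfl
        rw [e2, Matrix.sub_mulVec, map_sub, hX0, hJ0, hTW, hw]
        rfl
      rw [e1]
      have e3 : ‖(T.map (Rat.cast : ℚ → ℝ) - X0) *ᵥ w‖ ≤ n * (2 * (C + 1))⁻¹ * ‖w‖ := by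
        refine bd_mulVec _ hε.le (fun i j => ?_) w
        rw [Matrix.sub_apply, abs_sub_comm]
        exact hc2 (i, j)
      have e4 : ‖w‖ ≤ ‖Ti‖ * ‖z‖ := by
        have := Ti.le_opNorm (z, 0)
        rw [Prod.norm_mk, norm_zero, max_eq_left (norm_nonneg _)] at this
        exact this
      calc ‖(Th ((T.map (Rat.cast : ℚ → ℝ) - X0) *ᵥ w)).1‖
          ≤ ‖Th ((T.map (Rat.cast : ℚ → ℝ) - X0) *ᵥ w)‖ := norm_fst_le _
        _ ≤ ‖Th‖ * ‖(T.map (Rat.cast : ℚ → ℝ) - X0) *ᵥ w‖ := Th.le_opNorm _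
        _ ≤ ‖Th‖ * (n * (2 * (C + 1))⁻¹ * (‖Ti‖ * ‖z‖)) := by
            refine mul_le_mul_of_nonneg_left (e3.trans ?_) (norm_nonneg _)
            exact mul_le_mul_of_nonneg_left e4 (by positivity)
        _ = C * (2 * (C + 1))⁻¹ * ‖z‖ := by
            simp only [C]
            ring
        _ ≤ 1 / 2 * ‖z‖ := by
            refine mul_le_mul_of_nonneg_right ?_ (norm_nonneg _)
            rw [← div_eq_mul_inv, div_le_iff₀ (by positivity)]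
            linarith
    have h2 : TP z - Complex.I • z = ((x : ℂ) - Complex.I) • z := by
      rw [hz, sub_smul]
      rfl
    rw [h2, norm_smul] at h1
    have h3 : 1 ≤ ‖(x : ℂ) - Complex.I‖ := by
      have := Complex.abs_im_le_norm ((x : ℂ) - Complex.I)
      simpa using this
    have h4 : ‖z‖ ≤ 1 / 2 * ‖z‖ := (le_mul_of_one_le_left (norm_nonneg _) h3).trans h1
    have h5 : ‖z‖ = 0 := by
      have := norm_nonneg z
      linarith
    exact norm_eq_zero.mp h5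
  · intro g
    apply Matrix.ext_of_mulVec_single
    intro i
    rw [← Matrix.mulVec_mulVec, ← Matrix.mulVec_mulVec, hTV, hTV]
    have h1 := hTWc g 0 (Pi.single i 1)
    rw [map_zero] at h1
    exact congrArg Prod.snd h1

end TLK
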