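import Pool.Agent.TLK.A1

/-!
# [TLK-A5] every real eigenvalue of `T` has a nonreal conjugate

PROOF of `exists_conj`. `TV v = t • v`, `v ≠ 0`, so `x = Θ⁻¹ (0, v) ≠ 0` satisfies `T x = t x` in `ℝ^n`: `t` is a root of the characteristic
polynomial of the rational matrix `T`, hence algebraic; `q = minpoly ℚ (t : ℂ)`. Suppose all complex roots of `q` are real: over `ℝ`
`q = ∏ (X - r)` (splits, all roots real). Let `Q = aeval T q`, a rational matrix. On `ℂ^p`: `∏ (TP - r)` is injective (`TD.noreal`),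
hence bijective (finite dimension): for every `z : CP p` there is `z'` with `Q (Θ⁻¹ (z', 0)) = Θ⁻¹ (z, 0)`. (`Θ ∘ T^k = (TP^k, TV^k) ∘ Θ`.)
If `Q` is not invertible there is a rational row vector `ξ ≠ 0` with `ξ ᵥ* Q = 0` (`Matrix.exists_vecMul_eq_zero_iff`); then
`∑ ξ_i x_i = 0` for all `x` with `(Θ x).2 = 0` (`x = Q x'`), so `ξ = 0` by `no_functional`: contradiction. So `Q` is invertible over `ℚ`, hence over
`ℝ`; but `Q x = q(t) x = 0` for the eigenvector `x ≠ 0`: contradiction.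
-/

open scoped Matrix

namespace TLK

variable {n p m : ℕ} {G : Type} [Group G]

theorem pow_mulVec_eigen {k : ℕ} {K : Type} [Field K] (M : Matrix (Fin k) (Fin k) K)
    {x : Fin k → K} {t : K} (h : M *ᵥ x = t • x) (e : ℕ) : (M ^ e) *ᵥ x = t ^ e • x := by
  induction e with
  | zero => rw [pow_zero, pow_zero, Matrix.one_mulVec, one_smul]
  | succ e ih =>
    rw [pow_succ', ← Matrix.mulVec_mulVec, ih, Matrix.mulVec_smul, h, smul_smul, ← pow_succ]

theorem aeval_mulVec_eigen {k : ℕ} {K : Type} [Field K] (M : Matrix (Fin k) (Fin k) K)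
    {x : Fin k → K} {t : K} (h : M *ᵥ x = t • x) (q : Polynomial K) :
    (Polynomial.aeval M q) *ᵥ x = q.eval t • x := by
  induction q using Polynomial.induction_on' with
  | add a b ha hb => rw [map_add, Matrix.add_mulVec, ha, hb, Polynomial.eval_add, add_smul]
  | monomial e a =>
    rw [Polynomial.aeval_monomial, Polynomial.eval_monomial, Algebra.algebraMap_eq_smul_one,
      Matrix.smul_mul, one_mul, Matrix.smul_mulVec, pow_mulVec_eigen M h, smul_smul]

theorem map_aeval_rat {k : ℕ} (T : Matrix (Fin k) (Fin k) ℚ) (q : Polynomial ℚ) :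
    (Polynomial.aeval T q).map (Rat.cast : ℚ → ℝ)
      = Polynomial.aeval (T.map (Rat.cast : ℚ → ℝ)) (q.map (algebraMap ℚ ℝ)) := by
  have h1 : (Polynomial.aeval T q).map (Rat.cast : ℚ → ℝ)
      = (Rat.castHom ℝ).mapMatrix (Polynomial.aeval T q) := rfl
  rw [h1, Polynomial.aeval_def, Polynomial.hom_eval₂, Polynomial.aeval_def, Polynomial.eval₂_map]
  congr 1
  exact Subsingleton.elim _ _

theorem Setting.TD.pow_eq {S : Setting n p m G}
    {T : Matrix (Fin n) (Fin n) ℚ} {TP : CP p →ₗ[ℝ] CP p} {TV : Matrix (Fin m) (Fin m) ℝ}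
    (hT : S.TD T TP TV) (e : ℕ) (x : Fin n → ℝ) (hx : (S.Θ x).2 = 0) :
    S.Θ ((T.map (Rat.cast : ℚ → ℝ)) ^ e *ᵥ x) = ((TP ^ e) (S.Θ x).1, 0) := by
  induction e with
  | zero =>
    rw [pow_zero, pow_zero, Matrix.one_mulVec, Module.End.one_apply, ← hx]
  | succ e ih =>
    rw [pow_succ', ← Matrix.mulVec_mulVec, hT.eq, ih, pow_succ', Module.End.mul_apply]
    simp only [Matrix.mulVec_zero]

theorem Setting.TD.aeval_eq {S : Setting n p m G}
    {T : Matrix (Fin n) (Fin n) ℚ} {TP : CP p →ₗ[ℝ] CP p} {TV : Matrix (Fin m) (Fin m) ℝ}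
    (hT : S.TD T TP TV) (q : Polynomial ℝ) (x : Fin n → ℝ) (hx : (S.Θ x).2 = 0) :
    S.Θ (Polynomial.aeval (T.map (Rat.cast : ℚ → ℝ)) q *ᵥ x)
      = (Polynomial.aeval TP q (S.Θ x).1, 0) := by
  induction q using Polynomial.induction_on' with
  | add a b ha hb =>
    rw [map_add, Matrix.add_mulVec, map_add, ha, hb, map_add, LinearMap.add_apply, Prod.mk_add_mk,
      add_zero]
  | monomial e a =>
    rw [Polynomial.aeval_monomial, Polynomial.aeval_monomial, Algebra.algebraMap_eq_smul_one,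
      Algebra.algebraMap_eq_smul_one,
      Matrix.smul_mul, one_mul, Matrix.smul_mulVec, map_smul, hT.pow_eq e x hx, smul_mul_assoc,
      one_mul, LinearMap.smul_apply, Prod.smul_mk, smul_zero]

theorem Setting.TD.injective_prod {S : Setting n p m G}
    {T : Matrix (Fin n) (Fin n) ℚ} {TP : CP p →ₗ[ℝ] CP p} {TV : Matrix (Fin m) (Fin m) ℝ}
    (hT : S.TD T TP TV) (s : Multiset ℝ) :
    Function.Injective (Polynomial.aeval TP (s.map fun a => Polynomial.X - Polynomial.C a).prod) := by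
  induction s using Multiset.induction_on with
  | empty =>
    rw [Multiset.map_zero, Multiset.prod_zero, map_one]
    exact fun a b h => h
  | cons a s ih =>
    rw [Multiset.map_cons, Multiset.prod_cons, map_mul]
    refine Function.Injective.comp (g := Polynomial.aeval TP (Polynomial.X - Polynomial.C a)) ?_ ih
    rw [map_sub, Polynomial.aeval_X, Polynomial.aeval_C, injective_iff_map_eq_zero]
    intro z hz
    rw [LinearMap.sub_apply, Module.algebraMap_end_apply, sub_eq_zero] at hz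
    exact hT.noreal a z hz

theorem real_roots_prod (q : Polynomial ℚ) (hq : q.Monic)
    (h : ∀ z : ℂ, Polynomial.aeval z q = 0 → z.im = 0) :
    ∃ s : Multiset ℝ, q.map (algebraMap ℚ ℝ) = (s.map fun a => Polynomial.X - Polynomial.C a).prod := by
  classical
  refine ⟨(q.map (algebraMap ℚ ℂ)).roots.map Complex.re, ?_⟩
  apply Polynomial.map_injective (algebraMap ℝ ℂ) (algebraMap ℝ ℂ).injective
  rw [Polynomial.map_map, Polynomial.map_multiset_prod, Multiset.map_map, Multiset.map_map]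
  have h1 : (algebraMap ℝ ℂ).comp (algebraMap ℚ ℝ) = algebraMap ℚ ℂ := Subsingleton.elim _ _
  rw [h1]
  have h2 : q.map (algebraMap ℚ ℂ)
      = ((q.map (algebraMap ℚ ℂ)).roots.map fun a => Polynomial.X - Polynomial.C a).prod :=
    (IsAlgClosed.splits (q.map (algebraMap ℚ ℂ))).eq_prod_roots_of_monic (hq.map _)
  conv_lhs => rw [h2]
  congr 1
  refine Multiset.map_congr rfl fun a ha => ?_
  have h3 : Polynomial.aeval a q = 0 := by
    have := (Polynomial.mem_roots (hq.map _).ne_zero).mp ha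
    rw [Polynomial.IsRoot.def, Polynomial.eval_map_algebraMap] at this
    exact this
  have h4 : ((a.re : ℝ) : ℂ) = a := Complex.ext rfl (by simpa using (h a h3).symm)
  simp [h4]

theorem Setting.exists_conj (S : Setting n p m G) (hB : S.Bdd)
    {T : Matrix (Fin n) (Fin n) ℚ} {TP : CP p →ₗ[ℝ] CP p} {TV : Matrix (Fin m) (Fin m) ℝ}
    (hT : S.TD T TP TV) {t : ℝ} {v : Fin m → ℝ} (hv : v ≠ 0) (htv : TV *ᵥ v = t • v) :
    IsIntegral ℚ (t : ℂ) ∧
      ∃ z : ℂ, z.im ≠ 0 ∧ Polynomial.aeval z (minpoly ℚ (t : ℂ)) = 0 := by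
  classical
  let x := S.Θ.symm ((0 : CP p), v)
  have hx : S.Θ x = (0, v) := S.Θ.apply_symm_apply _
  have hx0 : x ≠ 0 := fun h => hv (by
    rw [h, map_zero] at hx
    exact (congrArg Prod.snd hx).symm)
  have hTx : T.map (Rat.cast : ℚ → ℝ) *ᵥ x = t • x := by
    apply S.Θ.injective
    rw [hT.eq, map_smul, hx, map_zero, htv, Prod.smul_mk, smul_zero]
  have hint : IsIntegral ℚ t := by
    refine ⟨T.charpoly, T.charpoly_monic, ?_⟩
    have h1 := map_aeval_rat T T.charpoly
    rw [Matrix.aeval_self_charpoly, Matrix.map_zero _ Rat.cast_zero] at h1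
    have h2 := aeval_mulVec_eigen (T.map (Rat.cast : ℚ → ℝ)) hTx (T.charpoly.map (algebraMap ℚ ℝ))
    rw [← h1, Matrix.zero_mulVec, eq_comm, smul_eq_zero, Polynomial.eval_map] at h2
    exact h2.resolve_right hx0
  have hint' : IsIntegral ℚ (t : ℂ) := hint.algebraMap (B := ℂ)
  refine ⟨hint', ?_⟩
  by_contra hcon
  have hall : ∀ z : ℂ, Polynomial.aeval z (minpoly ℚ (t : ℂ)) = 0 → z.im = 0 := by
    intro z hz
    by_contra hne
    exact hcon ⟨z, hne, hz⟩
  obtain ⟨s, hs⟩ := real_roots_prod _ (minpoly.monic hint') hall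
  have hinj := hT.injective_prod s
  rw [← hs] at hinj
  have hsurj := (LinearMap.injective_iff_surjective (f := Polynomial.aeval TP
    ((minpoly ℚ (t : ℂ)).map (algebraMap ℚ ℝ)))).mp hinj
  have hmap := map_aeval_rat T (minpoly ℚ (t : ℂ))
  -- the rational matrix is invertible
  have hdet : (Polynomial.aeval T (minpoly ℚ (t : ℂ))).det ≠ 0 := by
    intro h0
    obtain ⟨ξ, hξ0, hξ⟩ := Matrix.exists_vecMul_eq_zero_iff.mpr h0
    apply hξ0
    refine S.no_functional hB ξ fun y hy => ?_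
    obtain ⟨z', hz'⟩ := hsurj (S.Θ y).1
    let y' := S.Θ.symm (z', (0 : Fin m → ℝ))
    have hy' : S.Θ y' = (z', 0) := S.Θ.apply_symm_apply _
    have e1 := hT.aeval_eq ((minpoly ℚ (t : ℂ)).map (algebraMap ℚ ℝ)) y' (by rw [hy'])
    rw [hy'] at e1
    have e2 : Polynomial.aeval (T.map (Rat.cast : ℚ → ℝ))
        ((minpoly ℚ (t : ℂ)).map (algebraMap ℚ ℝ)) *ᵥ y' = y := by
      apply S.Θ.injective
      rw [e1, hz', ← hy]
    rw [← e2, ← hmap]
    change (fun i => (ξ i : ℝ)) ⬝ᵥ _ = 0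
    rw [Matrix.dotProduct_mulVec]
    have e3 : (fun i => (ξ i : ℝ)) ᵥ* (Polynomial.aeval T (minpoly ℚ (t : ℂ))).map
        (Rat.cast : ℚ → ℝ) = 0 := by
      funext j
      have := congrArg (Rat.cast : ℚ → ℝ) (congrFun hξ j)
      simp only [Matrix.vecMul, dotProduct, Rat.cast_sum, Rat.cast_mul, Pi.zero_apply,
        Rat.cast_zero] at this
      simp only [Matrix.vecMul, dotProduct, Matrix.map_apply, Pi.zero_apply]
      exact this
    rw [e3, zero_dotProduct]
  have hdetR : (Polynomial.aeval (T.map (Rat.cast : ℚ → ℝ))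
      ((minpoly ℚ (t : ℂ)).map (algebraMap ℚ ℝ))).det = 0 := by
    refine Matrix.exists_mulVec_eq_zero_iff.mp ⟨x, hx0, ?_⟩
    rw [aeval_mulVec_eigen _ hTx]
    have e1 : Polynomial.aeval t (minpoly ℚ (t : ℂ)) = 0 := by
      have e2 := Polynomial.aeval_algebraMap_apply ℂ t (minpoly ℚ (t : ℂ))
      have e3 : Polynomial.aeval (algebraMap ℝ ℂ t) (minpoly ℚ (t : ℂ)) = 0 :=
        minpoly.aeval ℚ (t : ℂ)
      rw [e3, eq_comm] at e2
      exact (map_eq_zero _).mp e2
    rw [Polynomial.eval_map_algebraMap, e1, zero_smul]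
  rw [← hmap] at hdetR
  have h5 : ((Polynomial.aeval T (minpoly ℚ (t : ℂ))).map (Rat.cast : ℚ → ℝ)).det
      = (((Polynomial.aeval T (minpoly ℚ (t : ℂ))).det : ℚ) : ℝ) :=
    ((Rat.castHom ℝ).map_det _).symm
  rw [h5] at hdetR
  exact hdet (Rat.cast_eq_zero.mp hdetR)

end TLK
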