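import Pool.Agent.TLK.A0
import Pool.Agent.TLK.L0

/-!
# [TLK-A6a] rational invariant bilinear forms

PROOF. Let `X0 : Matrix (Fin n) (Fin n) ℝ` be the matrix of the real bilinear form `b(x, y) = Re ⟪(Θ x).1, (Θ y).1⟫_ℂ`
(`X0 i j = b(e_i, e_j)`). For `g` with `lam g = 1` the map `A g` is a complex linear isometry, so `b(R g x, R g y) = b(x, y)`, i.e.
`(R g)ᵀ X0 (R g) = X0`. This is a linear system for the entries of `X0` with integral coefficients (for all `g` with
`lam g = 1`). By `descent` (`k = ℚ`, `F = ℝ`, `ι = Fin n × Fin n`): `X0 = ∑_l r_l B_l` with rational solutions `B_l`.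
-/

open scoped Matrix

namespace TLK

variable {n p m : ℕ} {G : Type} [Group G]

theorem form_sum {F : Type} [CommRing F] (M X : Matrix (Fin n) (Fin n) F) (i j : Fin n) :
    ∑ ab : Fin n × Fin n, (M ab.1 i * M ab.2 j -
      (if ab.1 = i then (if ab.2 = j then 1 else 0) else 0)) * X ab.1 ab.2
      = (Mᵀ * X * M - X) i j := by
  rw [Fintype.sum_prod_type]
  simp only [sub_mul, Finset.sum_sub_distrib, ite_mul, zero_mul, one_mul, Matrix.sub_apply,
    Matrix.mul_apply, Matrix.transpose_apply]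
  congr 1
  · rw [Finset.sum_comm]
    refine Finset.sum_congr rfl fun b _ => ?_
    rw [Finset.sum_mul]
    refine Finset.sum_congr rfl fun a _ => ?_
    ring
  · simp

theorem Setting.exists_forms (S : Setting n p m G) :
    ∃ (N : ℕ) (r : Fin N → ℝ) (B : Fin N → Matrix (Fin n) (Fin n) ℚ),
      (∀ l g, S.lam g = 1 → ((S.R g).map (Int.cast : ℤ → ℚ))ᵀ * B l * (S.R g).map (Int.cast : ℤ → ℚ) = B l) ∧
      ∀ x y : Fin n → ℝ, ∑ l, r l * (x ⬝ᵥ ((B l).map (Rat.cast : ℚ → ℝ) *ᵥ y)) =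
        (inner ℂ (S.Θ x).1 (S.Θ y).1).re := by
  classical
  let b : (Fin n → ℝ) →ₗ[ℝ] (Fin n → ℝ) →ₗ[ℝ] ℝ :=
    LinearMap.mk₂ ℝ (fun x y => (inner ℂ (S.Θ x).1 (S.Θ y).1).re)
      (fun x x' y => by rw [map_add, Prod.fst_add, inner_add_left, Complex.add_re])
      (fun c x y => by
        rw [map_smul, Prod.smul_fst, RCLike.real_smul_eq_coe_smul (K := ℂ), inner_smul_left]
        simp)
      (fun x y y' => by rw [map_add, Prod.fst_add, inner_add_right, Complex.add_re])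
      (fun c x y => by
        rw [map_smul, Prod.smul_fst, RCLike.real_smul_eq_coe_smul (K := ℂ), inner_smul_right]
        simp)
  have hb : ∀ x y, b x y = (inner ℂ (S.Θ x).1 (S.Θ y).1).re := fun x y => rfl
  let X0 : Matrix (Fin n) (Fin n) ℝ := LinearMap.toMatrix₂' ℝ b
  have hX0 : ∀ x y, x ⬝ᵥ (X0 *ᵥ y) = b x y := fun x y => by
    rw [← Matrix.toLinearMap₂'_apply', Matrix.toLinearMap₂'_toMatrix']
  have hinv : ∀ g, S.lam g = 1 → ((S.R g).map (Int.cast : ℤ → ℝ))ᵀ * X0 *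
      (S.R g).map (Int.cast : ℤ → ℝ) = X0 := by
    intro g hg
    have h1 : ∀ z w : CP p, inner ℂ (S.A g z) (S.A g w) = inner ℂ z w := by
      have h2 : ∀ z, ‖S.A g z‖ = ‖z‖ := fun z => by rw [S.norm_A, hg, one_mul]
      let li : CP p →ₗᵢ[ℂ] CP p := ⟨S.A g, h2⟩
      exact fun z w => li.inner_map_map z w
    have h3 : ∀ x y, x ⬝ᵥ ((((S.R g).map (Int.cast : ℤ → ℝ))ᵀ * X0 *
        (S.R g).map (Int.cast : ℤ → ℝ)) *ᵥ y) = x ⬝ᵥ (X0 *ᵥ y) := by
      intro x y
      rw [← Matrix.mulVec_mulVec, ← Matrix.mulVec_mulVec, Matrix.dotProduct_mulVec,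
        Matrix.vecMul_transpose, hX0, hX0, hb, hb, S.hΘ, S.hΘ]
      simp only [h1]
    ext i j
    have := h3 (Pi.single i 1) (Pi.single j 1)
    simpa using this
  let Sy : Set (Fin n × Fin n → ℚ) := {s | ∃ g i j, S.lam g = 1 ∧ s = fun ab =>
    ((S.R g).map (Int.cast : ℤ → ℚ)) ab.1 i * ((S.R g).map (Int.cast : ℤ → ℚ)) ab.2 j -
      (if ab.1 = i then (if ab.2 = j then 1 else 0) else 0)}
  obtain ⟨N, r, c, hc, hx⟩ := descent (k := ℚ) (F := ℝ) Sy (fun ab => X0 ab.1 ab.2) (by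
    rintro s ⟨g, i, j, hg, rfl⟩
    have h1 := form_sum ((S.R g).map (Int.cast : ℤ → ℝ)) X0 i j
    rw [hinv g hg, sub_self, Matrix.zero_apply] at h1
    rw [← h1]
    refine Finset.sum_congr rfl fun ab _ => ?_
    congr 1
    simp only [Matrix.map_apply, eq_ratCast]
    split_ifs <;> push_cast <;> rfl)
  refine ⟨N, r, fun l => Matrix.of fun a b => c l (a, b), fun l g hg => ?_, fun x y => ?_⟩
  · rw [← sub_eq_zero]
    ext i j
    rw [← form_sum]
    exact hc l _ ⟨g, i, j, hg, rfl⟩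
  · rw [← hb, ← hX0]
    have h1 : X0 = ∑ l, r l • (Matrix.of fun a b => c l (a, b)).map (Rat.cast : ℚ → ℝ) := by
      ext i j
      rw [Matrix.sum_apply]
      have := hx (i, j)
      simp only [eq_ratCast] at this
      rw [this]
      refine Finset.sum_congr rfl fun l _ => ?_
      rw [Matrix.smul_apply, Matrix.map_apply, smul_eq_mul, Matrix.of_apply]
    rw [h1, Matrix.sum_mulVec, dotProduct_sum]
    refine Finset.sum_congr rfl fun l _ => ?_
    rw [Matrix.smul_mulVec, dotProduct_smul, smul_eq_mul]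

end TLK
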