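import Pool.Agent.TLK.L0

/-!
# [TLK-A6b] the Galois argument for rational bilinear forms (pure algebra)

`T`, `B_l` rational matrices, `t` algebraic, `z` a nonreal conjugate of `t` over `ℚ`.
Assumption `hpos`: if `x ∈ ℂ^n`, `T x = z x` and `x ⬝ B_l x̄ = 0` for all `l`, then `x = 0`.
Conclusion: there is a conjugate `s ≠ t` of `t` such that no `x ≠ 0` in `ker (T - t)` is orthogonal to `ker (T - s)` for all `B_l`.

PROOF. `Ā = algebraicClosure ℚ ℂ` (an `IntermediateField ℚ ℂ`, algebraically closed, normal over `ℚ`); it is stable under complex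
conjugation. `t, z ∈ Ā` are roots of the irreducible polynomial `minpoly ℚ t`; so there is `f : Ā ≃ₐ[ℚ] Ā` with `f z = t`
(`IsConjRoot`, `isConjRoot_iff_exists_algEquiv`, or `IntermediateField` lifts). Put `s = f (conj z)`: a root of `minpoly ℚ t`, and
`s ≠ t` because `conj z ≠ z` and `f` is injective.
Let first `x ∈ Ā^n`, `T x = t x`, `x ⬝ B_l y = 0` for all `l` and all `y ∈ Ā^n` with `T y = s y`. Put `x' = f⁻¹ x` (entrywise): `T x' = z x'` (`T` is rational).
`conj x' ∈ Ā^n` satisfies `T (conj x') = conj z • conj x'`, so `y = f (conj x')` satisfies `T y = s y`. So `0 = x ⬝ B_l y = f (x' ⬝ B_l conj x')`, so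
`x' ⬝ B_l conj x' = 0` for all `l`; `hpos` gives `x' = 0`, `x = 0`.
Now `x ∈ ℂ^n`: the conditions `T x = t x` and `x ⬝ B_l y = 0` (for `y ∈ Ā^n`, `T y = s y`) are linear equations for `x` with coefficients in `Ā`
without nonzero solution over `Ā`; by `descent_zero` (`k = Ā`, `F = ℂ`) `x = 0`.
-/

open scoped Matrix

namespace TLK

theorem galois_forms {n : ℕ} {N : ℕ} (T : Matrix (Fin n) (Fin n) ℚ)
    (B : Fin N → Matrix (Fin n) (Fin n) ℚ) {t z : ℂ} (ht : IsIntegral ℚ t)
    (hz : Polynomial.aeval z (minpoly ℚ t) = 0) (him : z.im ≠ 0)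
    (hpos : ∀ x : Fin n → ℂ, T.map (Rat.cast : ℚ → ℂ) *ᵥ x = z • x →
      (∀ l, x ⬝ᵥ ((B l).map (Rat.cast : ℚ → ℂ) *ᵥ (fun i => (starRingEnd ℂ) (x i))) = 0) → x = 0) :
    ∃ s : ℂ, s ≠ t ∧ Polynomial.aeval s (minpoly ℚ t) = 0 ∧
      ∀ x : Fin n → ℂ, T.map (Rat.cast : ℚ → ℂ) *ᵥ x = t • x →
        (∀ l, ∀ y : Fin n → ℂ, T.map (Rat.cast : ℚ → ℂ) *ᵥ y = s • y →
          x ⬝ᵥ ((B l).map (Rat.cast : ℚ → ℂ) *ᵥ y) = 0) → x = 0 := by
  classical
  let A := algebraicClosure ℚ ℂ
  have iA : IsAlgClosure ℚ A := algebraicClosure.isAlgClosure ℚ ℂ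
  have iN : Normal ℚ A := IsAlgClosure.normal ℚ A
  have htA : t ∈ A := mem_algebraicClosure_iff.2 ht.isAlgebraic
  have hzA : z ∈ A := mem_algebraicClosure_iff.2 ⟨minpoly ℚ t, minpoly.ne_zero ht, hz⟩
  let t' : A := ⟨t, htA⟩
  let z' : A := ⟨z, hzA⟩
  have hmt : minpoly ℚ t' = minpoly ℚ t :=
    (minpoly.algebraMap_eq (A := ℚ) (B := A) (B' := ℂ) (algebraMap A ℂ).injective t').symm
  have hmz : minpoly ℚ z' = minpoly ℚ t := by
    have h1 : minpoly ℚ z' = minpoly ℚ z :=
      (minpoly.algebraMap_eq (A := ℚ) (B := A) (B' := ℂ) (algebraMap A ℂ).injective z').symm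
    rw [h1]
    exact (minpoly.eq_of_irreducible_of_monic (minpoly.irreducible ht) hz (minpoly.monic ht)).symm
  obtain ⟨f, hf⟩ : ∃ f : A ≃ₐ[ℚ] A, f z' = t' :=
    isConjRoot_iff_exists_algEquiv.1 (show minpoly ℚ t' = minpoly ℚ z' from hmt.trans hmz.symm)
  have hconj : ∀ x ∈ A, (starRingEnd ℂ) x ∈ A := by
    intro x hx
    rw [mem_algebraicClosure_iff] at hx ⊢
    exact hx.algHom ((Complex.conjAe.restrictScalars ℚ).toAlgHom)
  let cj : A →+* A :=
    { toFun := fun x => ⟨(starRingEnd ℂ) x, hconj x x.2⟩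
      map_one' := by apply Subtype.ext; simp
      map_mul' := by intro x y; apply Subtype.ext; simp
      map_zero' := by apply Subtype.ext; simp
      map_add' := by intro x y; apply Subtype.ext; simp }
  have hcjQ : ∀ q : ℚ, cj (algebraMap ℚ A q) = algebraMap ℚ A q := by
    intro q
    rw [eq_ratCast, map_ratCast]
  let s' : A := f (cj z')
  have hcz : cj z' ≠ z' := by
    intro h
    have h1 : (starRingEnd ℂ) z = z := congrArg (fun v : A => (v : ℂ)) h
    exact him (Complex.conj_eq_iff_im.1 h1)
  have hst : s' ≠ t' := by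
    intro h
    rw [← hf] at h
    exact hcz (f.injective h)
  have hcoeQ : ∀ q : ℚ, ((algebraMap ℚ A q : A) : ℂ) = (q : ℂ) := by
    intro q
    rw [eq_ratCast]
    exact map_ratCast (algebraMap A ℂ) q
  -- the claim over `A`
  have claimA : ∀ x : Fin n → A, (∀ i, ∑ j, algebraMap ℚ A (T i j) * x j = t' * x i) →
      (∀ l, ∀ y : Fin n → A, (∀ i, ∑ j, algebraMap ℚ A (T i j) * y j = s' * y i) →
        ∑ i, x i * ∑ j, algebraMap ℚ A (B l i j) * y j = 0) → x = 0 := by
    intro x hx1 hx2
    let x' : Fin n → A := fun i => f.symm (x i)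
    have hx' : ∀ i, ∑ j, algebraMap ℚ A (T i j) * x' j = z' * x' i := by
      intro i
      have h := congrArg f.symm (hx1 i)
      rw [map_sum, map_mul] at h
      simp only [map_mul, AlgEquiv.commutes] at h
      have h3 : f.symm t' = z' := by rw [← hf]; exact f.symm_apply_apply z'
      rw [h3] at h
      exact h
    have hw := hpos (fun i => (x' i : ℂ)) (by
        funext i
        have h := congrArg (fun v : A => (v : ℂ)) (hx' i)
        simp only [IntermediateField.coe_sum, IntermediateField.coe_mul, hcoeQ] at h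
        simpa [Matrix.mulVec, dotProduct, z'] using h) (by
        intro l
        let y : Fin n → A := fun i => f (cj (x' i))
        have hy : ∀ i, ∑ j, algebraMap ℚ A (T i j) * y j = s' * y i := by
          intro i
          have h := congrArg (fun v => f (cj v)) (hx' i)
          simp only [map_sum, map_mul, hcjQ, AlgEquiv.commutes] at h
          exact h
        have h := congrArg f.symm (hx2 l y hy)
        simp only [map_sum, map_mul, AlgEquiv.commutes, map_zero] at h
        have h2 : ∑ i, x' i * ∑ j, algebraMap ℚ A (B l i j) * cj (x' j) = 0 := by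
          rw [← h]
          refine Finset.sum_congr rfl (fun i _ => ?_)
          congr 1
          refine Finset.sum_congr rfl (fun j _ => ?_)
          congr 1
          exact (f.symm_apply_apply _).symm
        have h3 := congrArg (fun v : A => (v : ℂ)) h2
        simp only [IntermediateField.coe_sum, IntermediateField.coe_mul, hcoeQ] at h3
        simpa [Matrix.mulVec, dotProduct, cj] using h3)
    funext i
    have h1 : (x' i : ℂ) = 0 := congrFun hw i
    have h2 : x' i = 0 := Subtype.ext h1
    have h3 : f.symm (x i) = 0 := h2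
    simpa using h3
  refine ⟨(s' : ℂ), fun h => hst (Subtype.ext h), ?_, ?_⟩
  · have h1 : Polynomial.aeval z' (minpoly ℚ t) = 0 := by
      rw [← hmz]; exact minpoly.aeval ℚ z'
    have h2 : Polynomial.aeval s' (minpoly ℚ t) = 0 := by
      have h3 : Polynomial.aeval (cj z') (minpoly ℚ t) = 0 := by
        have hcj : cj = ((cj : A →+* A).toRatAlgHom : A →ₐ[ℚ] A) := rfl
        have h4 := Polynomial.aeval_algHom_apply ((cj : A →+* A).toRatAlgHom : A →ₐ[ℚ] A) z' (minpoly ℚ t)
        rw [h1, map_zero] at h4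
        exact h4
      have h4 := Polynomial.aeval_algHom_apply (f : A →ₐ[ℚ] A) (cj z') (minpoly ℚ t)
      rw [h3, map_zero] at h4
      exact h4
    have h5 := Polynomial.aeval_algebraMap_apply ℂ s' (minpoly ℚ t)
    rw [h2, map_zero] at h5
    exact h5
  · intro x hx1 hx2
    let S1 : Set (Fin n → A) := {s | ∃ i, s = fun j => algebraMap ℚ A (T i j) - if j = i then t' else 0}
    let S2 : Set (Fin n → A) := {s | ∃ l, ∃ y : Fin n → A,
      (∀ i, ∑ j, algebraMap ℚ A (T i j) * y j = s' * y i) ∧
        s = fun i => ∑ j, algebraMap ℚ A (B l i j) * y j}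
    refine descent_zero (k := A) (F := ℂ) (S1 ∪ S2) ?_ x ?_
    · intro c hc
      refine claimA c ?_ ?_
      · intro i
        have h := hc _ (Or.inl ⟨i, rfl⟩)
        simp only [sub_mul, Finset.sum_sub_distrib, ite_mul, zero_mul, Finset.sum_ite_eq',
          Finset.mem_univ, if_true] at h
        exact sub_eq_zero.1 h
      · intro l y hy
        have h := hc _ (Or.inr ⟨l, y, hy, rfl⟩)
        rw [← h]
        exact Finset.sum_congr rfl (fun i _ => mul_comm _ _)
    · rintro s (⟨i, rfl⟩ | ⟨l, y, hy, rfl⟩)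
      · have h := congrFun hx1 i
        simp only [Matrix.mulVec, dotProduct, Matrix.map_apply, Pi.smul_apply, smul_eq_mul] at h
        have e : ∀ j, algebraMap A ℂ (algebraMap ℚ A (T i j) - if j = i then t' else 0) * x j
            = (T i j : ℂ) * x j - (if j = i then t * x j else 0) := by
          intro j
          rw [map_sub, sub_mul]
          refine congrArg₂ (fun a b => a - b) ?_ ?_
          · rw [show algebraMap A ℂ (algebraMap ℚ A (T i j)) = (T i j : ℂ) from hcoeQ _]
          · split_ifs with hji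
            · rfl
            · simp
        rw [Finset.sum_congr rfl (fun j _ => e j), Finset.sum_sub_distrib, h]
        simp
      · have h := hx2 l (fun i => (y i : ℂ)) (by
          funext i
          have h := congrArg (fun v : A => (v : ℂ)) (hy i)
          simp only [IntermediateField.coe_sum, IntermediateField.coe_mul, hcoeQ] at h
          simpa [Matrix.mulVec, dotProduct] using h)
        rw [← h]
        simp only [Matrix.mulVec, dotProduct, Matrix.map_apply]
        refine Finset.sum_congr rfl (fun i _ => ?_)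
        rw [mul_comm]
        congr 1
        rw [map_sum]
        refine Finset.sum_congr rfl (fun j _ => ?_)
        rw [map_mul]
        exact congrArg₂ (fun a b => a * b) (hcoeQ _) rfl

end TLK
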