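import Pool.Agent.TLK.A5
import Pool.Agent.TLK.A6a
import Pool.Agent.TLK.A6b

/-!
# [TLK-A6c] the dual eigenvalue

`spec_eigen`: for `Spec TV t π`, `s : ℂ` and `x : ℂ^n` with `T x = s x`, `x ≠ 0`, `s` real: `s = t j` for some `j`; and if `s` is not real then the
`ℝ^m`-part of `x` vanishes. Write `x = u + i w` with real `u, w`. Complexify: the `ℝ^m`-part is `(Θ u).2 + i (Θ w).2 ∈ ℂ^m`.

PROOF of `nonreal_part`: `T x = s x` gives `TV V = s V` in `ℂ^m` for `V = (Θ u).2 + i (Θ w).2`. `TV = ∑ t_j π_j`, so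
`s π_j V = π_j TV V = t_j π_j V` (complexified), `s ≠ t_j` (real), so `π_j V = 0` for all `j`, `V = ∑ π_j V = 0`.
PROOF of `real_eigen`: `s` real, `x ≠ 0`, `T u = s u`, `T w = s w`. One of `u, w` is nonzero, say `u`; `TP (Θ u).1 = s (Θ u).1` gives
`(Θ u).1 = 0` (`noreal`), so `(Θ u).2 ≠ 0`, `TV (Θ u).2 = s (Θ u).2`, as before `s = t_j` for some `j`.

PROOF of `dual_eigen` (fix `i`). There is `v ≠ 0` with `π_i v = v`, so `TV v = t_i v` (`Spec`). `exists_conj` gives a nonreal conjugate `z` of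
`t_i`. Take `N, r, B` from `exists_forms`. `hpos` of `galois_forms`: let `T x = z x` and `x ⬝ B_l conj x = 0` for all `l`, `x = u + i w`. Then
`0 = ∑ r_l x ⬝ B_l conj x` has real part `‖(Θ u).1‖² + ‖(Θ w).1‖²` (bilinearity), so `(Θ u).1 = (Θ w).1 = 0`; and `(Θ u).2 = (Θ w).2 = 0` by
`nonreal_part` (`z` is not real). So `x = 0`.
`galois_forms` gives `s`.
-/

open scoped Matrix

namespace TLK

variable {n p m : ℕ} {G : Type} [Group G]

theorem A6c_re {n : ℕ} (M : Matrix (Fin n) (Fin n) ℚ) (x : Fin n → ℂ) (i : Fin n) :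
    ((M.map (Rat.cast : ℚ → ℂ) *ᵥ x) i).re =
      (M.map (Rat.cast : ℚ → ℝ) *ᵥ (fun j => (x j).re)) i := by
  simp only [Matrix.mulVec, dotProduct, Complex.re_sum, Matrix.map_apply]
  apply Finset.sum_congr rfl
  intro j _
  rw [Complex.mul_re]
  simp

theorem A6c_im {n : ℕ} (M : Matrix (Fin n) (Fin n) ℚ) (x : Fin n → ℂ) (i : Fin n) :
    ((M.map (Rat.cast : ℚ → ℂ) *ᵥ x) i).im =
      (M.map (Rat.cast : ℚ → ℝ) *ᵥ (fun j => (x j).im)) i := by
  simp only [Matrix.mulVec, dotProduct, Complex.im_sum, Matrix.map_apply]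
  apply Finset.sum_congr rfl
  intro j _
  rw [Complex.mul_im]
  simp

theorem A6c_dot {n : ℕ} (M : Matrix (Fin n) (Fin n) ℚ) (x : Fin n → ℂ) :
    (x ⬝ᵥ (M.map (Rat.cast : ℚ → ℂ) *ᵥ (fun i => (starRingEnd ℂ) (x i)))).re =
      (fun i => (x i).re) ⬝ᵥ (M.map (Rat.cast : ℚ → ℝ) *ᵥ (fun i => (x i).re)) +
      (fun i => (x i).im) ⬝ᵥ (M.map (Rat.cast : ℚ → ℝ) *ᵥ (fun i => (x i).im)) := by
  have h1 : ∀ i, ((M.map (Rat.cast : ℚ → ℂ) *ᵥ (fun i => (starRingEnd ℂ) (x i))) i).im =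
      -(M.map (Rat.cast : ℚ → ℝ) *ᵥ (fun j => (x j).im)) i := by
    intro i
    rw [A6c_im]
    simp only [Matrix.mulVec, dotProduct, Complex.conj_im, mul_neg, Finset.sum_neg_distrib]
  have h2 : ∀ i, ((M.map (Rat.cast : ℚ → ℂ) *ᵥ (fun i => (starRingEnd ℂ) (x i))) i).re =
      (M.map (Rat.cast : ℚ → ℝ) *ᵥ (fun j => (x j).re)) i := by
    intro i
    rw [A6c_re]
    simp only [Complex.conj_re]
  unfold dotProduct
  rw [Complex.re_sum, ← Finset.sum_add_distrib]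
  apply Finset.sum_congr rfl
  intro i _
  rw [Complex.mul_re, h1, h2]
  ring

/-- the real form of the eigenvalue equation -/
theorem A6c_real {n : ℕ} {T : Matrix (Fin n) (Fin n) ℚ} {s : ℂ} {x : Fin n → ℂ}
    (hx : T.map (Rat.cast : ℚ → ℂ) *ᵥ x = s • x) :
    T.map (Rat.cast : ℚ → ℝ) *ᵥ (fun i => (x i).re) =
      s.re • (fun i => (x i).re) - s.im • (fun i => (x i).im) ∧
    T.map (Rat.cast : ℚ → ℝ) *ᵥ (fun i => (x i).im) =
      s.im • (fun i => (x i).re) + s.re • (fun i => (x i).im) := by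
  constructor
  · funext i
    rw [← A6c_re, hx]
    simp only [Pi.smul_apply, Pi.sub_apply, smul_eq_mul, Complex.mul_re]
  · funext i
    rw [← A6c_im, hx]
    simp only [Pi.smul_apply, Pi.add_apply, smul_eq_mul, Complex.mul_im]
    ring

theorem A6c_sum {m k : ℕ} {TV : Matrix (Fin m) (Fin m) ℝ} {t : Fin k → ℝ}
    {π : Fin k → Matrix (Fin m) (Fin m) ℝ} (hS : Spec TV t π) (v : Fin m → ℝ) :
    v = ∑ j, π j *ᵥ v := by
  rw [← Matrix.sum_mulVec, hS.sum, Matrix.one_mulVec]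

theorem A6c_pi {m k : ℕ} {TV : Matrix (Fin m) (Fin m) ℝ} {t : Fin k → ℝ}
    {π : Fin k → Matrix (Fin m) (Fin m) ℝ} (hS : Spec TV t π) (j : Fin k) :
    π j * TV = t j • π j := by
  rw [hS.eq, Finset.mul_sum, Finset.sum_eq_single j]
  · rw [Matrix.mul_smul, hS.mul_self]
  · intro i _ hij
    rw [Matrix.mul_smul, hS.mul_ne j i (Ne.symm hij), smul_zero]
  · intro h
    exact absurd (Finset.mem_univ j) h

theorem A6c_pi_mulVec {m k : ℕ} {TV : Matrix (Fin m) (Fin m) ℝ} {t : Fin k → ℝ}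
    {π : Fin k → Matrix (Fin m) (Fin m) ℝ} (hS : Spec TV t π) (j : Fin k) (v : Fin m → ℝ) :
    π j *ᵥ (TV *ᵥ v) = t j • (π j *ᵥ v) := by
  rw [Matrix.mulVec_mulVec, A6c_pi hS, Matrix.smul_mulVec]

/-- the two components of the eigenvalue equation in `ℝ^m` -/
theorem A6c_V (S : Setting n p m G)
    {T : Matrix (Fin n) (Fin n) ℚ} {TP : CP p →ₗ[ℝ] CP p} {TV : Matrix (Fin m) (Fin m) ℝ}
    (hT : S.TD T TP TV) {s : ℂ} {x : Fin n → ℂ}
    (hx : T.map (Rat.cast : ℚ → ℂ) *ᵥ x = s • x) :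
    TV *ᵥ (S.Θ (fun i => (x i).re)).2 =
      s.re • (S.Θ (fun i => (x i).re)).2 - s.im • (S.Θ (fun i => (x i).im)).2 ∧
    TV *ᵥ (S.Θ (fun i => (x i).im)).2 =
      s.im • (S.Θ (fun i => (x i).re)).2 + s.re • (S.Θ (fun i => (x i).im)).2 := by
  obtain ⟨h1, h2⟩ := A6c_real hx
  constructor
  · have h3 := congrArg Prod.snd (hT.eq (fun i => (x i).re))
    rw [h1, map_sub, map_smul, map_smul] at h3
    exact h3.symm
  · have h3 := congrArg Prod.snd (hT.eq (fun i => (x i).im))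
    rw [h2, map_add, map_smul, map_smul] at h3
    exact h3.symm

theorem Setting.nonreal_part (S : Setting n p m G)
    {T : Matrix (Fin n) (Fin n) ℚ} {TP : CP p →ₗ[ℝ] CP p} {TV : Matrix (Fin m) (Fin m) ℝ}
    (hT : S.TD T TP TV) {k : ℕ} {t : Fin k → ℝ} {π : Fin k → Matrix (Fin m) (Fin m) ℝ}
    (hS : Spec TV t π) {s : ℂ} (hs : s.im ≠ 0) {x : Fin n → ℂ}
    (hx : T.map (Rat.cast : ℚ → ℂ) *ᵥ x = s • x) :
    (S.Θ (fun i => (x i).re)).2 = 0 ∧ (S.Θ (fun i => (x i).im)).2 = 0 := by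
  obtain ⟨hU, hW⟩ := A6c_V S hT hx
  set U := (S.Θ (fun i => (x i).re)).2 with hUdef
  set W := (S.Θ (fun i => (x i).im)).2 with hWdef
  have key : ∀ j, π j *ᵥ U = 0 ∧ π j *ᵥ W = 0 := by
    intro j
    have h1 : t j • (π j *ᵥ U) = s.re • (π j *ᵥ U) - s.im • (π j *ᵥ W) := by
      rw [← A6c_pi_mulVec hS, hU, Matrix.mulVec_sub, Matrix.mulVec_smul, Matrix.mulVec_smul]
    have h2 : t j • (π j *ᵥ W) = s.im • (π j *ᵥ U) + s.re • (π j *ᵥ W) := by
      rw [← A6c_pi_mulVec hS, hW, Matrix.mulVec_add, Matrix.mulVec_smul, Matrix.mulVec_smul]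
    have hpos : 0 < (t j - s.re) ^ 2 + s.im ^ 2 := by positivity
    constructor
    · funext i
      have h3 := congrFun h1 i
      have h4 := congrFun h2 i
      simp only [Pi.smul_apply, Pi.sub_apply, Pi.add_apply, smul_eq_mul] at h3 h4
      have h5 : ((t j - s.re) ^ 2 + s.im ^ 2) * (π j *ᵥ U) i = 0 := by
        linear_combination (t j - s.re) * h3 - s.im * h4
      exact (mul_eq_zero.1 h5).resolve_left hpos.ne'
    · funext i
      have h3 := congrFun h1 i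
      have h4 := congrFun h2 i
      simp only [Pi.smul_apply, Pi.sub_apply, Pi.add_apply, smul_eq_mul] at h3 h4
      have h5 : ((t j - s.re) ^ 2 + s.im ^ 2) * (π j *ᵥ W) i = 0 := by
        linear_combination (t j - s.re) * h4 + s.im * h3
      exact (mul_eq_zero.1 h5).resolve_left hpos.ne'
  constructor
  · rw [A6c_sum hS U]
    exact Finset.sum_eq_zero fun j _ => (key j).1
  · rw [A6c_sum hS W]
    exact Finset.sum_eq_zero fun j _ => (key j).2

theorem Setting.real_eigen (S : Setting n p m G)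
    {T : Matrix (Fin n) (Fin n) ℚ} {TP : CP p →ₗ[ℝ] CP p} {TV : Matrix (Fin m) (Fin m) ℝ}
    (hT : S.TD T TP TV) {k : ℕ} {t : Fin k → ℝ} {π : Fin k → Matrix (Fin m) (Fin m) ℝ}
    (hS : Spec TV t π) {s : ℂ} (hs : s.im = 0) {x : Fin n → ℂ} (hx0 : x ≠ 0)
    (hx : T.map (Rat.cast : ℚ → ℂ) *ᵥ x = s • x) :
    ∃ j, s = t j ∧ (S.Θ (fun i => (x i).re)).1 = 0 ∧ (S.Θ (fun i => (x i).im)).1 = 0 ∧
      π j *ᵥ (S.Θ (fun i => (x i).re)).2 = (S.Θ (fun i => (x i).re)).2 ∧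
      π j *ᵥ (S.Θ (fun i => (x i).im)).2 = (S.Θ (fun i => (x i).im)).2 := by
  obtain ⟨hU, hW⟩ := A6c_V S hT hx
  obtain ⟨h1, h2⟩ := A6c_real hx
  rw [hs, zero_smul] at hU hW h1 h2
  rw [sub_zero] at hU h1
  rw [zero_add] at hW h2
  have hU1 : (S.Θ (fun i => (x i).re)).1 = 0 := by
    apply hT.noreal s.re
    have h3 := congrArg Prod.fst (hT.eq (fun i => (x i).re))
    rw [h1, map_smul] at h3
    exact h3.symm
  have hW1 : (S.Θ (fun i => (x i).im)).1 = 0 := by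
    apply hT.noreal s.re
    have h3 := congrArg Prod.fst (hT.eq (fun i => (x i).im))
    rw [h2, map_smul] at h3
    exact h3.symm
  have hne : (S.Θ (fun i => (x i).re)).2 ≠ 0 ∨ (S.Θ (fun i => (x i).im)).2 ≠ 0 := by
    by_contra hcon
    push Not at hcon
    apply hx0
    have hu : (fun i => (x i).re) = 0 := by
      have : S.Θ (fun i => (x i).re) = 0 := Prod.ext hU1 hcon.1
      exact (LinearEquiv.map_eq_zero_iff S.Θ).1 this
    have hw : (fun i => (x i).im) = 0 := by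
      have : S.Θ (fun i => (x i).im) = 0 := Prod.ext hW1 hcon.2
      exact (LinearEquiv.map_eq_zero_iff S.Θ).1 this
    funext i
    exact Complex.ext (congrFun hu i) (congrFun hw i)
  set U := (S.Θ (fun i => (x i).re)).2 with hUdef
  set W := (S.Θ (fun i => (x i).im)).2 with hWdef
  have key : ∀ V : Fin m → ℝ, TV *ᵥ V = s.re • V → ∀ j, t j ≠ s.re → π j *ᵥ V = 0 := by
    intro V hV j hj
    have h3 : t j • (π j *ᵥ V) = s.re • (π j *ᵥ V) := by
      rw [← A6c_pi_mulVec hS, hV, Matrix.mulVec_smul]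
    have h4 : (t j - s.re) • (π j *ᵥ V) = 0 := by rw [sub_smul, h3, sub_self]
    exact (smul_eq_zero.1 h4).resolve_left (sub_ne_zero.2 hj)
  have hex : ∃ j, t j = s.re := by
    by_contra hcon
    push Not at hcon
    rcases hne with h | h
    · apply h
      rw [A6c_sum hS U]
      exact Finset.sum_eq_zero fun j _ => key U hU j (hcon j)
    · apply h
      rw [A6c_sum hS W]
      exact Finset.sum_eq_zero fun j _ => key W hW j (hcon j)
  obtain ⟨j, hj⟩ := hex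
  have hfix : ∀ V : Fin m → ℝ, TV *ᵥ V = s.re • V → π j *ᵥ V = V := by
    intro V hV
    have h3 := A6c_sum hS V
    rw [Finset.sum_eq_single j] at h3
    · exact h3.symm
    · intro i _ hij
      apply key V hV i
      intro h4
      exact hij (hS.inj (h4.trans hj.symm))
    · intro h
      exact absurd (Finset.mem_univ j) h
  refine ⟨j, ?_, hU1, hW1, hfix U hU, hfix W hW⟩
  apply Complex.ext
  · rw [Complex.ofReal_re, hj]
  · rw [Complex.ofReal_im, hs]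

theorem Setting.dual_eigen (S : Setting n p m G) (hB : S.Bdd)
    {T : Matrix (Fin n) (Fin n) ℚ} {TP : CP p →ₗ[ℝ] CP p} {TV : Matrix (Fin m) (Fin m) ℝ}
    (hT : S.TD T TP TV) {k : ℕ} {t : Fin k → ℝ} {π : Fin k → Matrix (Fin m) (Fin m) ℝ}
    (hS : Spec TV t π) (i : Fin k) :
    ∃ (N : ℕ) (B : Fin N → Matrix (Fin n) (Fin n) ℚ) (s : ℂ), s ≠ t i ∧
      (∀ l g, S.lam g = 1 →
        ((S.R g).map (Int.cast : ℤ → ℚ))ᵀ * B l * (S.R g).map (Int.cast : ℤ → ℚ) = B l) ∧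
      ∀ x : Fin n → ℂ, T.map (Rat.cast : ℚ → ℂ) *ᵥ x = (t i : ℂ) • x →
        (∀ l, ∀ y : Fin n → ℂ, T.map (Rat.cast : ℚ → ℂ) *ᵥ y = s • y →
          x ⬝ᵥ ((B l).map (Rat.cast : ℚ → ℂ) *ᵥ y) = 0) → x = 0 := by
  have hex : ∃ v : Fin m → ℝ, v ≠ 0 ∧ π i *ᵥ v = v := by
    by_contra hcon
    push Not at hcon
    apply hS.ne i
    apply Matrix.toLin'.injective
    apply LinearMap.ext
    intro w
    rw [map_zero, LinearMap.zero_apply, Matrix.toLin'_apply]
    by_contra hw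
    apply hcon _ hw
    rw [Matrix.mulVec_mulVec, hS.mul_self]
  obtain ⟨v, hv, hv'⟩ := hex
  have htv : TV *ᵥ v = t i • v := by
    have h1 : TV * π i = t i • π i := by
      have h2 := hS.comm TV rfl i
      rw [h2, A6c_pi hS]
    rw [← hv', Matrix.mulVec_mulVec, h1, Matrix.smul_mulVec]
  obtain ⟨hint, z, hz, hzr⟩ := S.exists_conj hB hT hv htv
  obtain ⟨N, r, B, hBinv, hBr⟩ := S.exists_forms
  obtain ⟨s, hs, -, hs'⟩ := galois_forms T B hint hzr hz (by
    intro x hx hxl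
    have h1 : ∑ l, r l * ((fun i => (x i).re) ⬝ᵥ ((B l).map (Rat.cast : ℚ → ℝ) *ᵥ (fun i => (x i).re)))
        + ∑ l, r l * ((fun i => (x i).im) ⬝ᵥ ((B l).map (Rat.cast : ℚ → ℝ) *ᵥ (fun i => (x i).im)))
        = 0 := by
      rw [← Finset.sum_add_distrib]
      apply Finset.sum_eq_zero
      intro l _
      rw [← mul_add, ← A6c_dot, hxl l, Complex.zero_re, mul_zero]
    rw [hBr, hBr] at h1
    have h2 : ∀ a : CP p, (inner ℂ a a).re = ‖a‖ ^ 2 := fun a => inner_self_eq_norm_sq (𝕜 := ℂ) a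
    rw [h2, h2] at h1
    have h3 : ‖(S.Θ (fun i => (x i).re)).1‖ ^ 2 = 0 := by
      nlinarith [sq_nonneg ‖(S.Θ (fun i => (x i).re)).1‖, sq_nonneg ‖(S.Θ (fun i => (x i).im)).1‖]
    have h4 : ‖(S.Θ (fun i => (x i).im)).1‖ ^ 2 = 0 := by
      nlinarith [sq_nonneg ‖(S.Θ (fun i => (x i).re)).1‖, sq_nonneg ‖(S.Θ (fun i => (x i).im)).1‖]
    have h5 := norm_eq_zero.1 (pow_eq_zero_iff two_ne_zero |>.1 h3)
    have h6 := norm_eq_zero.1 (pow_eq_zero_iff two_ne_zero |>.1 h4)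
    obtain ⟨h7, h8⟩ := S.nonreal_part hT hS hz hx
    have hu : (fun i => (x i).re) = 0 := by
      have : S.Θ (fun i => (x i).re) = 0 := Prod.ext h5 h7
      exact (LinearEquiv.map_eq_zero_iff S.Θ).1 this
    have hw : (fun i => (x i).im) = 0 := by
      have : S.Θ (fun i => (x i).im) = 0 := Prod.ext h6 h8
      exact (LinearEquiv.map_eq_zero_iff S.Θ).1 this
    funext i
    exact Complex.ext (congrFun hu i) (congrFun hw i))
  exact ⟨N, B, s, hs, hBinv, hs'⟩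

end TLK
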