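import Pool.Agent.TLK.A6c

/-!
# [TLK-A6d] property (Star) for `L`

PROOF. Take `N, B, s` from `dual_eigen` for the index `i`. `E_t = {x ∈ ℂ^n | T x = t_i x}`, `E_s = {y | T y = s y}` (complex
subspaces). Choose a finite spanning family (basis) `y_1, …, y_M` of `E_s`. The function `ν(x) = ∑_{l, j} |x ⬝ B_l y_j|` on `E_t` is continuous, absolutely homogeneous
and positive for `x ≠ 0` (last property of `dual_eigen`; linear combinations of the `y_j`), so by compactness of the unit sphere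
of `E_t`: `‖x‖ ≤ C0 ν(x)` on `E_t`.
Let `g` satisfy `|dt (π j) (L g)| = 1` for all `j`. Then `|det (L g)| = 1` (`dt_prod`, the `π j` commute with `L g` by `Spec.comm` and `TD.commV`), so
`lam g = 1` (`det_rel`, `0 < p`). So `(R g x) ⬝ B_l (R g y) = x ⬝ B_l y`, i.e. `(R g x) ⬝ B_l y_j = x ⬝ B_l (R g⁻¹ y_j)`. `R g` preserves `E_t` (commutes with `T`). So for
`x ∈ E_t`: `‖R g x‖ ≤ C0 ∑ |x ⬝ B_l (R g⁻¹ y_j)| ≤ C1 ‖x‖ max_j ‖R g⁻¹ y_j‖`.
Bound of `‖R g⁻¹ y_j‖`, `y_j = u + i w`: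
(a) `s` not real: `(Θ u).2 = (Θ w).2 = 0` (`nonreal_part`), so `Θ (R g⁻¹ u) = (A g⁻¹ (Θ u).1, 0)` has norm `lam g⁻¹ ‖(Θ u).1‖ = ‖(Θ u).1‖`; so
`‖R g⁻¹ y_j‖` is bounded by a constant (continuity of `Θ⁻¹`).
(b) `s` real and some `y_j ≠ 0`: `s = t_j'` with `j' ≠ i` (`real_eigen`, `s ≠ t_i`), `(Θ u).1 = 0`, `π_j' (Θ u).2 = (Θ u).2`, so
`(1 - π_i) (Θ u).2 = (Θ u).2` (`π_i π_j' = 0`) and `L g⁻¹ (Θ u).2 = (L g⁻¹ * (1 - π_i)) (Θ u).2` is bounded in terms of `B`.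
(If all `y_j = 0` there is nothing to bound.)
Finally, for `v ∈ ℝ^m`, `x = Θ⁻¹ (0, π_i v)` is in `E_t` (`TV π_i = t_i π_i`) and `Θ (R g x) = (0, L g π_i v)`; so `‖(L g * π_i) v‖ ≤ C2 ‖v‖` with `C2` depending
only on `B` (and `T, Θ, …`), which bounds the entries of `L g * π_i`.
The bound for `‖R g⁻¹ y_j‖` must hold for all `g` simultaneously with constants depending only on `B`.
-/

open scoped Matrix

namespace TLK

variable {n p m : ℕ} {G : Type} [Group G]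

private theorem form_bound {n : ℕ} (M : Matrix (Fin n) (Fin n) ℂ) (x w : Fin n → ℂ) :
    ‖x ⬝ᵥ (M *ᵥ w)‖ ≤ (∑ i, ∑ j, ‖M i j‖) * (‖x‖ * ‖w‖) := by
  have h1 : ∀ i, ‖x i * (M *ᵥ w) i‖ ≤ (∑ j, ‖M i j‖) * (‖x‖ * ‖w‖) := by
    intro i
    have h2 : ‖(M *ᵥ w) i‖ ≤ (∑ j, ‖M i j‖) * ‖w‖ := by
      calc ‖(M *ᵥ w) i‖ = ‖∑ j, M i j * w j‖ := rfl
        _ ≤ ∑ j, ‖M i j * w j‖ := norm_sum_le _ _
        _ ≤ ∑ j, ‖M i j‖ * ‖w‖ := by
          refine Finset.sum_le_sum fun j _ => ?_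
          rw [norm_mul]
          exact mul_le_mul_of_nonneg_left (norm_le_pi_norm w j) (norm_nonneg _)
        _ = (∑ j, ‖M i j‖) * ‖w‖ := (Finset.sum_mul _ _ _).symm
    rw [norm_mul]
    calc ‖x i‖ * ‖(M *ᵥ w) i‖ ≤ ‖x‖ * ((∑ j, ‖M i j‖) * ‖w‖) :=
          mul_le_mul (norm_le_pi_norm x i) h2 (norm_nonneg _) (norm_nonneg _)
      _ = (∑ j, ‖M i j‖) * (‖x‖ * ‖w‖) := by ring
  calc ‖x ⬝ᵥ (M *ᵥ w)‖ = ‖∑ i, x i * (M *ᵥ w) i‖ := rfl
    _ ≤ ∑ i, ‖x i * (M *ᵥ w) i‖ := norm_sum_le _ _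
    _ ≤ ∑ i, (∑ j, ‖M i j‖) * (‖x‖ * ‖w‖) := Finset.sum_le_sum fun i _ => h1 i
    _ = (∑ i, ∑ j, ‖M i j‖) * (‖x‖ * ‖w‖) := (Finset.sum_mul _ _ _).symm

private theorem A6d_bd_mulVec {m : ℕ} {X : Matrix (Fin m) (Fin m) ℝ} {B : ℝ} (hX : Bd X B)
    (v : Fin m → ℝ) : ‖X *ᵥ v‖ ≤ (m * |B|) * ‖v‖ := by
  rw [pi_norm_le_iff_of_nonneg (by positivity)]
  intro i
  calc ‖(X *ᵥ v) i‖ = ‖∑ j, X i j * v j‖ := rfl
    _ ≤ ∑ j, ‖X i j * v j‖ := norm_sum_le _ _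
    _ ≤ ∑ _j : Fin m, |B| * ‖v‖ := by
      refine Finset.sum_le_sum fun j _ => ?_
      rw [norm_mul]
      exact mul_le_mul ((hX i j).trans (le_abs_self B)) (norm_le_pi_norm v j) (norm_nonneg _)
        (abs_nonneg _)
    _ = (m * |B|) * ‖v‖ := by
      rw [Finset.sum_const, Finset.card_univ, Fintype.card_fin, nsmul_eq_mul]
      ring

private theorem map_re {n : ℕ} (R : Matrix (Fin n) (Fin n) ℤ) (y : Fin n → ℂ) (i : Fin n) :
    ((R.map (Int.cast : ℤ → ℂ) *ᵥ y) i).re =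
      (R.map (Int.cast : ℤ → ℝ) *ᵥ (fun i => (y i).re)) i ∧
    ((R.map (Int.cast : ℤ → ℂ) *ᵥ y) i).im =
      (R.map (Int.cast : ℤ → ℝ) *ᵥ (fun i => (y i).im)) i := by
  constructor <;>
  simp [Matrix.mulVec, dotProduct, Matrix.map_apply, Complex.re_sum, Complex.im_sum,
    Complex.mul_re, Complex.mul_im, Complex.intCast_re, Complex.intCast_im]

private theorem norm_le_reim {n : ℕ} (y : Fin n → ℂ) :
    ‖y‖ ≤ ‖(fun i => (y i).re)‖ + ‖(fun i => (y i).im)‖ := by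
  rw [pi_norm_le_iff_of_nonneg (by positivity)]
  intro i
  refine (Complex.norm_le_abs_re_add_abs_im (y i)).trans ?_
  exact add_le_add (norm_le_pi_norm (fun i => (y i).re) i) (norm_le_pi_norm (fun i => (y i).im) i)

theorem Setting.star (S : Setting n p m G) (hp : 0 < p) (hB : S.Bdd)
    (hdt : ∀ (k : ℕ) (π : Fin k → Matrix (Fin m) (Fin m) ℝ), Idem π →
      ∀ X : Matrix (Fin m) (Fin m) ℝ, (∀ i, π i * X = X * π i) → ∏ i, dt (π i) X = X.det)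
    {T : Matrix (Fin n) (Fin n) ℚ} {TP : CP p →ₗ[ℝ] CP p} {TV : Matrix (Fin m) (Fin m) ℝ}
    (hT : S.TD T TP TV) {k : ℕ} {t : Fin k → ℝ} {π : Fin k → Matrix (Fin m) (Fin m) ℝ}
    (hS : Spec TV t π) (i : Fin k) (B : ℝ) :
    ∃ B' : ℝ, ∀ g, (∀ j, |dt (π j) (S.L g)| = 1) → Bd (S.L g * (1 - π i)) B →
      Bd (S.L g⁻¹ * (1 - π i)) B → Bd (S.L g * π i) B' := by
  obtain ⟨N, Bl, s, hst, hinv, hfin⟩ := S.dual_eigen hB hT hS i
  -- bounds for Θ and its inverse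
  obtain ⟨CΘ, hCΘ0, hCΘ⟩ : ∃ C : ℝ, 0 ≤ C ∧ ∀ x, ‖S.Θ x‖ ≤ C * ‖x‖ := by
    let f := LinearMap.toContinuousLinearMap S.Θ.toLinearMap
    exact ⟨‖f‖, norm_nonneg _, fun x => f.le_opNorm x⟩
  obtain ⟨CI, hCI0, hCI⟩ : ∃ C : ℝ, 0 ≤ C ∧ ∀ x, ‖x‖ ≤ C * ‖S.Θ x‖ := by
    let f := LinearMap.toContinuousLinearMap S.Θ.symm.toLinearMap
    refine ⟨‖f‖, norm_nonneg _, fun x => ?_⟩
    have h1 := f.le_opNorm (S.Θ x)
    have h2 : f (S.Θ x) = x := S.Θ.symm_apply_apply x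
    rwa [h2] at h1
  set Tc := T.map (Rat.cast : ℚ → ℂ) with hTc
  -- the eigenspaces
  let Et : Submodule ℂ (Fin n → ℂ) :=
    LinearMap.eqLocus (Matrix.mulVecLin Tc) ((t i : ℂ) • LinearMap.id)
  let Es : Submodule ℂ (Fin n → ℂ) := LinearMap.eqLocus (Matrix.mulVecLin Tc) (s • LinearMap.id)
  have hEt : ∀ x, x ∈ Et ↔ Tc *ᵥ x = (t i : ℂ) • x := fun x => Iff.rfl
  have hEs : ∀ x, x ∈ Es ↔ Tc *ᵥ x = s • x := fun x => Iff.rfl
  let b := Module.finBasis ℂ Es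
  let Φ : Et →ₗ[ℂ] (Fin N × Fin (Module.finrank ℂ Es) → ℂ) :=
    { toFun := fun x q => (x : Fin n → ℂ) ⬝ᵥ
        ((Bl q.1).map (Rat.cast : ℚ → ℂ) *ᵥ (b q.2 : Fin n → ℂ))
      map_add' := fun x y => by
        funext q
        simp [add_dotProduct]
      map_smul' := fun c x => by
        funext q
        simp [smul_dotProduct] }
  have hΦ : ∀ x q, Φ x q = (x : Fin n → ℂ) ⬝ᵥ
        ((Bl q.1).map (Rat.cast : ℚ → ℂ) *ᵥ (b q.2 : Fin n → ℂ)) := fun x q => rfl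
  have hker : LinearMap.ker Φ = ⊥ := by
    rw [LinearMap.ker_eq_bot']
    intro x hx
    apply Subtype.ext
    refine hfin x ((hEt _).1 x.2) fun l y hy => ?_
    have h1 : (⟨y, (hEs y).2 hy⟩ : Es) = ∑ q, b.repr ⟨y, (hEs y).2 hy⟩ q • b q :=
      (b.sum_repr _).symm
    have h2 : y = ∑ q, b.repr ⟨y, (hEs y).2 hy⟩ q • (b q : Fin n → ℂ) := by
      have h3 := congrArg Subtype.val h1
      rw [Submodule.coe_sum] at h3
      exact h3
    rw [h2, Matrix.mulVec_sum, dotProduct_sum]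
    refine Finset.sum_eq_zero fun q _ => ?_
    rw [Matrix.mulVec_smul, dotProduct_smul]
    have h4 := congrFun hx (l, q)
    rw [hΦ] at h4
    rw [h4]
    simp
  obtain ⟨K, hK, hKΦ⟩ := Φ.exists_antilipschitzWith hker
  have hKΦ' : ∀ x, ‖x‖ ≤ K * ‖Φ x‖ := by
    intro x
    have h1 := hKΦ.le_mul_dist x 0
    rwa [map_zero, dist_zero_right, dist_zero_right] at h1
  -- the bound for `R g⁻¹ y`
  have hyb : ∀ (y : Fin n → ℂ), y ∈ Es → y ≠ 0 → ∃ D : ℝ, ∀ g, S.lam g⁻¹ = 1 →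
      Bd (S.L g⁻¹ * (1 - π i)) B →
      ‖(S.R g⁻¹).map (Int.cast : ℤ → ℂ) *ᵥ y‖ ≤ D := by
    intro y hy hy0
    -- a real vector bound
    have hreal : ∀ u : Fin n → ℝ, ((S.Θ u).2 = 0 ∨ ((S.Θ u).1 = 0 ∧
        (1 - π i) *ᵥ (S.Θ u).2 = (S.Θ u).2)) → ∀ g, S.lam g⁻¹ = 1 →
        Bd (S.L g⁻¹ * (1 - π i)) B →
        ‖(S.R g⁻¹).map (Int.cast : ℤ → ℝ) *ᵥ u‖ ≤ CI * ((1 + m * |B|) * ‖S.Θ u‖) := by
      intro u hu g hlg hbd
      refine (hCI _).trans (mul_le_mul_of_nonneg_left ?_ hCI0)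
      rw [S.hΘ]
      have hm0 : 0 ≤ m * |B| := by positivity
      rcases hu with hu | ⟨hu1, hu2⟩
      · rw [hu, Matrix.mulVec_zero, Prod.norm_mk, norm_zero, S.norm_A, hlg, one_mul]
        have h1 : ‖(S.Θ u).1‖ ≤ ‖S.Θ u‖ := norm_fst_le _
        have h2 := norm_nonneg (S.Θ u)
        have h3 := mul_nonneg hm0 h2
        refine max_le ?_ (by positivity)
        nlinarith
      · rw [hu1, map_zero, Prod.norm_mk, norm_zero]
        refine max_le (by positivity) ?_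
        have h1 : S.L g⁻¹ *ᵥ (S.Θ u).2 = (S.L g⁻¹ * (1 - π i)) *ᵥ (S.Θ u).2 := by
          rw [← Matrix.mulVec_mulVec, hu2]
        rw [h1]
        have h2 := A6d_bd_mulVec hbd (S.Θ u).2
        have h3 : ‖(S.Θ u).2‖ ≤ ‖S.Θ u‖ := norm_snd_le _
        have h4 := mul_le_mul_of_nonneg_left h3 hm0
        have h5 := norm_nonneg (S.Θ u)
        nlinarith
    have hcond : ((S.Θ (fun i => (y i).re)).2 = 0 ∨ ((S.Θ (fun i => (y i).re)).1 = 0 ∧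
        (1 - π i) *ᵥ (S.Θ (fun i => (y i).re)).2 = (S.Θ (fun i => (y i).re)).2)) ∧
        ((S.Θ (fun i => (y i).im)).2 = 0 ∨ ((S.Θ (fun i => (y i).im)).1 = 0 ∧
        (1 - π i) *ᵥ (S.Θ (fun i => (y i).im)).2 = (S.Θ (fun i => (y i).im)).2)) := by
      by_cases hs : s.im = 0
      · obtain ⟨j, hsj, h1, h2, h3, h4⟩ := S.real_eigen hT hS hs hy0 ((hEs y).1 hy)
        have hij : i ≠ j := by
          rintro rfl
          exact hst hsj
        have h5 : ∀ w : Fin m → ℝ, π j *ᵥ w = w → (1 - π i) *ᵥ w = w := by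
          intro w hw
          rw [Matrix.sub_mulVec, Matrix.one_mulVec]
          have h6 : π i *ᵥ w = 0 := by
            rw [← hw, Matrix.mulVec_mulVec, hS.mul_ne i j hij, Matrix.zero_mulVec]
          rw [h6, sub_zero]
        exact ⟨Or.inr ⟨h1, h5 _ h3⟩, Or.inr ⟨h2, h5 _ h4⟩⟩
      · obtain ⟨h1, h2⟩ := S.nonreal_part hT hS hs ((hEs y).1 hy)
        exact ⟨Or.inl h1, Or.inl h2⟩
    refine ⟨CI * ((1 + m * |B|) * ‖S.Θ (fun i => (y i).re)‖) +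
      CI * ((1 + m * |B|) * ‖S.Θ (fun i => (y i).im)‖), fun g hlg hbd => ?_⟩
    refine (norm_le_reim _).trans (add_le_add ?_ ?_)
    · have h1 : (fun a => (((S.R g⁻¹).map (Int.cast : ℤ → ℂ) *ᵥ y) a).re) =
          (S.R g⁻¹).map (Int.cast : ℤ → ℝ) *ᵥ (fun i => (y i).re) := by
        funext a
        exact (map_re _ y a).1
      rw [h1]
      exact hreal _ hcond.1 g hlg hbd
    · have h1 : (fun a => (((S.R g⁻¹).map (Int.cast : ℤ → ℂ) *ᵥ y) a).im) =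
          (S.R g⁻¹).map (Int.cast : ℤ → ℝ) *ᵥ (fun i => (y i).im) := by
        funext a
        exact (map_re _ y a).2
      rw [h1]
      exact hreal _ hcond.2 g hlg hbd
  choose! D hD using hyb
  -- constants
  let CB : ℝ := ∑ l, ∑ a, ∑ c, ‖(Bl l).map (Rat.cast : ℚ → ℂ) a c‖
  let CD : ℝ := ∑ q, |D (b q : Fin n → ℂ)|
  have hCD0 : 0 ≤ CD := Finset.sum_nonneg fun q _ => abs_nonneg _
  have hCB0 : 0 ≤ CB := Finset.sum_nonneg fun l _ => Finset.sum_nonneg fun a _ =>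
    Finset.sum_nonneg fun c _ => norm_nonneg _
  let X : Fin m → Fin n → ℝ := fun c => S.Θ.symm (0, π i *ᵥ Pi.single c 1)
  refine ⟨∑ c, CΘ * (K * (CB * (‖X c‖ * CD))), ?_⟩
  intro g hg h1 h2 a c
  -- lam g = 1
  have hcm : ∀ j, π j * S.L g = S.L g * π j := fun j => (hS.comm _ (hT.commV g).symm j).symm
  have hdet : |(S.L g).det| = 1 := by
    rw [← hdt k π hS.toIdem (S.L g) hcm, Finset.abs_prod]
    exact Finset.prod_eq_one fun j _ => hg j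
  have hlam : S.lam g = 1 := by
    have h3 := S.det_rel g
    rw [hdet, one_mul] at h3
    exact (pow_eq_one_iff_of_nonneg (S.lam_pos g).le (by omega)).1 h3
  have hlami : S.lam g⁻¹ = 1 := by
    have h3 := S.lam_mul hp g g⁻¹
    rw [mul_inv_cancel, S.lam_one hp, hlam, one_mul] at h3
    exact h3.symm
  -- complex matrices
  set Rc := (S.R g).map (Int.cast : ℤ → ℂ) with hRc
  set Ri := (S.R g⁻¹).map (Int.cast : ℤ → ℂ) with hRi
  have hcast : ∀ M : Matrix (Fin n) (Fin n) ℤ, (M.map (Int.cast : ℤ → ℚ)).map (Rat.cast : ℚ → ℂ) =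
      M.map (Int.cast : ℤ → ℂ) := by
    intro M
    ext a c
    simp
  have hRR : Rc * Ri = 1 := by
    have h3 : S.R g * S.R g⁻¹ = 1 := by rw [← map_mul, mul_inv_cancel, map_one]
    have h4 := congrArg (fun M : Matrix (Fin n) (Fin n) ℤ => M.map (Int.castRingHom ℂ)) h3
    simp only [Matrix.map_mul] at h4
    rw [Matrix.map_one _ (map_zero _) (map_one _)] at h4
    exact h4
  have hTR : Tc * Rc = Rc * Tc := by
    have h3 := congrArg (fun M : Matrix (Fin n) (Fin n) ℚ => M.map (Rat.castHom ℂ)) (hT.comm g)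
    simp only [Matrix.map_mul] at h3
    have h4 : ((S.R g).map (Int.cast : ℤ → ℚ)).map (Rat.castHom ℂ) = Rc := hcast _
    rw [h4] at h3
    exact h3
  have hform : ∀ l, Rcᵀ * (Bl l).map (Rat.cast : ℚ → ℂ) * Rc = (Bl l).map (Rat.cast : ℚ → ℂ) := by
    intro l
    have h3 := congrArg (fun M : Matrix (Fin n) (Fin n) ℚ => M.map (Rat.castHom ℂ)) (hinv l g hlam)
    simp only [Matrix.map_mul, ← Matrix.transpose_map] at h3
    have h4 : ((S.R g).map (Int.cast : ℤ → ℚ)).map (Rat.castHom ℂ) = Rc := hcast _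
    rw [h4] at h3
    exact h3
  have hdot : ∀ l (x y : Fin n → ℂ), (Rc *ᵥ x) ⬝ᵥ ((Bl l).map (Rat.cast : ℚ → ℂ) *ᵥ y) =
      x ⬝ᵥ ((Bl l).map (Rat.cast : ℚ → ℂ) *ᵥ (Ri *ᵥ y)) := by
    intro l x y
    have h3 : y = Rc *ᵥ (Ri *ᵥ y) := by rw [Matrix.mulVec_mulVec, hRR, Matrix.one_mulVec]
    conv_lhs => rw [h3]
    rw [← Matrix.vecMul_transpose, ← Matrix.dotProduct_mulVec, Matrix.mulVec_mulVec,
      Matrix.mulVec_mulVec, hform]
  -- bound on E_t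
  have hmain : ∀ x : Fin n → ℂ, x ∈ Et → ‖Rc *ᵥ x‖ ≤ K * (CB * (‖x‖ * CD)) := by
    intro x hx
    have hRx : Rc *ᵥ x ∈ Et := by
      rw [hEt, Matrix.mulVec_mulVec, hTR, ← Matrix.mulVec_mulVec, (hEt x).1 hx,
        Matrix.mulVec_smul]
    have h3 := hKΦ' ⟨Rc *ᵥ x, hRx⟩
    refine h3.trans (mul_le_mul_of_nonneg_left ?_ K.2)
    rw [pi_norm_le_iff_of_nonneg (by positivity)]
    intro q
    rw [hΦ]
    show ‖(Rc *ᵥ x) ⬝ᵥ ((Bl q.1).map (Rat.cast : ℚ → ℂ) *ᵥ (b q.2 : Fin n → ℂ))‖ ≤ _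
    rw [hdot]
    refine (form_bound _ _ _).trans ?_
    have h4 : ‖Ri *ᵥ (b q.2 : Fin n → ℂ)‖ ≤ CD := by
      have h5 := hD (b q.2 : Fin n → ℂ) (b q.2).2 (fun h0 => b.ne_zero q.2 (Subtype.ext h0)) g
        hlami h2
      refine (h5.trans (le_abs_self _)).trans ?_
      exact Finset.single_le_sum (f := fun q => |D (b q : Fin n → ℂ)|)
        (fun q _ => abs_nonneg _) (Finset.mem_univ q.2)
    have h6 : ∑ a, ∑ c, ‖(Bl q.1).map (Rat.cast : ℚ → ℂ) a c‖ ≤ CB :=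
      Finset.single_le_sum (f := fun l => ∑ a, ∑ c, ‖(Bl l).map (Rat.cast : ℚ → ℂ) a c‖)
        (fun l _ => Finset.sum_nonneg fun a _ => Finset.sum_nonneg fun c _ => norm_nonneg _)
        (Finset.mem_univ q.1)
    exact mul_le_mul h6 (mul_le_mul_of_nonneg_left h4 (norm_nonneg _)) (by positivity) hCB0
  -- the vector x = Θ⁻¹ (0, π_i e_c)
  have hTVπ : TV * π i = t i • π i := by
    rw [hS.eq, Matrix.sum_mul, Finset.sum_eq_single i]
    · rw [Matrix.smul_mul, hS.mul_self]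
    · intro j _ hj
      rw [Matrix.smul_mul, hS.mul_ne j i hj, smul_zero]
    · intro h
      exact absurd (Finset.mem_univ i) h
  have hΘX : S.Θ (X c) = (0, π i *ᵥ Pi.single c 1) := S.Θ.apply_symm_apply _
  have hTX : T.map (Rat.cast : ℚ → ℝ) *ᵥ X c = t i • X c := by
    apply S.Θ.injective
    rw [hT.eq, map_smul, hΘX]
    refine Prod.ext ?_ ?_
    · simp
    · show TV *ᵥ (π i *ᵥ Pi.single c 1) = t i • (π i *ᵥ Pi.single c 1)
      rw [Matrix.mulVec_mulVec, hTVπ, Matrix.smul_mulVec]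
  let Xc : Fin n → ℂ := fun a => (X c a : ℂ)
  have hXc : Xc ∈ Et := by
    rw [hEt]
    funext a
    have h3 := congrFun hTX a
    have h4 : (Tc *ᵥ Xc) a = (((T.map (Rat.cast : ℚ → ℝ) *ᵥ X c) a : ℝ) : ℂ) := by
      simp [Matrix.mulVec, dotProduct, hTc, Xc]
    rw [h4, h3]
    simp [Xc]
  have hXn : ‖Xc‖ ≤ ‖X c‖ := by
    rw [pi_norm_le_iff_of_nonneg (norm_nonneg _)]
    intro a
    rw [Complex.norm_real]
    exact norm_le_pi_norm (X c) a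
  have hfinal : ‖(S.R g).map (Int.cast : ℤ → ℝ) *ᵥ X c‖ ≤ K * (CB * (‖X c‖ * CD)) := by
    have h3 : ‖(S.R g).map (Int.cast : ℤ → ℝ) *ᵥ X c‖ ≤ ‖Rc *ᵥ Xc‖ := by
      rw [pi_norm_le_iff_of_nonneg (norm_nonneg _)]
      intro a
      have h4 := (map_re (S.R g) Xc a).1
      have h5 : (fun i => (Xc i).re) = X c := by
        funext i
        exact Complex.ofReal_re _
      rw [h5] at h4
      rw [← h4, Real.norm_eq_abs]
      exact (Complex.abs_re_le_norm _).trans (norm_le_pi_norm (Rc *ᵥ Xc) a)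
    refine h3.trans ((hmain Xc hXc).trans ?_)
    exact mul_le_mul_of_nonneg_left (mul_le_mul_of_nonneg_left
      (mul_le_mul_of_nonneg_right hXn hCD0) hCB0) K.2
  have hentry : (S.L g * π i) a c = (S.Θ ((S.R g).map (Int.cast : ℤ → ℝ) *ᵥ X c)).2 a := by
    rw [S.hΘ, hΘX]
    show (S.L g * π i) a c = (S.L g *ᵥ (π i *ᵥ Pi.single c 1)) a
    rw [Matrix.mulVec_mulVec, Matrix.mulVec_single_one]
    rfl
  rw [hentry]
  have h7 : |(S.Θ ((S.R g).map (Int.cast : ℤ → ℝ) *ᵥ X c)).2 a| ≤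
      ‖S.Θ ((S.R g).map (Int.cast : ℤ → ℝ) *ᵥ X c)‖ :=
    (norm_le_pi_norm (S.Θ ((S.R g).map (Int.cast : ℤ → ℝ) *ᵥ X c)).2 a).trans (norm_snd_le _)
  refine h7.trans ((hCΘ _).trans ((mul_le_mul_of_nonneg_left hfinal hCΘ0).trans ?_))
  exact Finset.single_le_sum (f := fun c => CΘ * (K * (CB * (‖X c‖ * CD))))
    (fun c _ => by positivity) (Finset.mem_univ c)

end TLK
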