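import Pool.Agent.TLK.B1

/-!
# [TLK-A7a] determinants on eigenspaces over a number field

PROOF. Let `b_1, …, b_N ∈ K^n` be a `K`-basis of `ker (T - θ) ⊆ K^n`. `R` commutes with `T`, so it preserves this kernel:
`R b_j = ∑_i D_ij b_i`, `D : Matrix (Fin N) (Fin N) K`, `x = det D`.
For `φ : K →+* ℂ` the vectors `φ(b_j) ∈ ℂ^n` are linearly independent over `ℂ` (a matrix over `K` has the same rank over `ℂ`; or: extend `b` to a basis
of `K^n`, the matrix `P` of the basis is invertible, so is `φ(P)`) and span `ker (T - φ θ)` (the dimension of the kernel is `n - rank (T - θ)`, and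
`rank (φ (T - θ)) = rank (T - θ)`; or: in the extended basis `P⁻¹ (T - θ) P` is zero on the first `N` coordinates and injective on the span
of the others, a condition expressed by a left inverse, preserved by `φ`). `R φ(b_j) = ∑ φ(D_ij) φ(b_i)`. So `IsEDet T R (φ θ) (φ x)`.
Integrality: choose `φ : K →+* ℂ` (exists for number fields). `φ x = det φ(D)` is the product of the roots of the characteristic polynomial of `φ(D)`
(`Matrix.det_eq_prod_roots_charpoly`). Every root `r` is an eigenvalue of `φ(D)`: `φ(D) c = r c`, `c ≠ 0`, so `y = ∑ c_j φ(b_j) ≠ 0` satisfies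
`R y = r y`; so `r` is a root of the characteristic polynomial of the integral matrix `R`, which is monic with integral
coefficients: `r` is integral over `ℤ`. So `φ x` is integral, and `x` is integral since `φ` is injective
(`isIntegral_algHom_iff`, `RingHom.toIntAlgHom`).
-/

open scoped Matrix

namespace TLK

/-- kernel data of a square matrix over a field, as matrix identities -/
theorem A7a_ker {K : Type} [Field K] {n : ℕ} (A : Matrix (Fin n) (Fin n) K) :
    ∃ (N : ℕ) (B : Matrix (Fin n) (Fin N) K) (C : Matrix (Fin N) (Fin n) K)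
      (Lf : Matrix (Fin n) (Fin n) K), A * B = 0 ∧ C * B = 1 ∧ Lf * A = 1 - B * C := by
  classical
  set a : (Fin n → K) →ₗ[K] (Fin n → K) := Matrix.toLin' A with ha
  set V := LinearMap.ker a with hV
  let b := Module.finBasis K V
  obtain ⟨p, hp⟩ := LinearMap.exists_leftInverse_of_injective V.subtype
    (by rw [LinearMap.ker_eq_bot]; exact Subtype.val_injective)
  have hinj : LinearMap.ker (V.liftQ a le_rfl) = ⊥ := Submodule.ker_liftQ_eq_bot _ _ _ le_rfl
  obtain ⟨h, hh⟩ := LinearMap.exists_leftInverse_of_injective (V.liftQ a le_rfl) hinj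
  set g : (Fin n → K) →ₗ[K] (Fin n → K) := LinearMap.id - V.subtype ∘ₗ p with hg
  have hgV : V ≤ LinearMap.ker g := by
    intro x hx
    rw [LinearMap.mem_ker, hg, LinearMap.sub_apply, LinearMap.comp_apply, LinearMap.id_apply]
    have h1 := LinearMap.congr_fun hp ⟨x, hx⟩
    simp only [LinearMap.comp_apply, Submodule.subtype_apply, LinearMap.id_apply] at h1
    rw [h1]
    simp
  set l : (Fin n → K) →ₗ[K] (Fin n → K) := (V.liftQ g hgV) ∘ₗ h with hl
  have hla : l ∘ₗ a = g := by
    ext1 i
    ext1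
    show l (a _) = _
    rw [hl, LinearMap.comp_apply]
    have h2 : a (LinearMap.single K (fun _ => K) i 1) =
        V.liftQ a le_rfl (V.mkQ (LinearMap.single K (fun _ => K) i 1)) := by
      rw [Submodule.mkQ_apply, Submodule.liftQ_apply]
    rw [h2]
    have h3 := LinearMap.congr_fun hh (V.mkQ (LinearMap.single K (fun _ => K) i 1))
    rw [LinearMap.comp_apply] at h3
    rw [h3, LinearMap.id_apply, Submodule.mkQ_apply, Submodule.liftQ_apply]
    rfl
  set β : (Fin (Module.finrank K V) → K) →ₗ[K] (Fin n → K) :=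
    V.subtype ∘ₗ b.equivFun.symm.toLinearMap with hβ
  set γ : (Fin n → K) →ₗ[K] (Fin (Module.finrank K V) → K) :=
    b.equivFun.toLinearMap ∘ₗ p with hγ
  have c1 : a ∘ₗ β = 0 := by
    apply LinearMap.ext
    intro x
    show a ((b.equivFun.symm x : V) : Fin n → K) = 0
    exact (b.equivFun.symm x).2
  have c2 : γ ∘ₗ β = LinearMap.id := by
    apply LinearMap.ext
    intro x
    show b.equivFun (p (V.subtype (b.equivFun.symm x))) = x
    have h1 := LinearMap.congr_fun hp (b.equivFun.symm x)
    rw [LinearMap.comp_apply] at h1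
    rw [h1, LinearMap.id_apply, LinearEquiv.apply_symm_apply]
  have c3 : β ∘ₗ γ = V.subtype ∘ₗ p := by
    apply LinearMap.ext
    intro x
    show ((b.equivFun.symm (b.equivFun (p x)) : V) : Fin n → K) = _
    rw [LinearEquiv.symm_apply_apply]
    rfl
  refine ⟨Module.finrank K V, LinearMap.toMatrix' β, LinearMap.toMatrix' γ,
    LinearMap.toMatrix' l, ?_, ?_, ?_⟩
  · have hA : A = LinearMap.toMatrix' a := by rw [ha, LinearMap.toMatrix'_toLin']
    rw [hA, ← LinearMap.toMatrix'_comp, c1, map_zero]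
  · rw [← LinearMap.toMatrix'_comp, c2, LinearMap.toMatrix'_id]
  · have hA : A = LinearMap.toMatrix' a := by rw [ha, LinearMap.toMatrix'_toLin']
    rw [hA, ← LinearMap.toMatrix'_comp, ← LinearMap.toMatrix'_comp, hla, c3, hg, map_sub,
      LinearMap.toMatrix'_id]

/-- a root of the characteristic polynomial has an eigenvector -/
theorem A7a_eig {N : ℕ} {D : Matrix (Fin N) (Fin N) ℂ} {r : ℂ} (h : D.charpoly.IsRoot r) :
    ∃ c : Fin N → ℂ, c ≠ 0 ∧ D *ᵥ c = r • c := by
  rw [Polynomial.IsRoot, Matrix.eval_charpoly, ← Matrix.exists_mulVec_eq_zero_iff] at h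
  obtain ⟨c, hc, h⟩ := h
  refine ⟨c, hc, ?_⟩
  rw [Matrix.sub_mulVec, sub_eq_zero, Matrix.scalar_apply, Matrix.diagonal_const_mulVec] at h
  exact h.symm

theorem A7a_root {N : ℕ} {D : Matrix (Fin N) (Fin N) ℂ} {r : ℂ} {c : Fin N → ℂ} (hc : c ≠ 0)
    (h : D *ᵥ c = r • c) : D.charpoly.IsRoot r := by
  rw [Polynomial.IsRoot, Matrix.eval_charpoly, ← Matrix.exists_mulVec_eq_zero_iff]
  refine ⟨c, hc, ?_⟩
  rw [Matrix.sub_mulVec, h, Matrix.scalar_apply, Matrix.diagonal_const_mulVec, sub_self]

theorem edet_field {n : ℕ} (T : Matrix (Fin n) (Fin n) ℚ) (R : Matrix (Fin n) (Fin n) ℤ)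
    (hTR : T * R.map (Int.cast : ℤ → ℚ) = R.map (Int.cast : ℤ → ℚ) * T)
    (K : Type) [Field K] [NumberField K] (θ : K) :
    ∃ x : K, IsIntegral ℤ x ∧ ∀ φ : K →+* ℂ, IsEDet T R (φ θ) (φ x) := by
  classical
  set RK : Matrix (Fin n) (Fin n) K := R.map (Int.cast : ℤ → K) with hRK
  set TK : Matrix (Fin n) (Fin n) K := T.map (Rat.cast : ℚ → K) with hTK
  obtain ⟨N, B, C, Lf, h1, h2, h3⟩ := A7a_ker (TK - Matrix.scalar (Fin n) θ)
  have hcomm : TK * RK = RK * TK := by
    have h4 := congrArg (fun M : Matrix (Fin n) (Fin n) ℚ => M.map (Rat.castHom K)) hTR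
    simp only [Matrix.map_mul] at h4
    have e1 : (R.map (Int.cast : ℤ → ℚ)).map (Rat.castHom K) = RK := by
      ext i j
      simp [hRK]
    have e2 : T.map (Rat.castHom K) = TK := by
      ext i j
      simp [hTK]
    rw [e1, e2] at h4
    exact h4
  have hAR : (TK - Matrix.scalar (Fin n) θ) * RK = RK * (TK - Matrix.scalar (Fin n) θ) := by
    rw [sub_mul, mul_sub, hcomm]
    congr 1
    exact (Matrix.scalar_commute θ (fun r => mul_comm _ _) RK).eq
  set D := C * RK * B with hD
  have hRB : RK * B = B * D := by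
    have h5 : (TK - Matrix.scalar (Fin n) θ) * (RK * B) = 0 := by
      rw [← Matrix.mul_assoc, hAR, Matrix.mul_assoc, h1, Matrix.mul_zero]
    have h6 : (1 - B * C) * (RK * B) = 0 := by
      rw [← h3, Matrix.mul_assoc, h5, Matrix.mul_zero]
    rw [Matrix.sub_mul, Matrix.one_mul, sub_eq_zero] at h6
    rw [hD, h6]
    simp only [Matrix.mul_assoc]
  -- identities over ℂ
  have key : ∀ φ : K →+* ℂ,
      (C.map φ * B.map φ = 1) ∧
      (R.map (Int.cast : ℤ → ℂ) * B.map φ = B.map φ * D.map φ) ∧
      ((T.map (Rat.cast : ℚ → ℂ) - Matrix.scalar (Fin n) (φ θ)) * B.map φ = 0) ∧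
      (Lf.map φ * (T.map (Rat.cast : ℚ → ℂ) - Matrix.scalar (Fin n) (φ θ)) =
        1 - B.map φ * C.map φ) := by
    intro φ
    have eR : RK.map φ = R.map (Int.cast : ℤ → ℂ) := by
      ext i j
      simp [hRK]
    have eT : (TK - Matrix.scalar (Fin n) θ).map φ =
        T.map (Rat.cast : ℚ → ℂ) - Matrix.scalar (Fin n) (φ θ) := by
      ext i j
      simp only [hTK, Matrix.map_apply, Matrix.sub_apply, Matrix.scalar_apply,
        Matrix.diagonal_apply, map_sub, map_ratCast]
      split_ifs <;> simp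
    refine ⟨?_, ?_, ?_, ?_⟩
    · rw [← Matrix.map_mul, h2]
      exact Matrix.map_one φ (map_zero φ) (map_one φ)
    · rw [← eR, ← Matrix.map_mul, ← Matrix.map_mul, hRB]
    · rw [← eT, ← Matrix.map_mul, h1]
      exact Matrix.map_zero φ (map_zero φ)
    · rw [← eT, ← Matrix.map_mul, h3, ← Matrix.map_mul]
      ext i j
      simp only [Matrix.map_apply, Matrix.sub_apply, map_sub, Matrix.one_apply]
      split_ifs <;> simp
  refine ⟨D.det, ?_, ?_⟩
  · -- integrality
    obtain ⟨φ⟩ : Nonempty (K →+* ℂ) := inferInstance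
    obtain ⟨k1, k2, k3, k4⟩ := key φ
    have hinj : Function.Injective φ := φ.injective
    have hφ : IsIntegral ℤ (φ D.det) := by
      rw [RingHom.map_det]
      have e1 : φ.mapMatrix D = D.map φ := rfl
      rw [e1, Matrix.det_eq_prod_roots_charpoly]
      refine IsIntegral.multiset_prod ?_
      intro r hr
      have hr' : (D.map φ).charpoly.IsRoot r := Polynomial.isRoot_of_mem_roots hr
      obtain ⟨c, hc, hDc⟩ := A7a_eig hr'
      have hy : R.map (Int.cast : ℤ → ℂ) *ᵥ (B.map φ *ᵥ c) = r • (B.map φ *ᵥ c) := by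
        rw [Matrix.mulVec_mulVec, k2, ← Matrix.mulVec_mulVec, hDc, Matrix.mulVec_smul]
      have hy0 : B.map φ *ᵥ c ≠ 0 := by
        intro h0
        apply hc
        have h7 : C.map φ *ᵥ (B.map φ *ᵥ c) = 0 := by rw [h0, Matrix.mulVec_zero]
        rw [Matrix.mulVec_mulVec, k1, Matrix.one_mulVec] at h7
        exact h7
      have hroot := A7a_root hy0 hy
      refine ⟨R.charpoly, R.charpoly_monic, ?_⟩
      have e2 : (R.map (Int.cast : ℤ → ℂ)).charpoly = R.charpoly.map (Int.castRingHom ℂ) := by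
        have := Matrix.charpoly_map R (Int.castRingHom ℂ)
        exact this
      rw [e2, Polynomial.IsRoot, Polynomial.eval_map] at hroot
      exact hroot
    obtain ⟨q, hq, hq2⟩ := hφ
    refine ⟨q, hq, ?_⟩
    apply hinj
    rw [map_zero, Polynomial.hom_eval₂]
    have e3 : φ.comp (algebraMap ℤ K) = algebraMap ℤ ℂ := RingHom.ext_int _ _
    rw [e3]
    exact hq2
  · intro φ
    obtain ⟨k1, k2, k3, k4⟩ := key φ
    have hcol : ∀ c : Fin N → ℂ, ∑ j, c j • (fun i => (B.map φ) i j) = B.map φ *ᵥ c := by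
      intro c
      ext i
      simp only [Finset.sum_apply, Pi.smul_apply, smul_eq_mul, Matrix.mulVec, dotProduct]
      exact Finset.sum_congr rfl fun j _ => mul_comm _ _
    refine ⟨N, fun j i => (B.map φ) i j, D.map φ, ?_, ?_, ?_, ?_⟩
    · rw [Fintype.linearIndependent_iff]
      intro c hc j
      rw [hcol c] at hc
      have h7 : C.map φ *ᵥ (B.map φ *ᵥ c) = 0 := by rw [hc, Matrix.mulVec_zero]
      rw [Matrix.mulVec_mulVec, k1, Matrix.one_mulVec] at h7
      rw [h7]
      rfl
    · intro x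
      constructor
      · intro hx
        have h8 : (T.map (Rat.cast : ℚ → ℂ) - Matrix.scalar (Fin n) (φ θ)) *ᵥ x = 0 := by
          rw [Matrix.sub_mulVec, hx, Matrix.scalar_apply, Matrix.diagonal_const_mulVec, sub_self]
        have h9 : (1 - B.map φ * C.map φ) *ᵥ x = 0 := by
          rw [← k4, ← Matrix.mulVec_mulVec, h8, Matrix.mulVec_zero]
        rw [Matrix.sub_mulVec, Matrix.one_mulVec, sub_eq_zero, ← Matrix.mulVec_mulVec] at h9
        rw [h9, ← hcol]
        exact Submodule.sum_mem _ fun j _ =>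
          Submodule.smul_mem _ _ (Submodule.subset_span ⟨j, rfl⟩)
      · intro hx
        rw [Submodule.mem_span_range_iff_exists_fun] at hx
        obtain ⟨c, rfl⟩ := hx
        rw [hcol c]
        have h8 : (T.map (Rat.cast : ℚ → ℂ) - Matrix.scalar (Fin n) (φ θ)) *ᵥ
            (B.map φ *ᵥ c) = 0 := by
          rw [Matrix.mulVec_mulVec, k3, Matrix.zero_mulVec]
        rw [Matrix.sub_mulVec, Matrix.scalar_apply, Matrix.diagonal_const_mulVec,
          sub_eq_zero] at h8
        exact h8
    · intro j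
      have h8 := congrArg (fun M : Matrix (Fin n) (Fin N) ℂ => fun i => M i j) k2
      have e1 : (fun i => (R.map (Int.cast : ℤ → ℂ) * B.map φ) i j) =
          R.map (Int.cast : ℤ → ℂ) *ᵥ fun i => (B.map φ) i j := by
        ext i
        simp [Matrix.mul_apply, Matrix.mulVec, dotProduct]
      have e2 : (fun i => (B.map φ * D.map φ) i j) =
          ∑ i, (D.map φ) i j • fun i' => (B.map φ) i' i := by
        rw [hcol fun i => (D.map φ) i j]
        ext i
        simp [Matrix.mul_apply, Matrix.mulVec, dotProduct]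
      rw [← e1, ← e2]
      exact h8
    · rw [RingHom.map_det]
      rfl

end TLK
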