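import Pool.Agent.TLK.A6c

/-!
# [TLK-A7b] the absolute value of the determinant on an eigenspace

`IsEDet T (S.R g) s d` with basis `b_j` of `E_s = ker (T - s)`, `R b_j = ∑ D_ij b_i`, `d = det D`.

PROOF of `edet_nonreal` (`s` not real). For `x = u + i w ∈ E_s` put `h(x, x') = ⟪(Θ u).1 + i (Θ w).1, …⟫` where we use the real inner product
`b(u, u') = Re ⟪(Θ u).1, (Θ u').1⟫` and its sesquilinear extension `h(u + i w, u' + i w') = b(u,u') + b(w,w') + i (b(w,u') - b(u,w'))`.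
`h(x, x) = ‖(Θ u).1‖² + ‖(Θ w).1‖²`; on `E_s` it is positive definite: if it vanishes then `Θ u = Θ w = 0` by `nonreal_part`. `b(R g u, R g u') = lam² b(u, u')`
(`A g` is complex linear and multiplies norms by `lam`: polarization). So the Gram matrix `M_jk = h(b_j, b_k)` is invertible (positive definite on linearly
independent vectors) and `Dᵀ M conj(D) = lam² M`. Determinants: `|det D|² = lam ^ (2 N)`, so `‖d‖ = lam ^ N`; `N ≤ n` (linear independence).

PROOF of `edet_real` (`s = t_j`). `E_s` consists of the `x = u + i w` with `(Θ u).1 = (Θ w).1 = 0`, `π_j` fixing `(Θ u).2, (Θ w).2` (`real_eigen`; conversely such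
`x` are in `E_s`, since `TV π_j = t_j π_j`). Let `v_1, …, v_N'` be a real basis of the range of `π_j`, `x_a = Θ⁻¹ (0, v_a)`: a complex basis of `E_s`,
`L g v_a = ∑ D'_{ba} v_b` (real), `R g x_a = ∑ D'_{ba} x_b`. Change of basis: `N = N'`, `det D = det D'`. Completing `v_a` by a basis of the kernel of `π_j`
the matrix `1 - π_j + L g π_j` becomes block diagonal `(D', 1)`: `dt (π j) (L g) = det D'`. (Alternative: compare the complex linear maps on `E_s`:
`LinearMap.det` is independent of the basis.)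
-/

open scoped Matrix

namespace TLK

variable {n p m : ℕ} {G : Type} [Group G]

/-- real part of a vector -/
def A7b_re {n : ℕ} (x : Fin n → ℂ) : Fin n → ℝ := fun i => (x i).re

/-- imaginary part of a vector -/
def A7b_im {n : ℕ} (x : Fin n → ℂ) : Fin n → ℝ := fun i => (x i).im

theorem A7b_re_add {n : ℕ} (x y : Fin n → ℂ) : A7b_re (x + y) = A7b_re x + A7b_re y := rfl

theorem A7b_im_add {n : ℕ} (x y : Fin n → ℂ) : A7b_im (x + y) = A7b_im x + A7b_im y := rfl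

theorem A7b_re_smul {n : ℕ} (c : ℂ) (x : Fin n → ℂ) :
    A7b_re (c • x) = c.re • A7b_re x - c.im • A7b_im x := by
  ext i
  simp [A7b_re, A7b_im, Complex.mul_re]

theorem A7b_im_smul {n : ℕ} (c : ℂ) (x : Fin n → ℂ) :
    A7b_im (c • x) = c.re • A7b_im x + c.im • A7b_re x := by
  ext i
  simp [A7b_re, A7b_im, Complex.mul_im]

theorem A7b_re_mul {n : ℕ} (R : Matrix (Fin n) (Fin n) ℤ) (x : Fin n → ℂ) :
    A7b_re (R.map (Int.cast : ℤ → ℂ) *ᵥ x) = R.map (Int.cast : ℤ → ℝ) *ᵥ A7b_re x := by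
  ext i
  simp only [A7b_re, Matrix.mulVec, dotProduct, Matrix.map_apply, Complex.re_sum]
  refine Finset.sum_congr rfl fun j _ => ?_
  simp [Complex.mul_re]

theorem A7b_im_mul {n : ℕ} (R : Matrix (Fin n) (Fin n) ℤ) (x : Fin n → ℂ) :
    A7b_im (R.map (Int.cast : ℤ → ℂ) *ᵥ x) = R.map (Int.cast : ℤ → ℝ) *ᵥ A7b_im x := by
  ext i
  simp only [A7b_im, Matrix.mulVec, dotProduct, Matrix.map_apply, Complex.im_sum]
  refine Finset.sum_congr rfl fun j _ => ?_
  simp [Complex.mul_im]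

theorem A7b_zero {n : ℕ} {x : Fin n → ℂ} (h1 : A7b_re x = 0) (h2 : A7b_im x = 0) : x = 0 := by
  ext i
  have e1 := congrFun h1 i
  have e2 := congrFun h2 i
  simp only [A7b_re, A7b_im, Pi.zero_apply] at e1 e2
  exact Complex.ext e1 e2

/-- the norm identity -/
theorem A7b_norm {p : ℕ} (P Q : CP p) (a b : ℝ) :
    ‖a • P - b • Q‖ ^ 2 + ‖a • Q + b • P‖ ^ 2 = (a ^ 2 + b ^ 2) * (‖P‖ ^ 2 + ‖Q‖ ^ 2) := by
  have e1 : a • P = (a : ℂ) • P := (Complex.coe_smul a P).symm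
  have e2 : b • Q = (b : ℂ) • Q := (Complex.coe_smul b Q).symm
  have e3 : a • Q = (a : ℂ) • Q := (Complex.coe_smul a Q).symm
  have e4 : b • P = (b : ℂ) • P := (Complex.coe_smul b P).symm
  rw [e1, e2, e3, e4, norm_sub_sq (𝕜 := ℂ), norm_add_sq (𝕜 := ℂ)]
  simp only [inner_smul_left, inner_smul_right, norm_smul, Complex.conj_ofReal, Complex.norm_real, Real.norm_eq_abs]
  have h1 : RCLike.re ((b : ℂ) * ((a : ℂ) * inner ℂ P Q)) = a * b * (inner ℂ P Q).re := by
    simp; ring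
  have h2 : RCLike.re ((b : ℂ) * ((a : ℂ) * inner ℂ Q P)) = a * b * (inner ℂ P Q).re := by
    have h3 : (inner ℂ Q P).re = (inner ℂ P Q).re := by
      rw [← inner_conj_symm Q P, Complex.conj_re]
    rw [← h3]
    simp; ring
  rw [h1, h2]
  rw [mul_pow, mul_pow, mul_pow, mul_pow, sq_abs, sq_abs]
  ring

/-- the complexified second component -/
noncomputable def A7b_V {n p m : ℕ} (Θ : (Fin n → ℝ) ≃ₗ[ℝ] CP p × (Fin m → ℝ)) :
    (Fin n → ℂ) →ₗ[ℂ] (Fin m → ℂ) where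
  toFun x := fun k => ((Θ (A7b_re x)).2 k : ℂ) + Complex.I * ((Θ (A7b_im x)).2 k : ℂ)
  map_add' x y := by
    ext k
    rw [A7b_re_add, A7b_im_add]
    simp only [map_add, Prod.snd_add, Pi.add_apply, Complex.ofReal_add]
    ring
  map_smul' c x := by
    ext k
    rw [A7b_re_smul, A7b_im_smul]
    simp only [map_add, map_sub, map_smul, Prod.snd_add, Prod.snd_sub, Prod.smul_snd, Pi.add_apply, Pi.sub_apply,
      Pi.smul_apply, smul_eq_mul, Complex.ofReal_add, Complex.ofReal_sub, Complex.ofReal_mul, RingHom.id_apply]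
    have hc : c = (c.re : ℂ) + c.im * Complex.I := (Complex.re_add_im c).symm
    have hI : Complex.I * Complex.I = -1 := Complex.I_mul_I
    conv_rhs => rw [hc]
    linear_combination (-(c.im : ℂ) * ((Θ (A7b_im x)).2 k : ℂ)) * hI

theorem A7b_eig {n N : ℕ} {b : Fin N → Fin n → ℂ} {D : Matrix (Fin N) (Fin N) ℂ} {R : Matrix (Fin n) (Fin n) ℤ}
    (hR : ∀ j, R.map (Int.cast : ℤ → ℂ) *ᵥ b j = ∑ i, D i j • b i) (c : Fin N → ℂ) :
    R.map (Int.cast : ℤ → ℂ) *ᵥ (∑ j, c j • b j) = ∑ i, (D *ᵥ c) i • b i := by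
  rw [Matrix.mulVec_sum]
  simp_rw [Matrix.mulVec_smul, hR, Finset.smul_sum, smul_smul]
  rw [Finset.sum_comm]
  refine Finset.sum_congr rfl fun i _ => ?_
  rw [← Finset.sum_smul]
  congr 1
  rw [Matrix.mulVec, dotProduct]
  exact Finset.sum_congr rfl fun j _ => mul_comm _ _

theorem Setting.edet_nonreal (S : Setting n p m G)
    {T : Matrix (Fin n) (Fin n) ℚ} {TP : CP p →ₗ[ℝ] CP p} {TV : Matrix (Fin m) (Fin m) ℝ}
    (hT : S.TD T TP TV) {k : ℕ} {t : Fin k → ℝ} {π : Fin k → Matrix (Fin m) (Fin m) ℝ}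
    (hS : Spec TV t π) {s d : ℂ} (hs : s.im ≠ 0) {g : G} (hd : IsEDet T (S.R g) s d) :
    ∃ N ≤ n, ‖d‖ = S.lam g ^ N := by
  obtain ⟨N, b, D, hb, hE, hR, rfl⟩ := hd
  refine ⟨N, ?_, ?_⟩
  · have h := hb.fintype_card_le_finrank
    simpa using h
  have key : ∀ μ ∈ D.charpoly.roots, ‖μ‖ = S.lam g := by
    intro μ hμ
    have hroot : D.charpoly.IsRoot μ := (Polynomial.mem_roots'.1 hμ).2
    obtain ⟨c, hc0, hc⟩ : ∃ c : Fin N → ℂ, c ≠ 0 ∧ D *ᵥ c = μ • c := by
      have h1 : (Matrix.scalar (Fin N) μ - D).det = 0 := by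
        rw [Polynomial.IsRoot, Matrix.eval_charpoly] at hroot
        exact hroot
      obtain ⟨c, hc0, hc⟩ := Matrix.exists_mulVec_eq_zero_iff.2 h1
      refine ⟨c, hc0, ?_⟩
      rw [Matrix.sub_mulVec, sub_eq_zero] at hc
      rw [← hc]
      ext i
      simp [Matrix.scalar_apply, Matrix.mulVec_diagonal]
    obtain ⟨x, hxd⟩ : ∃ x : Fin n → ℂ, x = ∑ j, c j • b j := ⟨_, rfl⟩
    have hxne : x ≠ 0 := by
      intro h0
      rw [hxd] at h0
      exact hc0 (funext fun i => (Fintype.linearIndependent_iff.1 hb) c h0 i)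
    have hxE : T.map (Rat.cast : ℚ → ℂ) *ᵥ x = s • x := by
      rw [hE, hxd]
      exact Submodule.sum_mem _ fun j _ => Submodule.smul_mem _ _ (Submodule.subset_span ⟨j, rfl⟩)
    have hxR : (S.R g).map (Int.cast : ℤ → ℂ) *ᵥ x = μ • x := by
      rw [hxd, A7b_eig hR, hc, Finset.smul_sum]
      exact Finset.sum_congr rfl fun i _ => by rw [Pi.smul_apply, smul_assoc]
    obtain ⟨v1, v2⟩ := S.nonreal_part hT hS hs hxE
    change (S.Θ (A7b_re x)).2 = 0 at v1
    change (S.Θ (A7b_im x)).2 = 0 at v2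
    have hpos : 0 < ‖(S.Θ (A7b_re x)).1‖ ^ 2 + ‖(S.Θ (A7b_im x)).1‖ ^ 2 := by
      by_contra hn
      have hz1 : ‖(S.Θ (A7b_re x)).1‖ ^ 2 = 0 := by
        have := sq_nonneg ‖(S.Θ (A7b_re x)).1‖
        have := sq_nonneg ‖(S.Θ (A7b_im x)).1‖
        linarith
      have hz2 : ‖(S.Θ (A7b_im x)).1‖ ^ 2 = 0 := by
        have := sq_nonneg ‖(S.Θ (A7b_re x)).1‖
        have := sq_nonneg ‖(S.Θ (A7b_im x)).1‖
        linarith
      have w1 : (S.Θ (A7b_re x)).1 = 0 := norm_eq_zero.1 (pow_eq_zero_iff (two_ne_zero) |>.1 hz1)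
      have w2 : (S.Θ (A7b_im x)).1 = 0 := norm_eq_zero.1 (pow_eq_zero_iff (two_ne_zero) |>.1 hz2)
      have y1 : A7b_re x = 0 := (LinearEquiv.map_eq_zero_iff S.Θ).1 (Prod.ext w1 v1)
      have y2 : A7b_im x = 0 := (LinearEquiv.map_eq_zero_iff S.Θ).1 (Prod.ext w2 v2)
      exact hxne (A7b_zero y1 y2)
    have e1 : (S.Θ (A7b_re ((S.R g).map (Int.cast : ℤ → ℂ) *ᵥ x))).1 = S.A g (S.Θ (A7b_re x)).1 := by
      rw [A7b_re_mul, S.hΘ]
    have e2 : (S.Θ (A7b_im ((S.R g).map (Int.cast : ℤ → ℂ) *ᵥ x))).1 = S.A g (S.Θ (A7b_im x)).1 := by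
      rw [A7b_im_mul, S.hΘ]
    rw [hxR, A7b_re_smul, map_sub, map_smul, map_smul, Prod.fst_sub, Prod.smul_fst, Prod.smul_fst] at e1
    rw [hxR, A7b_im_smul, map_add, map_smul, map_smul, Prod.fst_add, Prod.smul_fst, Prod.smul_fst] at e2
    have e3 := A7b_norm (S.Θ (A7b_re x)).1 (S.Θ (A7b_im x)).1 μ.re μ.im
    rw [e1, e2, S.norm_A, S.norm_A, mul_pow, mul_pow, ← mul_add] at e3
    have e4 : S.lam g ^ 2 = μ.re ^ 2 + μ.im ^ 2 := mul_right_cancel₀ hpos.ne' e3
    have e5 : ‖μ‖ ^ 2 = μ.re ^ 2 + μ.im ^ 2 := by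
      rw [Complex.sq_norm, Complex.normSq_apply]; ring
    rw [← e4] at e5
    exact (pow_left_inj₀ (norm_nonneg _) (S.lam_pos g).le two_ne_zero).1 e5
  rw [Matrix.det_eq_prod_roots_charpoly]
  have hcard : Multiset.card D.charpoly.roots = N := by
    rw [IsAlgClosed.card_roots_eq_natDegree, Matrix.charpoly_natDegree_eq_dim, Fintype.card_fin]
  have gen : ∀ M : Multiset ℂ, (∀ μ ∈ M, ‖μ‖ = S.lam g) → ‖M.prod‖ = S.lam g ^ Multiset.card M := by
    intro M
    induction M using Multiset.induction with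
    | empty => intro _; simp
    | cons a M ih =>
      intro h
      rw [Multiset.prod_cons, norm_mul, h a (Multiset.mem_cons_self a M),
        ih fun μ hμ => h μ (Multiset.mem_cons_of_mem hμ), Multiset.card_cons, pow_succ, mul_comm]
  have h := gen _ key
  rw [hcard] at h
  exact h

theorem Setting.edet_real (S : Setting n p m G)
    {T : Matrix (Fin n) (Fin n) ℚ} {TP : CP p →ₗ[ℝ] CP p} {TV : Matrix (Fin m) (Fin m) ℝ}
    (hT : S.TD T TP TV) {k : ℕ} {t : Fin k → ℝ} {π : Fin k → Matrix (Fin m) (Fin m) ℝ}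
    (hS : Spec TV t π) {j : Fin k} {d : ℂ} {g : G} (hd : IsEDet T (S.R g) (t j) d) :
    ‖d‖ = |dt (π j) (S.L g)| := by
  obtain ⟨N, b, D, hb, hE, hR, rfl⟩ := hd
  -- the complex matrix of the vectors V (b i)
  have hVE : ∀ x : Fin n → ℂ, T.map (Rat.cast : ℚ → ℂ) *ᵥ x = (t j : ℂ) • x → x ≠ 0 →
      (S.Θ (A7b_re x)).1 = 0 ∧ (S.Θ (A7b_im x)).1 = 0 ∧
      π j *ᵥ (S.Θ (A7b_re x)).2 = (S.Θ (A7b_re x)).2 ∧ π j *ᵥ (S.Θ (A7b_im x)).2 = (S.Θ (A7b_im x)).2 := by
    intro x hx hx0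
    obtain ⟨j', hj', h1, h2, h3, h4⟩ := S.real_eigen hT hS (Complex.ofReal_im _) hx0 hx
    have hjj : j = j' := hS.inj (Complex.ofReal_injective hj')
    subst hjj
    exact ⟨h1, h2, h3, h4⟩
  have hinj : ∀ x : Fin n → ℂ, T.map (Rat.cast : ℚ → ℂ) *ᵥ x = (t j : ℂ) • x → A7b_V S.Θ x = 0 → x = 0 := by
    intro x hx hV
    by_contra hx0
    obtain ⟨h1, h2, -, -⟩ := hVE x hx hx0
    have h3 : (S.Θ (A7b_re x)).2 = 0 := by
      ext k
      have := congrArg Complex.re (congrFun hV k)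
      simpa [A7b_V] using this
    have h4 : (S.Θ (A7b_im x)).2 = 0 := by
      ext k
      have := congrArg Complex.im (congrFun hV k)
      simpa [A7b_V] using this
    exact hx0 (A7b_zero ((LinearEquiv.map_eq_zero_iff S.Θ).1 (Prod.ext h1 h3))
      ((LinearEquiv.map_eq_zero_iff S.Θ).1 (Prod.ext h2 h4)))
  obtain ⟨Vm, hVm⟩ : ∃ Vm : Matrix (Fin m) (Fin N) ℂ, ∀ a i, Vm a i = A7b_V S.Θ (b i) a :=
    ⟨Matrix.of fun a i => A7b_V S.Θ (b i) a, fun a i => rfl⟩
  have hVc : ∀ c : Fin N → ℂ, Vm *ᵥ c = A7b_V S.Θ (∑ i, c i • b i) := by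
    intro c
    ext a
    rw [map_sum, Finset.sum_apply, Matrix.mulVec, dotProduct]
    refine Finset.sum_congr rfl fun i _ => ?_
    rw [hVm, map_smul, Pi.smul_apply, smul_eq_mul, mul_comm]
  have hbE : ∀ i, T.map (Rat.cast : ℚ → ℂ) *ᵥ b i = (t j : ℂ) • b i := fun i =>
    (hE _).2 (Submodule.subset_span ⟨i, rfl⟩)
  have hVinj : ∀ c : Fin N → ℂ, Vm *ᵥ c = 0 → c = 0 := by
    intro c hc
    rw [hVc] at hc
    have h1 := hinj _ ((hE _).2 (Submodule.sum_mem _ fun i _ => Submodule.smul_mem _ _ (Submodule.subset_span ⟨i, rfl⟩))) hc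
    exact funext fun i => (Fintype.linearIndependent_iff.1 hb) c h1 i
  -- π Vm = Vm
  have hπV : (π j).map (Complex.ofReal : ℝ → ℂ) * Vm = Vm := by
    ext a i
    rw [Matrix.mul_apply]
    have hb0 : b i ≠ 0 := hb.ne_zero i
    obtain ⟨-, -, h3, h4⟩ := hVE (b i) (hbE i) hb0
    have h3' := congrFun h3 a
    have h4' := congrFun h4 a
    rw [Matrix.mulVec, dotProduct] at h3' h4'
    simp only [hVm, A7b_V, LinearMap.coe_mk, AddHom.coe_mk, Matrix.map_apply]
    rw [← h3', ← h4']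
    push_cast
    rw [Finset.mul_sum, ← Finset.sum_add_distrib]
    refine Finset.sum_congr rfl fun k _ => ?_
    ring
  -- L Vm = Vm D
  have hLV : (S.L g).map (Complex.ofReal : ℝ → ℂ) * Vm = Vm * D := by
    ext a i
    have h1 : A7b_V S.Θ ((S.R g).map (Int.cast : ℤ → ℂ) *ᵥ b i) a = ∑ k, (S.L g a k : ℂ) * A7b_V S.Θ (b i) k := by
      simp only [A7b_V, LinearMap.coe_mk, AddHom.coe_mk]
      rw [A7b_re_mul, A7b_im_mul, S.hΘ, S.hΘ]
      simp only [Matrix.mulVec, dotProduct]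
      push_cast
      rw [Finset.mul_sum, ← Finset.sum_add_distrib]
      refine Finset.sum_congr rfl fun k _ => ?_
      ring
    rw [hR, map_sum, Finset.sum_apply] at h1
    rw [Matrix.mul_apply, Matrix.mul_apply]
    simp only [hVm, Matrix.map_apply]
    rw [← h1]
    refine Finset.sum_congr rfl fun l _ => ?_
    rw [map_smul, Pi.smul_apply, smul_eq_mul, mul_comm]
  -- π = Vm U
  have hTV : ∀ v : Fin m → ℝ, TV *ᵥ (π j *ᵥ v) = t j • (π j *ᵥ v) := by
    intro v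
    rw [Matrix.mulVec_mulVec, hS.eq, Matrix.sum_mul, Finset.sum_eq_single j]
    · rw [Matrix.smul_mul, hS.mul_self, Matrix.smul_mulVec]
    · intro i _ hij
      rw [Matrix.smul_mul, hS.mul_ne i j hij, smul_zero]
    · intro h; exact absurd (Finset.mem_univ j) h
  have hU : ∃ U : Matrix (Fin N) (Fin m) ℂ, (π j).map (Complex.ofReal : ℝ → ℂ) = Vm * U := by
    have hcol : ∀ a : Fin m, ∃ c : Fin N → ℂ, ∀ l, ((π j l a : ℝ) : ℂ) = (Vm *ᵥ c) l := by
      intro a
      obtain ⟨v, hv⟩ : ∃ v : Fin m → ℝ, v = π j *ᵥ Pi.single a 1 := ⟨_, rfl⟩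
      obtain ⟨y, hy⟩ : ∃ y : Fin n → ℝ, y = S.Θ.symm (0, v) := ⟨_, rfl⟩
      have hΘy : S.Θ y = (0, v) := by rw [hy]; exact S.Θ.apply_symm_apply _
      have hTy : T.map (Rat.cast : ℚ → ℝ) *ᵥ y = t j • y := by
        apply S.Θ.injective
        rw [hT.eq, map_smul, hΘy]
        simp only [map_zero, Prod.smul_mk, smul_zero]
        rw [hv, hTV]
      obtain ⟨x, hx⟩ : ∃ x : Fin n → ℂ, x = fun i => (y i : ℂ) := ⟨_, rfl⟩
      have hxE : T.map (Rat.cast : ℚ → ℂ) *ᵥ x = (t j : ℂ) • x := by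
        ext i
        have h1 := congrArg (Complex.ofReal) (congrFun hTy i)
        rw [hx]
        simp only [Matrix.mulVec, dotProduct, Matrix.map_apply, Pi.smul_apply, smul_eq_mul] at h1 ⊢
        push_cast at h1
        exact h1
      have hxs := (hE x).1 hxE
      rw [Submodule.mem_span_range_iff_exists_fun] at hxs
      obtain ⟨c, hc⟩ := hxs
      refine ⟨c, fun l => ?_⟩
      rw [hVc, hc]
      have r1 : A7b_re x = y := by rw [hx]; ext i; simp [A7b_re]
      have r2 : A7b_im x = 0 := by rw [hx]; ext i; simp [A7b_im]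
      simp only [A7b_V, LinearMap.coe_mk, AddHom.coe_mk]
      rw [r1, r2, hΘy, map_zero]
      simp [hv, Matrix.mulVec_single]
    choose c hc using hcol
    refine ⟨Matrix.of fun i a => c a i, ?_⟩
    ext l a
    rw [Matrix.map_apply, Matrix.mul_apply]
    rw [hc a l, Matrix.mulVec, dotProduct]
    rfl
  obtain ⟨U, hU⟩ := hU
  have hUV : U * Vm = 1 := by
    have h1 : Vm * (U * Vm) = Vm := by rw [← Matrix.mul_assoc, ← hU, hπV]
    have h2 : ∀ i, (U * Vm - 1) *ᵥ Pi.single i 1 = 0 := by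
      intro i
      apply hVinj
      rw [Matrix.mulVec_mulVec, Matrix.mul_sub, h1, Matrix.mul_one, sub_self, Matrix.zero_mulVec]
    have h3 : U * Vm - 1 = 0 := by
      ext a i
      have := congrFun (h2 i) a
      simpa [Matrix.mulVec_single] using this
    exact sub_eq_zero.1 h3
  have hfin : ((1 - π j + S.L g * π j).map (Complex.ofReal : ℝ → ℂ)).det = D.det := by
    have e1 : (1 - π j + S.L g * π j).map (Complex.ofReal : ℝ → ℂ) = 1 + (Vm * (D - 1)) * U := by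
      have e2 : (1 - π j + S.L g * π j).map (Complex.ofReal : ℝ → ℂ) =
        1 - (π j).map (Complex.ofReal : ℝ → ℂ) + (S.L g).map (Complex.ofReal : ℝ → ℂ) * (π j).map (Complex.ofReal : ℝ → ℂ) := by
        ext a i
        simp only [Matrix.map_apply, Matrix.add_apply, Matrix.sub_apply, Matrix.mul_apply]
        push_cast
        congr 2
        by_cases h : a = i
        · subst h; simp
        · simp [h]
      rw [e2, hU, ← Matrix.mul_assoc, hLV, Matrix.mul_sub, Matrix.mul_one, Matrix.sub_mul]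
      abel
    rw [e1, Matrix.det_one_add_mul_comm, ← Matrix.mul_assoc, hUV, Matrix.one_mul, add_sub_cancel]
  rw [← hfin, dt]
  have e3 : ((1 - π j + S.L g * π j).map (Complex.ofReal : ℝ → ℂ)).det = (((1 - π j + S.L g * π j).det : ℝ) : ℂ) :=
    ((Complex.ofRealHom).map_det (1 - π j + S.L g * π j)).symm
  rw [e3, Complex.norm_real, Real.norm_eq_abs]

end TLK
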