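import Pool.Agent.TLK.A7a
import Pool.Agent.TLK.A7b

/-!
# [TLK-A7c] property (Fin) for `L`

PROOF. Fix `i`; `t_i` is algebraic (`exists_conj`, with `v ≠ 0`, `π_i v = v`, `TV v = t_i v`). `K = IntermediateField.adjoin ℚ {(t i : ℂ)}`, a number field
(finite dimensional because `t_i` is integral over `ℚ`), `θ` its generator. For `g : G` let `x(g) ∈ K` be the element of `edet_field T (S.R g)` (`TD.comm`).
Let `g` satisfy `c⁻¹ ≤ |dt (π j) (L g)| ≤ c` for all `j` (then `c ≥ 1` if `k > 0`). By `dt_prod` (hypothesis `hdt`) and `det_rel`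
`lam g ^ (2 p) = ∏_j |dt (π j) (L g)|⁻¹ ≤ c ^ k`, so `lam g ≤ max 1 (c^k) =: M`. For every `φ : K →+* ℂ`, `s = φ θ`, `IsEDet T (S.R g) s (φ (x g))`:
if `s` is not real, `‖φ (x g)‖ = lam g ^ N ≤ M ^ n` (`edet_nonreal`). If `s` is real and `ker (T - s) ≠ 0` then `s = t_j` for some `j` (`real_eigen`) and
`‖φ (x g)‖ = |dt (π j) (L g)| ≤ c` (`edet_real`). If `ker (T - s) = 0` the basis is empty and `φ (x g) = 1`.
So all conjugates of the integral element `x(g)` are bounded: `x(g)` lies in a finite set `F_i` (`NumberField.Embeddings.finite_of_norm_le`). With the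
inclusion `φ : K → ℂ`: `|dt (π i) (L g)| = ‖φ (x g)‖` (`edet_real`) lies in a finite set. So the vectors lie in a finite product of finite sets.
-/

open scoped Matrix

namespace TLK

variable {n p m : ℕ} {G : Type} [Group G]

theorem exists_fix {m k : ℕ} {π : Fin k → Matrix (Fin m) (Fin m) ℝ} {TV : Matrix (Fin m) (Fin m) ℝ}
    {t : Fin k → ℝ} (hS : Spec TV t π) (i : Fin k) :
    ∃ v : Fin m → ℝ, v ≠ 0 ∧ TV *ᵥ v = t i • v := by
  have h1 : ∃ w : Fin m → ℝ, π i *ᵥ w ≠ 0 := by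
    by_contra hcon
    push Not at hcon
    apply hS.ne i
    ext a b
    have := congrFun (hcon (Pi.single b 1)) a
    rwa [Matrix.mulVec_single_one] at this
  obtain ⟨w, hw⟩ := h1
  refine ⟨π i *ᵥ w, hw, ?_⟩
  rw [hS.eq, Matrix.mulVec_mulVec, Finset.sum_mul, Finset.sum_eq_single i]
  · rw [Matrix.smul_mul, hS.mul_self, Matrix.smul_mulVec]
  · intro j _ hj
    rw [Matrix.smul_mul, hS.mul_ne j i hj, smul_zero]
  · exact fun h => absurd (Finset.mem_univ i) h

theorem Setting.fin_bound (S : Setting n p m G) (hp : 0 < p)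
    (hdt : ∀ (k : ℕ) (π : Fin k → Matrix (Fin m) (Fin m) ℝ), Idem π →
      ∀ X : Matrix (Fin m) (Fin m) ℝ, (∀ i, π i * X = X * π i) → ∏ i, dt (π i) X = X.det)
    {T : Matrix (Fin n) (Fin n) ℚ} {TP : CP p →ₗ[ℝ] CP p} {TV : Matrix (Fin m) (Fin m) ℝ}
    (hT : S.TD T TP TV) {k : ℕ} {t : Fin k → ℝ} {π : Fin k → Matrix (Fin m) (Fin m) ℝ}
    (hS : Spec TV t π) (c : ℝ) (i : Fin k) (g : G)
    (hg : ∀ j, c⁻¹ ≤ |dt (π j) (S.L g)| ∧ |dt (π j) (S.L g)| ≤ c) :
    0 < c ∧ S.lam g ≤ max 1 (c ^ k) := by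
  have hcomm : ∀ j, π j * S.L g = S.L g * π j := fun j => (hS.comm _ (hT.commV g).symm j).symm
  have hdet := hdt k π hS.toIdem (S.L g) hcomm
  have hrel := S.det_rel g
  have hdet0 : (S.L g).det ≠ 0 := by
    intro h0
    rw [h0, abs_zero, zero_mul] at hrel
    exact zero_ne_one hrel
  have hpos : ∀ j, 0 < |dt (π j) (S.L g)| := by
    intro j
    rw [abs_pos]
    intro h0
    apply hdet0
    rw [← hdet]
    exact Finset.prod_eq_zero (Finset.mem_univ j) h0
  have hc : 0 < c := (hpos i).trans_le (hg i).2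
  refine ⟨hc, ?_⟩
  have h1 : (c⁻¹) ^ k ≤ |(S.L g).det| := by
    rw [← hdet, Finset.abs_prod]
    calc (c⁻¹) ^ k = ∏ _j : Fin k, c⁻¹ := by simp
      _ ≤ ∏ j, |dt (π j) (S.L g)| :=
        Finset.prod_le_prod (fun _ _ => (inv_pos.2 hc).le) (fun j _ => (hg j).1)
  have h2 : S.lam g ^ (2 * p) ≤ c ^ k := by
    have h3 : (c⁻¹) ^ k * S.lam g ^ (2 * p) ≤ 1 := by
      rw [← hrel]
      exact mul_le_mul_of_nonneg_right h1 (pow_nonneg (S.lam_pos g).le _)
    have h4 : c ^ k * ((c⁻¹) ^ k * S.lam g ^ (2 * p)) ≤ c ^ k * 1 :=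
      mul_le_mul_of_nonneg_left h3 (pow_nonneg hc.le _)
    rwa [← mul_assoc, ← mul_pow, mul_inv_cancel₀ hc.ne', one_pow, one_mul, mul_one] at h4
  by_cases h5 : S.lam g ≤ 1
  · exact h5.trans (le_max_left _ _)
  · refine le_trans ?_ (h2.trans (le_max_right _ _))
    exact le_self_pow₀ (not_le.1 h5).le (by omega)

theorem Setting.fin (S : Setting n p m G) (hp : 0 < p) (hB : S.Bdd)
    (hdt : ∀ (k : ℕ) (π : Fin k → Matrix (Fin m) (Fin m) ℝ), Idem π →
      ∀ X : Matrix (Fin m) (Fin m) ℝ, (∀ i, π i * X = X * π i) → ∏ i, dt (π i) X = X.det)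
    {T : Matrix (Fin n) (Fin n) ℚ} {TP : CP p →ₗ[ℝ] CP p} {TV : Matrix (Fin m) (Fin m) ℝ}
    (hT : S.TD T TP TV) {k : ℕ} {t : Fin k → ℝ} {π : Fin k → Matrix (Fin m) (Fin m) ℝ}
    (hS : Spec TV t π) (c : ℝ) :
    {v : Fin k → ℝ | ∃ a : G, (∀ j, v j = |dt (π j) (S.L a)|) ∧
      ∀ j, c⁻¹ ≤ v j ∧ v j ≤ c}.Finite := by
  classical
  have key : ∀ i : Fin k, ∃ F : Set ℝ, F.Finite ∧ ∀ g : G,
      (∀ j, c⁻¹ ≤ |dt (π j) (S.L g)| ∧ |dt (π j) (S.L g)| ≤ c) → |dt (π i) (S.L g)| ∈ F := by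
    intro i
    obtain ⟨v, hv0, hv⟩ := exists_fix hS i
    obtain ⟨hint, -⟩ := S.exists_conj hB hT hv0 hv
    let K := IntermediateField.adjoin ℚ {(t i : ℂ)}
    have hfd : FiniteDimensional ℚ K := IntermediateField.adjoin.finiteDimensional hint
    have hnf : NumberField K := ⟨⟩
    let θ : K := IntermediateField.AdjoinSimple.gen ℚ (t i : ℂ)
    choose x hxint hxdet using fun g : G => edet_field T (S.R g) (hT.comm g) K θ
    let M : ℝ := max 1 (c ^ k)
    have hM1 : 1 ≤ M := le_max_left _ _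
    let B : ℝ := max (M ^ n) (max c 1)
    have hfin := NumberField.Embeddings.finite_of_norm_le K ℂ B
    refine ⟨(fun y : K => ‖algebraMap K ℂ y‖) '' {x : K | IsIntegral ℤ x ∧ ∀ φ : K →+* ℂ, ‖φ x‖ ≤ B},
      hfin.image _, fun g hg => ⟨x g, ⟨hxint g, fun φ => ?_⟩, ?_⟩⟩
    · have hd := hxdet g φ
      obtain ⟨hc, hlam⟩ := S.fin_bound hp hdt hT hS c i g hg
      by_cases hs : (φ θ).im = 0
      · obtain ⟨N, b, D, hli, hspan, hD, hdD⟩ := hd
        by_cases hN : N = 0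
        · subst hN
          rw [hdD, Matrix.det_isEmpty, norm_one]
          exact (le_max_right c 1).trans (le_max_right _ _)
        · have hb0 : b ⟨0, Nat.pos_of_ne_zero hN⟩ ≠ 0 := hli.ne_zero _
          have hb1 : T.map (Rat.cast : ℚ → ℂ) *ᵥ b ⟨0, Nat.pos_of_ne_zero hN⟩ =
              φ θ • b ⟨0, Nat.pos_of_ne_zero hN⟩ :=
            (hspan _).2 (Submodule.subset_span ⟨_, rfl⟩)
          obtain ⟨j, hj, -⟩ := S.real_eigen hT hS hs hb0 hb1
          have hd' := hxdet g φ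
          rw [hj] at hd'
          rw [S.edet_real hT hS hd']
          exact (hg j).2.trans ((le_max_left c 1).trans (le_max_right _ _))
      · obtain ⟨N, hN, hnorm⟩ := S.edet_nonreal hT hS hs hd
        rw [hnorm]
        calc S.lam g ^ N ≤ M ^ N := pow_le_pow_left₀ (S.lam_pos g).le hlam N
          _ ≤ M ^ n := pow_le_pow_right₀ hM1 hN
          _ ≤ B := le_max_left _ _
    · have hd := hxdet g (algebraMap K ℂ)
      have hθ : algebraMap K ℂ θ = (t i : ℂ) := IntermediateField.AdjoinSimple.algebraMap_gen ℚ _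
      rw [hθ] at hd
      exact S.edet_real hT hS hd
  choose F hF hF' using key
  refine (Set.Finite.pi' hF).subset ?_
  rintro v ⟨g, hv, hc⟩
  have hg : ∀ j, c⁻¹ ≤ |dt (π j) (S.L g)| ∧ |dt (π j) (S.L g)| ≤ c := fun j => by
    rw [← hv j]
    exact hc j
  intro i
  rw [hv i]
  exact hF' i g hg

end TLK
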