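import Mathlib

/-!
# Common definitions for the internal files of TLK (not part of the statement)
-/

open scoped Matrix

namespace TLK

/-- the complex vector space `ℂ^p` -/
abbrev CP (p : ℕ) : Type := EuclideanSpace ℂ (Fin p)

/-- A group `G` acting linearly on `ℝ^m` through `ρ`, preserving the open set `C`, with
compact `K ⊆ C` meeting every orbit. -/
structure Coc {m : ℕ} {G : Type} [Group G] (ρ : G →* Matrix (Fin m) (Fin m) ℝ)
    (C K : Set (Fin m → ℝ)) : Prop where
  isOpen : IsOpen C
  nonempty : C.Nonempty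
  maps : ∀ g : G, ∀ x ∈ C, ρ g *ᵥ x ∈ C
  compact : IsCompact K
  subset : K ⊆ C
  cocompact : ∀ x ∈ C, ∃ g : G, ρ g *ᵥ x ∈ K

/-- convex open set without (complete affine) lines -/
structure PC {m : ℕ} (C : Set (Fin m → ℝ)) : Prop where
  isOpen : IsOpen C
  nonempty : C.Nonempty
  convex : Convex ℝ C
  noline : ∀ x v : Fin m → ℝ, v ≠ 0 → ∃ t : ℝ, x + t • v ∉ C

/-- `π_1, …, π_k` are nonzero orthogonal idempotents with sum `1`. -/
structure Idem {m k : ℕ} (π : Fin k → Matrix (Fin m) (Fin m) ℝ) : Prop where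
  mul_self : ∀ i, π i * π i = π i
  mul_ne : ∀ i j, i ≠ j → π i * π j = 0
  sum : ∑ i, π i = 1
  ne : ∀ i, π i ≠ 0

/-- spectral decomposition `S = ∑ t_i π_i` with real distinct `t_i`, the `π_i` commute with everything
that commutes with `S` -/
structure Spec {m k : ℕ} (S : Matrix (Fin m) (Fin m) ℝ) (t : Fin k → ℝ)
    (π : Fin k → Matrix (Fin m) (Fin m) ℝ) : Prop extends Idem π where
  inj : Function.Injective t
  eq : S = ∑ i, t i • π i
  comm : ∀ X : Matrix (Fin m) (Fin m) ℝ, X * S = S * X → ∀ i, X * π i = π i * X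

/-- the determinant of `X` on the image of the idempotent `π` (if `X` commutes with `π`) -/
noncomputable def dt {m : ℕ} (π X : Matrix (Fin m) (Fin m) ℝ) : ℝ := (1 - π + X * π).det

/-- all entries are bounded by `B` -/
def Bd {m n : ℕ} (X : Matrix (Fin m) (Fin n) ℝ) (B : ℝ) : Prop := ∀ i j, |X i j| ≤ B

end TLK
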