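import Pool.Agent.TLK.B0

/-!
# The arithmetic setting (definitions only)

`W = ℂ^p × ℝ^m`, a lattice of `W` with basis given by `Θ : ℝ^n ≃ W`, a group `G` acting on `W` by
`(z, y) ↦ (A z, L y)`, preserving the lattice: `Θ ∘ R(g) = (A(g), L(g)) ∘ Θ`, `R(g)` integral.
-/

open scoped Matrix

namespace TLK

structure Setting (n p m : ℕ) (G : Type) [Group G] where
  R : G →* Matrix (Fin n) (Fin n) ℤ
  lam : G → ℝ
  lam_pos : ∀ g, 0 < lam g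
  A : G → (CP p →ₗ[ℂ] CP p)
  norm_A : ∀ g z, ‖A g z‖ = lam g * ‖z‖
  L : G →* Matrix (Fin m) (Fin m) ℝ
  Θ : (Fin n → ℝ) ≃ₗ[ℝ] CP p × (Fin m → ℝ)
  hΘ : ∀ g x, Θ ((R g).map (Int.cast : ℤ → ℝ) *ᵥ x) = (A g (Θ x).1, L g *ᵥ (Θ x).2)

variable {n p m : ℕ} {G : Type} [Group G]

/-- `L` is up to scalars coarsely unbounded: for every `σ > 0` some `L g` is `σ` times a bounded matrix with
bounded inverse. -/
def Setting.Bdd (S : Setting n p m G) : Prop :=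
  ∃ B : ℝ, ∀ s : ℝ, 0 < s → ∃ g, Bd (s⁻¹ • S.L g) B ∧ Bd (s • S.L g⁻¹) B

/-- a rational matrix `T` commuting with all `R g`, preserving `ℂ^p` and `ℝ^m`, without real eigenvalues on `ℂ^p` -/
structure Setting.TD (S : Setting n p m G) (T : Matrix (Fin n) (Fin n) ℚ)
    (TP : CP p →ₗ[ℝ] CP p) (TV : Matrix (Fin m) (Fin m) ℝ) : Prop where
  comm : ∀ g, T * (S.R g).map (Int.cast : ℤ → ℚ) = (S.R g).map (Int.cast : ℤ → ℚ) * T
  eq : ∀ x, S.Θ (T.map (Rat.cast : ℚ → ℝ) *ᵥ x) = (TP (S.Θ x).1, TV *ᵥ (S.Θ x).2)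
  noreal : ∀ (x : ℝ) (z : CP p), TP z = x • z → z = 0
  commV : ∀ g, TV * S.L g = S.L g * TV

/-- `d` is the determinant of the matrix `R` on the eigenspace `ker (T - s)` in `ℂ^n` -/
def IsEDet {n : ℕ} (T : Matrix (Fin n) (Fin n) ℚ) (R : Matrix (Fin n) (Fin n) ℤ) (s d : ℂ) : Prop :=
  ∃ (N : ℕ) (b : Fin N → Fin n → ℂ) (D : Matrix (Fin N) (Fin N) ℂ), LinearIndependent ℂ b ∧
    (∀ x : Fin n → ℂ, T.map (Rat.cast : ℚ → ℂ) *ᵥ x = s • x ↔ x ∈ Submodule.span ℂ (Set.range b)) ∧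
    (∀ j, R.map (Int.cast : ℤ → ℂ) *ᵥ b j = ∑ i, D i j • b i) ∧ d = D.det

end TLK
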