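import Pool.Agent.TLK.B0

/-!
# [TLK-C1] one-parameter groups commuting with a cocompact linear group preserve the open set

PROOF of `flow`. Let `U(t) = g t`. The map `(t, x) ↦ g t *ᵥ x` is continuous and maps `{0} × K` into the open
set `C`; `K` is compact, so (tube lemma, `generalized_tube_lemma` or a uniform continuity argument) there is
`δ > 0` with `g t *ᵥ x ∈ C` for `|t| < δ` and `x ∈ K`. Let `x ∈ C` and `|t| < δ`: choose `a : G` with
`ρ a *ᵥ x ∈ K`; then `g t *ᵥ x = ρ a⁻¹ *ᵥ (g t *ᵥ (ρ a *ᵥ x)) ∈ C` (`ρ a⁻¹ * ρ a = 1`, `g t` commutes with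
`ρ a⁻¹`). For general `t` write `t = n (t / n)` with `|t / n| < δ`: `g t = (g (t / n))^n` by `hadd`.

`smul`: `g t = exp t • 1`, `s = exp (log s)`. `block`: `g t = exp t • e + (1 - e)`, `e * e = e`.
`nilp`: `g t = 1 + t • u`, `u * u = 0`. `rot`: `g t = cos t • e + sin t • N + (1 - e)`, with `e * e = e`,
`e * N = N`, `N * e = N`, `N * N = -e`; take `t = Real.pi`: `g π = -e + (1 - e) = 1 - 2 • e`.
-/

open scoped Matrix

namespace TLK

theorem flow {m : ℕ} {G : Type} [Group G] {ρ : G →* Matrix (Fin m) (Fin m) ℝ}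
    {C K : Set (Fin m → ℝ)} (h : Coc ρ C K) (g : ℝ → Matrix (Fin m) (Fin m) ℝ)
    (h0 : g 0 = 1) (hadd : ∀ s t, g (s + t) = g s * g t) (hcont : Continuous g)
    (hcomm : ∀ t a, g t * ρ a = ρ a * g t) (t : ℝ) {x : Fin m → ℝ} (hx : x ∈ C) :
    g t *ᵥ x ∈ C := by
  have hF : Continuous fun p : ℝ × (Fin m → ℝ) => g p.1 *ᵥ p.2 :=
    (hcont.comp continuous_fst).matrix_mulVec continuous_snd
  have hsub : ({(0 : ℝ)} : Set ℝ) ×ˢ K ⊆ (fun p : ℝ × (Fin m → ℝ) => g p.1 *ᵥ p.2) ⁻¹' C := by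
    rintro ⟨r, y⟩ ⟨hr, hy⟩
    have hr' : r = 0 := hr
    show g r *ᵥ y ∈ C
    rw [hr', h0, Matrix.one_mulVec]
    exact h.subset hy
  obtain ⟨u, v, hu, hv, hu0, hKv, huv⟩ := generalized_tube_lemma isCompact_singleton h.compact
    (h.isOpen.preimage hF) hsub
  obtain ⟨δ, hδ, hball⟩ := Metric.isOpen_iff.1 hu 0 (hu0 rfl)
  have small : ∀ r : ℝ, |r| < δ → ∀ y ∈ C, g r *ᵥ y ∈ C := by
    intro r hr y hy
    obtain ⟨a, ha⟩ := h.cocompact y hy
    have h1 : g r *ᵥ (ρ a *ᵥ y) ∈ C := by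
      have h2 : (r, ρ a *ᵥ y) ∈ u ×ˢ v := by
        refine ⟨hball ?_, hKv ha⟩
        rw [Metric.mem_ball, Real.dist_eq, sub_zero]
        exact hr
      exact huv h2
    have h3 := h.maps a⁻¹ _ h1
    have h4 : ρ a⁻¹ *ᵥ (g r *ᵥ (ρ a *ᵥ y)) = g r *ᵥ y := by
      rw [Matrix.mulVec_mulVec, Matrix.mulVec_mulVec, mul_assoc, hcomm, ← mul_assoc, ← map_mul,
        inv_mul_cancel, map_one, one_mul]
    rwa [h4] at h3
  obtain ⟨n, hn⟩ := exists_nat_gt (|t| / δ)
  have hn0 : (0 : ℝ) < n := lt_of_le_of_lt (by positivity) hn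
  have hs : |t / n| < δ := by
    rw [abs_div, abs_of_pos hn0, div_lt_iff₀ hn0]
    rw [div_lt_iff₀ hδ] at hn
    linarith
  have hind : ∀ k : ℕ, ∀ y ∈ C, g (k * (t / n)) *ᵥ y ∈ C := by
    intro k
    induction k with
    | zero =>
      intro y hy
      rw [Nat.cast_zero, zero_mul, h0, Matrix.one_mulVec]
      exact hy
    | succ k ih =>
      intro y hy
      have e : ((k + 1 : ℕ) : ℝ) * (t / n) = k * (t / n) + t / n := by push_cast; ring
      rw [e, hadd, ← Matrix.mulVec_mulVec]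
      exact ih _ (small _ hs y hy)
  have h5 := hind n x hx
  rwa [mul_div_cancel₀ t hn0.ne'] at h5

theorem smul_mem {m : ℕ} {G : Type} [Group G] {ρ : G →* Matrix (Fin m) (Fin m) ℝ}
    {C K : Set (Fin m → ℝ)} (h : Coc ρ C K) {s : ℝ} (hs : 0 < s) {x : Fin m → ℝ} (hx : x ∈ C) :
    s • x ∈ C := by
  have h1 := flow h (fun t => Real.exp t • (1 : Matrix (Fin m) (Fin m) ℝ)) (by simp)
    (fun s t => by
      rw [smul_mul_assoc, one_mul, smul_smul, Real.exp_add])
    (Real.continuous_exp.smul continuous_const)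
    (fun t a => by rw [smul_mul_assoc, mul_smul_comm, one_mul, mul_one]) (Real.log s) hx
  rwa [Real.exp_log hs, Matrix.smul_mulVec, Matrix.one_mulVec] at h1

theorem block_mem {m : ℕ} {G : Type} [Group G] {ρ : G →* Matrix (Fin m) (Fin m) ℝ}
    {C K : Set (Fin m → ℝ)} (h : Coc ρ C K) {e : Matrix (Fin m) (Fin m) ℝ} (he : e * e = e)
    (hc : ∀ a, e * ρ a = ρ a * e) {s : ℝ} (hs : 0 < s) {x : Fin m → ℝ} (hx : x ∈ C) :
    (s • e + (1 - e)) *ᵥ x ∈ C := by
  have h1 : e * (1 - e) = 0 := by rw [mul_sub, mul_one, he, sub_self]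
  have h2 : (1 - e) * e = 0 := by rw [sub_mul, one_mul, he, sub_self]
  have h3 : (1 - e) * (1 - e) = 1 - e := by rw [mul_sub, mul_one, h2, sub_zero]
  have h4 := flow h (fun t => Real.exp t • e + (1 - e)) (by simp)
    (fun s t => by
      rw [add_mul, mul_add, mul_add, smul_mul_assoc, mul_smul_comm, smul_mul_assoc, h1,
        mul_smul_comm, h2, h3, he, smul_smul, Real.exp_add, smul_zero, smul_zero, add_zero,
        zero_add])
    ((Real.continuous_exp.smul continuous_const).add continuous_const)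
    (fun t a => by
      rw [add_mul, mul_add, smul_mul_assoc, mul_smul_comm, hc, sub_mul, mul_sub, one_mul, mul_one,
        hc]) (Real.log s) hx
  rwa [Real.exp_log hs] at h4

theorem nilp_mem {m : ℕ} {G : Type} [Group G] {ρ : G →* Matrix (Fin m) (Fin m) ℝ}
    {C K : Set (Fin m → ℝ)} (h : Coc ρ C K) {u : Matrix (Fin m) (Fin m) ℝ} (hu : u * u = 0)
    (hc : ∀ a, u * ρ a = ρ a * u) (t : ℝ) {x : Fin m → ℝ} (hx : x ∈ C) :
    x + t • (u *ᵥ x) ∈ C := by
  have h1 := flow h (fun t => 1 + t • u) (by simp)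
    (fun s t => by
      rw [add_mul, mul_add, mul_add, one_mul, one_mul, mul_one, smul_mul_assoc, mul_smul_comm, hu,
        smul_zero, smul_zero, add_zero, add_smul]
      abel)
    (continuous_const.add (continuous_id.smul continuous_const))
    (fun t a => by
      rw [add_mul, mul_add, one_mul, mul_one, smul_mul_assoc, mul_smul_comm, hc]) t hx
  rwa [Matrix.add_mulVec, Matrix.one_mulVec, Matrix.smul_mulVec] at h1

theorem rot_mem {m : ℕ} {G : Type} [Group G] {ρ : G →* Matrix (Fin m) (Fin m) ℝ}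
    {C K : Set (Fin m → ℝ)} (h : Coc ρ C K) {e N : Matrix (Fin m) (Fin m) ℝ} (he : e * e = e)
    (heN : e * N = N) (hNe : N * e = N) (hN : N * N = -e)
    (hc : ∀ a, e * ρ a = ρ a * e) (hcN : ∀ a, N * ρ a = ρ a * N) {x : Fin m → ℝ} (hx : x ∈ C) :
    (1 - (2 : ℝ) • e) *ᵥ x ∈ C := by
  have h1 : e * (1 - e) = 0 := by rw [mul_sub, mul_one, he, sub_self]
  have h2 : (1 - e) * e = 0 := by rw [sub_mul, one_mul, he, sub_self]
  have h3 : (1 - e) * (1 - e) = 1 - e := by rw [mul_sub, mul_one, h2, sub_zero]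
  have h4 : N * (1 - e) = 0 := by rw [mul_sub, mul_one, hNe, sub_self]
  have h5 : (1 - e) * N = 0 := by rw [sub_mul, one_mul, heN, sub_self]
  have h6 := flow h (fun t => Real.cos t • e + Real.sin t • N + (1 - e)) (by simp)
    (fun s t => by
      simp only [add_mul, mul_add, smul_mul_assoc, mul_smul_comm, h1, h2, h3, h4, h5, he, heN, hNe,
        hN, smul_zero, add_zero, zero_add, Real.cos_add, Real.sin_add, smul_neg]
      module)
    (((Real.continuous_cos.smul continuous_const).add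
      (Real.continuous_sin.smul continuous_const)).add continuous_const)
    (fun t a => by
      simp only [add_mul, mul_add, smul_mul_assoc, mul_smul_comm, hc, hcN, sub_mul, mul_sub,
        one_mul, mul_one]) Real.pi hx
  have e1 : Real.cos Real.pi • e + Real.sin Real.pi • N + (1 - e) = 1 - (2 : ℝ) • e := by
    rw [Real.cos_pi, Real.sin_pi, zero_smul, add_zero]
    module
  rwa [e1] at h6

end TLK
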