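import Pool.Agent.TLK.B0

/-!
# [TLK-C2] convex open sets without lines: salience and the boundedness lemma

`PC C`: `C` open, nonempty, convex, contains no line. `hs : ∀ s > 0, ∀ x ∈ C, s • x ∈ C` (a cone).

PROOF of `salient`: let `v, -v ∈ closure C`, `v ≠ 0`, `x ∈ C`. For all `t : ℝ` we have `x + t • v ∈ C`: for `t ≥ 0`,
`t • v ∈ closure C` (cone: `smul_mem` passes to the closure; `t = 0` trivial) and for an open convex cone
`x ∈ C`, `y ∈ closure C` gives `x + y ∈ C` (`y' ∈ C` close to `y` with `x + y - y' ∈ C` (open),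
`x + y = (x + y - y') + y'` and `C + C ⊆ C`: `a + b = 2 • ((1/2) • a + (1/2) • b)`). This contradicts `noline`.

PROOF of `bounded_of_pm`: `K' ⊆ C` compact; there is `B` with `‖w‖ ≤ B` whenever `k + w ∈ C` and `k - w ∈ C` for some
`k ∈ K'`. Otherwise there are `k_n ∈ K'`, `w_n`, `‖w_n‖ ≥ n`, `k_n ± w_n ∈ C`; scale by `1/‖w_n‖`:
`(1/‖w_n‖) • k_n ± w_n/‖w_n‖ ∈ C`; by compactness of the unit sphere a subsequence of `w_n/‖w_n‖` converges to
`v`, `‖v‖ = 1`, and `(1/‖w_n‖) • k_n → 0`; so `±v ∈ closure C`, contradiction to `salient`.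

PROOF of `plemma`: there is `r > 0` with `closedBall k r ⊆ C` for all `k ∈ K'` (compactness:
`IsCompact.exists_thickening_subset_open` or `exists_cthickening_subset_open`). Let `X` preserve `C`, `k ∈ K'`,
`X *ᵥ k ∈ K'`. For `‖u‖ ≤ r`: `k ± u ∈ C`, so `X *ᵥ k ± X *ᵥ u ∈ C` with `X *ᵥ k ∈ K'`: `‖X *ᵥ u‖ ≤ B`. With `u = r • e_j`
(`Pi.single j r`, sup norm `r`) the entries satisfy `|X i j| r ≤ B`. For `Y`: `k' = X *ᵥ k ∈ K'`, `Y *ᵥ k' = k ∈ K'`,
same argument.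
-/

open scoped Matrix

namespace TLK

theorem C2_smul_closure {m : ℕ} {C : Set (Fin m → ℝ)}
    (hs : ∀ s : ℝ, 0 < s → ∀ x ∈ C, s • x ∈ C) {s : ℝ} (hs0 : 0 < s) {y : Fin m → ℝ}
    (hy : y ∈ closure C) : s • y ∈ closure C :=
  map_mem_closure (continuous_const_smul s) hy fun z hz => hs s hs0 z hz

theorem C2_add {m : ℕ} {C : Set (Fin m → ℝ)} (hC : PC C)
    (hs : ∀ s : ℝ, 0 < s → ∀ x ∈ C, s • x ∈ C) {x y : Fin m → ℝ} (hx : x ∈ C) (hy : y ∈ C) :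
    x + y ∈ C := by
  have h1 := hC.convex hx hy (show (0 : ℝ) ≤ 1 / 2 by norm_num) (show (0 : ℝ) ≤ 1 / 2 by norm_num)
    (by norm_num)
  have h2 := hs 2 (by norm_num) _ h1
  have e : (2 : ℝ) • ((1 / 2 : ℝ) • x + (1 / 2 : ℝ) • y) = x + y := by
    rw [smul_add, smul_smul, smul_smul]
    norm_num
  rwa [e] at h2

theorem add_closure {m : ℕ} {C : Set (Fin m → ℝ)} (hC : PC C)
    (hs : ∀ s : ℝ, 0 < s → ∀ x ∈ C, s • x ∈ C) {x y : Fin m → ℝ} (hx : x ∈ C)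
    (hy : y ∈ closure C) : x + y ∈ C := by
  obtain ⟨ε, hε, hball⟩ := Metric.isOpen_iff.1 hC.isOpen x hx
  obtain ⟨y', hy', hd⟩ := Metric.mem_closure_iff.1 hy ε hε
  have h1 : x + (y - y') ∈ C := by
    apply hball
    rw [Metric.mem_ball, dist_eq_norm, add_sub_cancel_left, ← dist_eq_norm]
    exact hd
  have h2 := C2_add hC hs h1 hy'
  have e : x + (y - y') + y' = x + y := by abel
  rwa [e] at h2

theorem salient {m : ℕ} {C : Set (Fin m → ℝ)} (hC : PC C)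
    (hs : ∀ s : ℝ, 0 < s → ∀ x ∈ C, s • x ∈ C) {v : Fin m → ℝ} (hv : v ∈ closure C)
    (hv' : -v ∈ closure C) : v = 0 := by
  by_contra hne
  obtain ⟨x, hx⟩ := hC.nonempty
  obtain ⟨t, ht⟩ := hC.noline x v hne
  apply ht
  rcases lt_trichotomy t 0 with h | h | h
  · have h1 := C2_smul_closure hs (neg_pos.2 h) hv'
    rw [smul_neg, neg_smul, neg_neg] at h1
    exact add_closure hC hs hx h1
  · rw [h, zero_smul, add_zero]
    exact hx
  · exact add_closure hC hs hx (C2_smul_closure hs h hv)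

theorem bounded_of_pm {m : ℕ} {C K' : Set (Fin m → ℝ)} (hC : PC C)
    (hs : ∀ s : ℝ, 0 < s → ∀ x ∈ C, s • x ∈ C) (hK : IsCompact K') (hKC : K' ⊆ C) :
    ∃ B : ℝ, ∀ k ∈ K', ∀ w : Fin m → ℝ, k + w ∈ C → k - w ∈ C → ‖w‖ ≤ B := by
  by_contra hcon
  push Not at hcon
  have h1 : ∀ n : ℕ, ∃ k ∈ K', ∃ w : Fin m → ℝ, k + w ∈ C ∧ k - w ∈ C ∧ (n : ℝ) + 1 < ‖w‖ :=
    fun n => hcon ((n : ℝ) + 1)
  choose k hk w hw1 hw2 hw3 using h1
  have hpos : ∀ n, 0 < ‖w n‖ := fun n => by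
    have h := hw3 n
    have h' : (0 : ℝ) ≤ n := Nat.cast_nonneg n
    linarith
  have hu : ∀ n, ‖w n‖⁻¹ • w n ∈ Metric.sphere (0 : Fin m → ℝ) 1 := by
    intro n
    rw [mem_sphere_zero_iff_norm, norm_smul, norm_inv, norm_norm, inv_mul_cancel₀ (hpos n).ne']
  obtain ⟨v, hv, φ, hφ, hlim⟩ := (isCompact_sphere (0 : Fin m → ℝ) 1).tendsto_subseq hu
  have hv1 : ‖v‖ = 1 := by rwa [mem_sphere_zero_iff_norm] at hv
  have hinv : Filter.Tendsto (fun n => ‖w (φ n)‖⁻¹) Filter.atTop (nhds 0) := by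
    refine squeeze_zero (fun n => by positivity) (fun n => ?_)
      (tendsto_one_div_add_atTop_nhds_zero_nat.comp hφ.tendsto_atTop)
    show ‖w (φ n)‖⁻¹ ≤ 1 / (((φ n : ℕ) : ℝ) + 1)
    rw [one_div]
    exact inv_anti₀ (by positivity) (hw3 (φ n)).le
  obtain ⟨R, hR⟩ := hK.isBounded.exists_norm_le
  have hk0 : Filter.Tendsto (fun n => ‖w (φ n)‖⁻¹ • k (φ n)) Filter.atTop (nhds 0) := by
    rw [tendsto_zero_iff_norm_tendsto_zero]
    have h2 : Filter.Tendsto (fun n => ‖w (φ n)‖⁻¹ * R) Filter.atTop (nhds 0) := by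
      have := hinv.mul_const R
      rwa [zero_mul] at this
    refine squeeze_zero (fun n => norm_nonneg _) (fun n => ?_) h2
    rw [norm_smul, norm_inv, norm_norm]
    exact mul_le_mul_of_nonneg_left (hR _ (hk _)) (by positivity)
  have hp : v ∈ closure C := by
    have h2 : Filter.Tendsto (fun n => ‖w (φ n)‖⁻¹ • (k (φ n) + w (φ n))) Filter.atTop (nhds v) := by
      have h3 := hk0.add hlim
      rw [zero_add] at h3
      refine h3.congr fun n => ?_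
      rw [smul_add]
      rfl
    refine mem_closure_of_tendsto h2 (Filter.Eventually.of_forall fun n => ?_)
    exact hs _ (inv_pos.2 (hpos _)) _ (hw1 _)
  have hm : -v ∈ closure C := by
    have h2 : Filter.Tendsto (fun n => ‖w (φ n)‖⁻¹ • (k (φ n) - w (φ n))) Filter.atTop
        (nhds (-v)) := by
      have h3 := hk0.sub hlim
      rw [zero_sub] at h3
      refine h3.congr fun n => ?_
      rw [smul_sub]
      rfl
    refine mem_closure_of_tendsto h2 (Filter.Eventually.of_forall fun n => ?_)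
    exact hs _ (inv_pos.2 (hpos _)) _ (hw2 _)
  have h0 := salient hC hs hp hm
  rw [h0, norm_zero] at hv1
  exact zero_ne_one hv1

theorem C2_entry {m : ℕ} {C K' : Set (Fin m → ℝ)} {r B : ℝ} (hr : 0 < r)
    (hrC : ∀ k ∈ K', ∀ u : Fin m → ℝ, ‖u‖ ≤ r → k + u ∈ C)
    (hB : ∀ k ∈ K', ∀ w : Fin m → ℝ, k + w ∈ C → k - w ∈ C → ‖w‖ ≤ B)
    {X : Matrix (Fin m) (Fin m) ℝ} (hX : ∀ x ∈ C, X *ᵥ x ∈ C) {k : Fin m → ℝ} (hk : k ∈ K')
    (hXk : X *ᵥ k ∈ K') : Bd X (B / r) := by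
  intro i j
  have hu : ‖(Pi.single j r : Fin m → ℝ)‖ ≤ r := by
    rw [pi_norm_le_iff_of_nonneg hr.le]
    intro l
    by_cases h : l = j
    · subst h
      rw [Pi.single_eq_same, Real.norm_eq_abs, abs_of_pos hr]
    · rw [Pi.single_eq_of_ne h, norm_zero]
      exact hr.le
  have h1 := hX _ (hrC k hk _ hu)
  have h2 := hX _ (hrC k hk (-(Pi.single j r)) (by rwa [norm_neg]))
  rw [Matrix.mulVec_add] at h1
  rw [Matrix.mulVec_add, Matrix.mulVec_neg, ← sub_eq_add_neg] at h2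
  have h3 := hB _ hXk _ h1 h2
  have h4 := (norm_le_pi_norm (X *ᵥ (Pi.single j r : Fin m → ℝ)) i).trans h3
  have h5 : (X *ᵥ (Pi.single j r : Fin m → ℝ)) i = X i j * r := by
    rw [Matrix.mulVec_single]
    simp [mul_comm]
  rw [h5, Real.norm_eq_abs, abs_mul, abs_of_pos hr] at h4
  rwa [le_div_iff₀ hr]

theorem plemma {m : ℕ} {C K' : Set (Fin m → ℝ)} (hC : PC C)
    (hs : ∀ s : ℝ, 0 < s → ∀ x ∈ C, s • x ∈ C) (hK : IsCompact K') (hKC : K' ⊆ C) :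
    ∃ B : ℝ, ∀ X Y : Matrix (Fin m) (Fin m) ℝ, X * Y = 1 → Y * X = 1 →
      (∀ x ∈ C, X *ᵥ x ∈ C) → (∀ x ∈ C, Y *ᵥ x ∈ C) → (∃ k ∈ K', X *ᵥ k ∈ K') →
      Bd X B ∧ Bd Y B := by
  obtain ⟨r, hr, hrC⟩ := hK.exists_cthickening_subset_open hC.isOpen hKC
  obtain ⟨B, hB⟩ := bounded_of_pm hC hs hK hKC
  have hrC' : ∀ k ∈ K', ∀ u : Fin m → ℝ, ‖u‖ ≤ r → k + u ∈ C := by
    intro k hk u hu
    apply hrC
    refine Metric.mem_cthickening_of_dist_le _ k r K' hk ?_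
    rw [dist_eq_norm, add_sub_cancel_left]
    exact hu
  refine ⟨B / r, fun X Y hXY hYX hX hY ⟨k, hk, hXk⟩ => ⟨?_, ?_⟩⟩
  · exact C2_entry hr hrC' hB hX hk hXk
  · refine C2_entry hr hrC' hB hY hXk ?_
    rw [Matrix.mulVec_mulVec, hYX, Matrix.one_mulVec]
    exact hk

end TLK
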