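import Pool.Agent.TLK.C1
import Pool.Agent.TLK.C2

/-!
# [TLK-C3] the centralizer of a cocompact linear group on a convex cone without lines

PROOF of `no_nilp`: by `nilp_mem`, `x + t • (u *ᵥ x) ∈ C` for all `t`, `x ∈ C`; `noline` gives `u *ᵥ x = 0` for all `x ∈ C`;
`C` is open and nonempty: for `x ∈ C` and any `y`, `x + ε • y ∈ C` for small `ε ≠ 0`, so `u *ᵥ y = 0`. So `u = 0`.

PROOF of `no_rot`: let `x ∈ C`. `y = (1 - 2 • e) *ᵥ x ∈ C` (`rot_mem`), so by convexity `(1 - e) *ᵥ x ∈ C` (midpoint).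
By `block_mem` (for `e`, `s > 0`) `(1 - e) *ᵥ x + s • (e *ᵥ x) ∈ C` and, applied to `y`,
`(1 - e) *ᵥ x - s • (e *ᵥ x) ∈ C` (`e *ᵥ y = - e *ᵥ x`, `(1 - e) *ᵥ y = (1 - e) *ᵥ x`). So the whole line
`(1 - e) *ᵥ x + t • (e *ᵥ x)` lies in `C`: `e *ᵥ x = 0` for all `x ∈ C`, `e = 0` as before.

PROOF of `mix_closure`: for `s > 0`: `e *ᵥ x + s • ((1 - e) *ᵥ x) ∈ C` and `s • (e *ᵥ y) + (1 - e) *ᵥ y ∈ C` (`block_mem` for
`1 - e` and for `e`), their sum is in `C` (`a + b = 2 • ((1/2) • a + (1/2) • b)`, or `add_closure`); let `s → 0`.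

PROOF of `mix_mem`: let `c = x`. For small `ε > 0`, `x - ε • c ∈ C` and `y - ε • c ∈ C`. By `mix_closure`
`z' = e *ᵥ (x - ε • c) + (1 - e) *ᵥ (y - ε • c) = z - ε • c ∈ closure C`, and `z = ε • c + z' ∈ C` by `add_closure`.
-/

open scoped Matrix

namespace TLK

/-- a linear map vanishing on the open nonempty set vanishes -/
theorem C3_zero {m : ℕ} {C : Set (Fin m → ℝ)} (hC : PC C) {u : Matrix (Fin m) (Fin m) ℝ}
    (h : ∀ x ∈ C, u *ᵥ x = 0) : u = 0 := by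
  obtain ⟨x, hx⟩ := hC.nonempty
  have h1 : ∀ y, u *ᵥ y = 0 := by
    intro y
    have hc : Continuous fun t : ℝ => x + t • y := by fun_prop
    have h2 : ∀ᶠ t in nhds (0 : ℝ), x + t • y ∈ C := by
      refine hc.continuousAt.eventually (p := fun z => z ∈ C) ?_
      show ∀ᶠ z in nhds (x + (0 : ℝ) • y), z ∈ C
      rw [zero_smul, add_zero]
      exact hC.isOpen.mem_nhds hx
    obtain ⟨ε, hε, hε'⟩ := Metric.eventually_nhds_iff.1 h2
    have h3 : x + (ε / 2) • y ∈ C := hε' (by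
      rw [Real.dist_eq, sub_zero, abs_of_pos (by linarith)]
      linarith)
    have h4 := h _ h3
    rw [Matrix.mulVec_add, h x hx, zero_add, Matrix.mulVec_smul] at h4
    exact (smul_eq_zero.1 h4).resolve_left (by linarith : ε / 2 ≠ 0)
  ext i j
  have h2 := congrFun (h1 (Pi.single j 1)) i
  rw [Matrix.mulVec_single_one] at h2
  exact h2

theorem no_nilp {m : ℕ} {G : Type} [Group G] {ρ : G →* Matrix (Fin m) (Fin m) ℝ}
    {C K : Set (Fin m → ℝ)} (h : Coc ρ C K) (hC : PC C) {u : Matrix (Fin m) (Fin m) ℝ}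
    (hu : u * u = 0) (hc : ∀ a, u * ρ a = ρ a * u) : u = 0 := by
  refine C3_zero hC fun x hx => ?_
  by_contra hne
  obtain ⟨t, ht⟩ := hC.noline x (u *ᵥ x) hne
  exact ht (nilp_mem h hu hc t hx)


theorem no_rot {m : ℕ} {G : Type} [Group G] {ρ : G →* Matrix (Fin m) (Fin m) ℝ}
    {C K : Set (Fin m → ℝ)} (h : Coc ρ C K) (hC : PC C) {e N : Matrix (Fin m) (Fin m) ℝ}
    (he : e * e = e) (heN : e * N = N) (hNe : N * e = N) (hN : N * N = -e)
    (hc : ∀ a, e * ρ a = ρ a * e) (hcN : ∀ a, N * ρ a = ρ a * N) : e = 0 := by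
  have hee : e * (1 - e) = 0 := by rw [mul_sub, mul_one, he, sub_self]
  have hee' : (1 - e) * (1 - e) = 1 - e := by rw [sub_mul, one_mul, hee, sub_zero]
  have hline : ∀ x ∈ C, ∀ s : ℝ, 0 < s → (1 - e) *ᵥ x + s • (e *ᵥ x) ∈ C := by
    intro x hx s hs
    have h1 := block_mem h he hc hs hx
    rw [Matrix.add_mulVec, Matrix.smul_mulVec, add_comm] at h1
    exact h1
  refine C3_zero hC fun x hx => ?_
  have hy := rot_mem h he heN hNe hN hc hcN hx
  have e1 : e *ᵥ ((1 - (2 : ℝ) • e) *ᵥ x) = -(e *ᵥ x) := by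
    rw [Matrix.mulVec_mulVec, mul_sub, mul_one, Matrix.mul_smul, he, Matrix.sub_mulVec,
      Matrix.smul_mulVec, two_smul]
    abel
  have e2 : (1 - e) *ᵥ ((1 - (2 : ℝ) • e) *ᵥ x) = (1 - e) *ᵥ x := by
    have e3 : (1 - e) * (1 - (2 : ℝ) • e) = 1 - e := by
      rw [mul_sub, mul_one, Matrix.mul_smul, sub_mul, one_mul, he, sub_self, smul_zero, sub_zero]
    rw [Matrix.mulVec_mulVec, e3]
  have hmid : (1 - e) *ᵥ x ∈ C := by
    have h1 := hC.convex hx hy (by norm_num : (0 : ℝ) ≤ 1 / 2) (by norm_num : (0 : ℝ) ≤ 1 / 2)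
      (by norm_num)
    have e3 : (1 / 2 : ℝ) • x + (1 / 2 : ℝ) • ((1 - (2 : ℝ) • e) *ᵥ x) = (1 - e) *ᵥ x := by
      rw [Matrix.sub_mulVec, Matrix.one_mulVec, Matrix.smul_mulVec, Matrix.sub_mulVec,
        Matrix.one_mulVec]
      module
    rwa [e3] at h1
  by_contra hne
  obtain ⟨t, ht⟩ := hC.noline ((1 - e) *ᵥ x) (e *ᵥ x) hne
  apply ht
  rcases lt_trichotomy t 0 with h0 | h0 | h0
  · have h1 := hline _ hy (-t) (by linarith)
    rw [e1, e2, smul_neg, neg_smul, neg_neg] at h1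
    exact h1
  · rw [h0, zero_smul, add_zero]
    exact hmid
  · exact hline x hx t h0


theorem mix_closure {m : ℕ} {G : Type} [Group G] {ρ : G →* Matrix (Fin m) (Fin m) ℝ}
    {C K : Set (Fin m → ℝ)} (h : Coc ρ C K) (hC : PC C) {e : Matrix (Fin m) (Fin m) ℝ}
    (he : e * e = e) (hc : ∀ a, e * ρ a = ρ a * e) {x y : Fin m → ℝ} (hx : x ∈ C) (hy : y ∈ C) :
    e *ᵥ x + (1 - e) *ᵥ y ∈ closure C := by
  have hs : ∀ s : ℝ, 0 < s → ∀ x ∈ C, s • x ∈ C := fun s hs x hx => smul_mem h hs hx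
  have he' : (1 - e) * (1 - e) = 1 - e := by
    rw [sub_mul, one_mul, mul_sub, mul_one, he, sub_self, sub_zero]
  have hc' : ∀ a, (1 - e) * ρ a = ρ a * (1 - e) := by
    intro a
    rw [sub_mul, one_mul, mul_sub, mul_one, hc]
  have h1 : ∀ s : ℝ, 0 < s → (e *ᵥ x + s • ((1 - e) *ᵥ x)) + (s • (e *ᵥ y) + (1 - e) *ᵥ y) ∈ C := by
    intro s hs'
    have h2 := block_mem h he' hc' hs' hx
    have h3 := block_mem h he hc hs' hy
    rw [sub_sub_cancel, Matrix.add_mulVec, Matrix.smul_mulVec, add_comm] at h2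
    rw [Matrix.add_mulVec, Matrix.smul_mulVec] at h3
    exact add_closure hC hs h2 (subset_closure h3)
  have h4 : Filter.Tendsto (fun s : ℝ => (e *ᵥ x + s • ((1 - e) *ᵥ x)) +
      (s • (e *ᵥ y) + (1 - e) *ᵥ y)) (nhdsWithin 0 (Set.Ioi 0))
      (nhds (e *ᵥ x + (1 - e) *ᵥ y)) := by
    have hcont : Continuous (fun s : ℝ => (e *ᵥ x + s • ((1 - e) *ᵥ x)) +
      (s • (e *ᵥ y) + (1 - e) *ᵥ y)) := by fun_prop
    have h5 := (hcont.tendsto 0).mono_left (nhdsWithin_le_nhds (s := Set.Ioi (0 : ℝ)))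
    simpa using h5
  refine mem_closure_of_tendsto h4 ?_
  filter_upwards [self_mem_nhdsWithin] with s hs'
  exact h1 s hs'


theorem mix_mem {m : ℕ} {G : Type} [Group G] {ρ : G →* Matrix (Fin m) (Fin m) ℝ}
    {C K : Set (Fin m → ℝ)} (h : Coc ρ C K) (hC : PC C) {e : Matrix (Fin m) (Fin m) ℝ}
    (he : e * e = e) (hc : ∀ a, e * ρ a = ρ a * e) {x y : Fin m → ℝ} (hx : x ∈ C) (hy : y ∈ C) :
    e *ᵥ x + (1 - e) *ᵥ y ∈ C := by
  have hs : ∀ s : ℝ, 0 < s → ∀ x ∈ C, s • x ∈ C := fun s hs x hx => smul_mem h hs hx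
  have hnear : ∀ z ∈ C, ∀ᶠ t in nhds (0 : ℝ), z - t • x ∈ C := by
    intro z hz
    have hcont : Continuous fun t : ℝ => z - t • x := by fun_prop
    refine hcont.continuousAt.eventually (p := fun z => z ∈ C) ?_
    show ∀ᶠ w in nhds (z - (0 : ℝ) • x), w ∈ C
    rw [zero_smul, sub_zero]
    exact hC.isOpen.mem_nhds hz
  obtain ⟨ε, hε, hε'⟩ := Metric.eventually_nhds_iff.1 ((hnear x hx).and (hnear y hy))
  obtain ⟨h1, h2⟩ := hε' (y := ε / 2) (by
    rw [Real.dist_eq, sub_zero, abs_of_pos (by linarith)]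
    linarith)
  have h3 := mix_closure h hC he hc h1 h2
  have h4 := add_closure hC hs (hs (ε / 2) (by linarith) x hx) h3
  have e1 : (ε / 2) • x + (e *ᵥ (x - (ε / 2) • x) + (1 - e) *ᵥ (y - (ε / 2) • x)) =
      e *ᵥ x + (1 - e) *ᵥ y := by
    simp only [Matrix.mulVec_sub, Matrix.sub_mulVec, Matrix.one_mulVec, Matrix.mulVec_smul]
    module
  rwa [e1] at h4


end TLK
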