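import Pool.Agent.TLK.B0

/-!
# [TLK-C4] real matrices whose polynomial algebra has no nilpotents and no rotations are diagonalizable

PROOF. `q = minpoly ℝ S` (monic, `aeval S q = 0`, nonzero polynomials of smaller degree do not kill `S`).
(1) `q` is squarefree: if `q = a * a * b` with `a` of positive degree, then `u = aeval S (a * b)` satisfies
`u * u = aeval S (q * b) = 0`, so `u = 0` by `hn`, but `a * b` is nonzero of smaller degree.
(2) every irreducible factor of `q` has degree `1`: an irreducible polynomial over `ℝ` has degree at most `2`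
(`Irreducible.degree_le_two`). Let `f` be a monic irreducible factor of degree `2`: `f = (X - α)^2 + β^2` with `β ≠ 0`
(complete the square: no real root). `q = f * g` with `f, g` coprime by (1): `a * f + b * g = 1`. Put
`e = aeval S (b * g)`, `N = aeval S (C β⁻¹ * (X - C α) * (b * g))`. Then `aeval S (f * b * g) = 0`, so `e * e = e`
(`(b g)^2 = b g - a f b g`), `e * N = N`, `N * N = aeval S (β⁻² (X - α)^2 (b g)^2) = aeval S (β⁻² (f - β²) (b g)^2) = -e`.
So `e = 0` by `hr`, so `q ∣ b * g`, so `f ∣ b * g`, so `f ∣ 1`, contradiction.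
(3) so `q` splits with simple roots `t_1, …, t_k` (`Polynomial.splits_iff…`, `Polynomial.Splits`, `Squarefree` →
`nodup_roots`). Enumerate the roots by `Fin k` (`Finset.equivFin`, or `Finset.orderEmbOfFin`). With the Lagrange basis
polynomials `ℓ_i = ∏_{j ≠ i} (X - t_j)/(t_i - t_j)` (`Lagrange.basis`) put `π_i = aeval S ℓ_i`: `∑ ℓ_i = 1`
(`Lagrange.sum_basis`, if `k = 0` then `q = 1`, `1 = aeval S 1 = 0`, all matrices are equal), `ℓ_i ℓ_j` is divisible by `q`
for `i ≠ j`, `ℓ_i^2 - ℓ_i = - ℓ_i ∑_{j ≠ i} ℓ_j` is divisible by `q`, `X - ∑ t_i ℓ_i` has degree `< k` or is zero at all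
`t_i`: it is `∑ (X - t_i) ℓ_i`, divisible by `q`. `π_i ≠ 0` since `deg ℓ_i < k`. Commutation: polynomials in `S`.
-/

open scoped Matrix
open Polynomial

namespace TLK

theorem C4_comm {m : ℕ} (S X : Matrix (Fin m) (Fin m) ℝ) (h : X * S = S * X) (q : ℝ[X]) :
    X * aeval S q = aeval S q * X := by
  induction q using Polynomial.induction_on' with
  | add p r hp hr => rw [map_add, mul_add, add_mul, hp, hr]
  | monomial n a =>
    rw [aeval_monomial]
    have h1 : X * S ^ n = S ^ n * X := (Commute.pow_right (show Commute X S from h) n)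
    have h2 : Commute X (algebraMap ℝ (Matrix (Fin m) (Fin m) ℝ) a) :=
      (Algebra.commutes a X).symm
    have h3 : Commute X (S ^ n) := h1
    exact h2.mul_right h3

theorem C4_sqfree {m : ℕ} (S : Matrix (Fin m) (Fin m) ℝ)
    (hn : ∀ q : ℝ[X], aeval S q * aeval S q = 0 → aeval S q = 0) : Squarefree (minpoly ℝ S) := by
  intro a ha
  obtain ⟨b, hb⟩ := ha
  have h0 : minpoly ℝ S ≠ 0 := minpoly.ne_zero (Matrix.isIntegral S)
  have h1 : aeval S (a * b) * aeval S (a * b) = 0 := by
    rw [← map_mul]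
    have h2 : a * b * (a * b) = minpoly ℝ S * b := by rw [hb]; ring
    rw [h2, map_mul, minpoly.aeval, zero_mul]
  have h3 := hn _ h1
  have h4 : minpoly ℝ S ∣ a * b := minpoly.dvd ℝ S h3
  have hab : a * b ≠ 0 := by
    intro hab
    apply h0
    rw [hb, mul_assoc, hab, mul_zero]
  rw [hb, mul_assoc] at h4
  have h5 : a * (a * b) ∣ 1 * (a * b) := by rw [one_mul]; exact h4
  exact isUnit_of_dvd_one ((mul_dvd_mul_iff_right hab).1 h5)

theorem C4_real {m : ℕ} (S : Matrix (Fin m) (Fin m) ℝ)
    (hn : ∀ q : ℝ[X], aeval S q * aeval S q = 0 → aeval S q = 0)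
    (hr : ∀ q r : ℝ[X], aeval S q * aeval S q = aeval S q → aeval S q * aeval S r = aeval S r →
      aeval S r * aeval S r = - aeval S q → aeval S q = 0) {z : ℂ}
    (hz : aeval z (minpoly ℝ S) = 0) : z.im = 0 := by
  by_contra him
  set P : ℝ[X] := X ^ 2 - C (2 * z.re) * X + C (‖z‖ ^ 2) with hP
  have hPdvd : P ∣ minpoly ℝ S :=
    Polynomial.quadratic_dvd_of_aeval_eq_zero_im_ne_zero _ hz him
  obtain ⟨g, hg⟩ := hPdvd
  have hsq := C4_sqfree S hn
  rw [hg] at hsq
  have hcop : IsCoprime P g := (squarefree_mul_iff.1 hsq).1.isCoprime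
  obtain ⟨a, b, hab⟩ := hcop
  have hPg : aeval S (P * g) = 0 := by rw [← hg]; exact minpoly.aeval ℝ S
  have hnorm : ‖z‖ ^ 2 = z.re ^ 2 + z.im ^ 2 := by
    rw [← Complex.normSq_eq_norm_sq, Complex.normSq_apply]; ring
  -- P as a sum of squares
  have hP2 : P = (X - C z.re) ^ 2 + C (z.im ^ 2) := by
    rw [hP, hnorm]
    simp only [map_add, map_mul, map_pow, C_ofNat]
    ring
  have hq : aeval S (b * g) * aeval S (b * g) = aeval S (b * g) := by
    rw [← map_mul]
    have h1 : b * g * (b * g) = b * g - (P * g) * (a * b) := by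
      linear_combination (b * g) * hab
    rw [h1, map_sub, map_mul _ (P * g) (a * b), hPg, zero_mul, sub_zero]
  have h2 : aeval S (b * g) * aeval S (C z.im⁻¹ * (X - C z.re) * (b * g)) =
      aeval S (C z.im⁻¹ * (X - C z.re) * (b * g)) := by
    rw [mul_comm (C z.im⁻¹ * (X - C z.re)) (b * g), map_mul _ (b * g) (C z.im⁻¹ * (X - C z.re)),
      ← mul_assoc, hq]
  have hCC : (C z.im⁻¹ : ℝ[X]) * C z.im⁻¹ * C (z.im ^ 2) = 1 := by
    rw [← C_mul, ← C_mul, ← C_1]
    congr 1
    field_simp
  have h3 : aeval S (C z.im⁻¹ * (X - C z.re) * (b * g)) *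
      aeval S (C z.im⁻¹ * (X - C z.re) * (b * g)) = - aeval S (b * g) := by
    rw [← map_mul]
    have h4 : C z.im⁻¹ * (X - C z.re) * (b * g) * (C z.im⁻¹ * (X - C z.re) * (b * g)) =
        (P * g) * (C z.im⁻¹ * C z.im⁻¹ * b * (b * g)) - b * g * (b * g) := by
      have h5 : (X - C z.re : ℝ[X]) ^ 2 = P - C (z.im ^ 2) := by rw [hP2]; ring
      linear_combination (C z.im⁻¹ * C z.im⁻¹ * (b * g) * (b * g)) * h5 - (b * g) * (b * g) * hCC
    rw [h4, map_sub, map_mul, hPg, zero_mul, zero_sub, map_mul, hq]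
  have h6 := hr _ _ hq h2 h3
  have h7 : minpoly ℝ S ∣ b * g := minpoly.dvd ℝ S h6
  have h8 : P ∣ b * g := (Dvd.intro g hg.symm).trans h7
  have h9 : P ∣ 1 := by
    rw [← hab]
    exact dvd_add (Dvd.intro_left a rfl) h8
  have h10 : aeval z P = 0 := by
    rw [hP2]
    simp only [map_add, map_sub, map_pow, aeval_X, aeval_C, Complex.coe_algebraMap]
    apply Complex.ext
    · simp [pow_two]
    · simp [pow_two]
  have h11 : aeval z P ∣ aeval z (1 : ℝ[X]) := map_dvd (aeval z) h9
  rw [h10, map_one, zero_dvd_iff] at h11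
  exact one_ne_zero h11

theorem C4_splits {m : ℕ} (S : Matrix (Fin m) (Fin m) ℝ)
    (hn : ∀ q : ℝ[X], aeval S q * aeval S q = 0 → aeval S q = 0)
    (hr : ∀ q r : ℝ[X], aeval S q * aeval S q = aeval S q → aeval S q * aeval S r = aeval S r →
      aeval S r * aeval S r = - aeval S q → aeval S q = 0) : (minpoly ℝ S).Splits := by
  have h0 : minpoly ℝ S ≠ 0 := minpoly.ne_zero (Matrix.isIntegral S)
  obtain ⟨u, hu⟩ := UniqueFactorizationMonoid.factors_prod h0
  rw [← hu]
  refine (Splits.multisetProd fun g hg ↦ ?_).mul u.isUnit.splits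
  have hirr := UniqueFactorizationMonoid.irreducible_of_factor g hg
  have hdvd : g ∣ minpoly ℝ S := UniqueFactorizationMonoid.dvd_of_mem_factors hg
  have hdeg : g.degree ≠ 0 := fun h => hirr.not_isUnit (isUnit_iff_degree_eq_zero.2 h)
  obtain ⟨z, hz⟩ := IsAlgClosed.exists_aeval_eq_zero ℂ g hdeg
  have hz2 : aeval z (minpoly ℝ S) = 0 := by
    obtain ⟨r, hr'⟩ := hdvd
    rw [hr', map_mul, hz, zero_mul]
  have him := C4_real S hn hr hz2
  have hzre : z = (z.re : ℂ) := Complex.ext (by simp) (by simp [him])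
  have hroot : IsRoot g z.re := by
    rw [hzre] at hz
    have h1 : aeval ((algebraMap ℝ ℂ) z.re) g = algebraMap ℝ ℂ (aeval z.re g) :=
      aeval_algebraMap_apply ℂ z.re g
    have h2 : ((algebraMap ℝ ℂ) z.re : ℂ) = (z.re : ℂ) := rfl
    rw [← h2, h1] at hz
    have h3 : aeval z.re g = 0 := by
      have h4 := (algebraMap ℝ ℂ).injective (hz.trans (map_zero _).symm)
      exact h4
    rw [IsRoot.def, ← coe_aeval_eq_eval]
    exact h3
  exact Splits.of_degree_eq_one (degree_eq_one_of_irreducible_of_root hirr hroot)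

theorem exists_spec {m : ℕ} (S : Matrix (Fin m) (Fin m) ℝ)
    (hn : ∀ q : ℝ[X], aeval S q * aeval S q = 0 → aeval S q = 0)
    (hr : ∀ q r : ℝ[X], aeval S q * aeval S q = aeval S q → aeval S q * aeval S r = aeval S r →
      aeval S r * aeval S r = - aeval S q → aeval S q = 0) :
    ∃ (k : ℕ) (t : Fin k → ℝ) (π : Fin k → Matrix (Fin m) (Fin m) ℝ), Spec S t π := by
  classical
  have h0 : minpoly ℝ S ≠ 0 := minpoly.ne_zero (Matrix.isIntegral S)
  have hmon : (minpoly ℝ S).Monic := minpoly.monic (Matrix.isIntegral S)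
  have hspl := C4_splits S hn hr
  have hsep : (minpoly ℝ S).Separable := PerfectField.separable_iff_squarefree.2 (C4_sqfree S hn)
  have hnd : (minpoly ℝ S).roots.Nodup := nodup_roots hsep
  set s : Finset ℝ := (minpoly ℝ S).roots.toFinset with hs
  have hprod : minpoly ℝ S = ∏ a ∈ s, (X - C a) := by
    have h1 := hspl.eq_prod_roots_of_monic hmon
    rw [hs]
    have h2 : ∏ a ∈ (minpoly ℝ S).roots.toFinset, (X - C a : ℝ[X]) =
        ((minpoly ℝ S).roots.map fun a => X - C a).prod := by
      rw [Finset.prod, Multiset.toFinset_val, hnd.dedup]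
    rw [h2]
    exact h1
  let t : Fin s.card → ℝ := fun i => (s.equivFin.symm i : ℝ)
  have htinj : Function.Injective t := Subtype.val_injective.comp s.equivFin.symm.injective
  have hprod2 : minpoly ℝ S = ∏ i, (X - C (t i)) := by
    rw [hprod, ← Finset.prod_coe_sort]
    exact (Equiv.prod_comp s.equivFin.symm (fun a : s => (X - C (a : ℝ) : ℝ[X]))).symm
  have hZ : ∀ r : ℝ[X], (∀ i, r.eval (t i) = 0) → aeval S r = 0 := by
    intro r hr0
    have h1 : minpoly ℝ S ∣ r := by
      rw [hprod2]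
      apply Finset.prod_dvd_of_coprime
      · intro i _ j _ hij
        exact pairwise_coprime_X_sub_C htinj hij
      · intro i _
        exact dvd_iff_isRoot.2 (hr0 i)
    obtain ⟨b, hb⟩ := h1
    rw [hb, map_mul, minpoly.aeval, zero_mul]
  let ℓ : Fin s.card → ℝ[X] := fun i => Lagrange.basis Finset.univ t i
  have hself : ∀ i, (ℓ i).eval (t i) = 1 := fun i =>
    Lagrange.eval_basis_self (fun a _ b _ hab => htinj hab) (Finset.mem_univ i)
  have hne : ∀ i j, i ≠ j → (ℓ i).eval (t j) = 0 := fun i j hij =>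
    Lagrange.eval_basis_of_ne hij (Finset.mem_univ j)
  have hsumev : ∀ (f : Fin s.card → ℝ) j, ∑ i, f i * (ℓ i).eval (t j) = f j := by
    intro f j
    rw [Finset.sum_eq_single j]
    · rw [hself, mul_one]
    · intro i _ hij
      rw [hne i j hij, mul_zero]
    · intro h
      exact absurd (Finset.mem_univ j) h
  refine ⟨s.card, t, fun i => aeval S (ℓ i), ⟨⟨?_, ?_, ?_, ?_⟩, htinj, ?_, ?_⟩⟩
  · intro i
    have h1 : aeval S (ℓ i * ℓ i - ℓ i) = 0 := by
      apply hZ
      intro j
      rw [eval_sub, eval_mul]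
      by_cases hij : i = j
      · rw [← hij, hself]; ring
      · rw [hne i j hij]; ring
    rw [map_sub, map_mul] at h1
    exact sub_eq_zero.1 h1
  · intro i j hij
    show aeval S (ℓ i) * aeval S (ℓ j) = 0
    rw [← map_mul]
    apply hZ
    intro k
    rw [eval_mul]
    by_cases hik : i = k
    · rw [hne j k (fun h => hij (hik.trans h.symm)), mul_zero]
    · rw [hne i k hik, zero_mul]
  · have h1 : aeval S (∑ i, ℓ i - 1) = 0 := by
      apply hZ
      intro j
      have h2 := hsumev (fun _ => 1) j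
      simp only [one_mul] at h2
      rw [eval_sub, eval_finsetSum, h2, eval_one, sub_self]
    rw [map_sub, map_sum, map_one] at h1
    exact sub_eq_zero.1 h1
  · intro i h
    have h1 : minpoly ℝ S ∣ ℓ i := minpoly.dvd ℝ S h
    have h2 : (X - C (t i)) ∣ ℓ i := by
      refine Dvd.dvd.trans ?_ h1
      rw [hprod2]
      exact Finset.dvd_prod_of_mem _ (Finset.mem_univ i)
    have h3 : (ℓ i).eval (t i) = 0 := dvd_iff_isRoot.1 h2
    rw [hself] at h3
    exact one_ne_zero h3
  · have h1 : aeval S (X - ∑ i, C (t i) * ℓ i) = 0 := by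
      apply hZ
      intro j
      rw [eval_sub, eval_finsetSum, eval_X]
      have h2 := hsumev t j
      simp only [eval_mul, eval_C]
      rw [h2, sub_self]
    rw [map_sub, aeval_X, map_sum, sub_eq_zero] at h1
    rw [h1]
    have h3 : ∀ i, aeval S (C (t i) * ℓ i) = t i • aeval S (ℓ i) := by
      intro i
      rw [map_mul, aeval_C, Algebra.smul_def]
    rw [Finset.sum_congr rfl fun i _ => h3 i]
    -- the right hand side
    have h4 : S = ∑ i, t i • aeval S (ℓ i) := by
      rw [← Finset.sum_congr rfl fun i _ => h3 i]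
      exact h1
    exact Finset.sum_congr rfl fun i _ => by rw [← h4]
  · intro Y hY i
    exact C4_comm S Y hY _

end TLK
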