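import Pool.Agent.TLK.B0

/-!
# [TLK-C5] the determinant on the image of an idempotent

`dt π X = det (1 - π + X π)`, for `X` commuting with the idempotent `π`.

* `dt_mul`: `(1 - π + X π)(1 - π + Y π) = 1 - π + X Y π` if `π π = π`, `X π = π X`, `Y π = π Y`.
* `dt_one`: `1 - π + π = 1`.
* `dt_scale`: `1 - π + (s • π + (1 - π)) X π = (1 - π + s • π)(1 - π + X π)` and
  `det (1 - π + s • π) = s ^ rank π`. For the last: `π` is similar to a diagonal matrix with entries `1` (rank `π` times) and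
  `0`; or: use the complementary subspaces `range` and `ker` of `toLin' π`; or the characteristic polynomial.
* `dt_other`: if `π' π = 0 = π π'` then `(s • π + (1 - π)) X π' = X π'` for `X` commuting with `π`
  (`π X π' = X π π' = 0`).
* `dt_prod`: `∏_j (1 - π_j + X π_j) = X` for orthogonal idempotents with sum `1` commuting with `X` (by induction over
  subsets `s`: `∏_{j ∈ s} (1 - π_j + X π_j) = 1 - π_s + X π_s` with `π_s = ∑_{j ∈ s} π_j`).
* `dt_bound`: all entries of `1 - π + X π` are bounded in terms of `B` (and `m`, `π`), so `|dt π X| ≤ c` with `c ≥ 1`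
  (`Matrix.det_apply` / `Matrix.det_le`), and `dt π X * dt π Y = dt π 1 = 1`.
* `dt_transpose`: `(1 - π + X π)ᵀ = 1 - πᵀ + πᵀ Xᵀ = 1 - πᵀ + Xᵀ πᵀ`.
* `dt_smul`: `1 - π + (s • X) π = (1 - π + s • π)(1 - π + X π)`.
-/

open scoped Matrix

namespace TLK

theorem dt_one {m : ℕ} (π : Matrix (Fin m) (Fin m) ℝ) : dt π 1 = 1 := by
  rw [dt, one_mul, sub_add_cancel, Matrix.det_one]

theorem dt_mul {m : ℕ} {π X Y : Matrix (Fin m) (Fin m) ℝ} (hπ : π * π = π)
    (hX : π * X = X * π) (hY : π * Y = Y * π) : dt π (X * Y) = dt π X * dt π Y := by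
  have a1 : π * (Y * π) = Y * π := by rw [← mul_assoc, hY, mul_assoc, hπ]
  have a2 : (X * π) * π = X * π := by rw [mul_assoc, hπ]
  have a3 : (X * π) * (Y * π) = X * Y * π := by rw [mul_assoc, a1, ← mul_assoc]
  have e : (1 - π + X * π) * (1 - π + Y * π) = 1 - π + X * Y * π := by
    have e1 : (1 - π + X * π) * (1 - π + Y * π) = 1 - π - π + π * π + (Y * π - π * (Y * π)) +
        (X * π - (X * π) * π) + (X * π) * (Y * π) := by
      rw [add_mul, mul_add, mul_add, sub_mul, sub_mul, one_mul, one_mul, mul_sub, mul_sub, mul_one,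
        mul_one]
      abel
    rw [e1, hπ, a1, a2, a3]
    abel
  rw [dt, dt, dt, ← Matrix.det_mul, e]

theorem dt_self {m : ℕ} {π : Matrix (Fin m) (Fin m) ℝ} (hπ : π * π = π) (s : ℝ) :
    (1 - π + s • π).det = s ^ π.rank := by
  obtain ⟨f, hf⟩ : ∃ f : (Fin m → ℝ) →ₗ[ℝ] (Fin m → ℝ), f = Matrix.toLin' π := ⟨_, rfl⟩
  have hidem : IsIdempotentElem f := by
    rw [hf, IsIdempotentElem, Module.End.mul_eq_comp, ← Matrix.toLin'_mul, hπ]
  have hproj : LinearMap.IsProj (LinearMap.range f) f :=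
    (LinearMap.isProj_range_iff_isIdempotentElem f).2 hidem
  have hconj := hproj.eq_conj_prodMap
  obtain ⟨e, he⟩ : ∃ e : (LinearMap.range f × LinearMap.ker f) ≃ₗ[ℝ] (Fin m → ℝ),
      e = (LinearMap.range f).prodEquivOfIsCompl (LinearMap.ker f) hproj.isCompl := ⟨_, rfl⟩
  rw [← he] at hconj
  have h3 : (LinearMap.prodMap (s • LinearMap.id) LinearMap.id :
      (LinearMap.range f × LinearMap.ker f) →ₗ[ℝ] (LinearMap.range f × LinearMap.ker f)) =
      LinearMap.id + (s - 1) • LinearMap.prodMap LinearMap.id 0 := by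
    ext <;> simp
    ring
  have h1 : Matrix.toLin' (1 - π + s • π) =
      e.conj (LinearMap.prodMap (s • LinearMap.id) LinearMap.id) := by
    have h5 : e.conj (LinearMap.id + (s - 1) • LinearMap.prodMap LinearMap.id 0) =
        LinearMap.id + (s - 1) • f := by
      rw [map_add, map_smul, ← hconj, LinearEquiv.conj_id]
    have h6 : 1 - π + s • π = 1 + (s - 1) • π := by
      rw [sub_smul, one_smul]
      abel
    rw [h3, h5, h6, map_add, map_smul, Matrix.toLin'_one, hf]
  have h4 : LinearMap.det (e.conj (LinearMap.prodMap (s • LinearMap.id) LinearMap.id)) =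
      LinearMap.det (LinearMap.prodMap (s • LinearMap.id) LinearMap.id :
      (LinearMap.range f × LinearMap.ker f) →ₗ[ℝ] (LinearMap.range f × LinearMap.ker f)) := by
    rw [LinearEquiv.conj_apply, LinearMap.comp_assoc]
    exact LinearMap.det_conj _ e
  rw [← LinearMap.det_toLin', h1, h4, LinearMap.det_prodMap, LinearMap.det_smul, LinearMap.det_id,
    LinearMap.det_id, mul_one, mul_one, hf]
  rfl

theorem C5_fac {m : ℕ} {π X : Matrix (Fin m) (Fin m) ℝ} (hπ : π * π = π)
    (hX : π * X = X * π) (s : ℝ) :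
    (1 - π + s • (X * π)).det = s ^ π.rank * dt π X := by
  have a1 : π * (X * π) = X * π := by rw [← mul_assoc, hX, mul_assoc, hπ]
  have e : (1 - π + s • π) * (1 - π + X * π) = 1 - π + s • (X * π) := by
    have e1 : (1 - π + s • π) * (1 - π + X * π) = 1 - π - π + π * π + (X * π - π * (X * π)) +
        (s • π - s • (π * π)) + s • (π * (X * π)) := by
      rw [add_mul, mul_add, mul_add, sub_mul, sub_mul, one_mul, one_mul, mul_sub, mul_sub, mul_one,
        mul_one, smul_mul_assoc, smul_mul_assoc]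
      abel
    rw [e1, hπ, a1]
    abel
  rw [dt, ← dt_self hπ s, ← Matrix.det_mul, e]

theorem dt_scale {m : ℕ} {π X : Matrix (Fin m) (Fin m) ℝ} (hπ : π * π = π)
    (hX : π * X = X * π) (s : ℝ) : dt π (X * (s • π + (1 - π))) = s ^ π.rank * dt π X := by
  have e : X * (s • π + (1 - π)) * π = s • (X * π) := by
    rw [mul_assoc, add_mul, sub_mul, one_mul, hπ, sub_self, add_zero, smul_mul_assoc, hπ,
      mul_smul_comm]
  rw [dt, e, C5_fac hπ hX]

theorem dt_smul {m : ℕ} {π X : Matrix (Fin m) (Fin m) ℝ} (hπ : π * π = π)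
    (hX : π * X = X * π) (s : ℝ) : dt π (s • X) = s ^ π.rank * dt π X := by
  rw [dt, smul_mul_assoc, C5_fac hπ hX]

theorem dt_other {m : ℕ} {π π' X : Matrix (Fin m) (Fin m) ℝ} (h : π * π' = 0)
    (s : ℝ) : dt π' (X * (s • π + (1 - π))) = dt π' X := by
  have e : X * (s • π + (1 - π)) * π' = X * π' := by
    rw [mul_assoc, add_mul, sub_mul, one_mul, smul_mul_assoc, h, smul_zero, sub_zero, zero_add]
  rw [dt, dt, e]

theorem dt_prod {m k : ℕ} {π : Fin k → Matrix (Fin m) (Fin m) ℝ} (hπ : Idem π)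
    {X : Matrix (Fin m) (Fin m) ℝ} (hX : ∀ i, π i * X = X * π i) : ∏ i, dt (π i) X = X.det := by
  have key : ∀ s : Finset (Fin k), ∏ i ∈ s, dt (π i) X =
      (1 - ∑ i ∈ s, π i + X * ∑ i ∈ s, π i).det := by
    intro s
    induction s using Finset.induction_on with
    | empty => simp
    | insert a s ha ih =>
      rw [Finset.prod_insert ha, Finset.sum_insert ha, ih, dt, ← Matrix.det_mul]
      obtain ⟨P, hP⟩ : ∃ P : Matrix (Fin m) (Fin m) ℝ, P = ∑ i ∈ s, π i := ⟨_, rfl⟩
      have h0 : π a * P = 0 := by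
        rw [hP, Finset.mul_sum]
        refine Finset.sum_eq_zero fun i hi => hπ.mul_ne a i ?_
        rintro rfl
        exact ha hi
      have h1 : π a * (X * P) = 0 := by rw [← mul_assoc, hX, mul_assoc, h0, mul_zero]
      have h2 : (X * π a) * P = 0 := by rw [mul_assoc, h0, mul_zero]
      have h3 : (X * π a) * (X * P) = 0 := by rw [mul_assoc, h1, mul_zero]
      rw [← hP]
      congr 1
      have e1 : (1 - π a + X * π a) * (1 - P + X * P) = 1 - P - π a + π a * P +
          (X * P - π a * (X * P)) + (X * π a - (X * π a) * P) + (X * π a) * (X * P) := by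
        rw [add_mul, mul_add, mul_add, sub_mul, sub_mul, one_mul, one_mul, mul_sub, mul_sub,
          mul_one, mul_one]
        abel
      rw [e1, h0, h1, h2, h3, mul_add]
      abel
  have h := key Finset.univ
  rw [hπ.sum, sub_self, zero_add, mul_one] at h
  exact h

theorem dt_bound {m : ℕ} {π : Matrix (Fin m) (Fin m) ℝ} (hπ : π * π = π) (B : ℝ) :
    ∃ c : ℝ, 1 ≤ c ∧ ∀ X Y : Matrix (Fin m) (Fin m) ℝ, X * Y = 1 → π * X = X * π → π * Y = Y * π →
      Bd X B → Bd Y B → c⁻¹ ≤ |dt π X| ∧ |dt π X| ≤ c := by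
  obtain ⟨p, hp⟩ : ∃ p : ℝ, ∀ i j, |π i j| ≤ p := by
    refine ⟨∑ i, ∑ j, |π i j|, fun i j => ?_⟩
    refine (Finset.single_le_sum (f := fun j => |π i j|) (fun j _ => abs_nonneg _)
      (Finset.mem_univ j)).trans ?_
    exact Finset.single_le_sum (f := fun i => ∑ j, |π i j|)
      (fun i _ => Finset.sum_nonneg fun j _ => abs_nonneg _) (Finset.mem_univ i)
  obtain ⟨M, hM⟩ : ∃ M : ℝ, M = 1 + p + m * (|B| * |p|) := ⟨_, rfl⟩
  have hent : ∀ X : Matrix (Fin m) (Fin m) ℝ, Bd X B → ∀ i j, |(1 - π + X * π) i j| ≤ M := by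
    intro X hX i j
    have h1 : |(1 : Matrix (Fin m) (Fin m) ℝ) i j| ≤ 1 := by
      rw [Matrix.one_apply]
      split_ifs <;> simp
    have h2 : |(X * π) i j| ≤ m * (|B| * |p|) := by
      rw [Matrix.mul_apply]
      refine (Finset.abs_sum_le_sum_abs _ _).trans ?_
      have h3 : ∀ l ∈ (Finset.univ : Finset (Fin m)), |X i l * π l j| ≤ |B| * |p| := by
        intro l _
        rw [abs_mul]
        exact mul_le_mul ((hX i l).trans (le_abs_self _)) ((hp l j).trans (le_abs_self _))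
          (abs_nonneg _) (abs_nonneg _)
      refine (Finset.sum_le_card_nsmul _ _ _ h3).trans (le_of_eq ?_)
      rw [Finset.card_univ, Fintype.card_fin, nsmul_eq_mul]
    have h4 : (1 - π + X * π) i j = (1 : Matrix (Fin m) (Fin m) ℝ) i j - π i j + (X * π) i j := rfl
    rw [h4, hM]
    have h5 := abs_add_le ((1 : Matrix (Fin m) (Fin m) ℝ) i j - π i j) ((X * π) i j)
    have h6 := abs_sub ((1 : Matrix (Fin m) (Fin m) ℝ) i j) (π i j)
    have h7 := hp i j
    linarith
  obtain ⟨c, hc⟩ : ∃ c : ℝ, c = max 1 (m.factorial • M ^ m) := ⟨_, rfl⟩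
  have hc1 : 1 ≤ c := by rw [hc]; exact le_max_left _ _
  have hdt : ∀ X : Matrix (Fin m) (Fin m) ℝ, Bd X B → |dt π X| ≤ c := by
    intro X hX
    have h1 := Matrix.det_le (A := 1 - π + X * π) (abv := AbsoluteValue.abs) (x := M)
      (fun i j => hent X hX i j)
    rw [Fintype.card_fin] at h1
    rw [hc]
    exact h1.trans (le_max_right _ _)
  refine ⟨c, hc1, fun X Y hXY hX hY hBX hBY => ⟨?_, hdt X hBX⟩⟩
  have h1 : dt π X * dt π Y = 1 := by rw [← dt_mul hπ hX hY, hXY, dt_one]
  have h2 : |dt π X| * |dt π Y| = 1 := by rw [← abs_mul, h1, abs_one]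
  have h3 := hdt Y hBY
  rw [inv_le_iff_one_le_mul₀ (by linarith)]
  calc (1 : ℝ) = |dt π X| * |dt π Y| := h2.symm
    _ ≤ |dt π X| * c := mul_le_mul_of_nonneg_left h3 (abs_nonneg _)

theorem dt_transpose {m : ℕ} {π X : Matrix (Fin m) (Fin m) ℝ} (hX : π * X = X * π) :
    dt πᵀ Xᵀ = dt π X := by
  have e : 1 - πᵀ + Xᵀ * πᵀ = (1 - π + X * π)ᵀ := by
    rw [Matrix.transpose_add, Matrix.transpose_sub, Matrix.transpose_one, ← hX,
      Matrix.transpose_mul]
  rw [dt, dt, e, Matrix.det_transpose]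

end TLK
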