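import Pool.Agent.TLK.C3
import Pool.Agent.TLK.C5

/-!
# [TLK-C6a] main lemma, step A: normalization

Notation: `π = π_i`, `π' = 1 - π`, `N = rank π`, `x0 ∈ C`. `hsm : ∀ s > 0, x ∈ C → s • x ∈ C` is `smul_mem h`.
`mix_mem h hC (e := π)`: `x, y ∈ C → π x + π' y ∈ C`. `block_mem h`: `(s • π + (1 - π)) x ∈ C`.

PROOF. `K'' = {π' k + π x0 | k ∈ K} ∪ {x0}` is compact and contained in `C` (`mix_mem`). Let `B2` be the bound of `plemma` for
`K''`, `B3` the bound for `K`, and `c1, c2 ≥ 1` bounds of `dt_bound` for all `π_j` with `B2`, `B3` (maximum over `j`).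
Given `y ∈ C`:
(1) `π' x0 + π y ∈ C`, choose `g1` with `k := ρ g1 (π' x0 + π y) ∈ K`. So `π' k = ρ g1 π' x0`.
(2) `X1 = ρ g1 * π' + π`, `Y1 = ρ g1⁻¹ * π' + π` are inverse to each other (`π` commutes with `ρ`), preserve `C`
(`X1 x = π x + π' (ρ g1 x)`, `mix_mem`), and `X1 x0 = π' k + π x0 ∈ K''`, `x0 ∈ K''`. So `Bd X1 B2`, `Bd Y1 B2`. For
`j ≠ i`: `X1 π_j = ρ g1 π_j` (`π' π_j = π_j`, `π π_j = 0`), so `dt π_j X1 = dt π_j (ρ g1)` has absolute value in `[c1⁻¹, c1]`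
(`X1` commutes with `π_j`).
(3) `a := |dt π (ρ g1)| ^ (1 / N) > 0` (`dt π (ρ g1) * dt π (ρ g1⁻¹) = 1`; `N ≥ 1` because `π ≠ 0`;
`Real.rpow`), so `a ^ N = |dt π (ρ g1)|`. `p := (a • π + (1 - π)) k ∈ C`; choose `g2` with `ρ g2 p ∈ K`.
(4) `X2 = ρ g2 * (a • π + (1 - π))` has inverse `Y2 = (a⁻¹ • π + (1 - π)) * ρ g2⁻¹`; both preserve `C`, `X2 k ∈ K`, `k ∈ K`:
`Bd X2 B3`, `Bd Y2 B3`. So `|dt π_j (ρ g2)| ∈ [c2⁻¹, c2]` for `j ≠ i` (`dt_other`), `a ^ N * |dt π (ρ g2)| ∈ [c2⁻¹, c2]` (`dt_scale`).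
(5) `g = g2 * g1`: `|dt π_j (ρ g)| ∈ [(c1 c2)⁻¹, c1 c2]` for `j ≠ i` and `|dt π (ρ g)| = |dt π (ρ g2)| a ^ N ∈ [c2⁻¹, c2]`
(`dt_mul`). `ρ g (π' x0 + a • π y) = ρ g2 ((a • π + (1 - π)) (ρ g1 (π' x0 + π y))) = ρ g2 p ∈ K`.
(6) `X3 = ρ g * π' + π`, `Y3 = ρ g⁻¹ * π' + π`: as in (2), `X3 x0 = π' (ρ g (π' x0 + a π y)) + π x0 ∈ K''`: `Bd X3 B2`, `Bd Y3 B2`,
and `ρ g * π' = X3 * π'`, `ρ g⁻¹ * π' = Y3 * π'` are bounded (entries of a product of matrices are bounded by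
`m * B * B'`).
-/

open scoped Matrix

namespace TLK

theorem C6a_rank {m : ℕ} {P : Matrix (Fin m) (Fin m) ℝ} (h0 : P.rank = 0) : P = 0 := by
  have h1 : P.mulVecLin = 0 := LinearMap.range_eq_bot.1 (Submodule.finrank_eq_zero.1 h0)
  exact (Matrix.toLin' (R := ℝ)).map_eq_zero_iff.1 h1

theorem C6a_inv {m : ℕ} {P A B : Matrix (Fin m) (Fin m) ℝ} (hP : P * P = P)
    (hPB : P * B = B * P) (hAB : A * B = 1) :
    (A * (1 - P) + P) * (B * (1 - P) + P) = 1 := by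
  have h1 : (1 - P) * B = B * (1 - P) := by rw [sub_mul, mul_sub, hPB, one_mul, mul_one]
  have h2 : (1 - P) * (1 - P) = 1 - P := by
    rw [sub_mul, one_mul, mul_sub, hP, mul_one, sub_self, sub_zero]
  have h3 : (1 - P) * P = 0 := by rw [sub_mul, hP, one_mul, sub_self]
  have h4 : P * (1 - P) = 0 := by rw [mul_sub, hP, mul_one, sub_self]
  have e1 : A * (1 - P) * (B * (1 - P)) = 1 - P := by
    calc A * (1 - P) * (B * (1 - P)) = A * ((1 - P) * B) * (1 - P) := by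
          simp only [mul_assoc]
      _ = (A * B) * ((1 - P) * (1 - P)) := by rw [h1]; simp only [mul_assoc]
      _ = 1 - P := by rw [hAB, h2, one_mul]
  have e2 : A * (1 - P) * P = 0 := by rw [mul_assoc, h3, mul_zero]
  have e3 : P * (B * (1 - P)) = 0 := by
    rw [← mul_assoc, hPB, mul_assoc, h4, mul_zero]
  rw [add_mul, mul_add, mul_add, e1, e2, e3, hP]
  abel

theorem C6a_sc {m : ℕ} {P : Matrix (Fin m) (Fin m) ℝ} (hP : P * P = P) {a b : ℝ}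
    (hab : a * b = 1) : (a • P + (1 - P)) * (b • P + (1 - P)) = 1 := by
  have h2 : (1 - P) * (1 - P) = 1 - P := by
    rw [sub_mul, one_mul, mul_sub, hP, mul_one, sub_self, sub_zero]
  have h3 : (1 - P) * P = 0 := by rw [sub_mul, hP, one_mul, sub_self]
  have h4 : P * (1 - P) = 0 := by rw [mul_sub, hP, mul_one, sub_self]
  rw [add_mul, mul_add, mul_add, smul_mul_smul_comm, hP, hab, one_smul, smul_mul_assoc, h4,
    mul_smul_comm, h3, h2, smul_zero, smul_zero]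
  abel

theorem C6a_Bd_mul {m : ℕ} {X Y : Matrix (Fin m) (Fin m) ℝ} {B B' : ℝ} (hX : Bd X B)
    (hY : Bd Y B') : Bd (X * Y) (m * (B * B')) := by
  intro i j
  rw [Matrix.mul_apply]
  refine (Finset.abs_sum_le_sum_abs _ _).trans ?_
  have h1 : ∀ k ∈ (Finset.univ : Finset (Fin m)), |X i k * Y k j| ≤ B * B' := by
    intro k _
    rw [abs_mul]
    exact mul_le_mul (hX i k) (hY k j) (abs_nonneg _) ((abs_nonneg _).trans (hX i k))
  refine (Finset.sum_le_sum h1).trans (le_of_eq ?_)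
  rw [Finset.sum_const, Finset.card_univ, Fintype.card_fin, nsmul_eq_mul]

theorem C6a_exists_Bd {m : ℕ} (X : Matrix (Fin m) (Fin m) ℝ) : ∃ B : ℝ, Bd X B := by
  refine ⟨∑ i, ∑ j, |X i j|, fun i j => ?_⟩
  refine le_trans ?_ (Finset.single_le_sum (f := fun i => ∑ j, |X i j|)
    (fun i _ => Finset.sum_nonneg fun j _ => abs_nonneg _) (Finset.mem_univ i))
  exact Finset.single_le_sum (f := fun j => |X i j|) (fun j _ => abs_nonneg _)
    (Finset.mem_univ j)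

theorem stepA {m k : ℕ} {G : Type} [Group G] {ρ : G →* Matrix (Fin m) (Fin m) ℝ}
    {C K : Set (Fin m → ℝ)} (h : Coc ρ C K) (hC : PC C)
    {π : Fin k → Matrix (Fin m) (Fin m) ℝ} (hπ : Idem π)
    (hcomm : ∀ i a, π i * ρ a = ρ a * π i) (i : Fin k) {x0 : Fin m → ℝ} (hx0 : x0 ∈ C) :
    ∃ c B1 : ℝ, ∀ y ∈ C, ∃ (g : G) (a : ℝ), 0 < a ∧
      ρ g *ᵥ ((1 - π i) *ᵥ x0 + a • (π i *ᵥ y)) ∈ K ∧
      (∀ j, c⁻¹ ≤ |dt (π j) (ρ g)| ∧ |dt (π j) (ρ g)| ≤ c) ∧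
      Bd (ρ g * (1 - π i)) B1 ∧ Bd (ρ g⁻¹ * (1 - π i)) B1 := by
  classical
  set P := π i with hPdef
  have hP : P * P = P := hπ.mul_self i
  have hPρ : ∀ a, P * ρ a = ρ a * P := hcomm i
  have hQQ : (1 - P) * (1 - P) = 1 - P := by
    rw [sub_mul, one_mul, mul_sub, hP, mul_one, sub_self, sub_zero]
  have hQP : (1 - P) * P = 0 := by rw [sub_mul, hP, one_mul, sub_self]
  have hPQ : P * (1 - P) = 0 := by rw [mul_sub, hP, mul_one, sub_self]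
  have hQρ : ∀ a, (1 - P) * ρ a = ρ a * (1 - P) := fun a => by
    rw [sub_mul, mul_sub, hPρ, one_mul, mul_one]
  have hsm : ∀ s : ℝ, 0 < s → ∀ x ∈ C, s • x ∈ C := fun s hs x hx => smul_mem h hs hx
  have hmix : ∀ x ∈ C, ∀ y ∈ C, P *ᵥ x + (1 - P) *ᵥ y ∈ C := fun x hx y hy =>
    mix_mem h hC hP hPρ hx hy
  have hρinv : ∀ g : G, ρ g * ρ g⁻¹ = 1 := fun g => by rw [← map_mul, mul_inv_cancel, map_one]
  have hρinv' : ∀ g : G, ρ g⁻¹ * ρ g = 1 := fun g => by rw [← map_mul, inv_mul_cancel, map_one]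
  -- the compact set K''
  set K'' : Set (Fin m → ℝ) := (fun k => P *ᵥ x0 + (1 - P) *ᵥ k) '' K ∪ {x0} with hK''
  have hK''c : IsCompact K'' := by
    refine IsCompact.union (h.compact.image ?_) isCompact_singleton
    exact continuous_const.add (Continuous.matrix_mulVec continuous_const continuous_id)
  have hK''C : K'' ⊆ C := by
    rintro z (⟨k, hk, rfl⟩ | hz)
    · exact hmix x0 hx0 k (h.subset hk)
    · rw [Set.mem_singleton_iff.1 hz]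
      exact hx0
  obtain ⟨B2, hB2⟩ := plemma hC hsm hK''c hK''C
  obtain ⟨B3, hB3⟩ := plemma hC hsm h.compact h.subset
  choose c1' hc1'1 hc1' using fun j => dt_bound (hπ.mul_self j) B2
  choose c2' hc2'1 hc2' using fun j => dt_bound (hπ.mul_self j) B3
  set c1 : ℝ := ∑ j, c1' j + 1 with hc1
  set c2 : ℝ := ∑ j, c2' j + 1 with hc2
  have hc1le : ∀ j, c1' j ≤ c1 := fun j => by
    have := Finset.single_le_sum (f := c1') (fun j _ => zero_le_one.trans (hc1'1 j))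
      (Finset.mem_univ j)
    linarith
  have hc2le : ∀ j, c2' j ≤ c2 := fun j => by
    have := Finset.single_le_sum (f := c2') (fun j _ => zero_le_one.trans (hc2'1 j))
      (Finset.mem_univ j)
    linarith
  have hc1one : 1 ≤ c1 := by
    have : 0 ≤ ∑ j, c1' j := Finset.sum_nonneg fun j _ => zero_le_one.trans (hc1'1 j)
    linarith
  have hc2one : 1 ≤ c2 := by
    have : 0 ≤ ∑ j, c2' j := Finset.sum_nonneg fun j _ => zero_le_one.trans (hc2'1 j)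
    linarith
  have bd1 : ∀ j, ∀ X Y : Matrix (Fin m) (Fin m) ℝ, X * Y = 1 → π j * X = X * π j →
      π j * Y = Y * π j → Bd X B2 → Bd Y B2 → c1⁻¹ ≤ |dt (π j) X| ∧ |dt (π j) X| ≤ c1 := by
    intro j X Y h1 h2 h3 h4 h5
    obtain ⟨h6, h7⟩ := hc1' j X Y h1 h2 h3 h4 h5
    exact ⟨(inv_anti₀ (lt_of_lt_of_le one_pos (hc1'1 j)) (hc1le j)).trans h6, h7.trans (hc1le j)⟩
  have bd2 : ∀ j, ∀ X Y : Matrix (Fin m) (Fin m) ℝ, X * Y = 1 → π j * X = X * π j →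
      π j * Y = Y * π j → Bd X B3 → Bd Y B3 → c2⁻¹ ≤ |dt (π j) X| ∧ |dt (π j) X| ≤ c2 := by
    intro j X Y h1 h2 h3 h4 h5
    obtain ⟨h6, h7⟩ := hc2' j X Y h1 h2 h3 h4 h5
    exact ⟨(inv_anti₀ (lt_of_lt_of_le one_pos (hc2'1 j)) (hc2le j)).trans h6, h7.trans (hc2le j)⟩
  obtain ⟨BQ, hBQ⟩ := C6a_exists_Bd (1 - P)
  have hPj : ∀ j, π j * P = P * π j := by
    intro j
    by_cases hj : j = i
    · rw [hj]
    · rw [hPdef, hπ.mul_ne j i hj, hπ.mul_ne i j (Ne.symm hj)]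
  -- the operators `ρ g (1 - P) + P`
  have hXin : ∀ g : G, ∀ x ∈ C, (ρ g * (1 - P) + P) *ᵥ x ∈ C := by
    intro g x hx
    have e : (ρ g * (1 - P) + P) *ᵥ x = P *ᵥ x + (1 - P) *ᵥ (ρ g *ᵥ x) := by
      rw [Matrix.add_mulVec, Matrix.mulVec_mulVec, hQρ, add_comm]
    rw [e]
    exact hmix x hx _ (h.maps g x hx)
  have hXK : ∀ g : G, ∀ w : Fin m → ℝ, ρ g *ᵥ ((1 - P) *ᵥ x0 + P *ᵥ w) ∈ K →
      (ρ g * (1 - P) + P) *ᵥ x0 ∈ K'' := by
    intro g w hw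
    left
    refine ⟨_, hw, ?_⟩
    simp only
    rw [Matrix.mulVec_mulVec, hQρ, ← Matrix.mulVec_mulVec, Matrix.mulVec_add,
      Matrix.mulVec_mulVec _ (1 - P) (1 - P), hQQ, Matrix.mulVec_mulVec _ (1 - P) P, hQP,
      Matrix.zero_mulVec, add_zero, Matrix.mulVec_mulVec, Matrix.add_mulVec, add_comm]
  have hXBd : ∀ g : G, ∀ w : Fin m → ℝ, ρ g *ᵥ ((1 - P) *ᵥ x0 + P *ᵥ w) ∈ K →
      Bd (ρ g * (1 - P) + P) B2 ∧ Bd (ρ g⁻¹ * (1 - P) + P) B2 := by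
    intro g w hw
    refine hB2 _ _ (C6a_inv hP (hPρ _) (hρinv g)) (C6a_inv hP (hPρ _) (hρinv' g)) (hXin g)
      (hXin g⁻¹) ⟨x0, ?_, hXK g w hw⟩
    right
    exact Set.mem_singleton _
  have hcommX : ∀ j, ∀ g : G, π j * (ρ g * (1 - P) + P) = (ρ g * (1 - P) + P) * π j := by
    intro j g
    rw [mul_add, add_mul, hPj, ← mul_assoc, hcomm, mul_assoc, mul_assoc, mul_sub, sub_mul, hPj,
      mul_one, one_mul]
  refine ⟨c1 * c2, m * (B2 * BQ), fun y hy => ?_⟩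
  -- step 1
  have hz1 : (1 - P) *ᵥ x0 + P *ᵥ y ∈ C := by
    have := hmix y hy x0 hx0
    rwa [add_comm] at this
  obtain ⟨g1, hg1⟩ := h.cocompact _ hz1
  obtain ⟨hX1, hY1⟩ := hXBd g1 y hg1
  have hdt1 : ∀ j, j ≠ i → c1⁻¹ ≤ |dt (π j) (ρ g1)| ∧ |dt (π j) (ρ g1)| ≤ c1 := by
    intro j hj
    have e : dt (π j) (ρ g1 * (1 - P) + P) = dt (π j) (ρ g1) := by
      unfold dt
      have h1 : (ρ g1 * (1 - P) + P) * π j = ρ g1 * π j := by
        rw [add_mul, mul_assoc, sub_mul, one_mul, hPdef, hπ.mul_ne i j (Ne.symm hj), sub_zero,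
          add_zero]
      rw [h1]
    rw [← e]
    exact bd1 j _ _ (C6a_inv hP (hPρ _) (hρinv g1)) (hcommX j g1) (hcommX j g1⁻¹) hX1 hY1
  -- step 3
  set N := P.rank with hN
  have hN0 : N ≠ 0 := by
    intro h0
    apply hπ.ne i
    exact C6a_rank h0
  have hdne : dt P (ρ g1) ≠ 0 := by
    intro h0
    have h1 := dt_mul (X := ρ g1) (Y := ρ g1⁻¹) hP (hPρ _) (hPρ _)
    rw [hρinv, dt_one, h0, zero_mul] at h1
    exact one_ne_zero h1
  set a : ℝ := |dt P (ρ g1)| ^ ((N : ℝ)⁻¹) with ha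
  have ha0 : 0 < a := Real.rpow_pos_of_pos (abs_pos.2 hdne) _
  have haN : a ^ N = |dt P (ρ g1)| := Real.rpow_inv_natCast_pow (abs_nonneg _) hN0
  set k := ρ g1 *ᵥ ((1 - P) *ᵥ x0 + P *ᵥ y) with hk
  have hkC : k ∈ C := h.subset hg1
  set q := (a • P + (1 - P)) *ᵥ k with hq
  have hqC : q ∈ C := block_mem h hP hPρ ha0 hkC
  obtain ⟨g2, hg2⟩ := h.cocompact q hqC
  have hAρ : ∀ (b : ℝ) (g : G), (b • P + (1 - P)) * ρ g = ρ g * (b • P + (1 - P)) := by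
    intro b g
    rw [add_mul, mul_add, smul_mul_assoc, mul_smul_comm, hPρ, hQρ]
  have hjA : ∀ (j) (b : ℝ), π j * (b • P + (1 - P)) = (b • P + (1 - P)) * π j := by
    intro j b
    rw [mul_add, add_mul, smul_mul_assoc, mul_smul_comm, hPj, mul_sub, sub_mul, hPj, mul_one,
      one_mul]
  -- step 4
  have hX2Y2 : ρ g2 * (a • P + (1 - P)) * ((a⁻¹ • P + (1 - P)) * ρ g2⁻¹) = 1 := by
    calc ρ g2 * (a • P + (1 - P)) * ((a⁻¹ • P + (1 - P)) * ρ g2⁻¹)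
        = ρ g2 * ((a • P + (1 - P)) * (a⁻¹ • P + (1 - P))) * ρ g2⁻¹ := by
          simp only [mul_assoc]
      _ = 1 := by rw [C6a_sc hP (mul_inv_cancel₀ ha0.ne'), mul_one, hρinv]
  have hY2X2 : (a⁻¹ • P + (1 - P)) * ρ g2⁻¹ * (ρ g2 * (a • P + (1 - P))) = 1 := by
    calc (a⁻¹ • P + (1 - P)) * ρ g2⁻¹ * (ρ g2 * (a • P + (1 - P)))
        = (a⁻¹ • P + (1 - P)) * (ρ g2⁻¹ * ρ g2) * (a • P + (1 - P)) := by
          simp only [mul_assoc]
      _ = 1 := by rw [hρinv', mul_one, C6a_sc hP (inv_mul_cancel₀ ha0.ne')]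
  obtain ⟨hX2, hY2⟩ := hB3 _ _ hX2Y2 hY2X2
    (fun x hx => by
      rw [← Matrix.mulVec_mulVec]
      exact h.maps g2 _ (block_mem h hP hPρ ha0 hx))
    (fun x hx => by
      rw [← Matrix.mulVec_mulVec]
      exact block_mem h hP hPρ (inv_pos.2 ha0) (h.maps g2⁻¹ _ hx))
    ⟨k, hg1, by rw [← Matrix.mulVec_mulVec]; exact hg2⟩
  have hdt2 : ∀ j, c2⁻¹ ≤ |dt (π j) (ρ g2 * (a • P + (1 - P)))| ∧
      |dt (π j) (ρ g2 * (a • P + (1 - P)))| ≤ c2 := by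
    intro j
    refine bd2 j _ _ hX2Y2 ?_ ?_ hX2 hY2
    · rw [← mul_assoc, hcomm, mul_assoc, hjA, mul_assoc]
    · rw [← mul_assoc, hjA, mul_assoc, hcomm, mul_assoc]
  -- step 5
  have hqeq : q = ρ g1 *ᵥ ((1 - P) *ᵥ x0 + a • (P *ᵥ y)) := by
    rw [hq, hk, Matrix.mulVec_mulVec, hAρ, ← Matrix.mulVec_mulVec]
    congr 1
    rw [Matrix.mulVec_add, Matrix.mulVec_mulVec, Matrix.mulVec_mulVec, add_mul, add_mul,
      smul_mul_assoc, smul_mul_assoc, hPQ, hQQ, hP, hQP, smul_zero, zero_add, add_zero,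
      Matrix.smul_mulVec]
  have hfin : ρ (g2 * g1) *ᵥ ((1 - P) *ᵥ x0 + a • (P *ᵥ y)) ∈ K := by
    rw [map_mul, ← Matrix.mulVec_mulVec, ← hqeq]
    exact hg2
  refine ⟨g2 * g1, a, ha0, hfin, ?_, ?_⟩
  · intro j
    have hm : dt (π j) (ρ (g2 * g1)) = dt (π j) (ρ g2) * dt (π j) (ρ g1) := by
      rw [map_mul]
      exact dt_mul (hπ.mul_self j) (hcomm j _) (hcomm j _)
    rw [hm, abs_mul]
    have hc1p : 0 < c1 := lt_of_lt_of_le one_pos hc1one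
    have hc2p : 0 < c2 := lt_of_lt_of_le one_pos hc2one
    by_cases hj : j = i
    · subst hj
      have e1 : |dt (π j) (ρ g2)| * |dt (π j) (ρ g1)| =
          |dt (π j) (ρ g2 * (a • P + (1 - P)))| := by
        have h1 := dt_scale (X := ρ g2) hP (hPρ g2) a
        rw [← hPdef, h1, abs_mul, abs_of_nonneg (pow_nonneg ha0.le _), ← hN, haN, mul_comm]
      rw [e1]
      obtain ⟨h1, h2⟩ := hdt2 j
      refine ⟨?_, ?_⟩
      · refine le_trans ?_ h1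
        refine inv_anti₀ hc2p ?_
        nlinarith
      · refine h2.trans ?_
        nlinarith
    · have e2 : dt (π j) (ρ g2 * (a • P + (1 - P))) = dt (π j) (ρ g2) :=
        dt_other (hπ.mul_ne i j (Ne.symm hj)) a
      obtain ⟨h1, h2⟩ := hdt2 j
      rw [e2] at h1 h2
      obtain ⟨h3, h4⟩ := hdt1 j hj
      refine ⟨?_, ?_⟩
      · rw [mul_inv, mul_comm]
        exact mul_le_mul h1 h3 (inv_nonneg.2 hc1p.le) (abs_nonneg _)
      · rw [mul_comm c1 c2]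
        exact mul_le_mul h2 h4 (abs_nonneg _) hc2p.le
  · have hfin' : ρ (g2 * g1) *ᵥ ((1 - P) *ᵥ x0 + P *ᵥ (a • y)) ∈ K := by
      rw [Matrix.mulVec_smul]
      exact hfin
    obtain ⟨hX3, hY3⟩ := hXBd (g2 * g1) (a • y) hfin'
    have e3 : ∀ g : G, ρ g * (1 - P) = (ρ g * (1 - P) + P) * (1 - P) := by
      intro g
      rw [add_mul, mul_assoc, hQQ, hPQ, add_zero]
    refine ⟨?_, ?_⟩
    · rw [e3]
      exact C6a_Bd_mul hX3 hBQ
    · rw [e3]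
      exact C6a_Bd_mul hY3 hBQ


end TLK
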