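import Pool.Agent.TLK.C6a

/-!
# [TLK-C6b] main lemma, steps B and C: uniform balls

PROOF. Take `c, B1` from `stepA h hC hπ hcomm i hx0`. The set `D` of vectors in `hFin c` is finite; for every `v ∈ D` choose
`g_v : G` with `v j = |dt (π j) (ρ g_v)|` for all `j`. Let `B4` bound all entries of all `ρ g_v`, `ρ g_v⁻¹` (finitely
many). Let `y ∈ C` and `g, a` as in `stepA`; `v j = |dt (π j) (ρ g)|` is in `D`; `d = g_v⁻¹ * g`.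
By `dt_mul`, `dt_one`: `|dt (π j) (ρ d)| = |dt (π j) (ρ g_v)|⁻¹ |dt (π j) (ρ g)| = 1` for all `j`, also for `d⁻¹`.
`ρ d * (1 - π) = ρ g_v⁻¹ * (ρ g * (1 - π))`, `ρ d⁻¹ * (1 - π) = (ρ g⁻¹ * (1 - π)) * ρ g_v` are bounded by some `B5`
(depending only on `m, B1, B4`). `hStar i B5` gives `B6` with `Bd (ρ d * π) B6` and (applied to `d⁻¹`) `Bd (ρ d⁻¹ * π) B6`.
So `ρ g = ρ g * (1 - π) + ρ g_v * (ρ d * π)` and `ρ g⁻¹ = ρ g⁻¹ * (1 - π) + (ρ d⁻¹ * π) * ρ g_v⁻¹` are bounded by `B8 > 0`.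

Let `r > 0` with `closedBall k r ⊆ C` for all `k ∈ K` (compactness, `IsCompact.exists_cthickening_subset_open`), and
`‖k‖ ≤ R` for `k ∈ K`. `z = (1 - π) x0 + a • π y = ρ g⁻¹ k` with `k = ρ g z ∈ K`. If `‖u‖ ≤ r' := r / (m B8 + 1)` then
`‖ρ g u‖ ≤ m B8 ‖u‖ ≤ r`, `k + ρ g u ∈ C`, `z + u = ρ g⁻¹ (k + ρ g u) ∈ C`. Finally `a • π y = π z`, `‖z‖ ≤ m B8 R`, so
`‖a • π y‖ ≤ R'`.
-/

open scoped Matrix

namespace TLK

theorem C6b_mono {m n : ℕ} {X : Matrix (Fin m) (Fin n) ℝ} {B B' : ℝ} (h : Bd X B) (hB : B ≤ B') :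
    Bd X B' := fun i j => (h i j).trans hB

theorem C6b_add {m n : ℕ} {X Y : Matrix (Fin m) (Fin n) ℝ} {B B' : ℝ} (h : Bd X B)
    (h' : Bd Y B') : Bd (X + Y) (B + B') := fun i j => by
  rw [Matrix.add_apply]
  exact (abs_add_le _ _).trans (add_le_add (h i j) (h' i j))

theorem C6b_norm {m : ℕ} {X : Matrix (Fin m) (Fin m) ℝ} {B : ℝ} (h : Bd X B) (hB : 0 ≤ B)
    (u : Fin m → ℝ) : ‖X *ᵥ u‖ ≤ m * (B * ‖u‖) := by
  rw [pi_norm_le_iff_of_nonneg (by positivity)]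
  intro i
  rw [Matrix.mulVec, dotProduct, Real.norm_eq_abs]
  refine (Finset.abs_sum_le_sum_abs _ _).trans ?_
  have h1 : ∀ j ∈ (Finset.univ : Finset (Fin m)), |X i j * u j| ≤ B * ‖u‖ := by
    intro j _
    rw [abs_mul]
    exact mul_le_mul (h i j) (norm_le_pi_norm u j) (abs_nonneg _) hB
  refine (Finset.sum_le_sum h1).trans (le_of_eq ?_)
  rw [Finset.sum_const, Finset.card_univ, Fintype.card_fin, nsmul_eq_mul]

theorem stepB {m k : ℕ} {G : Type} [Group G] {ρ : G →* Matrix (Fin m) (Fin m) ℝ}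
    {C K : Set (Fin m → ℝ)} (h : Coc ρ C K) (hC : PC C)
    {π : Fin k → Matrix (Fin m) (Fin m) ℝ} (hπ : Idem π)
    (hcomm : ∀ i a, π i * ρ a = ρ a * π i)
    (hFin : ∀ c : ℝ, {v : Fin k → ℝ | ∃ a : G, (∀ j, v j = |dt (π j) (ρ a)|) ∧
      ∀ j, c⁻¹ ≤ v j ∧ v j ≤ c}.Finite)
    (i : Fin k)
    (hStar : ∀ B : ℝ, ∃ B' : ℝ, ∀ a : G, (∀ j, |dt (π j) (ρ a)| = 1) →
      Bd (ρ a * (1 - π i)) B → Bd (ρ a⁻¹ * (1 - π i)) B → Bd (ρ a * π i) B')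
    {x0 : Fin m → ℝ} (hx0 : x0 ∈ C) :
    ∃ r' R' : ℝ, 0 < r' ∧ ∀ y ∈ C, ∃ a : ℝ, 0 < a ∧ ‖a • (π i *ᵥ y)‖ ≤ R' ∧
      ∀ u : Fin m → ℝ, ‖u‖ ≤ r' → (1 - π i) *ᵥ x0 + a • (π i *ᵥ y) + u ∈ C := by
  classical
  obtain ⟨c, B1, hA⟩ := stepA h hC hπ hcomm i hx0
  set P := π i with hPdef
  have hP : P * P = P := hπ.mul_self i
  have hPρ : ∀ a, P * ρ a = ρ a * P := hcomm i
  have hQρ : ∀ a, (1 - P) * ρ a = ρ a * (1 - P) := fun a => by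
    rw [sub_mul, mul_sub, hPρ, one_mul, mul_one]
  have hPQ : P * (1 - P) = 0 := by rw [mul_sub, hP, mul_one, sub_self]
  have hρinv : ∀ g : G, ρ g * ρ g⁻¹ = 1 := fun g => by rw [← map_mul, mul_inv_cancel, map_one]
  have hρinv' : ∀ g : G, ρ g⁻¹ * ρ g = 1 := fun g => by rw [← map_mul, inv_mul_cancel, map_one]
  have hdtinv : ∀ j (g : G), |dt (π j) (ρ g⁻¹)| * |dt (π j) (ρ g)| = 1 := by
    intro j g
    rw [← abs_mul, ← dt_mul (hπ.mul_self j) (hcomm j _) (hcomm j _), hρinv', dt_one, abs_one]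
  set D : Set (Fin k → ℝ) := {v | ∃ a : G, (∀ j, v j = |dt (π j) (ρ a)|) ∧
      ∀ j, c⁻¹ ≤ v j ∧ v j ≤ c} with hD
  have hDf : D.Finite := hFin c
  have hch : ∀ v : Fin k → ℝ, ∃ g : G, v ∈ D → ∀ j, v j = |dt (π j) (ρ g)| := by
    intro v
    by_cases hv : v ∈ D
    · obtain ⟨g, hg, -⟩ := hv
      exact ⟨g, fun _ => hg⟩
    · exact ⟨1, fun h => absurd h hv⟩
  choose gv hgv using hch
  have hBf : ∀ g : G, ∃ B : ℝ, Bd (ρ g) B ∧ Bd (ρ g⁻¹) B := by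
    intro g
    obtain ⟨B, hB⟩ := C6a_exists_Bd (ρ g)
    obtain ⟨B', hB'⟩ := C6a_exists_Bd (ρ g⁻¹)
    exact ⟨max B B', C6b_mono hB (le_max_left _ _), C6b_mono hB' (le_max_right _ _)⟩
  choose Bf hBf1 hBf2 using hBf
  obtain ⟨B4, hB4⟩ := (hDf.image fun v => Bf (gv v)).bddAbove
  have hB4' : ∀ v ∈ D, Bf (gv v) ≤ B4 := fun v hv => hB4 ⟨v, hv, rfl⟩
  obtain ⟨B6, hB6⟩ := hStar (m * (B4 * B1))
  obtain ⟨BP', hBP'⟩ := C6a_exists_Bd P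
  set BP : ℝ := max BP' 0 with hBP
  have hBPB : Bd P BP := C6b_mono hBP' (le_max_left _ _)
  have hBP0 : 0 ≤ BP := le_max_right _ _
  set B8 : ℝ := max (B1 + m * (B4 * B6)) 0 with hB8
  have hB80 : 0 ≤ B8 := le_max_right _ _
  obtain ⟨r, hr, hrC⟩ := h.compact.exists_cthickening_subset_open h.isOpen h.subset
  obtain ⟨R, hR⟩ := h.compact.isBounded.exists_norm_le
  refine ⟨r / (m * B8 + 1), m * (BP * (m * (B8 * |R|))), by positivity, fun y hy => ?_⟩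
  obtain ⟨g, a, ha, hgK, hdt, hb1, hb2⟩ := hA y hy
  set z := (1 - P) *ᵥ x0 + a • (P *ᵥ y) with hz
  set v : Fin k → ℝ := fun j => |dt (π j) (ρ g)| with hv
  have hvD : v ∈ D := ⟨g, fun j => rfl, hdt⟩
  have hgv' := hgv v hvD
  set γ := gv v with hγ
  have hγ1 : Bd (ρ γ) B4 := C6b_mono (hBf1 γ) (hB4' v hvD)
  have hγ2 : Bd (ρ γ⁻¹) B4 := C6b_mono (hBf2 γ) (hB4' v hvD)
  have hd1 : ∀ j, |dt (π j) (ρ (γ⁻¹ * g))| = 1 := by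
    intro j
    rw [map_mul, dt_mul (hπ.mul_self j) (hcomm j _) (hcomm j _), abs_mul]
    have h1 : |dt (π j) (ρ g)| = |dt (π j) (ρ γ)| := hgv' j
    rw [h1]
    exact hdtinv j γ
  have hd2 : ∀ j, |dt (π j) (ρ (γ⁻¹ * g)⁻¹)| = 1 := by
    intro j
    have h1 := hdtinv j (γ⁻¹ * g)
    rwa [hd1 j, mul_one] at h1
  have e1 : ρ (γ⁻¹ * g) * (1 - P) = ρ γ⁻¹ * (ρ g * (1 - P)) := by
    rw [map_mul, mul_assoc]
  have e2 : ρ (γ⁻¹ * g)⁻¹ * (1 - P) = ρ g⁻¹ * (1 - P) * ρ γ := by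
    rw [mul_inv_rev, inv_inv, map_mul, mul_assoc, ← hQρ, mul_assoc]
  have b1 : Bd (ρ (γ⁻¹ * g) * (1 - P)) (m * (B4 * B1)) := by
    rw [e1]
    exact C6a_Bd_mul hγ2 hb1
  have b2 : Bd (ρ (γ⁻¹ * g)⁻¹ * (1 - P)) (m * (B4 * B1)) := by
    rw [e2, mul_comm B4 B1]
    exact C6a_Bd_mul hb2 hγ1
  have b3 : Bd (ρ (γ⁻¹ * g) * P) B6 := hB6 _ hd1 b1 b2
  have b4 : Bd (ρ (γ⁻¹ * g)⁻¹ * P) B6 := hB6 _ hd2 b2 (by rw [inv_inv]; exact b1)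
  have hg1 : Bd (ρ g) B8 := by
    have e3 : ρ g = ρ g * (1 - P) + ρ γ * (ρ (γ⁻¹ * g) * P) := by
      have h1 : ρ γ * (ρ (γ⁻¹ * g) * P) = ρ g * P := by
        rw [← mul_assoc, ← map_mul, mul_inv_cancel_left]
      rw [h1, mul_sub, mul_one, sub_add_cancel]
    rw [e3]
    exact C6b_mono (C6b_add hb1 (C6a_Bd_mul hγ1 b3)) (le_max_left _ _)
  have hg2 : Bd (ρ g⁻¹) B8 := by
    have e3 : ρ g⁻¹ = ρ g⁻¹ * (1 - P) + ρ (γ⁻¹ * g)⁻¹ * P * ρ γ⁻¹ := by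
      have h1 : ρ (γ⁻¹ * g)⁻¹ * P * ρ γ⁻¹ = ρ g⁻¹ * P := by
        rw [mul_assoc, hPρ, ← mul_assoc, ← map_mul]
        congr 2
        group
      rw [h1, mul_sub, mul_one, sub_add_cancel]
    rw [e3]
    refine C6b_mono (C6b_add hb2 (C6a_Bd_mul b4 hγ2)) ?_
    rw [mul_comm B6 B4]
    exact le_max_left _ _
  have hzinv : ρ g⁻¹ *ᵥ (ρ g *ᵥ z) = z := by
    rw [Matrix.mulVec_mulVec, hρinv', Matrix.one_mulVec]
  refine ⟨a, ha, ?_, ?_⟩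
  · have e4 : a • (P *ᵥ y) = P *ᵥ z := by
      rw [hz, Matrix.mulVec_add, Matrix.mulVec_mulVec, hPQ, Matrix.zero_mulVec, zero_add,
        Matrix.mulVec_smul, Matrix.mulVec_mulVec, hP]
    rw [e4]
    refine (C6b_norm hBPB hBP0 z).trans ?_
    have h1 : ‖z‖ ≤ m * (B8 * |R|) := by
      rw [← hzinv]
      refine (C6b_norm hg2 hB80 _).trans ?_
      have := (hR _ hgK).trans (le_abs_self R)
      gcongr
    gcongr
  · intro u hu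
    have h1 : ‖ρ g *ᵥ u‖ ≤ r := by
      refine (C6b_norm hg1 hB80 u).trans ?_
      have h2 : ‖u‖ * (m * B8 + 1) ≤ r := by
        rw [le_div_iff₀ (by positivity)] at hu
        exact hu
      nlinarith [norm_nonneg u]
    have h2 : ρ g *ᵥ z + ρ g *ᵥ u ∈ C := by
      apply hrC
      refine Metric.mem_cthickening_of_dist_le _ (ρ g *ᵥ z) _ _ hgK ?_
      rw [dist_eq_norm, add_sub_cancel_left]
      exact h1
    have h3 := h.maps g⁻¹ _ h2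
    rw [← Matrix.mulVec_add, Matrix.mulVec_mulVec, hρinv', Matrix.one_mulVec] at h3
    exact h3


end TLK
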