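import Pool.Agent.TLK.C6b

/-!
# [TLK-C6c] main lemma: conclusion

PROOF of `rank_le_one` (`π` idempotent commuting with `ρ`, `x0 ∈ C`, uniform balls `hb`): suppose `rank π ≥ 2`.
`E = {v | π v = v}` (the range of `π`, a submodule of dimension `rank π ≥ 2`), `S = {v | ∃ x ∈ C, v = π x} ⊆ E`.
(1) `S` is open in `E`: `v = π x`, `v' ∈ E` close to `v`: `x + (v' - v) ∈ C` and `π (x + v' - v) = v'`.
(2) `S` is closed in `E ∖ {0}`: let `v ∈ E`, `v ≠ 0`, in the closure of `S`. Choose `y ∈ C` with `‖v - π y‖` so small that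
`π y ≠ 0` and `R' ‖v - π y‖ ≤ r' ‖π y‖`. With `a > 0` of `hb`: `a ‖π y‖ ≤ R'`, so `u = a • (v - π y)` has `‖u‖ ≤ r'`, so
`x = (1 - π) x0 + a • π y + u ∈ C`, `π x = a • v` (`π (1 - π) = 0`, `π v = v`), and `v = π (a⁻¹ • x) ∈ S`.
(3) `E ∖ {0}` is connected (dimension `≥ 2`: `isConnected_compl_singleton_of_one_lt_rank` or path connected
version), `S ∖ {0}` is nonempty (`S` is open in `E`, nonempty). So `S ⊇ E ∖ {0}`.
(4) take `v ∈ E`, `v ≠ 0`: `v = π x`, `-v = π x'` with `x, x' ∈ C`. `mix_mem`: `v + (1 - π) x ∈ C` (it is `x`), and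
`-v + (1 - π) x = π x' + (1 - π) x ∈ C`. `block_mem`: `s • v + (1 - π) x ∈ C` and `-s • v + (1 - π) x ∈ C` for all `s > 0`, and
`(1 - π) x ∈ C` as a midpoint. So the line `(1 - π) x + t • v` lies in `C`: contradiction to `noline`.

`main_lemma`: `rank (π i) ≤ 1` and `π i ≠ 0`.
-/

open scoped Matrix Topology

namespace TLK

theorem rank_le_one {m : ℕ} {G : Type} [Group G] {ρ : G →* Matrix (Fin m) (Fin m) ℝ}
    {C K : Set (Fin m → ℝ)} (h : Coc ρ C K) (hC : PC C) {π : Matrix (Fin m) (Fin m) ℝ}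
    (hπ : π * π = π) (hcomm : ∀ a, π * ρ a = ρ a * π) {x0 : Fin m → ℝ} (hx0 : x0 ∈ C)
    {r' R' : ℝ} (hr : 0 < r')
    (hb : ∀ y ∈ C, ∃ a : ℝ, 0 < a ∧ ‖a • (π *ᵥ y)‖ ≤ R' ∧
      ∀ u : Fin m → ℝ, ‖u‖ ≤ r' → (1 - π) *ᵥ x0 + a • (π *ᵥ y) + u ∈ C) :
    π.rank ≤ 1 := by
  by_contra hcon
  have hrk : 1 < π.rank := not_le.1 hcon
  have hsm : ∀ s : ℝ, 0 < s → ∀ x ∈ C, s • x ∈ C := fun s hs x hx => smul_mem h hs hx
  have hπ' : ∀ w : Fin m → ℝ, π *ᵥ (π *ᵥ w) = π *ᵥ w := fun w => by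
    rw [Matrix.mulVec_mulVec, hπ]
  have hπ1 : ∀ w : Fin m → ℝ, π *ᵥ ((1 - π) *ᵥ w) = 0 := fun w => by
    rw [Matrix.mulVec_mulVec, mul_sub, mul_one, hπ, sub_self, Matrix.zero_mulVec]
  have h1π : ∀ w : Fin m → ℝ, (1 - π) *ᵥ (π *ᵥ w) = 0 := fun w => by
    rw [Matrix.mulVec_mulVec, sub_mul, one_mul, hπ, sub_self, Matrix.zero_mulVec]
  have h11 : ∀ w : Fin m → ℝ, (1 - π) *ᵥ ((1 - π) *ᵥ w) = (1 - π) *ᵥ w := fun w => by
    rw [Matrix.sub_mulVec 1 π ((1 - π) *ᵥ w), Matrix.one_mulVec, hπ1, sub_zero]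
  let E : Submodule ℝ (Fin m → ℝ) := LinearMap.range π.mulVecLin
  let P : (Fin m → ℝ) →ₗ[ℝ] E := π.mulVecLin.rangeRestrict
  have hP : ∀ w, ((P w : E) : Fin m → ℝ) = π *ᵥ w := fun w => rfl
  have hPsurj : Function.Surjective P := LinearMap.surjective_rangeRestrict _
  have hPopen : IsOpenMap P := LinearMap.isOpenMap_of_finiteDimensional P hPsurj
  have hE : ∀ v : E, π *ᵥ (v : Fin m → ℝ) = v := by
    intro v
    obtain ⟨w, rfl⟩ := hPsurj v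
    rw [hP, hπ']
  have hfin : 1 < Module.finrank ℝ E := hrk
  have hrank : 1 < Module.rank ℝ E := by
    rw [← Module.finrank_eq_rank]
    exact_mod_cast hfin
  have hnt : Nontrivial E := Module.nontrivial_of_finrank_pos (by omega : 0 < Module.finrank ℝ E)
  have hSopen : IsOpen (P '' C) := hPopen C hC.isOpen
  have hSne : (P '' C).Nonempty := hC.nonempty.image P
  have hne0 : (𝓝[≠] (0 : E)).NeBot := Module.punctured_nhds_neBot ℝ E 0
  have hSne0 : (({0} : Set E)ᶜ ∩ P '' C).Nonempty := by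
    obtain ⟨v, hv1, hv2⟩ := (dense_compl_singleton (0 : E)).inter_open_nonempty _ hSopen hSne
    exact ⟨v, hv2, hv1⟩
  have hcl : closure (P '' C) ∩ ({0} : Set E)ᶜ ⊆ P '' C := by
    rintro v ⟨hv, hv0⟩
    have hv0' : v ≠ 0 := hv0
    have hvn : 0 < ‖v‖ := norm_pos_iff.2 hv0'
    set ε := min (‖v‖ / 2) (r' * ‖v‖ / (2 * (|R'| + 1))) with hε
    have hR1 : 0 < |R'| + 1 := by positivity
    have hεpos : 0 < ε := lt_min (by positivity) (by positivity)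
    obtain ⟨_, ⟨y, hy, rfl⟩, hd⟩ := Metric.mem_closure_iff.1 hv ε hεpos
    have hd1 : ‖(v : Fin m → ℝ) - π *ᵥ y‖ < ε := by
      rw [dist_eq_norm] at hd
      exact hd
    set w := (v : Fin m → ℝ) - π *ᵥ y with hw
    have hvE : ‖(v : Fin m → ℝ)‖ = ‖v‖ := rfl
    have hπy : ‖v‖ / 2 ≤ ‖π *ᵥ y‖ := by
      have h1 : ‖(v : Fin m → ℝ)‖ ≤ ‖w‖ + ‖π *ᵥ y‖ := by
        have h2 : (v : Fin m → ℝ) = w + π *ᵥ y := by rw [hw]; abel
        calc ‖(v : Fin m → ℝ)‖ = ‖w + π *ᵥ y‖ := by rw [← h2]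
          _ ≤ _ := norm_add_le _ _
      have h3 : ε ≤ ‖v‖ / 2 := min_le_left _ _
      rw [hvE] at h1
      linarith
    have hπy0 : 0 < ‖π *ᵥ y‖ := by linarith
    have hRw : R' * ‖w‖ ≤ r' * ‖π *ᵥ y‖ := by
      have h3 : ε ≤ r' * ‖v‖ / (2 * (|R'| + 1)) := min_le_right _ _
      have h4 : ‖w‖ * (2 * (|R'| + 1)) ≤ r' * ‖v‖ := by
        have := hd1.le.trans h3
        rwa [le_div_iff₀ (by positivity)] at this
      have h5 : R' * ‖w‖ ≤ (|R'| + 1) * ‖w‖ :=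
        mul_le_mul_of_nonneg_right (by linarith [le_abs_self R']) (norm_nonneg _)
      have h6 : r' * (‖v‖ / 2) ≤ r' * ‖π *ᵥ y‖ := mul_le_mul_of_nonneg_left hπy hr.le
      linarith
    obtain ⟨a, ha, haR, hball⟩ := hb y hy
    have haw : ‖a • w‖ ≤ r' := by
      rw [norm_smul, Real.norm_of_nonneg ha.le]
      rw [norm_smul, Real.norm_of_nonneg ha.le] at haR
      have h7 : (a * ‖w‖) * ‖π *ᵥ y‖ ≤ r' * ‖π *ᵥ y‖ := by
        calc (a * ‖w‖) * ‖π *ᵥ y‖ = (a * ‖π *ᵥ y‖) * ‖w‖ := by ring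
          _ ≤ R' * ‖w‖ := mul_le_mul_of_nonneg_right haR (norm_nonneg _)
          _ ≤ _ := hRw
      exact le_of_mul_le_mul_right h7 hπy0
    have hx := hball (a • w) haw
    set x := (1 - π) *ᵥ x0 + a • (π *ᵥ y) + a • w with hxdef
    have hπx : π *ᵥ x = a • (v : Fin m → ℝ) := by
      rw [hxdef, Matrix.mulVec_add, Matrix.mulVec_add, hπ1, zero_add, Matrix.mulVec_smul,
        Matrix.mulVec_smul, hπ', hw, Matrix.mulVec_sub, hE, hπ', ← smul_add]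
      congr 1
      abel
    refine ⟨a⁻¹ • x, hsm a⁻¹ (inv_pos.2 ha) x hx, Subtype.ext ?_⟩
    rw [hP, Matrix.mulVec_smul, hπx, smul_smul, inv_mul_cancel₀ ha.ne', one_smul]
  have hsub : ({0} : Set E)ᶜ ⊆ P '' C :=
    (isConnected_compl_singleton_of_one_lt_rank hrank 0).isPreconnected.subset_of_closure_inter_subset
      hSopen hSne0 hcl
  obtain ⟨v, hv⟩ := exists_ne (0 : E)
  obtain ⟨x, hx, hxv⟩ := hsub (show v ∈ ({0} : Set E)ᶜ from hv)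
  obtain ⟨x', hx', hxv'⟩ := hsub (show -v ∈ ({0} : Set E)ᶜ from neg_ne_zero.2 hv)
  have e1 : π *ᵥ x = (v : Fin m → ℝ) := by rw [← hP, hxv]
  have e2 : π *ᵥ x' = -(v : Fin m → ℝ) := by rw [← hP, hxv']; rfl
  have hpos : ∀ s : ℝ, 0 < s → (1 - π) *ᵥ x + s • (v : Fin m → ℝ) ∈ C := by
    intro s hs
    have h1 := block_mem h hπ hcomm hs hx
    rw [Matrix.add_mulVec, Matrix.smul_mulVec, e1, add_comm] at h1
    exact h1
  have hneg : ∀ s : ℝ, 0 < s → (1 - π) *ᵥ x - s • (v : Fin m → ℝ) ∈ C := by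
    intro s hs
    have h1 := mix_mem h hC hπ hcomm hx' hx
    have h2 := block_mem h hπ hcomm hs h1
    rw [Matrix.add_mulVec, Matrix.smul_mulVec, Matrix.mulVec_add, Matrix.mulVec_add, hπ', hπ1,
      h1π, h11, add_zero, zero_add, e2, smul_neg] at h2
    have e : -(s • (v : Fin m → ℝ)) + (1 - π) *ᵥ x = (1 - π) *ᵥ x - s • (v : Fin m → ℝ) := by abel
    rwa [e] at h2
  have hv' : (v : Fin m → ℝ) ≠ 0 := fun h0 => hv (Subtype.ext h0)
  obtain ⟨t, ht⟩ := hC.noline ((1 - π) *ᵥ x) v hv'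
  refine ht ?_
  rcases lt_trichotomy t 0 with h0 | h0 | h0
  · have h1 := hneg (-t) (by linarith)
    rwa [neg_smul, sub_neg_eq_add] at h1
  · rw [h0, zero_smul, add_zero]
    have h1 := hC.convex (hpos 1 one_pos) (hneg 1 one_pos) (by norm_num : (0 : ℝ) ≤ 1 / 2)
      (by norm_num : (0 : ℝ) ≤ 1 / 2) (by norm_num)
    have e : (1 / 2 : ℝ) • ((1 - π) *ᵥ x + (1 : ℝ) • (v : Fin m → ℝ)) +
        (1 / 2 : ℝ) • ((1 - π) *ᵥ x - (1 : ℝ) • (v : Fin m → ℝ)) = (1 - π) *ᵥ x := by module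
    rwa [e] at h1
  · exact hpos t h0

theorem main_lemma {m k : ℕ} {G : Type} [Group G] {ρ : G →* Matrix (Fin m) (Fin m) ℝ}
    {C K : Set (Fin m → ℝ)} (h : Coc ρ C K) (hC : PC C)
    {π : Fin k → Matrix (Fin m) (Fin m) ℝ} (hπ : Idem π)
    (hcomm : ∀ i a, π i * ρ a = ρ a * π i)
    (hFin : ∀ c : ℝ, {v : Fin k → ℝ | ∃ a : G, (∀ j, v j = |dt (π j) (ρ a)|) ∧
      ∀ j, c⁻¹ ≤ v j ∧ v j ≤ c}.Finite)
    (hStar : ∀ i (B : ℝ), ∃ B' : ℝ, ∀ a : G, (∀ j, |dt (π j) (ρ a)| = 1) →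
      Bd (ρ a * (1 - π i)) B → Bd (ρ a⁻¹ * (1 - π i)) B → Bd (ρ a * π i) B') (i : Fin k) :
    (π i).rank = 1 := by
  obtain ⟨x0, hx0⟩ := hC.nonempty
  obtain ⟨r', R', hr, hb⟩ := stepB h hC hπ hcomm hFin i (hStar i) hx0
  have h1 := rank_le_one h hC (hπ.mul_self i) (hcomm i) hx0 hr hb
  have h2 : (π i).rank ≠ 0 := by
    intro h0
    refine hπ.ne i ?_
    have h3 : Module.finrank ℝ (LinearMap.range (π i).mulVecLin) = 0 := h0
    have h4 : LinearMap.range (π i).mulVecLin = ⊥ := Submodule.finrank_eq_zero.1 h3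
    have h5 : (π i).mulVecLin = 0 := LinearMap.range_eq_bot.1 h4
    ext a b
    have h6 := congrFun (LinearMap.congr_fun h5 (Pi.single b 1)) a
    rw [Matrix.mulVecLin_apply, Matrix.mulVec_single_one] at h6
    exact h6
  omega

end TLK
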