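import Pool.Agent.TLK.C3

/-!
# [TLK-C7] rank one idempotents: the cone is an orthant

`Diag ρ Q Q' c`: `Q, Q'` inverse to each other, `Q ρ(a) = diag(c(a)) Q`, `c(a)_i > 0`, and the vectors `log c(a)` are
coarsely dense in `ℝ^m`.

PROOF of `orthant`. (1) `k = m`: `∑ rank π_i = ∑ trace π_i = trace 1 = m` (rank of an idempotent = trace, or: the ranges of the
`π_i` are independent and span). Reindex by `Fin m`. A rank one idempotent is `π_i = v_i w_iᵀ` (`Matrix.vecMulVec`) with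
`w_i ⬝ v_i = 1`; `π_i π_j = 0` gives `w_i ⬝ v_j = 0` for `i ≠ j`. `Q` = matrix with rows `w_i`, `Q'` = matrix with columns `v_i`:
`Q Q' = 1`, `Q' Q = ∑ v_i w_iᵀ = 1`.
(2) `π_i ρ a = ρ a π_i` gives `w_iᵀ ρ a = c_i(a) w_iᵀ`: `v_i (w_iᵀ ρ a) = (ρ a v_i) w_iᵀ`, multiply by `w_iᵀ` on the left:
`w_iᵀ ρ a = (w_i ⬝ ρ a v_i) w_iᵀ`, `c_i(a) = w_i ⬝ ρ a v_i`. So `Q ρ a = diag(c a) Q`.
(3) for `x ∈ C`: `w_i ⬝ x ≠ 0`: otherwise `π_i x = 0`; `C` is open: `x ± ε v_i ∈ C` for some `ε > 0`; `block_mem` for `e = π_i`: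
`x ± s ε v_i ∈ C` for all `s > 0`; so `C` contains the line `x + t v_i` (midpoint for `t = 0` is `x ∈ C` itself), contradiction.
`C` is convex, hence connected, so the sign of `w_i ⬝ x` is constant on `C`; replace `(v_i, w_i)` by `(-v_i, -w_i)` if
necessary: `w_i ⬝ x > 0` on `C`.
(4) conversely let `w_i ⬝ y > 0` for all `i`; `x0 ∈ C`, `s_i = (w_i ⬝ y)/(w_i ⬝ x0) > 0`; applying `block_mem` with `e = π_i`,
`s = s_i` for all `i` successively moves `x0` to `y`: `y ∈ C`.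
(5) `c_i(a) > 0`: `w_i ⬝ ρ a x = c_i(a) (w_i ⬝ x)`, both sides positive for `x ∈ C`.
(6) coarse density: on the compact set `K ⊆ C` the positive continuous functions `w_i ⬝ x` lie in `[κ⁻¹, κ]`, `κ ≥ 1`.
Given `d`, put `x = Q' (exp (-d_i))_i ∈ C`, choose `a` with `ρ a x ∈ K`: `c_i(a) exp(-d_i) ∈ [κ⁻¹, κ]`, so
`|log c_i(a) - d_i| ≤ log κ`.
-/

open scoped Matrix

namespace TLK

/-- `Q ρ(a) Q⁻¹ = diag(c(a))`, positive, with coarsely dense logarithms. -/
structure Diag {m : ℕ} {G : Type} [Group G] (ρ : G →* Matrix (Fin m) (Fin m) ℝ)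
    (Q Q' : Matrix (Fin m) (Fin m) ℝ) (c : G → Fin m → ℝ) : Prop where
  right : Q * Q' = 1
  left : Q' * Q = 1
  pos : ∀ a i, 0 < c a i
  eq : ∀ a, Q * ρ a = Matrix.diagonal (c a) * Q
  dense : ∃ B : ℝ, ∀ d : Fin m → ℝ, ∃ a, ∀ i, |Real.log (c a i) - d i| ≤ B

theorem rank_one_form {m : ℕ} {e : Matrix (Fin m) (Fin m) ℝ} (he : e * e = e)
    (hr : e.rank = 1) : ∃ v w : Fin m → ℝ, e = Matrix.vecMulVec v w ∧ w ⬝ᵥ v = 1 := by
  classical
  have h1 : Module.finrank ℝ (LinearMap.range e.mulVecLin) = 1 := hr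
  obtain ⟨⟨v, hv⟩, hv0, hall⟩ := finrank_eq_one_iff'.mp h1
  have hv0' : v ≠ 0 := fun h => hv0 (Subtype.ext h)
  have h2 : ∀ x, ∃ c : ℝ, c • v = e *ᵥ x := fun x => by
    obtain ⟨c, hc⟩ := hall ⟨e *ᵥ x, ⟨x, rfl⟩⟩
    exact ⟨c, congrArg Subtype.val hc⟩
  choose w' hw' using h2
  let w : Fin m → ℝ := fun j => w' (Pi.single j 1)
  have h3 : e = Matrix.vecMulVec v w := by
    ext i j
    have := congrFun (hw' (Pi.single j 1)) i
    rw [Matrix.mulVec_single_one] at this
    simp only [Pi.smul_apply, smul_eq_mul, Matrix.col_apply] at this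
    rw [Matrix.vecMulVec_apply, ← this, mul_comm]
  refine ⟨v, w, h3, ?_⟩
  obtain ⟨y, hy⟩ := hv
  have h4 : e *ᵥ v = v := by
    rw [← hy]
    change e *ᵥ (e *ᵥ y) = e *ᵥ y
    rw [Matrix.mulVec_mulVec, he]
  rw [h3, Matrix.vecMulVec_mulVec] at h4
  have h5 : (w ⬝ᵥ v - 1) • v = 0 := by
    rw [sub_smul, one_smul, sub_eq_zero]
    rw [op_smul_eq_smul] at h4
    exact h4
  rcases smul_eq_zero.mp h5 with h | h
  · linarith
  · exact absurd h hv0'

theorem rank_one_ne {m : ℕ} {G : Type} [Group G] {ρ : G →* Matrix (Fin m) (Fin m) ℝ}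
    {C K : Set (Fin m → ℝ)} (h : Coc ρ C K) (hC : PC C) {e : Matrix (Fin m) (Fin m) ℝ}
    (he : e * e = e) (hcomm : ∀ a, e * ρ a = ρ a * e) {v w : Fin m → ℝ}
    (hvw : e = Matrix.vecMulVec v w) (h1 : w ⬝ᵥ v = 1) {x : Fin m → ℝ} (hx : x ∈ C) :
    w ⬝ᵥ x ≠ 0 := by
  intro h0
  have hv0 : v ≠ 0 := by
    rintro rfl
    rw [dotProduct_zero] at h1
    exact zero_ne_one h1
  have hex : e *ᵥ x = 0 := by
    rw [hvw, Matrix.vecMulVec_mulVec, h0]
    simp
  have hev : e *ᵥ v = v := by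
    rw [hvw, Matrix.vecMulVec_mulVec, h1]
    simp
  -- a small interval
  have hcont : Continuous fun t : ℝ => x + t • v := by fun_prop
  have hopen : IsOpen ((fun t : ℝ => x + t • v) ⁻¹' C) := hC.isOpen.preimage hcont
  have hmem : (0 : ℝ) ∈ ((fun t : ℝ => x + t • v) ⁻¹' C) := by
    change x + (0 : ℝ) • v ∈ C
    rw [zero_smul, add_zero]
    exact hx
  obtain ⟨ε, hε, hball⟩ := Metric.isOpen_iff.mp hopen 0 hmem
  obtain ⟨t, ht⟩ := hC.noline x v hv0
  apply ht
  have key : ∀ δ : ℝ, |δ| < ε → ∀ s : ℝ, 0 < s → x + (s * δ) • v ∈ C := by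
    intro δ hδ s hs
    have h2 : x + δ • v ∈ C := hball (by rw [Metric.mem_ball, Real.dist_eq, sub_zero]; exact hδ)
    have h3 := block_mem h he hcomm hs h2
    have h4 : (s • e + (1 - e)) *ᵥ (x + δ • v) = x + (s * δ) • v := by
      rw [Matrix.add_mulVec, Matrix.smul_mulVec, Matrix.sub_mulVec, Matrix.one_mulVec,
        Matrix.mulVec_add, Matrix.mulVec_smul, hex, hev, zero_add, smul_smul]
      abel
    rw [h4] at h3
    exact h3
  have hT : 0 < 2 * (|t| + 1) / ε := by positivity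
  have h5 := key (t * (ε / (2 * (|t| + 1)))) (by
    rw [abs_mul, abs_of_pos (by positivity : 0 < ε / (2 * (|t| + 1))), ← mul_div_assoc,
      div_lt_iff₀ (by positivity)]
    nlinarith [abs_nonneg t]) _ hT
  have h6 : 2 * (|t| + 1) / ε * (t * (ε / (2 * (|t| + 1)))) = t := by
    have : |t| + 1 ≠ 0 := by positivity
    field_simp
  rw [h6] at h5
  exact h5

theorem rank_one_pos {m : ℕ} {G : Type} [Group G] {ρ : G →* Matrix (Fin m) (Fin m) ℝ}
    {C K : Set (Fin m → ℝ)} (h : Coc ρ C K) (hC : PC C) {e : Matrix (Fin m) (Fin m) ℝ}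
    (he : e * e = e) (hr : e.rank = 1) (hcomm : ∀ a, e * ρ a = ρ a * e) :
    ∃ v w : Fin m → ℝ, e = Matrix.vecMulVec v w ∧ w ⬝ᵥ v = 1 ∧ ∀ x ∈ C, 0 < w ⬝ᵥ x := by
  obtain ⟨v, w, hvw, h1⟩ := rank_one_form he hr
  obtain ⟨x0, hx0⟩ := hC.nonempty
  have hne := fun x (hx : x ∈ C) => rank_one_ne h hC he hcomm hvw h1 hx
  -- the sign is constant
  have hsign : ∀ u : Fin m → ℝ, (∀ x ∈ C, u ⬝ᵥ x ≠ 0) → 0 < u ⬝ᵥ x0 → ∀ x ∈ C, 0 < u ⬝ᵥ x := by
    intro u hu hu0 x hx
    by_contra hcon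
    have hlt : u ⬝ᵥ x < 0 := lt_of_le_of_ne (not_lt.mp hcon) (hu x hx)
    have hd : 0 < u ⬝ᵥ x0 - u ⬝ᵥ x := by linarith
    have hmem : (-(u ⬝ᵥ x) / (u ⬝ᵥ x0 - u ⬝ᵥ x)) • x0
        + ((u ⬝ᵥ x0) / (u ⬝ᵥ x0 - u ⬝ᵥ x)) • x ∈ C := by
      apply hC.convex hx0 hx
      · exact div_nonneg (by linarith) hd.le
      · exact div_nonneg hu0.le hd.le
      · rw [← add_div, div_eq_one_iff_eq hd.ne']
        ring
    apply hu _ hmem
    rw [dotProduct_add, dotProduct_smul, dotProduct_smul, smul_eq_mul, smul_eq_mul]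
    ring
  rcases lt_or_gt_of_ne (hne x0 hx0) with hlt | hgt
  · refine ⟨-v, -w, ?_, ?_, ?_⟩
    · rw [hvw]
      ext i j
      simp [Matrix.vecMulVec_apply]
    · rw [neg_dotProduct, dotProduct_neg, neg_neg, h1]
    · refine hsign (-w) (fun x hx => ?_) ?_
      · rw [neg_dotProduct]
        exact neg_ne_zero.mpr (hne x hx)
      · rw [neg_dotProduct]
        linarith
  · exact ⟨v, w, hvw, h1, hsign w hne hgt⟩

theorem orthant {m k : ℕ} {G : Type} [Group G] {ρ : G →* Matrix (Fin m) (Fin m) ℝ}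
    {C K : Set (Fin m → ℝ)} (h : Coc ρ C K) (hC : PC C)
    {π : Fin k → Matrix (Fin m) (Fin m) ℝ} (hπ : Idem π)
    (hcomm : ∀ i a, π i * ρ a = ρ a * π i) (hrank : ∀ i, (π i).rank = 1) :
    ∃ (Q Q' : Matrix (Fin m) (Fin m) ℝ) (c : G → Fin m → ℝ), Diag ρ Q Q' c ∧
      ∀ x, x ∈ C ↔ ∀ i, 0 < (Q *ᵥ x) i := by
  classical
  choose v w hvw h1 hpos using fun i =>
    rank_one_pos h hC (hπ.mul_self i) (hrank i) (hcomm i)
  let W : Matrix (Fin k) (Fin m) ℝ := Matrix.of w
  let V : Matrix (Fin m) (Fin k) ℝ := Matrix.of fun a i => v i a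
  have hWV : W * V = 1 := by
    ext i j
    rw [Matrix.mul_apply]
    have e1 : ∑ a, W i a * V a j = w i ⬝ᵥ v j := rfl
    rw [e1]
    by_cases hij : i = j
    · subst hij
      rw [h1, Matrix.one_apply_eq]
    · rw [Matrix.one_apply_ne hij]
      have h2 := hπ.mul_ne i j hij
      rw [hvw i, hvw j, Matrix.vecMulVec_mul_vecMulVec] at h2
      by_contra hne
      have hvi : v i ≠ 0 := by
        intro h0
        have := h1 i
        rw [h0, dotProduct_zero] at this
        exact zero_ne_one this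
      have hwj : w j ≠ 0 := by
        intro h0
        have := h1 j
        rw [h0, zero_dotProduct] at this
        exact zero_ne_one this
      obtain ⟨a, ha⟩ := Function.ne_iff.mp hvi
      obtain ⟨b, hb⟩ := Function.ne_iff.mp hwj
      have h3 := congrFun (congrFun h2 a) b
      simp only [Matrix.vecMulVec_apply, Pi.smul_apply, smul_eq_mul, Matrix.zero_apply,
        mul_eq_zero] at h3
      rcases h3 with h3 | h3 | h3
      · exact ha h3
      · exact hne h3
      · exact hb h3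
  have hVW : V * W = 1 := by
    rw [← hπ.sum]
    ext a b
    rw [Matrix.mul_apply, Matrix.sum_apply]
    refine Finset.sum_congr rfl fun i _ => ?_
    rw [hvw i]
    rfl
  have hkm : k = m := by
    have := Matrix.square_of_invertible W V hWV hVW
    simpa using this
  subst hkm
  have hWx : ∀ (x : Fin k → ℝ) i, (W *ᵥ x) i = w i ⬝ᵥ x := fun x i => rfl
  let c : G → Fin k → ℝ := fun a i => w i ⬝ᵥ (ρ a *ᵥ v i)
  have hwρ : ∀ a i, w i ᵥ* ρ a = c a i • w i := by
    intro a i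
    have e1 := congrArg (fun M => w i ᵥ* M) (hcomm i a)
    rw [← Matrix.vecMul_vecMul, ← Matrix.vecMul_vecMul, hvw i, Matrix.vecMul_vecMulVec,
      Matrix.vecMul_vecMulVec, h1, one_smul, ← Matrix.dotProduct_mulVec] at e1
    exact e1
  have heq : ∀ a, W * ρ a = Matrix.diagonal (c a) * W := by
    intro a
    ext i j
    rw [Matrix.diagonal_mul, Matrix.mul_apply]
    have := congrFun (hwρ a i) j
    exact this
  have hiff : ∀ x, x ∈ C ↔ ∀ i, 0 < (W *ᵥ x) i := by
    intro y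
    refine ⟨fun hy i => hpos i y hy, fun hy => ?_⟩
    obtain ⟨x0, hx0⟩ := hC.nonempty
    have key : ∀ s : Finset (Fin k), V *ᵥ (s.piecewise (W *ᵥ y) (W *ᵥ x0)) ∈ C := by
      intro s
      induction s using Finset.induction_on with
      | empty =>
        rw [Finset.piecewise_empty, Matrix.mulVec_mulVec, hVW, Matrix.one_mulVec]
        exact hx0
      | insert i s his ih =>
        rw [Finset.piecewise_insert]
        set u := s.piecewise (W *ᵥ y) (W *ᵥ x0) with hu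
        have hui : u i = (W *ᵥ x0) i := Finset.piecewise_eq_of_notMem _ _ _ his
        have hxi : 0 < (W *ᵥ x0) i := hpos i x0 hx0
        have hs : 0 < (W *ᵥ y) i / (W *ᵥ x0) i := div_pos (hy i) hxi
        have h3 := block_mem h (hπ.mul_self i) (hcomm i) hs ih
        have h4 : (((W *ᵥ y) i / (W *ᵥ x0) i) • π i + (1 - π i)) *ᵥ (V *ᵥ u)
            = V *ᵥ (Function.update u i ((W *ᵥ y) i)) := by
          have e1 : w i ⬝ᵥ (V *ᵥ u) = u i := by
            rw [← hWx, Matrix.mulVec_mulVec, hWV, Matrix.one_mulVec]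
          have e2 : π i *ᵥ (V *ᵥ u) = u i • v i := by
            rw [hvw i, Matrix.vecMulVec_mulVec, e1]
            simp
          have e3 : Function.update u i ((W *ᵥ y) i)
              = u + ((W *ᵥ y) i - u i) • Pi.single i (1 : ℝ) := by
            funext j
            by_cases hj : j = i
            · subst hj
              simp
            · simp [hj]
          have e4 : V *ᵥ Pi.single i (1 : ℝ) = v i := by
            rw [Matrix.mulVec_single_one]
            rfl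
          rw [Matrix.add_mulVec, Matrix.smul_mulVec, Matrix.sub_mulVec, Matrix.one_mulVec, e2, e3,
            Matrix.mulVec_add, Matrix.mulVec_smul, e4, smul_smul, hui, div_mul_cancel₀ _ hxi.ne',
            sub_smul]
          abel
        rw [h4] at h3
        exact h3
    have := key Finset.univ
    rw [Finset.piecewise_univ, Matrix.mulVec_mulVec, hVW, Matrix.one_mulVec] at this
    exact this
  have hWρ : ∀ a x i, (W *ᵥ (ρ a *ᵥ x)) i = c a i * (W *ᵥ x) i := by
    intro a x i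
    rw [Matrix.mulVec_mulVec, heq, ← Matrix.mulVec_mulVec, Matrix.mulVec_diagonal]
  have hcpos : ∀ a i, 0 < c a i := by
    intro a i
    obtain ⟨x0, hx0⟩ := hC.nonempty
    have e1 := (hiff _).mp (h.maps a x0 hx0) i
    rw [hWρ] at e1
    exact (pos_iff_pos_of_mul_pos e1).mpr ((hiff _).mp hx0 i)
  refine ⟨W, V, c, ⟨hWV, hVW, hcpos, heq, ?_⟩, hiff⟩
  have hcont : ContinuousOn (fun x : Fin k → ℝ => fun i => Real.log ((W *ᵥ x) i)) K := by
    apply continuousOn_pi.mpr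
    intro i
    apply ContinuousOn.log
    · have : Continuous fun x : Fin k → ℝ => (W *ᵥ x) i :=
        (continuous_apply i).comp (W.mulVecLin.continuous_of_finiteDimensional)
      exact this.continuousOn
    · intro x hx
      exact ((hiff x).mp (h.subset hx) i).ne'
  obtain ⟨B, hB⟩ := h.compact.exists_bound_of_continuousOn hcont
  refine ⟨B, fun d => ?_⟩
  have hx : V *ᵥ (fun i => Real.exp (-d i)) ∈ C := by
    rw [hiff]
    intro i
    rw [Matrix.mulVec_mulVec, hWV, Matrix.one_mulVec]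
    exact Real.exp_pos _
  obtain ⟨a, ha⟩ := h.cocompact _ hx
  refine ⟨a, fun i => ?_⟩
  have e1 := (norm_le_pi_norm (fun i => Real.log ((W *ᵥ (ρ a *ᵥ (V *ᵥ (fun i => Real.exp (-d i))))) i)) i).trans
    (hB _ ha)
  rw [hWρ, Matrix.mulVec_mulVec, hWV, Matrix.one_mulVec, Real.log_mul (hcpos a i).ne'
    (Real.exp_pos _).ne', Real.log_exp, Real.norm_eq_abs] at e1
  rw [sub_eq_add_neg]
  exact e1

end TLK
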