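import Mathlib

/-!
# Tube type LCK manifolds with a locally conformally product structure: definitions

`M = (ℂ^p × (ℝ^m + i Ω)) / Γ`, with `Γ` acting by
`γ (z, w) = (A z + a, L w + b)`, `A` complex linear with `‖A z‖ = lam ‖z‖`, `L` a real matrix, `b` real.
-/

open scoped Matrix NumberField

namespace TLK

/-- `ℂ^p` with the standard Hermitian norm. -/
abbrev Cp (p : ℕ) : Type := EuclideanSpace ℂ (Fin p)

/-- The complex linear maps `ℂ^p → ℂ^p`. -/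
abbrev Lin (p : ℕ) : Type := Cp p →ₗ[ℂ] Cp p

/-- The ambient space `ℂ^p × ℂ^m`. -/
abbrev Amb (p m : ℕ) : Type := Cp p × (Fin m → ℂ)

/-- The real vector space `ℂ^p × ℝ^m` of translations. -/
abbrev W (p m : ℕ) : Type := Cp p × (Fin m → ℝ)

/-- `ℂ^p × (ℝ^m + i Ω)`. -/
def tube (p : ℕ) {m : ℕ} (Ω : Set (Fin m → ℝ)) : Set (Amb p m) :=
  {x | (fun j => (x.2 j).im) ∈ Ω}

/-- `γ (z, w) = (A z + a, L w + b)` where `A` is complex linear and multiplies the norm by `lam > 0`,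
`L` is a real matrix and `b` is a real vector. -/
structure IsForm {p m : ℕ} (γ : Equiv.Perm (Amb p m)) (lam : ℝ) (A : Lin p) (a : Cp p)
    (L : Matrix (Fin m) (Fin m) ℝ) (b : Fin m → ℝ) : Prop where
  lam_pos : 0 < lam
  norm_A : ∀ z, ‖A z‖ = lam * ‖z‖
  apply : ∀ x : Amb p m, γ x = (A x.1 + a, fun j => (∑ k, (L j k : ℂ) * x.2 k) + (b j : ℂ))

/-- `x ↦ x + v` -/
def shift {p m : ℕ} (v : W p m) (x : Amb p m) : Amb p m :=
  (x.1 + v.1, fun j => x.2 j + (v.2 j : ℂ))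

theorem shift_neg_shift {p m : ℕ} (v : W p m) (x : Amb p m) : shift (-v) (shift v x) = x := by
  ext <;> simp [shift]

theorem shift_shift_neg {p m : ℕ} (v : W p m) (x : Amb p m) : shift v (shift (-v) x) = x := by
  ext <;> simp [shift]

/-- The translation of `ℂ^p × ℂ^m` by `v ∈ ℂ^p × ℝ^m`. -/
def trans {p m : ℕ} (v : W p m) : Equiv.Perm (Amb p m) where
  toFun := shift v
  invFun := shift (-v)
  left_inv := shift_neg_shift v
  right_inv := shift_shift_neg v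

/-- all elements of `Γ` have the form `(z, w) ↦ (A z + a, L w + b)` -/
def HasForms {p m : ℕ} (Γ : Subgroup (Equiv.Perm (Amb p m))) : Prop :=
  ∀ γ ∈ Γ, ∃ lam A a L b, IsForm γ lam A a L b

/-- the translations by elements of `ℂ^p × ℝ^m` contained in `Γ` span `ℂ^p × ℝ^m` over `ℝ` -/
def Spans {p m : ℕ} (Γ : Subgroup (Equiv.Perm (Amb p m))) : Prop :=
  Submodule.span ℝ {v : W p m | trans v ∈ Γ} = ⊤

/-- `Γ` acts properly discontinuously and cocompactly on `D` -/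
structure IsProperCocompact {X : Type} [TopologicalSpace X] (D : Set X)
    (Γ : Subgroup (Equiv.Perm X)) : Prop where
  /-- `Γ` preserves `D` -/
  maps : ∀ γ ∈ Γ, ∀ x ∈ D, γ x ∈ D
  /-- `Γ` acts properly discontinuously on `D` -/
  proper : ∀ K : Set X, K ⊆ D → IsCompact K →
    {γ : Equiv.Perm X | γ ∈ Γ ∧ ∃ x ∈ K, γ x ∈ K}.Finite
  /-- the quotient is compact -/
  cocompact : ∃ K : Set X, K ⊆ D ∧ IsCompact K ∧ ∀ x ∈ D, ∃ γ ∈ Γ, γ x ∈ K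

/-- The groups of the theorem. -/
structure IsTubeGroup {p m : ℕ} (Ω : Set (Fin m → ℝ)) (Γ : Subgroup (Equiv.Perm (Amb p m))) :
    Prop extends IsProperCocompact (tube p Ω) Γ where
  /-- all elements have the form `(z, w) ↦ (A z + a, L w + b)` -/
  form : HasForms Γ
  /-- the translations by elements of `ℂ^p × ℝ^m` contained in `Γ` span `ℂ^p × ℝ^m` over `ℝ` -/
  span : Spans Γ

/-- `Ω` contains no (complete affine) line. -/
def NoLine {m : ℕ} (Ω : Set (Fin m → ℝ)) : Prop :=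
  ∀ x v : Fin m → ℝ, v ≠ 0 → ∃ t : ℝ, x + t • v ∉ Ω

/-- The factor `ℝ^m + i Ω` carries the Kähler metric with potential `φ (Im w)`, `φ` of class `C²`
with positive definite Hessian, and the potential is automorphic:
`φ (L y) = lam ^ 2 * φ y` for all `γ ∈ Γ`. -/
def HasPotential {p m : ℕ} (Ω : Set (Fin m → ℝ)) (Γ : Subgroup (Equiv.Perm (Amb p m))) : Prop :=
  ∃ φ : (Fin m → ℝ) → ℝ, ContDiffOn ℝ 2 φ Ω ∧
    (∀ y ∈ Ω, ∀ v : Fin m → ℝ, v ≠ 0 → 0 < fderiv ℝ (fderiv ℝ φ) y v v) ∧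
    ∀ γ ∈ Γ, ∀ lam A a L b, IsForm γ lam A a L b → ∀ y ∈ Ω, φ (L *ᵥ y) = lam ^ 2 * φ y

/-- `(z, w) ↦ (τ(u) z + τ(a), σ_i(u) w_i + σ_i(a))`. -/
def otMap {K : Type} [Field K] [NumberField K] {m : ℕ} (σ : Fin m → K →+* ℝ) (τ : K →+* ℂ)
    (u : (𝓞 K)ˣ) (a : 𝓞 K) (x : ℂ × (Fin m → ℂ)) : ℂ × (Fin m → ℂ) :=
  (τ ((u : 𝓞 K) : K) * x.1 + τ (a : K),
    fun i => (σ i ((u : 𝓞 K) : K) : ℂ) * x.2 i + (σ i (a : K) : ℂ))

/-- the maps `otMap σ τ u a` with `u ∈ U`, `a ∈ 𝓞 K` -/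
def otSet {K : Type} [Field K] [NumberField K] {m : ℕ} (σ : Fin m → K →+* ℝ) (τ : K →+* ℂ)
    (U : Subgroup (𝓞 K)ˣ) : Set (Equiv.Perm (ℂ × (Fin m → ℂ))) :=
  {g | ∃ u ∈ U, ∃ a : 𝓞 K, ∀ x, g x = otMap σ τ u a x}

theorem otSet_mul {K : Type} [Field K] [NumberField K] {m : ℕ} {σ : Fin m → K →+* ℝ} {τ : K →+* ℂ}
    {U : Subgroup (𝓞 K)ˣ} {g h : Equiv.Perm (ℂ × (Fin m → ℂ))} (hg : g ∈ otSet σ τ U)
    (hh : h ∈ otSet σ τ U) : g * h ∈ otSet σ τ U := by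
  obtain ⟨u, hu, a, ha⟩ := hg
  obtain ⟨v, hv, b, hb⟩ := hh
  refine ⟨u * v, U.mul_mem hu hv, (u : 𝓞 K) * b + a, fun x => ?_⟩
  rw [Equiv.Perm.mul_apply, hb, ha]
  simp only [otMap, Units.val_mul, map_mul, map_add, Complex.ofReal_mul, Complex.ofReal_add]
  refine Prod.ext ?_ (funext fun i => ?_)
  · simp only; ring
  · simp only; ring

theorem otSet_one {K : Type} [Field K] [NumberField K] {m : ℕ} {σ : Fin m → K →+* ℝ} {τ : K →+* ℂ}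
    {U : Subgroup (𝓞 K)ˣ} : (1 : Equiv.Perm (ℂ × (Fin m → ℂ))) ∈ otSet σ τ U :=
  ⟨1, U.one_mem, 0, fun x => by ext <;> simp [otMap]⟩

theorem otSet_inv {K : Type} [Field K] [NumberField K] {m : ℕ} {σ : Fin m → K →+* ℝ} {τ : K →+* ℂ}
    {U : Subgroup (𝓞 K)ˣ} {g : Equiv.Perm (ℂ × (Fin m → ℂ))} (hg : g ∈ otSet σ τ U) :
    g⁻¹ ∈ otSet σ τ U := by
  obtain ⟨u, hu, a, ha⟩ := hg
  refine ⟨u⁻¹, U.inv_mem hu, -((u⁻¹ : (𝓞 K)ˣ) : 𝓞 K) * a, fun x => ?_⟩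
  rw [Equiv.Perm.inv_eq_iff_eq, ha]
  have h1 : (((u : 𝓞 K) : K)) * (((u⁻¹ : (𝓞 K)ˣ) : 𝓞 K) : K) = 1 := by
    rw [← map_mul, Units.mul_inv, map_one]
  have h2 : τ ((u : 𝓞 K) : K) * τ (((u⁻¹ : (𝓞 K)ˣ) : 𝓞 K) : K) = 1 := by
    rw [← map_mul, h1, map_one]
  have h3 : ∀ i, ((σ i ((u : 𝓞 K) : K) : ℝ) : ℂ) * ((σ i (((u⁻¹ : (𝓞 K)ˣ) : 𝓞 K) : K) : ℝ) : ℂ) = 1 := by
    intro i
    rw [← Complex.ofReal_mul, ← map_mul, h1, map_one, Complex.ofReal_one]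
  simp only [otMap, neg_mul, map_neg, map_mul, Complex.ofReal_neg, Complex.ofReal_mul]
  refine Prod.ext ?_ (funext fun i => ?_)
  · simp only
    linear_combination (τ (a : K) - x.1) * h2
  · simp only
    linear_combination ((σ i (a : K) : ℂ) - x.2 i) * h3 i

/-- The group `U ⋉ 𝓞 K` of the Oeljeklaus-Toma construction, acting on `ℂ × ℂ^m`. -/
def otGroup {K : Type} [Field K] [NumberField K] {m : ℕ} (σ : Fin m → K →+* ℝ) (τ : K →+* ℂ)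
    (U : Subgroup (𝓞 K)ˣ) : Subgroup (Equiv.Perm (ℂ × (Fin m → ℂ))) where
  carrier := otSet σ τ U
  mul_mem' := otSet_mul
  one_mem' := otSet_one
  inv_mem' := otSet_inv

/-- `K` is a number field with exactly `m` real embeddings `σ_i` and one pair of complex
conjugate embeddings `τ, τ̄`, and `U` is a group of units, positive at all real embeddings,
whose image under `u ↦ (log σ_i(u))` is a cocompact lattice in `ℝ^m`. So
`(ℂ × H^m) / (U ⋉ 𝓞 K)` is the Oeljeklaus-Toma manifold `X(K, U)` (with `s = m`, `t = 1`). -/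
structure IsOT {K : Type} [Field K] [NumberField K] {m : ℕ} (σ : Fin m → K →+* ℝ) (τ : K →+* ℂ)
    (U : Subgroup (𝓞 K)ˣ) : Prop where
  inj : Function.Injective σ
  deg : Module.finrank ℚ K = m + 2
  tau : ∃ x : K, (τ x).im ≠ 0
  pos : ∀ u ∈ U, ∀ i, 0 < σ i ((u : 𝓞 K) : K)
  discrete : ∀ B : ℝ, {u : (𝓞 K)ˣ | u ∈ U ∧ ∀ i, |Real.log (σ i ((u : 𝓞 K) : K))| ≤ B}.Finite
  cocompact : ∃ B : ℝ, ∀ c : Fin m → ℝ, ∃ u ∈ U, ∀ i, |Real.log (σ i ((u : 𝓞 K) : K)) - c i| ≤ B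

/-- The complex affine isomorphisms `ℂ^p × ℂ^m → ℂ × ℂ^m`. -/
def AffIso (p m : ℕ) : Type := Amb p m ≃ᵃ[ℂ] (ℂ × (Fin m → ℂ))

/-- the bijection underlying a complex affine isomorphism -/
def AffIso.eqv {p m : ℕ} (Φ : AffIso p m) : Amb p m ≃ (ℂ × (Fin m → ℂ)) :=
  AffineEquiv.toEquiv Φ

/-- the group `Φ Γ Φ⁻¹` -/
def conjGroup {X Y : Type} (Φ : X ≃ Y) (Γ : Subgroup (Equiv.Perm X)) : Subgroup (Equiv.Perm Y) :=
  Γ.map (Equiv.permCongrHom Φ).toMonoidHom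

/-- `Φ` carries `ℂ^p × (ℝ^m + i Ω)` onto `ℂ × H^m` and `Γ` onto a subgroup of finite index of `U ⋉ 𝓞 K`. -/
structure IsCover {p m : ℕ} (Ω : Set (Fin m → ℝ)) (Γ : Subgroup (Equiv.Perm (Amb p m)))
    {K : Type} [Field K] [NumberField K] (σ : Fin m → K →+* ℝ) (τ : K →+* ℂ)
    (U : Subgroup (𝓞 K)ˣ) (Φ : AffIso p m) : Prop where
  maps : ∀ x, x ∈ tube p Ω ↔ ∀ i, 0 < ((Φ.eqv x).2 i).im
  le : conjGroup Φ.eqv Γ ≤ otGroup σ τ U
  index : (conjGroup Φ.eqv Γ).relIndex (otGroup σ τ U) ≠ 0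

/-- The conclusion: `p = 1`, and a complex affine isomorphism `Φ` carries `ℂ × (ℝ^m + i Ω)` onto `ℂ × H^m`
and `Γ` onto a subgroup of finite index of `U ⋉ 𝓞 K`: the quotient by `Γ` is a finite
unramified cover of the Oeljeklaus-Toma manifold `X(K, U)`. -/
def Conclusion {p m : ℕ} (Ω : Set (Fin m → ℝ)) (Γ : Subgroup (Equiv.Perm (Amb p m))) : Prop :=
  p = 1 ∧ ∃ (K : Type) (_ : Field K) (_ : NumberField K) (σ : Fin m → K →+* ℝ) (τ : K →+* ℂ)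
    (U : Subgroup (𝓞 K)ˣ), IsOT σ τ U ∧ ∃ Φ : AffIso p m, IsCover Ω Γ σ τ U Φ

/-- The statement of the theorem. -/
def Statement : Prop :=
  ∀ (p m : ℕ), 0 < p → 0 < m → ∀ (Ω : Set (Fin m → ℝ)), IsOpen Ω → IsConnected Ω →
    ∀ Γ : Subgroup (Equiv.Perm (Amb p m)), IsTubeGroup Ω Γ →
      ((Convex ℝ Ω ∧ NoLine Ω) ∨ HasPotential Ω Γ) → Conclusion Ω Γ

end TLK
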