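import Pool.Agent.TLK.P2

/-!
# Hessian geometry on `Ω`: definitions (not part of the statement)
-/

open scoped Matrix

namespace TLK

/-- the linear form `v ↦ a ⬝ v` -/
noncomputable def dotL {m : ℕ} (a : Fin m → ℝ) : (Fin m → ℝ) →L[ℝ] ℝ :=
  ∑ i, a i • (ContinuousLinearMap.proj i : (Fin m → ℝ) →L[ℝ] ℝ)

theorem dotL_apply {m : ℕ} (a v : Fin m → ℝ) : dotL a v = a ⬝ᵥ v := by
  simp [dotL, dotProduct]

/-- the linear map `v ↦ X v` -/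
noncomputable def mulL {m : ℕ} (X : Matrix (Fin m) (Fin m) ℝ) : (Fin m → ℝ) →L[ℝ] (Fin m → ℝ) :=
  LinearMap.toContinuousLinearMap (Matrix.mulVecLin X)

theorem mulL_apply {m : ℕ} (X : Matrix (Fin m) (Fin m) ℝ) (v : Fin m → ℝ) : mulL X v = X *ᵥ v := rfl

/-- proper and cocompact linear action on a connected open set, with the relation of determinants -/
structure Act (p : ℕ) {m : ℕ} {G : Type} [Group G] (L : G →* Matrix (Fin m) (Fin m) ℝ) (lam : G → ℝ)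
    (Ω K : Set (Fin m → ℝ)) : Prop extends Coc L Ω K where
  conn : IsPreconnected Ω
  prop : ∀ K' : Set (Fin m → ℝ), K' ⊆ Ω → IsCompact K' →
    {X : Matrix (Fin m) (Fin m) ℝ | ∃ g, X = L g ∧ ∃ y ∈ K', X *ᵥ y ∈ K'}.Finite
  lam_pos : ∀ g, 0 < lam g
  det_rel : ∀ g, |(L g).det| * lam g ^ (2 * p) = 1

/-- `φ` is an automorphic potential of class `C²` on `Ω`, `μ` its gradient, `H` its Hessian (positive definite) -/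
structure HG {m : ℕ} {G : Type} [Group G] (L : G →* Matrix (Fin m) (Fin m) ℝ) (lam : G → ℝ)
    (Ω : Set (Fin m → ℝ)) (φ : (Fin m → ℝ) → ℝ) (μ : (Fin m → ℝ) → Fin m → ℝ)
    (H : (Fin m → ℝ) → Matrix (Fin m) (Fin m) ℝ) : Prop where
  dφ : ∀ y ∈ Ω, HasFDerivAt φ (dotL (μ y)) y
  dμ : ∀ y ∈ Ω, HasStrictFDerivAt μ (mulL (H y)) y
  Hcont : ContinuousOn H Ω
  symm : ∀ y ∈ Ω, (H y)ᵀ = H y
  pos : ∀ y ∈ Ω, ∀ v : Fin m → ℝ, v ≠ 0 → 0 < v ⬝ᵥ (H y *ᵥ v)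
  eφ : ∀ g, ∀ y ∈ Ω, φ (L g *ᵥ y) = lam g ^ 2 * φ y
  eμ : ∀ g, ∀ y ∈ Ω, μ (L g *ᵥ y) = lam g ^ 2 • ((L g⁻¹)ᵀ *ᵥ μ y)
  eH : ∀ g, ∀ y ∈ Ω, H (L g *ᵥ y) = lam g ^ 2 • ((L g⁻¹)ᵀ * H y * L g⁻¹)

/-- `f(y) = φ(y) - μ(y) ⬝ y` (minus the Legendre transform of `φ`) -/
def ff {m : ℕ} (φ : (Fin m → ℝ) → ℝ) (μ : (Fin m → ℝ) → Fin m → ℝ) (y : Fin m → ℝ) : ℝ :=
  φ y - μ y ⬝ᵥ y

end TLK
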