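import Pool.Agent.TLK.C1
import Pool.Agent.TLK.C7
import Pool.Agent.TLK.H0

/-!
# [TLK-F1] torus invariance; the coordinates do not vanish on `Ω`

`h : Act p L lam Ω K`, `hD : Diag L P P' χ`: `P * L g = diagonal (χ g) * P`, `P P' = P' P = 1`, `log χ` coarsely dense.

PROOF of `torus`: `g t = P' * diagonal (fun i => exp (t * log (s i))) * P` is a continuous one-parameter group commuting with all
`L a = P' * diagonal (χ a) * P`; `flow` with `t = 1`.

PROOF of `line_mem`: let `y ∈ Ω`, `(P *ᵥ y) j = 0`, `v = P' *ᵥ Pi.single j 1` (so `P *ᵥ v = Pi.single j 1`). `Ω` is open: `y + ε • v ∈ Ω`, `y - ε • v ∈ Ω` for some `ε > 0`. By `torus` with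
`s j = σ > 0`, `s i = 1` else: `P (y ± ε v)` has coordinates `(P y)_i` for `i ≠ j` and `± ε` at `j`; so `y ± σ ε v ∈ Ω`. So `y + t • v ∈ Ω` for all real `t`.

PROOF of `coord_ne`: suppose `(P y) j = 0`, `F(t) = φ (y + t • v)`: by `HG`, strictly convex on `ℝ` (`F' = μ ⬝ v`, `F'' = v ⬝ H v > 0`). CLAIM `F(t) → 0` for `t → ± ∞`: let `|t| ≥ 1`; by `hD.dense` there is
`a` with `|log χ_j(a) + log |t|| ≤ B`, `|log χ_i(a)| ≤ B` for `i ≠ j`. `x = L a (y + t v)` has coordinates `(P x)_i = χ_i(a) (P y)_i` for `i ≠ j` and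
`(P x)_j = χ_j(a) t ∈ ±[e^{-B}, e^B]`; so `x` lies in the compact set `Q` of all `P' w` with `w_i = s_i (P y)_i` (`i ≠ j`), `w_j = ± s_j`, `s ∈ [e^{-B}, e^B]^m`, contained in
`Ω` by `torus` applied to `y ± v`. `|φ| ≤ C0` on `Q`. `det (L a) = ∏ χ_i(a)`, `lam^(2p) = ∏ χ_i(a)⁻¹ ≥ e^{-mB} |t|`. `φ (y + t v) = lam⁻² φ x`, so
`|F(t)|^p ≤ C0^p lam^(-2p) ≤ C0^p e^{mB} / |t| → 0`. A strictly convex function on `ℝ` is unbounded: contradiction (convex and bounded
on `ℝ` implies constant; or: `F' ` is strictly increasing, so `F'(t) ≥ δ > 0` for large `t` or `F'(t) ≤ -δ` for very negative `t`).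
-/

open scoped Matrix

namespace TLK

variable {m p : ℕ} {G : Type} [Group G] {L : G →* Matrix (Fin m) (Fin m) ℝ} {lam : G → ℝ}
  {Ω K : Set (Fin m → ℝ)} {φ : (Fin m → ℝ) → ℝ} {μ : (Fin m → ℝ) → Fin m → ℝ}
  {H : (Fin m → ℝ) → Matrix (Fin m) (Fin m) ℝ} {P P' : Matrix (Fin m) (Fin m) ℝ} {χ : G → Fin m → ℝ}

private theorem L_eq (hD : Diag L P P' χ) (a : G) :
    L a = P' * Matrix.diagonal (χ a) * P := by
  rw [Matrix.mul_assoc, ← hD.eq a, ← Matrix.mul_assoc, hD.left, Matrix.one_mul]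

private theorem conj_mul (hD : Diag L P P' χ) (X Y : Matrix (Fin m) (Fin m) ℝ) :
    (P' * X * P) * (P' * Y * P) = P' * (X * Y) * P := by
  calc (P' * X * P) * (P' * Y * P) = P' * X * (P * P') * Y * P := by
        simp only [Matrix.mul_assoc]
    _ = P' * (X * Y) * P := by
        rw [hD.right, Matrix.mul_one, Matrix.mul_assoc P' X Y]

theorem torus (hA : Act p L lam Ω K) (hD : Diag L P P' χ) {s : Fin m → ℝ} (hs : ∀ i, 0 < s i)
    {y : Fin m → ℝ} (hy : y ∈ Ω) : (P' * Matrix.diagonal s * P) *ᵥ y ∈ Ω := by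
  have h1 := flow hA.toCoc
    (fun t : ℝ => P' * Matrix.diagonal (fun i => Real.exp (t * Real.log (s i))) * P) ?_ ?_ ?_ ?_ 1 hy
  · have h2 : (fun i => Real.exp (1 * Real.log (s i))) = s := by
      funext i
      rw [one_mul, Real.exp_log (hs i)]
    rw [← h2]
    exact h1
  · have h2 : (fun i => Real.exp (0 * Real.log (s i))) = fun _ : Fin m => (1 : ℝ) := by
      funext i
      rw [zero_mul, Real.exp_zero]
    simp only [h2]
    rw [Matrix.diagonal_one, Matrix.mul_one, hD.left]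
  · intro s' t
    rw [conj_mul hD, Matrix.diagonal_mul_diagonal]
    congr 3
    funext i
    rw [← Real.exp_add, add_mul]
  · refine (Continuous.matrix_mul (Continuous.matrix_mul continuous_const
      (Continuous.matrix_diagonal (continuous_pi fun i => ?_))) continuous_const)
    exact Real.continuous_exp.comp (continuous_id.mul continuous_const)
  · intro t a
    rw [L_eq hD a, conj_mul hD, conj_mul hD, Matrix.diagonal_mul_diagonal,
      Matrix.diagonal_mul_diagonal]
    congr 3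
    funext i
    exact mul_comm _ _

private theorem torus_add (hD : Diag L P P' χ) (s : Fin m → ℝ) (y : Fin m → ℝ) (t : ℝ) (j : Fin m)
    (hj : (P *ᵥ y) j = 0) (hs : ∀ i, i ≠ j → s i = 1) :
    (P' * Matrix.diagonal s * P) *ᵥ (y + t • (P' *ᵥ Pi.single j 1)) =
      y + (s j * t) • (P' *ᵥ Pi.single j 1) := by
  have h1 : P *ᵥ (y + t • (P' *ᵥ Pi.single j 1)) = P *ᵥ y + t • Pi.single j 1 := by
    rw [Matrix.mulVec_add, Matrix.mulVec_smul, Matrix.mulVec_mulVec, hD.right, Matrix.one_mulVec]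
  have h2 : Matrix.diagonal s *ᵥ (P *ᵥ y + t • Pi.single j 1) =
      P *ᵥ y + (s j * t) • Pi.single j 1 := by
    funext i
    rw [Matrix.mulVec_diagonal]
    by_cases hi : i = j
    · subst hi
      simp [hj]
    · simp [hs i hi, hi]
  rw [← Matrix.mulVec_mulVec, ← Matrix.mulVec_mulVec, h1, h2, Matrix.mulVec_add,
    Matrix.mulVec_mulVec, hD.left, Matrix.one_mulVec, Matrix.mulVec_smul]

theorem line_mem (hA : Act p L lam Ω K) (hD : Diag L P P' χ) {y : Fin m → ℝ} (hy : y ∈ Ω) {j : Fin m}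
    (hj : (P *ᵥ y) j = 0) (t : ℝ) : y + t • (P' *ᵥ Pi.single j 1) ∈ Ω := by
  set v : Fin m → ℝ := P' *ᵥ Pi.single j 1 with hv
  have hcont : Continuous (fun e : ℝ => y + e • v) :=
    continuous_const.add (continuous_id.smul continuous_const)
  have hmem : {e : ℝ | y + e • v ∈ Ω} ∈ nhds (0 : ℝ) := by
    refine (hA.isOpen.preimage hcont).mem_nhds ?_
    show y + (0 : ℝ) • v ∈ Ω
    rw [zero_smul, add_zero]
    exact hy
  obtain ⟨r, hr, hball⟩ := Metric.mem_nhds_iff.1 hmem
  have hr2 : 0 < r / 2 := by positivity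
  have hp1 : y + (r / 2) • v ∈ Ω := hball (by
    rw [Metric.mem_ball, Real.dist_eq, sub_zero, abs_of_pos hr2]
    linarith)
  have hm1 : y + (-(r / 2)) • v ∈ Ω := hball (by
    rw [Metric.mem_ball, Real.dist_eq, sub_zero, abs_neg, abs_of_pos hr2]
    linarith)
  have hsc : ∀ (e : ℝ), y + e • v ∈ Ω → ∀ c : ℝ, 0 < c → y + (c * e) • v ∈ Ω := by
    intro e he c hc
    have h1 := torus hA hD (s := fun i => if i = j then c else 1) (fun i => by
      show 0 < if i = j then c else 1
      split_ifs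
      · exact hc
      · exact one_pos) he
    rw [hv, torus_add hD _ y e j hj (fun i hi => if_neg hi)] at h1
    simp only [↓reduceIte] at h1
    exact h1
  rcases lt_trichotomy t 0 with ht | ht | ht
  · have h1 := hsc _ hm1 (-t / (r / 2)) (by
      apply div_pos _ hr2
      linarith)
    have h2 : -t / (r / 2) * -(r / 2) = t := by
      field_simp
    rwa [h2] at h1
  · rw [ht, zero_smul, add_zero]
    exact hy
  · have h1 := hsc _ hp1 (t / (r / 2)) (div_pos ht hr2)
    have h2 : t / (r / 2) * (r / 2) = t := by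
      field_simp
    rwa [h2] at h1

/-- a positive function on `ℝ` is not strictly concave -/
private theorem f1_nsc {F : ℝ → ℝ} (hF : ∀ t, 0 < F t)
    (key : ∀ a a' : ℝ, a < a' → ∀ s : ℝ, 0 < s → s < 1 →
      (1 - s) * F a + s * F a' < F ((1 - s) * a + s * a')) : False := by
  have hA : ∀ a a' : ℝ, a < a' → F a' < F a → False := by
    intro a a' haa hFF
    have hd : 0 < F a - F a' := by linarith
    have ha := hF a
    have ha' := hF a'
    obtain ⟨N, hN⟩ : ∃ N, N = F a / (F a - F a') := ⟨_, rfl⟩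
    have hN1 : 1 < N := by
      rw [hN, lt_div_iff₀ hd]
      linarith
    have hN0 : 0 < N := by linarith
    have h1 := key a (a + N * (a' - a)) (by
      have := mul_pos hN0 (sub_pos.2 haa)
      linarith) (1 / N) (by positivity) (by
      rw [div_lt_one hN0]
      exact hN1)
    have h2 : (1 - 1 / N) * a + 1 / N * (a + N * (a' - a)) = a' := by
      field_simp
      ring
    rw [h2] at h1
    have h3 : 0 < 1 / N * F (a + N * (a' - a)) := mul_pos (by positivity) (hF _)
    have h4 : 1 / N * F a = F a - F a' := by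
      rw [hN]
      field_simp
    have h5 : (1 - 1 / N) * F a = F a' := by
      rw [sub_mul, one_mul, h4]
      ring
    linarith
  have hB : ∀ a a' : ℝ, a < a' → F a < F a' → False := by
    intro a a' haa hFF
    have hd : 0 < F a' - F a := by linarith
    have ha := hF a
    have ha' := hF a'
    obtain ⟨N, hN⟩ : ∃ N, N = F a' / (F a' - F a) := ⟨_, rfl⟩
    have hN1 : 1 < N := by
      rw [hN, lt_div_iff₀ hd]
      linarith
    have hN0 : 0 < N := by linarith
    have h1 := key (a' - N * (a' - a)) a' (by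
      have := mul_pos hN0 (sub_pos.2 haa)
      linarith) (1 - 1 / N) (by
      rw [sub_pos, div_lt_one hN0]
      exact hN1) (by
      have : 0 < 1 / N := by positivity
      linarith)
    have h2 : (1 - (1 - 1 / N)) * (a' - N * (a' - a)) + (1 - 1 / N) * a' = a := by
      field_simp
      ring
    rw [h2] at h1
    have h3 : 0 < (1 - (1 - 1 / N)) * F (a' - N * (a' - a)) := by
      have h6 : (1 - (1 - 1 / N)) = 1 / N := by ring
      rw [h6]
      exact mul_pos (by positivity) (hF _)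
    have h4 : 1 / N * F a' = F a' - F a := by
      rw [hN]
      field_simp
    have h5 : (1 - 1 / N) * F a' = F a := by
      rw [sub_mul, one_mul, h4]
      ring
    linarith
  rcases lt_trichotomy (F 0) (F 1) with h | h | h
  · exact hB 0 1 one_pos h
  · have h1 := key 0 1 one_pos (1 / 2) (by norm_num) (by norm_num)
    have h2 : (1 - 1 / 2 : ℝ) * 0 + 1 / 2 * 1 = 1 / 2 := by norm_num
    rw [h2, h] at h1
    exact hA (1 / 2) 1 (by norm_num) (by linarith)
  · exact hA 0 1 one_pos h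

private theorem f1_convex (hG : HG L lam Ω φ μ H) {y v : Fin m → ℝ} (hv : v ≠ 0)
    (hmem : ∀ t : ℝ, y + t • v ∈ Ω) :
    StrictConvexOn ℝ Set.univ (fun t : ℝ => φ (y + t • v)) := by
  have hline : ∀ t : ℝ, HasDerivAt (fun t : ℝ => y + t • v) v t := by
    intro t
    have h1 := ((hasDerivAt_id t).smul_const v).const_add y
    simpa using h1
  have hF : ∀ t : ℝ, HasDerivAt (fun t : ℝ => φ (y + t • v)) (v ⬝ᵥ μ (y + t • v)) t := by
    intro t
    have h1 := (hG.dφ _ (hmem t)).comp_hasDerivAt t (hline t)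
    rw [dotL_apply, dotProduct_comm] at h1
    exact h1
  have hF2 : ∀ t : ℝ, HasDerivAt (fun t : ℝ => v ⬝ᵥ μ (y + t • v))
      (v ⬝ᵥ (H (y + t • v) *ᵥ v)) t := by
    intro t
    have h1 := (hG.dμ _ (hmem t)).hasFDerivAt.comp_hasDerivAt t (hline t)
    rw [mulL_apply] at h1
    have h2 := (dotL v).hasFDerivAt.comp_hasDerivAt t h1
    rw [dotL_apply] at h2
    have h3 : (⇑(dotL v) ∘ (μ ∘ fun t : ℝ => y + t • v)) = fun t : ℝ => v ⬝ᵥ μ (y + t • v) := by
      funext s
      exact dotL_apply _ _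
    rw [h3] at h2
    exact h2
  have hderiv : deriv (fun t : ℝ => φ (y + t • v)) = fun t : ℝ => v ⬝ᵥ μ (y + t • v) := by
    funext t
    exact (hF t).deriv
  refine StrictMono.strictConvexOn_univ_of_deriv
    (continuous_iff_continuousAt.2 fun t => (hF t).continuousAt) ?_
  rw [hderiv]
  refine strictMono_of_deriv_pos fun t => ?_
  rw [(hF2 t).deriv]
  exact hG.pos _ (hmem t) v hv

private theorem f1_bound (hp : 0 < p) (hA : Act p L lam Ω K) (hG : HG L lam Ω φ μ H)
    (hD : Diag L P P' χ) {y : Fin m → ℝ} (hy : y ∈ Ω) (j : Fin m) (hj : (P *ᵥ y) j = 0) :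
    ∃ M : ℝ, ∀ t : ℝ, 1 ≤ |t| → φ (y + t • (P' *ᵥ Pi.single j 1)) ≤ M := by
  obtain ⟨B, hB⟩ := hD.dense
  set v : Fin m → ℝ := P' *ᵥ Pi.single j 1 with hv
  -- compact sets
  have hφc : ContinuousOn φ Ω := fun z hz => (hG.dφ z hz).continuousAt.continuousWithinAt
  have hbox : IsCompact (Set.univ.pi fun _ : Fin m => Set.Icc (Real.exp (-B)) (Real.exp B)) :=
    isCompact_univ_pi fun _ => isCompact_Icc
  have hQ : ∀ z ∈ Ω, ∃ C0 : ℝ, ∀ s : Fin m → ℝ, (∀ i, s i ∈ Set.Icc (Real.exp (-B)) (Real.exp B)) →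
      |φ ((P' * Matrix.diagonal s * P) *ᵥ z)| ≤ C0 := by
    intro z hz
    have hc : Continuous (fun s : Fin m → ℝ => (P' * Matrix.diagonal s * P) *ᵥ z) :=
      Continuous.matrix_mulVec (Continuous.matrix_mul (Continuous.matrix_mul continuous_const
        (Continuous.matrix_diagonal continuous_id)) continuous_const) continuous_const
    have hsub : (fun s : Fin m → ℝ => (P' * Matrix.diagonal s * P) *ᵥ z) ''
        (Set.univ.pi fun _ : Fin m => Set.Icc (Real.exp (-B)) (Real.exp B)) ⊆ Ω := by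
      rintro _ ⟨s, hs, rfl⟩
      exact torus hA hD (fun i => lt_of_lt_of_le (Real.exp_pos _) (hs i (Set.mem_univ i)).1) hz
    obtain ⟨C0, hC0⟩ := (hbox.image hc).exists_bound_of_continuousOn (hφc.mono hsub)
    refine ⟨C0, fun s hs => ?_⟩
    have h1 := hC0 _ ⟨s, fun i _ => hs i, rfl⟩
    rwa [Real.norm_eq_abs] at h1
  obtain ⟨C1, hC1⟩ := hQ _ (line_mem hA hD hy hj 1)
  obtain ⟨C2, hC2⟩ := hQ _ (line_mem hA hD hy hj (-1))
  rw [← hv] at hC1 hC2
  have hC10 : 0 ≤ max C1 C2 := by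
    have hB0 : 0 ≤ B := by
      obtain ⟨a, ha⟩ := hB 0
      exact (abs_nonneg _).trans (ha j)
    have h1 := hC1 (fun _ => 1) (fun i => ⟨by rw [Real.exp_le_one_iff]; linarith,
      by rw [Real.one_le_exp_iff]; exact hB0⟩)
    exact le_max_of_le_left ((abs_nonneg _).trans h1)
  refine ⟨max C1 C2 * Real.exp (m * B), fun t ht => ?_⟩
  have ht0 : 0 < |t| := lt_of_lt_of_le one_pos ht
  obtain ⟨a, ha⟩ := hB (fun i => if i = j then -Real.log |t| else 0)
  have hB0 : 0 ≤ B := (abs_nonneg _).trans (ha j)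
  have hχj : |Real.log (χ a j * |t|)| ≤ B := by
    have h1 := ha j
    rw [if_pos rfl, sub_neg_eq_add] at h1
    rwa [Real.log_mul (hD.pos a j).ne' ht0.ne']
  have hχi : ∀ i, i ≠ j → |Real.log (χ a i)| ≤ B := by
    intro i hi
    have h1 := ha i
    rwa [if_neg hi, sub_zero] at h1
  have hexp : ∀ x : ℝ, 0 < x → |Real.log x| ≤ B → x ∈ Set.Icc (Real.exp (-B)) (Real.exp B) := by
    intro x hx hxB
    obtain ⟨h1, h2⟩ := abs_le.1 hxB
    constructor
    · rwa [← Real.le_log_iff_exp_le hx]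
    · rwa [← Real.log_le_iff_le_exp hx]
  -- lower bound for lam
  have hdet : (L a).det = ∏ i, χ a i := by
    rw [L_eq hD a, Matrix.det_mul, Matrix.det_mul, Matrix.det_diagonal, mul_comm (P'.det),
      mul_assoc, ← Matrix.det_mul, hD.left, Matrix.det_one, mul_one]
  have hprod : ∏ i, χ a i ≤ Real.exp (m * B) := by
    have h1 : ∏ i, χ a i ≤ ∏ _i : Fin m, Real.exp B := by
      refine Finset.prod_le_prod (fun i _ => (hD.pos a i).le) fun i _ => ?_
      by_cases hi : i = j
      · rw [hi]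
        have h2 := (hexp _ (mul_pos (hD.pos a j) ht0) hχj).2
        have h3 : χ a j * 1 ≤ χ a j * |t| := mul_le_mul_of_nonneg_left ht (hD.pos a j).le
        linarith
      · exact (hexp _ (hD.pos a i) (hχi i hi)).2
    rw [Finset.prod_const, Finset.card_univ, Fintype.card_fin, ← Real.exp_nat_mul] at h1
    exact h1
  have hlam := hA.lam_pos a
  have hprod0 : 0 < ∏ i, χ a i := Finset.prod_pos fun i _ => hD.pos a i
  have hrel := hA.det_rel a
  rw [hdet, abs_of_pos hprod0, pow_mul] at hrel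
  have hE1 : 1 ≤ Real.exp (m * B) := Real.one_le_exp (by positivity)
  have hl2 : 1 ≤ Real.exp (m * B) * lam a ^ 2 := by
    have hl0 : 0 < lam a ^ 2 := by positivity
    by_cases h1 : 1 ≤ lam a ^ 2
    · nlinarith
    · push Not at h1
      have h2 : (lam a ^ 2) ^ p ≤ lam a ^ 2 := by
        have h3 := pow_le_pow_of_le_one hl0.le h1.le (Nat.succ_le_of_lt hp)
        simpa using h3
      calc (1 : ℝ) = (∏ i, χ a i) * (lam a ^ 2) ^ p := hrel.symm
        _ ≤ Real.exp (m * B) * lam a ^ 2 :=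
          mul_le_mul hprod h2 (by positivity) (by positivity)
  -- the point
  have hx : φ (L a *ᵥ (y + t • v)) = lam a ^ 2 * φ (y + t • v) :=
    hG.eφ a _ (line_mem hA hD hy hj t)
  have hpt : ∀ τ : ℝ, |t| * τ = t → L a *ᵥ (y + t • v) =
      (P' * Matrix.diagonal (fun i => if i = j then χ a j * |t| else χ a i) * P) *ᵥ
        (y + τ • v) := by
    intro τ hτ
    have h1 : ∀ e : ℝ, P *ᵥ (y + e • v) = P *ᵥ y + e • Pi.single j 1 := by
      intro e
      rw [Matrix.mulVec_add, Matrix.mulVec_smul, hv, Matrix.mulVec_mulVec, hD.right,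
        Matrix.one_mulVec]
    rw [L_eq hD a, ← Matrix.mulVec_mulVec, ← Matrix.mulVec_mulVec, ← Matrix.mulVec_mulVec,
      ← Matrix.mulVec_mulVec, h1, h1]
    congr 1
    funext i
    rw [Matrix.mulVec_diagonal, Matrix.mulVec_diagonal]
    by_cases hi : i = j
    · subst hi
      simp only [Pi.add_apply, Pi.smul_apply, Pi.single_eq_same, smul_eq_mul, mul_one, hj,
        zero_add, if_pos]
      rw [mul_assoc, hτ]
    · simp [hi]
  have hbd : |φ (L a *ᵥ (y + t • v))| ≤ max C1 C2 := by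
    have hs : ∀ i, (if i = j then χ a j * |t| else χ a i) ∈
        Set.Icc (Real.exp (-B)) (Real.exp B) := by
      intro i
      by_cases hi : i = j
      · rw [if_pos hi]
        exact hexp _ (mul_pos (hD.pos a j) ht0) hχj
      · rw [if_neg hi]
        exact hexp _ (hD.pos a i) (hχi i hi)
    rcases le_total 0 t with h0 | h0
    · rw [hpt 1 (by rw [mul_one, abs_of_nonneg h0])]
      exact (hC1 _ hs).trans (le_max_left _ _)
    · rw [hpt (-1) (by rw [abs_of_nonpos h0]; ring)]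
      exact (hC2 _ hs).trans (le_max_right _ _)
  rw [hx] at hbd
  have hl0 : 0 < lam a ^ 2 := by positivity
  by_cases hneg : φ (y + t • v) ≤ 0
  · exact hneg.trans (mul_nonneg hC10 (Real.exp_pos _).le)
  · push Not at hneg
    rw [abs_of_pos (mul_pos hl0 hneg)] at hbd
    calc φ (y + t • v) = 1 * φ (y + t • v) := (one_mul _).symm
      _ ≤ (Real.exp (m * B) * lam a ^ 2) * φ (y + t • v) :=
        mul_le_mul_of_nonneg_right hl2 hneg.le
      _ = (lam a ^ 2 * φ (y + t • v)) * Real.exp (m * B) := by ring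
      _ ≤ max C1 C2 * Real.exp (m * B) :=
        mul_le_mul_of_nonneg_right hbd (Real.exp_pos _).le

theorem coord_ne (hp : 0 < p) (hA : Act p L lam Ω K) (hG : HG L lam Ω φ μ H) (hD : Diag L P P' χ)
    {y : Fin m → ℝ} (hy : y ∈ Ω) (j : Fin m) : (P *ᵥ y) j ≠ 0 := by
  intro hj
  obtain ⟨M, hM⟩ := f1_bound hp hA hG hD hy j hj
  have hv0 : P' *ᵥ Pi.single j 1 ≠ (0 : Fin m → ℝ) := by
    intro h0
    have h1 : P *ᵥ (P' *ᵥ Pi.single j 1) = Pi.single j (1 : ℝ) := by
      rw [Matrix.mulVec_mulVec, hD.right, Matrix.one_mulVec]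
    rw [h0, Matrix.mulVec_zero] at h1
    have h2 := congrFun h1 j
    simp at h2
  have hconv := f1_convex hG hv0 (line_mem hA hD hy hj)
  have hbd : ∀ t : ℝ, φ (y + t • (P' *ᵥ Pi.single j 1)) ≤ M := by
    intro t
    by_cases ht : 1 ≤ |t|
    · exact hM t ht
    · push Not at ht
      obtain ⟨h1, h2⟩ := abs_lt.1 ht
      have h3 := hconv.convexOn.2 (Set.mem_univ (-1)) (Set.mem_univ (1 : ℝ))
        (show (0 : ℝ) ≤ (1 - t) / 2 by linarith) (show (0 : ℝ) ≤ (1 + t) / 2 by linarith) (by ring)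
      simp only [smul_eq_mul] at h3
      have h4 : (1 - t) / 2 * (-1 : ℝ) + (1 + t) / 2 * (1 : ℝ) = t := by ring
      rw [h4] at h3
      have h5 := hM (-1) (by norm_num)
      have h6 := hM 1 (by norm_num)
      have h7 : (1 - t) / 2 * φ (y + (-1 : ℝ) • (P' *ᵥ Pi.single j 1)) ≤ (1 - t) / 2 * M :=
        mul_le_mul_of_nonneg_left h5 (by linarith)
      have h8 : (1 + t) / 2 * φ (y + (1 : ℝ) • (P' *ᵥ Pi.single j 1)) ≤ (1 + t) / 2 * M :=
        mul_le_mul_of_nonneg_left h6 (by linarith)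
      linarith
  refine f1_nsc (F := fun t => M + 1 - φ (y + t • (P' *ᵥ Pi.single j 1)))
    (fun t => by have := hbd t; linarith) ?_
  intro a a' haa s hs hs1
  have h1 := hconv.2 (Set.mem_univ a) (Set.mem_univ a') haa.ne
    (show (0 : ℝ) < 1 - s by linarith) hs (by ring)
  simp only [smul_eq_mul] at h1
  linarith

end TLK
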