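import Pool.Agent.TLK.F1

open scoped Matrix

namespace TLK

variable {m p : ℕ} {G : Type} [Group G] {L : G →* Matrix (Fin m) (Fin m) ℝ} {lam : G → ℝ}
  {Ω K : Set (Fin m → ℝ)} {φ : (Fin m → ℝ) → ℝ} {μ : (Fin m → ℝ) → Fin m → ℝ}
  {H : (Fin m → ℝ) → Matrix (Fin m) (Fin m) ℝ} {P P' : Matrix (Fin m) (Fin m) ℝ} {χ : G → Fin m → ℝ}

theorem orthantH2 (hp : 0 < p) (hA : Act p L lam Ω K) (hG : HG L lam Ω φ μ H) (hD : Diag L P P' χ) :
    ∃ P1 P1' : Matrix (Fin m) (Fin m) ℝ, Diag L P1 P1' χ ∧ ∀ y, y ∈ Ω ↔ ∀ i, 0 < (P1 *ᵥ y) i := by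
  obtain ⟨y0, hy0⟩ := hA.nonempty
  have hne : ∀ y ∈ Ω, ∀ i, (P *ᵥ y) i ≠ 0 := fun y hy i => coord_ne hp hA hG hD hy i
  set ε : Fin m → ℝ := fun i => SignType.sign ((P *ᵥ y0) i) with hε
  have hε1 : ∀ i, ε i * ε i = 1 := by
    intro i
    rcases lt_or_gt_of_ne (hne y0 hy0 i) with h | h
    · simp [hε, sign_neg h]
    · simp [hε, sign_pos h]
  have hε0 : ∀ i, 0 < ε i * (P *ᵥ y0) i := by
    intro i
    rcases lt_or_gt_of_ne (hne y0 hy0 i) with h | h
    · simp [hε, sign_neg h, h]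
    · simp [hε, sign_pos h, h]
  have hcont : ∀ i, Continuous (fun y : Fin m → ℝ => (P *ᵥ y) i) := fun i =>
    (continuous_apply i).comp (Continuous.matrix_mulVec continuous_const continuous_id)
  -- sign is constant on Ω
  have hpos : ∀ y ∈ Ω, ∀ i, 0 < ε i * (P *ᵥ y) i := by
    intro y hy i
    by_contra hcon
    push Not at hcon
    have h1 : IsPreconnected ((fun y : Fin m → ℝ => ε i * (P *ᵥ y) i) '' Ω) :=
      hA.conn.image _ (continuous_const.mul (hcont i)).continuousOn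
    have h2 := h1.Icc_subset (a := ε i * (P *ᵥ y) i) (b := ε i * (P *ᵥ y0) i)
      (Set.mem_image_of_mem (fun y : Fin m → ℝ => ε i * (P *ᵥ y) i) hy)
      (Set.mem_image_of_mem (fun y : Fin m → ℝ => ε i * (P *ᵥ y) i) hy0)
    obtain ⟨z, hz, hz0⟩ := h2 ⟨hcon, (hε0 i).le⟩
    have h3 : ε i * (P *ᵥ z) i ≠ 0 := by
      refine mul_ne_zero ?_ (hne z hz i)
      intro h0
      have := hε1 i
      rw [h0, zero_mul] at this
      exact zero_ne_one this
    exact h3 hz0
  set E : Matrix (Fin m) (Fin m) ℝ := Matrix.diagonal ε with hE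
  have hEE : E * E = 1 := by
    rw [hE, Matrix.diagonal_mul_diagonal]
    have : (fun i => ε i * ε i) = fun _ => (1 : ℝ) := by funext i; exact hε1 i
    rw [this, Matrix.diagonal_one]
  have hcoord : ∀ y i, ((E * P) *ᵥ y) i = ε i * (P *ᵥ y) i := by
    intro y i
    rw [← Matrix.mulVec_mulVec, hE, Matrix.mulVec_diagonal]
  refine ⟨E * P, P' * E, ⟨?_, ?_, hD.pos, ?_, hD.dense⟩, fun y => ⟨fun hy i => ?_, fun hy => ?_⟩⟩
  · calc E * P * (P' * E) = E * (P * P') * E := by simp only [Matrix.mul_assoc]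
      _ = 1 := by rw [hD.right, Matrix.mul_one, hEE]
  · calc P' * E * (E * P) = P' * (E * E) * P := by simp only [Matrix.mul_assoc]
      _ = 1 := by rw [hEE, Matrix.mul_one, hD.left]
  · intro a
    rw [Matrix.mul_assoc, hD.eq a, ← Matrix.mul_assoc, ← Matrix.mul_assoc, hE, Matrix.diagonal_mul_diagonal,
      Matrix.diagonal_mul_diagonal]
    congr 2
    funext i
    ring
  · rw [hcoord]; exact hpos y hy i
  · have hy' : ∀ i, 0 < ε i * (P *ᵥ y) i := fun i => by rw [← hcoord]; exact hy i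
    set s : Fin m → ℝ := fun i => (ε i * (P *ᵥ y) i) / (ε i * (P *ᵥ y0) i) with hs
    have hs0 : ∀ i, 0 < s i := fun i => div_pos (hy' i) (hε0 i)
    have h1 := torus hA hD hs0 hy0
    have h2 : (P' * Matrix.diagonal s * P) *ᵥ y0 = y := by
      have h3 : Matrix.diagonal s *ᵥ (P *ᵥ y0) = P *ᵥ y := by
        funext i
        rw [Matrix.mulVec_diagonal, hs]
        have h4 : ε i ≠ 0 := by
          intro h0
          have := hε1 i
          rw [h0, zero_mul] at this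
          exact zero_ne_one this
        have h5 := hne y0 hy0 i
        field_simp
      rw [← Matrix.mulVec_mulVec, ← Matrix.mulVec_mulVec, h3, Matrix.mulVec_mulVec, hD.left, Matrix.one_mulVec]
    rwa [h2] at h1

end TLK
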