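import Pool.Agent.TLK.H0

/-!
# [TLK-H1] from the potential to `HG`

`μ y i = fderiv ℝ φ y (Pi.single i 1)`, `H y i j = fderiv ℝ (fderiv ℝ φ) y (Pi.single i 1) (Pi.single j 1)`.

PROOF. `Ω` is open and `φ` is `C²` on it, so `φ` is differentiable near every `y ∈ Ω`, and `fderiv ℝ φ` is `C¹` on `Ω` (`ContDiffOn.fderiv_of_isOpen`); so `μ` is `C¹` on `Ω`, with
derivative `v ↦ (i ↦ fderiv ℝ (fderiv ℝ φ) y v (Pi.single i 1))`, which is `H y *ᵥ v` by symmetry of the second derivative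
(`ContDiffAt.isSymmSndFDerivAt`, `second_derivative_symmetric`; `C²` over `ℝ` suffices). `ContDiffAt.hasStrictFDerivAt`. `Hcont`: `fderiv ℝ (fderiv ℝ φ)` is continuous
on `Ω`. `pos`: `v ⬝ᵥ (H y *ᵥ v) = fderiv ℝ (fderiv ℝ φ) y v v` by bilinearity (`v = ∑ v_i • Pi.single i 1`).
Equivariance: for `g` put `X = L g` (invertible, inverse `Y = L g⁻¹`). On the open set `Ω`, `φ (X *ᵥ y) = lam² φ y`; differentiating:
`(μ (X y)) ⬝ (X v) = lam² μ y ⬝ v` for all `v`, so `Xᵀ *ᵥ μ (X y) = lam² • μ y`, `μ (X y) = lam² • Yᵀ *ᵥ μ y` (`Yᵀ Xᵀ = (X Y)ᵀ = 1`). Differentiating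
this identity (both sides differentiable, `Ω` open): `H (X y) * X = lam² • Yᵀ * H y`, so `H (X y) = lam² • Yᵀ * H y * Y`.
-/

open scoped Matrix

namespace TLK

theorem H1_basis {m : ℕ} {F : Type} [AddCommGroup F] [Module ℝ F] [TopologicalSpace F]
    (A : (Fin m → ℝ) →L[ℝ] F) (v : Fin m → ℝ) :
    A v = ∑ i, v i • A (Pi.single i 1) := by
  conv_lhs => rw [← Finset.univ_sum_single v, map_sum]
  refine Finset.sum_congr rfl fun i _ => ?_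
  rw [← map_smul]
  congr 1
  rw [← Pi.single_smul, smul_eq_mul, mul_one]

theorem H1_ext {m : ℕ} {a b : Fin m → ℝ} (h : ∀ v, a ⬝ᵥ v = b ⬝ᵥ v) : a = b := by
  funext i
  have h1 := h (Pi.single i 1)
  rwa [dotProduct_single, dotProduct_single, mul_one, mul_one] at h1

theorem exists_HG {m : ℕ} {G : Type} [Group G] {L : G →* Matrix (Fin m) (Fin m) ℝ} {lam : G → ℝ}
    {Ω : Set (Fin m → ℝ)} (hΩ : IsOpen Ω) (hmaps : ∀ g, ∀ y ∈ Ω, L g *ᵥ y ∈ Ω)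
    {φ : (Fin m → ℝ) → ℝ} (hφ : ContDiffOn ℝ 2 φ Ω)
    (hpos : ∀ y ∈ Ω, ∀ v : Fin m → ℝ, v ≠ 0 → 0 < fderiv ℝ (fderiv ℝ φ) y v v)
    (heq : ∀ g, ∀ y ∈ Ω, φ (L g *ᵥ y) = lam g ^ 2 * φ y) :
    ∃ (μ : (Fin m → ℝ) → Fin m → ℝ) (H : (Fin m → ℝ) → Matrix (Fin m) (Fin m) ℝ),
      HG L lam Ω φ μ H := by
  classical
  -- notation
  have hat : ∀ y ∈ Ω, ContDiffAt ℝ 2 φ y := fun y hy => hφ.contDiffAt (hΩ.mem_nhds hy)
  have hat1 : ∀ y ∈ Ω, ContDiffAt ℝ 1 (fderiv ℝ φ) y := fun y hy =>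
    (hat y hy).fderiv_right (m := 1) (by norm_num)
  have hat0 : ∀ y ∈ Ω, ContDiffAt ℝ 0 (fderiv ℝ (fderiv ℝ φ)) y := fun y hy =>
    (hat1 y hy).fderiv_right (m := 0) (by norm_num)
  have hsymm : ∀ y ∈ Ω, ∀ v w, fderiv ℝ (fderiv ℝ φ) y v w = fderiv ℝ (fderiv ℝ φ) y w v := by
    intro y hy v w
    have h1 : IsSymmSndFDerivAt ℝ φ y := (hat y hy).isSymmSndFDerivAt (by simp)
    exact h1 v w
  let μ : (Fin m → ℝ) → Fin m → ℝ := fun y i => fderiv ℝ φ y (Pi.single i 1)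
  let H : (Fin m → ℝ) → Matrix (Fin m) (Fin m) ℝ := fun y i j =>
    fderiv ℝ (fderiv ℝ φ) y (Pi.single i 1) (Pi.single j 1)
  have hμ : ∀ y v, μ y ⬝ᵥ v = fderiv ℝ φ y v := by
    intro y v
    rw [H1_basis (fderiv ℝ φ y) v]
    simp only [dotProduct, μ, smul_eq_mul]
    exact Finset.sum_congr rfl fun i _ => mul_comm _ _
  have hHv : ∀ y v i, (H y *ᵥ v) i = fderiv ℝ (fderiv ℝ φ) y (Pi.single i 1) v := by
    intro y v i
    rw [H1_basis (fderiv ℝ (fderiv ℝ φ) y (Pi.single i 1)) v]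
    simp only [Matrix.mulVec, dotProduct, H, smul_eq_mul]
    exact Finset.sum_congr rfl fun i _ => mul_comm _ _
  have hvH : ∀ y v w, v ⬝ᵥ (H y *ᵥ w) = fderiv ℝ (fderiv ℝ φ) y v w := by
    intro y v w
    rw [H1_basis (fderiv ℝ (fderiv ℝ φ) y) v, _root_.sum_apply]
    simp only [dotProduct]
    exact Finset.sum_congr rfl fun i _ => by
      rw [hHv, _root_.smul_apply, smul_eq_mul]
  have dφ : ∀ y ∈ Ω, HasFDerivAt φ (dotL (μ y)) y := by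
    intro y hy
    have h1 := ((hat y hy).differentiableAt (by norm_num)).hasFDerivAt
    have h2 : fderiv ℝ φ y = dotL (μ y) := by
      ext v
      rw [dotL_apply, hμ]
    rwa [h2] at h1
  have dμ : ∀ y ∈ Ω, HasStrictFDerivAt μ (mulL (H y)) y := by
    intro y hy
    rw [hasStrictFDerivAt_pi']
    intro i
    have h1 : HasStrictFDerivAt (fderiv ℝ φ) (fderiv ℝ (fderiv ℝ φ) y) y :=
      (hat1 y hy).hasStrictFDerivAt (by norm_num)
    have h2 := (ContinuousLinearMap.apply ℝ ℝ (Pi.single i (1 : ℝ) : Fin m → ℝ)).hasStrictFDerivAt.comp y h1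
    have h3 : (ContinuousLinearMap.apply ℝ ℝ (Pi.single i (1 : ℝ) : Fin m → ℝ)).comp (fderiv ℝ (fderiv ℝ φ) y)
        = (ContinuousLinearMap.proj i).comp (mulL (H y)) := by
      ext v
      have h4 : ((ContinuousLinearMap.proj i : (Fin m → ℝ) →L[ℝ] ℝ).comp (mulL (H y))) v
          = (H y *ᵥ v) i := rfl
      rw [h4, hHv, ← hsymm y hy]
      rfl
    rw [h3] at h2
    exact h2
  have hsym : ∀ y ∈ Ω, (H y)ᵀ = H y := by
    intro y hy
    ext i j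
    exact hsymm y hy _ _
  have hinv : ∀ g, L g * L g⁻¹ = 1 := fun g => by rw [← map_mul, mul_inv_cancel, map_one]
  have hinv' : ∀ g, (L g⁻¹)ᵀ * (L g)ᵀ = 1 := fun g => by
    rw [← Matrix.transpose_mul, hinv, Matrix.transpose_one]
  have hnear : ∀ g : G, ∀ y ∈ Ω, ∀ᶠ y' in nhds y, y' ∈ Ω := fun g y hy => hΩ.mem_nhds hy
  have eμ : ∀ g, ∀ y ∈ Ω, μ (L g *ᵥ y) = lam g ^ 2 • ((L g⁻¹)ᵀ *ᵥ μ y) := by
    intro g y hy
    have h1 : HasFDerivAt (fun y => φ (L g *ᵥ y)) ((dotL (μ (L g *ᵥ y))).comp (mulL (L g))) y :=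
      HasFDerivAt.comp (g := φ) (f := fun y => L g *ᵥ y) y (dφ _ (hmaps g y hy))
        (mulL (L g)).hasFDerivAt
    have h2 : HasFDerivAt (fun y => lam g ^ 2 * φ y) (lam g ^ 2 • dotL (μ y)) y :=
      (dφ y hy).const_mul (lam g ^ 2)
    have h3 : HasFDerivAt (fun y => lam g ^ 2 * φ y) ((dotL (μ (L g *ᵥ y))).comp (mulL (L g))) y :=
      h1.congr_of_eventuallyEq ((hnear g y hy).mono fun y' hy' => (heq g y' hy').symm)
    have h4 := h3.unique h2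
    apply H1_ext
    intro v
    have h5 := congrArg (fun A : (Fin m → ℝ) →L[ℝ] ℝ => A (L g⁻¹ *ᵥ v)) h4
    have h6 : μ (L g *ᵥ y) ⬝ᵥ (L g *ᵥ (L g⁻¹ *ᵥ v)) = lam g ^ 2 * (μ y ⬝ᵥ (L g⁻¹ *ᵥ v)) := by
      have h7 : ((dotL (μ (L g *ᵥ y))).comp (mulL (L g))) (L g⁻¹ *ᵥ v)
          = (lam g ^ 2 • dotL (μ y)) (L g⁻¹ *ᵥ v) := h5
      rw [ContinuousLinearMap.comp_apply, mulL_apply, dotL_apply, _root_.smul_apply,
        dotL_apply, smul_eq_mul] at h7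
      exact h7
    rw [Matrix.mulVec_mulVec, hinv, Matrix.one_mulVec] at h6
    rw [h6, smul_dotProduct, smul_eq_mul, Matrix.mulVec_transpose, Matrix.dotProduct_mulVec]
  have eH : ∀ g, ∀ y ∈ Ω, H (L g *ᵥ y) = lam g ^ 2 • ((L g⁻¹)ᵀ * H y * L g⁻¹) := by
    intro g y hy
    have h1 : HasFDerivAt (fun y => μ (L g *ᵥ y)) ((mulL (H (L g *ᵥ y))).comp (mulL (L g))) y :=
      HasFDerivAt.comp (g := μ) (f := fun y => L g *ᵥ y) y (dμ _ (hmaps g y hy)).hasFDerivAt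
        (mulL (L g)).hasFDerivAt
    have h2 : HasFDerivAt (fun y => lam g ^ 2 • ((L g⁻¹)ᵀ *ᵥ μ y))
        (lam g ^ 2 • ((mulL (L g⁻¹)ᵀ).comp (mulL (H y)))) y :=
      HasFDerivAt.const_smul (HasFDerivAt.comp (g := fun y => (L g⁻¹)ᵀ *ᵥ y) (f := μ) y
        (mulL (L g⁻¹)ᵀ).hasFDerivAt (dμ y hy).hasFDerivAt) (lam g ^ 2)
    have h3 : HasFDerivAt (fun y => lam g ^ 2 • ((L g⁻¹)ᵀ *ᵥ μ y))
        ((mulL (H (L g *ᵥ y))).comp (mulL (L g))) y :=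
      h1.congr_of_eventuallyEq ((hnear g y hy).mono fun y' hy' => (eμ g y' hy').symm)
    have h4 := h3.unique h2
    have h5 : H (L g *ᵥ y) * L g = lam g ^ 2 • ((L g⁻¹)ᵀ * H y) := by
      apply Matrix.ext_of_mulVec_single
      intro i
      have h6 := congrArg (fun A : (Fin m → ℝ) →L[ℝ] (Fin m → ℝ) => A (Pi.single i 1)) h4
      have h7 : H (L g *ᵥ y) *ᵥ (L g *ᵥ (Pi.single i 1)) = lam g ^ 2 • ((L g⁻¹)ᵀ *ᵥ (H y *ᵥ (Pi.single i 1))) := h6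
      rw [← Matrix.mulVec_mulVec, h7, Matrix.smul_mulVec, ← Matrix.mulVec_mulVec]
    calc H (L g *ᵥ y) = H (L g *ᵥ y) * L g * L g⁻¹ := by rw [mul_assoc, hinv, mul_one]
      _ = _ := by rw [h5, Matrix.smul_mul]
  refine ⟨μ, H, ⟨dφ, dμ, ?_, hsym, ?_, heq, eμ, eH⟩⟩
  · intro y hy
    apply ContinuousAt.continuousWithinAt
    refine continuousAt_pi.2 fun i => continuousAt_pi.2 fun j => ?_
    exact ((hat0 y hy).continuousAt.clm_apply continuousAt_const).clm_apply continuousAt_const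
  · intro y hy v hv
    rw [hvH]
    exact hpos y hy v hv

end TLK
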