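import Pool.Agent.TLK.H0

/-!
# [TLK-H3] counting: an invariant measure of `s K` is at most `N` times that of `K`

`w : (Fin m → ℝ) → ENNReal`, continuous or measurable on `Ω`, with `ENNReal.ofReal |det (L g)| * w (L g y) = w y` on `Ω`; so the measure `ν = w dy` on `Ω`
is invariant: for measurable `E ⊆ Ω`, `∫⁻ y in (X '' E), w y = ∫⁻ y in E, |det X| w (X y) = ∫⁻ y in E, w y`, `X = L g`
(`MeasureTheory.lintegral_image_eq_lintegral_abs_det_fderiv_mul`, or the linear version with `MeasureTheory.Measure.map_…`).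

PROOF. `h.prop K` gives the finite set `F0 = {X | ∃ g, X = L g ∧ ∃ y ∈ K, X y ∈ K}`; `N = F0.card`. Fix `s > 0`: `s • K ⊆ Ω` compact
(`smul_mem`). `F = {X | ∃ g, X = L g ∧ ∃ y ∈ K, X y ∈ s • K}` is finite (`prop` for `K ∪ s • K`). Every `y ∈ s • K` is `X k`, `X = L g`, `k ∈ K` (`k = L g' y`, `g = g'⁻¹`), so
`s • K ⊆ ⋃_{X ∈ F} (X '' K ∩ s • K)`, `ν (s • K) ≤ ∑_{X ∈ F} ν (X '' K ∩ s • K) = ∑_{X ∈ F} ν (K ∩ X⁻¹ (s • K))` (invariance, `X` is injective)
`= ∫⁻ y in K, #{X ∈ F | X y ∈ s • K} * w y ≤ N * ∫⁻ y in K, w y`.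
The last step: let `y ∈ K`; `X y ∈ s • K` means `X (s⁻¹ y) ∈ K`. The set `{X ∈ F | X (s⁻¹ y) ∈ K}` has at most `N` elements: if it is not empty fix
`X1 = L g1` in it; for `X = L g` in it, `X X1⁻¹ = L (g g1⁻¹)` maps `X1 (s⁻¹ y) ∈ K` into `K`, so `X X1⁻¹ ∈ F0`; `X ↦ X X1⁻¹` is injective.
-/

open scoped Matrix
open MeasureTheory

namespace TLK

theorem H3_det {m : ℕ} (X : Matrix (Fin m) (Fin m) ℝ) : (mulL X).det = X.det := by
  have h : ((mulL X : (Fin m → ℝ) →L[ℝ] (Fin m → ℝ)) : (Fin m → ℝ) →ₗ[ℝ] (Fin m → ℝ)) =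
      Matrix.toLin' X := by
    ext v i
    rfl
  rw [ContinuousLinearMap.det, h, LinearMap.det_toLin']

theorem H3_cancel {m : ℕ} {G : Type} [Group G] (L : G →* Matrix (Fin m) (Fin m) ℝ) (g : G)
    (y : Fin m → ℝ) : L g⁻¹ *ᵥ (L g *ᵥ y) = y := by
  rw [Matrix.mulVec_mulVec, ← map_mul, inv_mul_cancel, map_one, Matrix.one_mulVec]

theorem H3_cancel' {m : ℕ} {G : Type} [Group G] (L : G →* Matrix (Fin m) (Fin m) ℝ) (g : G)
    (y : Fin m → ℝ) : L g *ᵥ (L g⁻¹ *ᵥ y) = y := by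
  rw [Matrix.mulVec_mulVec, ← map_mul, mul_inv_cancel, map_one, Matrix.one_mulVec]

/-- invariance of the measure `w dy` -/
theorem H3_inv {m : ℕ} {G : Type} [Group G] {L : G →* Matrix (Fin m) (Fin m) ℝ}
    {Ω : Set (Fin m → ℝ)} {w : (Fin m → ℝ) → ENNReal}
    (hinv : ∀ g, ∀ y ∈ Ω, ENNReal.ofReal |(L g).det| * w (L g *ᵥ y) = w y) (g : G)
    {E : Set (Fin m → ℝ)} (hE : MeasurableSet E) (hEΩ : E ⊆ Ω) :
    ∫⁻ y in (fun y => L g *ᵥ y) '' E, w y = ∫⁻ y in E, w y := by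
  have h1 := lintegral_image_eq_lintegral_abs_det_fderiv_mul (volume : Measure (Fin m → ℝ)) hE
    (f := fun y => L g *ᵥ y) (f' := fun _ => mulL (L g))
    (fun x _ => (mulL (L g)).hasFDerivAt.hasFDerivWithinAt)
    (fun x _ y _ hxy => by
      have := congrArg (fun z => L g⁻¹ *ᵥ z) hxy
      simp only [H3_cancel] at this
      exact this) w
  rw [h1]
  apply setLIntegral_congr_fun hE
  intro y hy
  show ENNReal.ofReal |(mulL (L g)).det| * w (L g *ᵥ y) = w y
  rw [H3_det]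
  exact hinv g y (hEΩ hy)

theorem count {m p : ℕ} {G : Type} [Group G] {L : G →* Matrix (Fin m) (Fin m) ℝ} {lam : G → ℝ}
    {Ω K : Set (Fin m → ℝ)} (hA : Act p L lam Ω K) {w : (Fin m → ℝ) → ENNReal}
    (hw : Measurable w)
    (hinv : ∀ g, ∀ y ∈ Ω, ENNReal.ofReal |(L g).det| * w (L g *ᵥ y) = w y) :
    ∃ N : ℕ, ∀ s : ℝ, 0 < s →
      ∫⁻ y in ((fun y : Fin m → ℝ => s • y) '' K), w y ≤ N * ∫⁻ y in K, w y := by
  classical
  have hfin0 := hA.prop K hA.subset hA.compact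
  refine ⟨hfin0.toFinset.card, fun s hs => ?_⟩
  set sK : Set (Fin m → ℝ) := (fun y : Fin m → ℝ => s • y) '' K with hsK
  have hsKc : IsCompact sK := hA.compact.image (continuous_const_smul s)
  have hsKΩ : sK ⊆ Ω := by
    rintro _ ⟨y, hy, rfl⟩
    exact smul_mem hA.toCoc hs (hA.subset hy)
  have hKm : MeasurableSet K := hA.compact.isClosed.measurableSet
  have hsKm : MeasurableSet sK := hsKc.isClosed.measurableSet
  have hfinU := hA.prop (K ∪ sK) (Set.union_subset hA.subset hsKΩ) (hA.compact.union hsKc)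
  have hfinF : {X : Matrix (Fin m) (Fin m) ℝ | ∃ g, X = L g ∧ ∃ y ∈ K, X *ᵥ y ∈ sK}.Finite := by
    apply hfinU.subset
    rintro X ⟨g, hg, y, hy, hXy⟩
    exact ⟨g, hg, y, Or.inl hy, Or.inr hXy⟩
  set F := hfinF.toFinset with hF
  have hFm : ∀ X, X ∈ F ↔ ∃ g, X = L g ∧ ∃ y ∈ K, X *ᵥ y ∈ sK := by
    intro X
    rw [hF, Set.Finite.mem_toFinset]
    rfl
  -- measurability of preimages
  have hpre : ∀ X : Matrix (Fin m) (Fin m) ℝ, MeasurableSet ((fun y => X *ᵥ y) ⁻¹' sK) := by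
    intro X
    apply (hsKc.isClosed.preimage _).measurableSet
    exact (mulL X).continuous
  let ν : Measure (Fin m → ℝ) := volume.withDensity w
  have hν : ∀ E, MeasurableSet E → ν E = ∫⁻ y in E, w y := fun E hE => withDensity_apply w hE
  have hcov : sK ⊆ ⋃ X ∈ F, (fun y => X *ᵥ y) '' (K ∩ (fun y => X *ᵥ y) ⁻¹' sK) := by
    intro y hy
    obtain ⟨g, hg⟩ := hA.cocompact y (hsKΩ hy)
    have h1 : L g⁻¹ *ᵥ (L g *ᵥ y) = y := H3_cancel L g y
    rw [Set.mem_iUnion₂]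
    refine ⟨L g⁻¹, (hFm _).2 ⟨g⁻¹, rfl, L g *ᵥ y, hg, ?_⟩, L g *ᵥ y, ⟨hg, ?_⟩, h1⟩
    · rw [h1]; exact hy
    · show L g⁻¹ *ᵥ (L g *ᵥ y) ∈ sK
      rw [h1]; exact hy
  have hstep : ∀ X ∈ F, ν ((fun y => X *ᵥ y) '' (K ∩ (fun y => X *ᵥ y) ⁻¹' sK)) =
      ∫⁻ y in K, ((fun y => X *ᵥ y) ⁻¹' sK).indicator w y := by
    intro X hX
    obtain ⟨g, rfl, -⟩ := (hFm X).1 hX
    have hEm : MeasurableSet (K ∩ (fun y => L g *ᵥ y) ⁻¹' sK) := hKm.inter (hpre _)
    have hEi : MeasurableSet ((fun y => L g *ᵥ y) '' (K ∩ (fun y => L g *ᵥ y) ⁻¹' sK)) := by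
      have hc : IsCompact (K ∩ (fun y => L g *ᵥ y) ⁻¹' sK) := by
        apply hA.compact.inter_right
        exact hsKc.isClosed.preimage (mulL (L g)).continuous
      exact (hc.image (mulL (L g)).continuous).isClosed.measurableSet
    rw [hν _ hEi, H3_inv hinv g hEm (Set.inter_subset_left.trans hA.subset),
      setLIntegral_indicator (hpre _), Set.inter_comm]
  calc ∫⁻ y in sK, w y = ν sK := (hν _ hsKm).symm
    _ ≤ ν (⋃ X ∈ F, (fun y => X *ᵥ y) '' (K ∩ (fun y => X *ᵥ y) ⁻¹' sK)) := measure_mono hcov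
    _ ≤ ∑ X ∈ F, ν ((fun y => X *ᵥ y) '' (K ∩ (fun y => X *ᵥ y) ⁻¹' sK)) :=
        measure_biUnion_finset_le _ _
    _ = ∑ X ∈ F, ∫⁻ y in K, ((fun y => X *ᵥ y) ⁻¹' sK).indicator w y :=
        Finset.sum_congr rfl hstep
    _ = ∫⁻ y in K, ∑ X ∈ F, ((fun y => X *ᵥ y) ⁻¹' sK).indicator w y := by
        rw [lintegral_finsetSum]
        intro X _
        exact hw.indicator (hpre X)
    _ ≤ ∫⁻ y in K, (hfin0.toFinset.card : ENNReal) * w y := by
        apply setLIntegral_mono (hw.const_mul _)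
        intro y _
        -- counting
        have h1 : ∑ X ∈ F, ((fun y => X *ᵥ y) ⁻¹' sK).indicator w y =
            ((F.filter fun X => X *ᵥ y ∈ sK).card : ENNReal) * w y := by
          rw [← nsmul_eq_mul, ← Finset.sum_const, Finset.sum_filter]
          apply Finset.sum_congr rfl
          intro X _
          rw [Set.indicator_apply]
          rfl
        rw [h1]
        refine mul_le_mul_left ?_ _
        rw [Nat.cast_le]
        by_cases hemp : (F.filter fun X => X *ᵥ y ∈ sK).Nonempty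
        · obtain ⟨X1, hX1⟩ := hemp
          rw [Finset.mem_filter, hFm] at hX1
          obtain ⟨⟨g1, rfl, -⟩, k1, hk1, hk1'⟩ := hX1
          have hk1'' : s • k1 = L g1 *ᵥ y := hk1'
          apply Finset.card_le_card_of_injOn (fun X => X * L g1⁻¹)
          · intro X hX
            rw [Finset.mem_coe, Finset.mem_filter, hFm] at hX
            obtain ⟨⟨g, rfl, -⟩, k, hk, hk'⟩ := hX
            have hk'' : s • k = L g *ᵥ y := hk'
            rw [Finset.mem_coe, Set.Finite.mem_toFinset]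
            refine ⟨g * g1⁻¹, by rw [map_mul], k1, hk1, ?_⟩
            have h2 : s • ((L g * L g1⁻¹) *ᵥ k1) = s • k := by
              rw [hk'', ← Matrix.mulVec_smul, hk1'', ← Matrix.mulVec_mulVec, H3_cancel]
            have h3 : (L g * L g1⁻¹) *ᵥ k1 = k := smul_right_injective _ hs.ne' h2
            show (L g * L g1⁻¹) *ᵥ k1 ∈ K
            rw [h3]; exact hk
          · intro X _ Y _ hXY
            have h2 : X * L g1⁻¹ = Y * L g1⁻¹ := hXY
            have h3 : L g1⁻¹ * L g1 = 1 := by rw [← map_mul, inv_mul_cancel, map_one]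
            have h4 := congrArg (fun Z => Z * L g1) h2
            simp only [Matrix.mul_assoc, h3, Matrix.mul_one] at h4
            exact h4
        · rw [Finset.not_nonempty_iff_eq_empty] at hemp
          rw [hemp, Finset.card_empty]
          exact Nat.zero_le _
    _ = hfin0.toFinset.card * ∫⁻ y in K, w y := lintegral_const_mul _ hw

end TLK
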