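import Pool.Agent.TLK.H2
import Pool.Agent.TLK.H3

/-!
# [TLK-H4] `f > 0` on `Ω`

PROOF. `ψ = -f`. Step 1: `ψ ≤ 0`. Let `y0 ∈ Ω` with `ψ y0 > 0`. `K' = K ∪ closedBall y0 r ⊆ Ω` (small `r`) is compact and still meets every orbit: `Act p L lam Ω K'`.
Let `w y = ENNReal.ofReal ((max (ψ y) 0) ^ p)` for `y ∈ Ω` and `0` outside (`Set.indicator`, `Ω` open, `ψ` continuous on `Ω`: measurable). Invariance:
`ψ (L g y) = lam² ψ y` (`ff_equiv`), so `w (L g y) = lam^(2p) w y` and `|det| * lam^(2p) = 1`. `count` gives `N` with `∫_{s K'} w ≤ N ∫_{K'} w` for all `s`.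
For `s ≥ 1`: `∫_{s K'} w = s^m ∫_{K'} w (s y) dy ≥ s^m ∫_{K'} w y dy` since `ψ (s y) ≥ ψ y` (`ff_ray`, `y ≠ 0` by `zero_not_mem`). Now
`I = ∫_{K'} w` is finite (`w` bounded on the compact set `K'`) and positive (`w > 0` near `y0`, open set of positive measure inside
`K'`). So `s^m ≤ N` for all `s ≥ 1`: contradiction, `m > 0`.
Step 2: if `ψ y = 0` for some `y ∈ Ω` then `ψ (2 y) > 0` by `ff_ray`, contradiction. So `ψ < 0`.
-/

open scoped Matrix

namespace TLK

open MeasureTheory in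
theorem H4_scale {m : ℕ} {K : Set (Fin m → ℝ)} (hK : IsCompact K) (w : (Fin m → ℝ) → ENNReal)
    {s : ℝ} (hs : 0 < s) (hmono : ∀ y ∈ K, w y ≤ w (s • y)) :
    ENNReal.ofReal (s ^ m) * ∫⁻ y in K, w y ≤ ∫⁻ y in ((fun y : Fin m → ℝ => s • y) '' K), w y := by
  have hder : ∀ y ∈ K, HasFDerivWithinAt (fun y : Fin m → ℝ => s • y)
      (s • ContinuousLinearMap.id ℝ (Fin m → ℝ)) K y := fun y _ =>
    ((hasFDerivAt_id y).const_smul s).hasFDerivWithinAt
  have hinj : Set.InjOn (fun y : Fin m → ℝ => s • y) K := fun a _ b _ h =>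
    smul_right_injective _ hs.ne' h
  have hdet : (s • ContinuousLinearMap.id ℝ (Fin m → ℝ)).det = s ^ m := by
    have h1 : ((s • ContinuousLinearMap.id ℝ (Fin m → ℝ) : (Fin m → ℝ) →L[ℝ] (Fin m → ℝ)) :
        (Fin m → ℝ) →ₗ[ℝ] (Fin m → ℝ)) = s • LinearMap.id := rfl
    rw [ContinuousLinearMap.det, h1, LinearMap.det_smul, LinearMap.det_id, mul_one,
      Module.finrank_fin_fun]
  rw [lintegral_image_eq_lintegral_abs_det_fderiv_mul volume hK.measurableSet hder hinj, hdet,
    abs_of_pos (pow_pos hs m), lintegral_const_mul' _ _ ENNReal.ofReal_ne_top]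
  exact mul_le_mul_right (setLIntegral_mono' hK.measurableSet hmono) _

theorem ff_pos {m p : ℕ} {G : Type} [Group G] {L : G →* Matrix (Fin m) (Fin m) ℝ} {lam : G → ℝ}
    {Ω K : Set (Fin m → ℝ)} (hA : Act p L lam Ω K) (hp : 0 < p) (hm : 0 < m)
    {φ : (Fin m → ℝ) → ℝ} {μ : (Fin m → ℝ) → Fin m → ℝ}
    {H : (Fin m → ℝ) → Matrix (Fin m) (Fin m) ℝ} (hG : HG L lam Ω φ μ H) :
    ∀ y ∈ Ω, 0 < ff φ μ y := by
  classical
  have hcont := ff_cont hG
  -- Step 1
  have step1 : ∀ y ∈ Ω, 0 ≤ ff φ μ y := by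
    by_contra hne
    push Not at hne
    obtain ⟨y0, hy0, hneg⟩ := hne
    obtain ⟨r, hr, hball⟩ := Metric.nhds_basis_closedBall.mem_iff.1 (hA.isOpen.mem_nhds hy0)
    have hA' : Act p L lam Ω (K ∪ Metric.closedBall y0 r) :=
      { isOpen := hA.isOpen
        nonempty := hA.nonempty
        maps := hA.maps
        compact := hA.compact.union (isCompact_closedBall y0 r)
        subset := Set.union_subset hA.subset hball
        cocompact := fun x hx => (hA.cocompact x hx).imp fun g h => Or.inl h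
        conn := hA.conn
        prop := hA.prop
        lam_pos := hA.lam_pos
        det_rel := hA.det_rel }
    let u : (Fin m → ℝ) → ℝ := fun y => (max (-(ff φ μ y)) 0) ^ p
    have hu : ContinuousOn u Ω := (hcont.neg.sup continuousOn_const).pow p
    let w : (Fin m → ℝ) → ENNReal := Ω.indicator fun y => ENNReal.ofReal (u y)
    have hwΩ : ∀ y ∈ Ω, w y = ENNReal.ofReal (u y) := fun y hy => Set.indicator_of_mem hy _
    have hw : Measurable w := by
      have h1 : Measurable (Ω.piecewise (fun y => ENNReal.ofReal (u y)) 0) :=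
        ContinuousOn.measurable_piecewise (ENNReal.continuous_ofReal.comp_continuousOn hu)
          continuousOn_const hA.isOpen.measurableSet
      rwa [Set.piecewise_eq_indicator] at h1
    have hinv : ∀ g, ∀ y ∈ Ω, ENNReal.ofReal |(L g).det| * w (L g *ᵥ y) = w y := by
      intro g y hy
      rw [hwΩ _ (hA.maps g y hy), hwΩ y hy, ← ENNReal.ofReal_mul (abs_nonneg _)]
      congr 1
      show |(L g).det| * (max (-(ff φ μ (L g *ᵥ y))) 0) ^ p = (max (-(ff φ μ y)) 0) ^ p
      have h1 : max (-(ff φ μ (L g *ᵥ y))) 0 = lam g ^ 2 * max (-(ff φ μ y)) 0 := by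
        rw [ff_equiv hG g hy, mul_max_of_nonneg _ _ (sq_nonneg _), mul_zero]
        congr 1
        ring
      rw [h1, mul_pow, ← pow_mul, ← mul_assoc, hA.det_rel g, one_mul]
    obtain ⟨N, hN⟩ := count hA' hw hinv
    have hmono : ∀ s : ℝ, 1 ≤ s → ∀ y ∈ K ∪ Metric.closedBall y0 r, w y ≤ w (s • y) := by
      intro s hs y hy
      have hyΩ := hA'.subset hy
      have hsΩ : s • y ∈ Ω := smul_mem hA.toCoc (by linarith) hyΩ
      have hy00 : y ≠ 0 := by
        rintro rfl
        exact zero_not_mem hA hm hyΩ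
      rw [hwΩ y hyΩ, hwΩ _ hsΩ]
      apply ENNReal.ofReal_le_ofReal
      have h1 : ff φ μ (s • y) ≤ ff φ μ y := by
        rcases hs.eq_or_lt with h | h
        · rw [← h, one_smul]
        · have h2 := ff_ray hA hG hyΩ hy00 one_pos h
          rw [one_smul] at h2
          exact h2.le
      exact pow_le_pow_left₀ (le_max_right _ _) (max_le_max (by linarith) le_rfl) p
    have hI : ∀ s : ℝ, 1 ≤ s → ENNReal.ofReal (s ^ m) * ∫⁻ y in K ∪ Metric.closedBall y0 r, w y
        ≤ N * ∫⁻ y in K ∪ Metric.closedBall y0 r, w y := fun s hs =>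
      (H4_scale hA'.compact w (by linarith) (hmono s hs)).trans (hN s (by linarith))
    have hfin : ∫⁻ y in K ∪ Metric.closedBall y0 r, w y < ⊤ := by
      obtain ⟨C, hC⟩ := hA'.compact.exists_bound_of_continuousOn (hu.mono hA'.subset)
      apply MeasureTheory.setLIntegral_lt_top_of_le_nnreal hA'.compact.measure_lt_top.ne
      refine ⟨C.toNNReal, fun y hy => ?_⟩
      rw [hwΩ y (hA'.subset hy)]
      exact ENNReal.ofReal_le_ofReal ((le_abs_self _).trans (hC y hy))
    have hpos : 0 < ∫⁻ y in K ∪ Metric.closedBall y0 r, w y := by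
      rw [MeasureTheory.setLIntegral_pos_iff hw]
      have h1 : ∀ᶠ y in nhds y0, ff φ μ y < 0 :=
        ((hcont.continuousAt (hA.isOpen.mem_nhds hy0)).eventually (gt_mem_nhds hneg))
      obtain ⟨ε, hε, hεball⟩ := Metric.eventually_nhds_iff_ball.1 h1
      refine lt_of_lt_of_le (Metric.measure_ball_pos _ y0 (lt_min hr hε)) (MeasureTheory.measure_mono ?_)
      intro y hy
      rw [Metric.mem_ball, lt_min_iff] at hy
      have hyr : y ∈ Metric.closedBall y0 r := Metric.mem_closedBall.2 hy.1.le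
      refine ⟨?_, Or.inr hyr⟩
      rw [Function.mem_support, hwΩ y (hball hyr)]
      have h2 := hεball y (Metric.mem_ball.2 hy.2)
      have h3 : 0 < u y := pow_pos (lt_max_of_lt_left (by linarith)) p
      exact (ENNReal.ofReal_pos.2 h3).ne'
    have h1 := (ENNReal.mul_le_mul_iff_left hpos.ne' hfin.ne).1 (hI (N + 1)
      (by have : (0 : ℝ) ≤ N := Nat.cast_nonneg N
          linarith))
    have h2 : ((N : ℝ) + 1) ^ m ≤ N := by
      have h3 : (N : ENNReal) = ENNReal.ofReal (N : ℝ) := (ENNReal.ofReal_natCast N).symm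
      rw [h3] at h1
      exact (ENNReal.ofReal_le_ofReal_iff (Nat.cast_nonneg N)).1 h1
    have h3 : ((N : ℝ) + 1) ≤ ((N : ℝ) + 1) ^ m :=
      le_self_pow₀ (by have : (0 : ℝ) ≤ N := Nat.cast_nonneg N
                       linarith) hm.ne'
    linarith
  intro y hy
  rcases (step1 y hy).eq_or_lt with h | h
  · exfalso
    have hy00 : y ≠ 0 := by
      rintro rfl
      exact zero_not_mem hA hm hy
    have h1 := ff_ray hA hG hy hy00 one_pos one_lt_two
    rw [one_smul, ← h] at h1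
    have h2 := step1 _ (smul_mem hA.toCoc (by norm_num : (0 : ℝ) < 2) hy)
    linarith
  · exact h

end TLK
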