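import Pool.Agent.TLK.H0

/-!
# [TLK-H2] the function `f = φ - μ ⬝ y`

* `ff_deriv`: derivative of `y ↦ φ y - μ y ⬝ y` in direction `v`: `μ ⬝ v - (H v) ⬝ y - μ ⬝ v = - (H y y) ⬝ v` by symmetry of `H`.
* `ff_cont`: differentiable, hence continuous on `Ω`.
* `ff_equiv`: `μ (L g y) ⬝ L g y = lam² ((L g⁻¹)ᵀ μ) ⬝ (L g y) = lam² μ ⬝ (L g⁻¹ L g y) = lam² μ ⬝ y`.
* `ff_ray`: `s ↦ f(s y)`, `s > 0` (the ray is in `Ω`: `smul_mem h`) has derivative `- s (H (s y) y) ⬝ y < 0` if `y ≠ 0`; so it is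
  strictly decreasing (`strictAntiOn_of_deriv_neg` on `Set.Ioi 0`, convex).
* `zero_not_mem`: suppose `0 ∈ Ω`. `Ω` is open and a cone (`smul_mem`), so `Ω = univ`. Apply `prop` to the compact set `K ∪ {0}`: since
  `L g *ᵥ 0 = 0`, all `L g` are in a finite set `F`. Every `y` is in `L g⁻¹ K` for some `g`: `univ = ⋃_{X ∈ F} X '' K` is compact,
  impossible for `m > 0` (`Fin m → ℝ` is not compact).
-/

open scoped Matrix

namespace TLK

variable {m p : ℕ} {G : Type} [Group G] {L : G →* Matrix (Fin m) (Fin m) ℝ} {lam : G → ℝ}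
  {Ω K : Set (Fin m → ℝ)} {φ : (Fin m → ℝ) → ℝ} {μ : (Fin m → ℝ) → Fin m → ℝ}
  {H : (Fin m → ℝ) → Matrix (Fin m) (Fin m) ℝ}

theorem ff_deriv (hG : HG L lam Ω φ μ H) {y : Fin m → ℝ} (hy : y ∈ Ω) :
    HasFDerivAt (ff φ μ) (-dotL (H y *ᵥ y)) y := by
  have h1 := hG.dφ y hy
  have h2 : ∀ i, HasFDerivAt (fun y => μ y i) ((ContinuousLinearMap.proj i).comp (mulL (H y))) y :=
    hasFDerivAt_pi'.1 (hG.dμ y hy).hasFDerivAt
  have h3 : HasFDerivAt (fun y : Fin m → ℝ => ∑ i, μ y i * y i)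
      (∑ i, (μ y i • (ContinuousLinearMap.proj i : (Fin m → ℝ) →L[ℝ] ℝ)
        + y i • ((ContinuousLinearMap.proj i).comp (mulL (H y))))) y :=
    HasFDerivAt.fun_sum fun i _ => (h2 i).mul (hasFDerivAt_apply i y)
  have h4 := h1.sub h3
  refine HasFDerivAt.congr_fderiv (f := ff φ μ) h4 ?_
  ext v
  have h5 : (∑ i, (μ y i • (ContinuousLinearMap.proj i : (Fin m → ℝ) →L[ℝ] ℝ)
        + y i • ((ContinuousLinearMap.proj i).comp (mulL (H y))))) v
      = μ y ⬝ᵥ v + y ⬝ᵥ (H y *ᵥ v) := by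
    rw [_root_.sum_apply]
    simp only [dotProduct]
    rw [← Finset.sum_add_distrib]
    rfl
  rw [_root_.sub_apply, h5, _root_.neg_apply, dotL_apply, dotL_apply,
    Matrix.dotProduct_mulVec, ← Matrix.mulVec_transpose, hG.symm y hy]
  ring

theorem ff_cont (hG : HG L lam Ω φ μ H) : ContinuousOn (ff φ μ) Ω := by
  exact fun y hy => (ff_deriv hG hy).continuousAt.continuousWithinAt

theorem ff_equiv (hG : HG L lam Ω φ μ H) (g : G) {y : Fin m → ℝ} (hy : y ∈ Ω) :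
    ff φ μ (L g *ᵥ y) = lam g ^ 2 * ff φ μ y := by
  unfold ff
  have h1 : (L g⁻¹ * L g) = 1 := by rw [← map_mul, inv_mul_cancel, map_one]
  have h2 : ((L g⁻¹)ᵀ *ᵥ μ y) ⬝ᵥ (L g *ᵥ y) = μ y ⬝ᵥ y := by
    rw [Matrix.mulVec_transpose, ← Matrix.dotProduct_mulVec, Matrix.mulVec_mulVec, h1,
      Matrix.one_mulVec]
  rw [hG.eφ g y hy, hG.eμ g y hy, smul_dotProduct, h2, smul_eq_mul]
  ring

theorem ff_ray (hA : Act p L lam Ω K) (hG : HG L lam Ω φ μ H) {y : Fin m → ℝ} (hy : y ∈ Ω)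
    (h0 : y ≠ 0) {s t : ℝ} (hs : 0 < s) (hst : s < t) : ff φ μ (t • y) < ff φ μ (s • y) := by
  have hmem : ∀ r : ℝ, 0 < r → r • y ∈ Ω := fun r hr => smul_mem hA.toCoc hr hy
  have hder : ∀ r : ℝ, 0 < r → HasDerivAt (fun r : ℝ => ff φ μ (r • y))
      (-(r * (y ⬝ᵥ (H (r • y) *ᵥ y)))) r := by
    intro r hr
    have h1 := ff_deriv hG (hmem r hr)
    have h2 : HasDerivAt (fun r : ℝ => r • y) y r := by
      have h3 := (hasDerivAt_id r).smul_const y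
      rwa [one_smul] at h3
    have h4 := HasFDerivAt.comp_hasDerivAt (f := fun r : ℝ => r • y) r h1 h2
    refine HasDerivAt.congr_deriv h4 ?_
    rw [_root_.neg_apply, dotL_apply, Matrix.mulVec_smul, smul_dotProduct, smul_eq_mul,
      dotProduct_comm]
  have hanti : StrictAntiOn (fun r : ℝ => ff φ μ (r • y)) (Set.Ioi 0) := by
    apply strictAntiOn_of_deriv_neg (convex_Ioi 0)
    · exact fun r hr => (hder r hr).continuousAt.continuousWithinAt
    · intro r hr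
      rw [interior_Ioi] at hr
      rw [(hder r hr).deriv]
      have h5 := hG.pos (r • y) (hmem r hr) y h0
      have h6 : 0 < r * (y ⬝ᵥ (H (r • y) *ᵥ y)) := mul_pos hr h5
      linarith
  exact hanti hs (hs.trans hst) hst

theorem zero_not_mem (hA : Act p L lam Ω K) (hm : 0 < m) : (0 : Fin m → ℝ) ∉ Ω := by
  intro h0
  have huniv : ∀ y : Fin m → ℝ, y ∈ Ω := by
    intro y
    obtain ⟨r, hr, hball⟩ := Metric.isOpen_iff.1 hA.isOpen 0 h0
    have hpos : 0 < ‖y‖ + 1 := by positivity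
    have hs : 0 < r / (‖y‖ + 1) := div_pos hr hpos
    have h1 : (r / (‖y‖ + 1)) • y ∈ Ω := by
      apply hball
      rw [mem_ball_zero_iff, norm_smul, Real.norm_of_nonneg hs.le, div_mul_eq_mul_div,
        div_lt_iff₀ hpos]
      nlinarith
    have h2 := smul_mem hA.toCoc (inv_pos.2 hs) h1
    rwa [smul_smul, inv_mul_cancel₀ hs.ne', one_smul] at h2
  have hfin := hA.prop (K ∪ {0}) (fun y _ => huniv y) (hA.compact.union isCompact_singleton)
  have hcomp : IsCompact (⋃ X ∈ {X : Matrix (Fin m) (Fin m) ℝ | ∃ g, X = L g ∧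
      ∃ y ∈ K ∪ {0}, X *ᵥ y ∈ K ∪ {0}}, (fun y : Fin m → ℝ => X *ᵥ y) '' K) := by
    refine hfin.isCompact_biUnion fun X _ => hA.compact.image ?_
    exact (Matrix.mulVecLin X).continuous_of_finiteDimensional
  obtain ⟨R, hR⟩ := hcomp.isBounded.exists_norm_le
  have h3 := hR (Pi.single ⟨0, hm⟩ (|R| + 1)) ?_
  · have h4 : ‖(Pi.single ⟨0, hm⟩ (|R| + 1) : Fin m → ℝ)‖ = |R| + 1 := by
      rw [Pi.norm_single, Real.norm_of_nonneg (by positivity)]
    rw [h4] at h3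
    have := le_abs_self R
    linarith
  · obtain ⟨g, hg⟩ := hA.cocompact _ (huniv (Pi.single ⟨0, hm⟩ (|R| + 1)))
    rw [Set.mem_iUnion₂]
    refine ⟨L g⁻¹, ⟨g⁻¹, rfl, 0, Or.inr rfl, Or.inr (Matrix.mulVec_zero _)⟩, _, hg, ?_⟩
    show L g⁻¹ *ᵥ (L g *ᵥ _) = _
    rw [Matrix.mulVec_mulVec, ← map_mul, inv_mul_cancel, map_one, Matrix.one_mulVec]

end TLK
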