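import Pool.Agent.TLK.K1b
import Pool.Agent.TLK.H2

/-!
# [TLK-K1c] uniform lifting

PROOF. (1) There is `δ > 0` such that for `k ∈ K`, `‖ζ‖ ≤ δ` the segment has a lift on `[0, 1]`: for `k ∈ K` the constant path lifts `ζ = 0`; by `stable` (`T = 1`,
`V = univ`) there is a neighbourhood of `(k, 0)` of good pairs; `K × {0}` is compact (`generalized_tube_lemma` or a finite subcover).
(2) `(k, ζ) ↦ ζ ⬝ᵥ ((H k)⁻¹ *ᵥ ζ)` is continuous on `K × sphere` (`H` continuous on `K`, `det (H k) ≠ 0`) and positive (`H k` positive definite and symmetric, so is its inverse: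
`ζ = H v`, `ζ ⬝ H⁻¹ ζ = H v ⬝ v > 0`), so it is `≥ c1 > 0` there (if `K` or the sphere is empty, trivial); so `ζ ⬝ (H k)⁻¹ ζ ≥ c1 ‖ζ‖²`. And `f ≤ F` on `K` (`ff_cont`), `F > 0`.
Choose `ε > 0` with `ε² F ≤ c1 δ²`. If `k ∈ K` and `ζ ⬝ (H k)⁻¹ ζ ≤ ε² f k` then `‖ζ‖ ≤ δ`: there is a lift.
(3) General `y ∈ Ω`: choose `g` with `k = L g *ᵥ y ∈ K`; `ζ = lam² • (L g⁻¹)ᵀ *ᵥ η`. `H k = lam² (L g⁻¹)ᵀ H y (L g⁻¹)`, so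
`(H k)⁻¹ = lam⁻² (L g) (H y)⁻¹ (L g)ᵀ` and `ζ ⬝ (H k)⁻¹ ζ = lam² η ⬝ (H y)⁻¹ η ≤ lam² ε² f y = ε² f k` (`ff_equiv`). Let `c0` be the lift from `k` with direction `ζ`;
`c t = L g⁻¹ *ᵥ c0 t ∈ Ω`. `eμ g (c t)`: `μ (c0 t) = lam² (L g⁻¹)ᵀ μ (c t)`, so `μ (c t) = lam⁻² (L g)ᵀ (μ k + t ζ) = μ y + t η` (`μ k = lam² (L g⁻¹)ᵀ μ y`,
`(L g)ᵀ (L g⁻¹)ᵀ = (L g⁻¹ L g)ᵀ = 1`).
-/

open scoped Matrix Topology

namespace TLK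

variable {m p : ℕ} {G : Type} [Group G] {L : G →* Matrix (Fin m) (Fin m) ℝ} {lam : G → ℝ}
  {Ω K : Set (Fin m → ℝ)} {φ : (Fin m → ℝ) → ℝ} {μ : (Fin m → ℝ) → Fin m → ℝ}
  {H : (Fin m → ℝ) → Matrix (Fin m) (Fin m) ℝ}

theorem K1c_smulmem {v : Fin m → ℝ} (hv : v ≠ 0) :
    ‖v‖⁻¹ • v ∈ Metric.sphere (0 : Fin m → ℝ) 1 := by
  rw [mem_sphere_zero_iff_norm, norm_smul, norm_inv, norm_norm,
    inv_mul_cancel₀ (norm_ne_zero_iff.2 hv)]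

theorem K1c_Hfst (hA : Act p L lam Ω K) (hG : HG L lam Ω φ μ H) :
    ContinuousOn (fun q : (Fin m → ℝ) × (Fin m → ℝ) => (H q.1, q.2))
      (K ×ˢ Metric.sphere (0 : Fin m → ℝ) 1) :=
  ((hG.Hcont.mono hA.subset).comp continuousOn_fst (fun _ hq => hq.1)).prodMk continuousOn_snd

theorem K1c_pos (hA : Act p L lam Ω K) (hG : HG L lam Ω φ μ H) :
    ∃ κ : ℝ, 0 < κ ∧ ∀ k ∈ K, ∀ v : Fin m → ℝ, κ * ‖v‖ ^ 2 ≤ v ⬝ᵥ (H k *ᵥ v) := by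
  have hK : IsCompact (K ×ˢ Metric.sphere (0 : Fin m → ℝ) 1) :=
    hA.compact.prod (isCompact_sphere 0 1)
  have hcc : Continuous fun q : Matrix (Fin m) (Fin m) ℝ × (Fin m → ℝ) =>
      q.2 ⬝ᵥ (q.1 *ᵥ q.2) := by fun_prop
  have hc : ContinuousOn (fun q : (Fin m → ℝ) × (Fin m → ℝ) => q.2 ⬝ᵥ (H q.1 *ᵥ q.2))
      (K ×ˢ Metric.sphere (0 : Fin m → ℝ) 1) := hcc.comp_continuousOn (K1c_Hfst hA hG)
  by_cases hne : (K ×ˢ Metric.sphere (0 : Fin m → ℝ) 1).Nonempty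
  · obtain ⟨q, hq, hmin⟩ := hK.exists_isMinOn hne hc
    refine ⟨q.2 ⬝ᵥ (H q.1 *ᵥ q.2), hG.pos q.1 (hA.subset hq.1) q.2 ?_, fun k hk v => ?_⟩
    · intro h0
      have h1 := hq.2
      rw [h0, mem_sphere_zero_iff_norm, norm_zero] at h1
      exact zero_ne_one h1
    · by_cases hv : v = 0
      · subst hv
        simp
      · have hn : ‖v‖ ≠ 0 := norm_ne_zero_iff.2 hv
        have h2 : q.2 ⬝ᵥ (H q.1 *ᵥ q.2) ≤ (‖v‖⁻¹ • v) ⬝ᵥ (H k *ᵥ (‖v‖⁻¹ • v)) :=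
          hmin (Set.mk_mem_prod hk (K1c_smulmem hv))
        rw [Matrix.mulVec_smul, dotProduct_smul, smul_dotProduct, smul_eq_mul, smul_eq_mul] at h2
        calc q.2 ⬝ᵥ (H q.1 *ᵥ q.2) * ‖v‖ ^ 2 ≤
            ‖v‖⁻¹ * (‖v‖⁻¹ * (v ⬝ᵥ (H k *ᵥ v))) * ‖v‖ ^ 2 :=
              mul_le_mul_of_nonneg_right h2 (by positivity)
          _ = v ⬝ᵥ (H k *ᵥ v) := by
              field_simp
  · refine ⟨1, one_pos, fun k hk v => ?_⟩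
    by_cases hv : v = 0
    · subst hv
      simp
    · exact absurd ⟨(k, ‖v‖⁻¹ • v), Set.mk_mem_prod hk (K1c_smulmem hv)⟩ hne

theorem K1c_bound (hA : Act p L lam Ω K) (hG : HG L lam Ω φ μ H) :
    ∃ M : ℝ, 0 < M ∧ ∀ k ∈ K, ∀ v : Fin m → ℝ, ‖H k *ᵥ v‖ ≤ M * ‖v‖ := by
  have hK : IsCompact (K ×ˢ Metric.sphere (0 : Fin m → ℝ) 1) :=
    hA.compact.prod (isCompact_sphere 0 1)
  have hcc : Continuous fun q : Matrix (Fin m) (Fin m) ℝ × (Fin m → ℝ) => q.1 *ᵥ q.2 := by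
    fun_prop
  have hc : ContinuousOn (fun q : (Fin m → ℝ) × (Fin m → ℝ) => H q.1 *ᵥ q.2)
      (K ×ˢ Metric.sphere (0 : Fin m → ℝ) 1) := hcc.comp_continuousOn (K1c_Hfst hA hG)
  obtain ⟨C, hC⟩ := hK.exists_bound_of_continuousOn hc
  refine ⟨max C 1, lt_max_of_lt_right one_pos, fun k hk v => ?_⟩
  by_cases hv : v = 0
  · subst hv
    simp
  · have hn : ‖v‖ ≠ 0 := norm_ne_zero_iff.2 hv
    have h1 : ‖H k *ᵥ (‖v‖⁻¹ • v)‖ ≤ C := hC _ (Set.mk_mem_prod hk (K1c_smulmem hv))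
    rw [Matrix.mulVec_smul, norm_smul, norm_inv, norm_norm] at h1
    calc ‖H k *ᵥ v‖ = ‖v‖⁻¹ * ‖H k *ᵥ v‖ * ‖v‖ := by field_simp
      _ ≤ C * ‖v‖ := mul_le_mul_of_nonneg_right h1 (norm_nonneg v)
      _ ≤ max C 1 * ‖v‖ := mul_le_mul_of_nonneg_right (le_max_left _ _) (norm_nonneg v)

theorem K1c_ff (hA : Act p L lam Ω K) (hG : HG L lam Ω φ μ H) :
    ∃ F : ℝ, 0 < F ∧ ∀ k ∈ K, ff φ μ k ≤ F := by
  obtain ⟨C, hC⟩ := hA.compact.exists_bound_of_continuousOn ((ff_cont hG).mono hA.subset)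
  refine ⟨max C 1, lt_max_of_lt_right one_pos, fun k hk => ?_⟩
  exact ((le_abs_self _).trans (hC k hk)).trans (le_max_left _ _)

theorem K1c_small (hA : Act p L lam Ω K) (hG : HG L lam Ω φ μ H) :
    ∃ δ : ℝ, 0 < δ ∧ ∀ k ∈ K, ∀ ζ : Fin m → ℝ, ‖ζ‖ < δ → ∃ c, IsLift μ Ω 1 k ζ c := by
  have h1 : ∀ k ∈ K, ∀ᶠ z : (Fin m → ℝ) × (Fin m → ℝ) in 𝓝 ((0 : Fin m → ℝ), k),
      ∃ c, IsLift μ Ω 1 z.2 z.1 c := by
    intro k hk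
    have hc : IsLift μ Ω 1 k 0 (fun _ => k) :=
      ⟨continuousOn_const, fun _ _ => hA.subset hk, rfl, fun t _ => by
        rw [smul_zero, add_zero]⟩
    have h2 := stable hA.isOpen hG zero_le_one hc (V := Set.univ) Filter.univ_mem
    have h3 : Filter.Tendsto (Prod.swap : (Fin m → ℝ) × (Fin m → ℝ) → _)
        (𝓝 ((0 : Fin m → ℝ), k)) (𝓝 (k, (0 : Fin m → ℝ))) :=
      continuous_swap.tendsto _
    filter_upwards [h3.eventually h2] with z hz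
    obtain ⟨c, hc, -⟩ := hz
    exact ⟨c, hc⟩
  have h4 := hA.compact.eventually_forall_of_forall_eventually
    (P := fun ζ k => ∃ c, IsLift μ Ω 1 k ζ c) h1
  obtain ⟨δ, hδ, h5⟩ := Metric.eventually_nhds_iff_ball.1 h4
  exact ⟨δ, hδ, fun k hk ζ hζ => h5 ζ (mem_ball_zero_iff.2 hζ) k hk⟩

theorem K1c_inv (hG : HG L lam Ω φ μ H) {y : Fin m → ℝ} (hy : y ∈ Ω) (η : Fin m → ℝ) :
    H y *ᵥ ((H y)⁻¹ *ᵥ η) = η := by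
  have h1 : (H y).det ≠ 0 := by
    intro h0
    obtain ⟨v, hv, h2⟩ := Matrix.exists_mulVec_eq_zero_iff.2 h0
    have h3 := hG.pos y hy v hv
    rw [h2, dotProduct_zero] at h3
    exact lt_irrefl _ h3
  rw [Matrix.mulVec_mulVec, Matrix.mul_nonsing_inv _ (isUnit_iff_ne_zero.2 h1), Matrix.one_mulVec]

theorem unif (hA : Act p L lam Ω K) (hG : HG L lam Ω φ μ H) (hf : ∀ y ∈ Ω, 0 < ff φ μ y) :
    ∃ ε : ℝ, 0 < ε ∧ ∀ y ∈ Ω, ∀ η : Fin m → ℝ, η ⬝ᵥ ((H y)⁻¹ *ᵥ η) ≤ ε ^ 2 * ff φ μ y →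
      ∃ c, IsLift μ Ω 1 y η c := by
  obtain ⟨κ, hκ, hpos⟩ := K1c_pos hA hG
  obtain ⟨M, hM, hbound⟩ := K1c_bound hA hG
  obtain ⟨F, hF, hff⟩ := K1c_ff hA hG
  obtain ⟨δ, hδ, hsmall⟩ := K1c_small hA hG
  refine ⟨δ / (2 * M) * √(κ / F), by positivity, fun y hy η hη => ?_⟩
  have hε : (δ / (2 * M) * √(κ / F)) ^ 2 = δ ^ 2 / (4 * M ^ 2) * (κ / F) := by
    rw [mul_pow, Real.sq_sqrt (by positivity)]
    ring
  rw [hε] at hη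
  obtain ⟨g, hk⟩ := hA.cocompact y hy
  have hg1 : L g * L g⁻¹ = 1 := by rw [← map_mul, mul_inv_cancel, map_one]
  have hg2 : L g⁻¹ * L g = 1 := by rw [← map_mul, inv_mul_cancel, map_one]
  have hlam : 0 < lam g := hA.lam_pos g
  set v : Fin m → ℝ := (H y)⁻¹ *ᵥ η with hv
  have hHv : H y *ᵥ v = η := K1c_inv hG hy η
  set ζ : Fin m → ℝ := lam g ^ 2 • ((L g⁻¹)ᵀ *ᵥ η) with hζ
  have hw : H (L g *ᵥ y) *ᵥ (L g *ᵥ v) = ζ := by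
    rw [hG.eH g y hy, Matrix.smul_mulVec, Matrix.mulVec_mulVec, mul_assoc, hg2, mul_one,
      ← Matrix.mulVec_mulVec, hHv]
  have hww : (L g *ᵥ v) ⬝ᵥ ζ = lam g ^ 2 * (η ⬝ᵥ v) := by
    rw [hζ, dotProduct_smul, smul_eq_mul, Matrix.mulVec_transpose, dotProduct_comm,
      ← Matrix.dotProduct_mulVec, Matrix.mulVec_mulVec, hg2, Matrix.one_mulVec]
  have h1 : κ * ‖L g *ᵥ v‖ ^ 2 ≤ δ ^ 2 / (4 * M ^ 2) * κ := by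
    calc κ * ‖L g *ᵥ v‖ ^ 2 ≤ (L g *ᵥ v) ⬝ᵥ (H (L g *ᵥ y) *ᵥ (L g *ᵥ v)) := hpos _ hk _
      _ = lam g ^ 2 * (η ⬝ᵥ v) := by rw [hw, hww]
      _ ≤ lam g ^ 2 * (δ ^ 2 / (4 * M ^ 2) * (κ / F) * ff φ μ y) := by gcongr
      _ = δ ^ 2 / (4 * M ^ 2) * (κ / F) * ff φ μ (L g *ᵥ y) := by
          rw [ff_equiv hG g hy]
          ring
      _ ≤ δ ^ 2 / (4 * M ^ 2) * (κ / F) * F := by
          gcongr
          exact hff _ hk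
      _ = δ ^ 2 / (4 * M ^ 2) * κ := by
          field_simp
  have h2 : ‖L g *ᵥ v‖ ^ 2 ≤ (δ / (2 * M)) ^ 2 := by
    have h3 : ‖L g *ᵥ v‖ ^ 2 ≤ δ ^ 2 / (4 * M ^ 2) := by
      rw [mul_comm κ] at h1
      exact le_of_mul_le_mul_right h1 hκ
    calc ‖L g *ᵥ v‖ ^ 2 ≤ δ ^ 2 / (4 * M ^ 2) := h3
      _ = (δ / (2 * M)) ^ 2 := by ring
  have h3 : ‖L g *ᵥ v‖ ≤ δ / (2 * M) :=
    (sq_le_sq₀ (norm_nonneg _) (by positivity)).1 h2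
  have h4 : ‖ζ‖ < δ := by
    calc ‖ζ‖ = ‖H (L g *ᵥ y) *ᵥ (L g *ᵥ v)‖ := by rw [hw]
      _ ≤ M * ‖L g *ᵥ v‖ := hbound _ hk _
      _ ≤ M * (δ / (2 * M)) := by gcongr
      _ = δ / 2 := by field_simp
      _ < δ := by linarith
  obtain ⟨c, hc⟩ := hsmall _ hk ζ h4
  refine ⟨fun t => L g⁻¹ *ᵥ c t, ?_, fun t ht => hA.maps g⁻¹ _ (hc.mem t ht), ?_, fun t ht => ?_⟩
  · have hcont : Continuous fun x : Fin m → ℝ => L g⁻¹ *ᵥ x := by fun_prop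
    exact hcont.comp_continuousOn hc.cont
  · show L g⁻¹ *ᵥ c 0 = y
    rw [hc.zero, Matrix.mulVec_mulVec, hg2, Matrix.one_mulVec]
  · show μ (L g⁻¹ *ᵥ c t) = μ y + t • η
    have hmem : L g⁻¹ *ᵥ c t ∈ Ω := hA.maps g⁻¹ _ (hc.mem t ht)
    have h5 := hG.eμ g _ hmem
    rw [Matrix.mulVec_mulVec, hg1, Matrix.one_mulVec, hc.eq t ht, hG.eμ g y hy, hζ] at h5
    have h6 : lam g ^ 2 • ((L g⁻¹)ᵀ *ᵥ (μ y + t • η)) =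
        lam g ^ 2 • ((L g⁻¹)ᵀ *ᵥ μ (L g⁻¹ *ᵥ c t)) := by
      rw [← h5, Matrix.mulVec_add, Matrix.mulVec_smul, smul_add, smul_comm t]
    have h7 : (L g⁻¹)ᵀ *ᵥ (μ y + t • η) = (L g⁻¹)ᵀ *ᵥ μ (L g⁻¹ *ᵥ c t) :=
      smul_right_injective _ (pow_ne_zero 2 hlam.ne') h6
    have h8 : (L g)ᵀ * (L g⁻¹)ᵀ = 1 := by
      rw [← Matrix.transpose_mul, hg2, Matrix.transpose_one]
    have h9 := congrArg (fun x => (L g)ᵀ *ᵥ x) h7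
    rw [Matrix.mulVec_mulVec, Matrix.mulVec_mulVec, h8, Matrix.one_mulVec, Matrix.one_mulVec] at h9
    exact h9.symm

end TLK
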