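import Pool.Agent.TLK.K3c
import Pool.Agent.TLK.K1c
import Pool.Agent.TLK.H4

/-!
# [TLK-K4] the image `C = μ(Ω)` is a convex open cone without lines

`hall : ∀ y y' ∈ Ω, good μ Ω y y'`.
* `mu_inj`: `μ y = μ y'`: `good y y'` gives a lift `c` of direction `0` with `c 1 = y'`; the constant path `y` is a lift too; `lift_unique`: `y' = c 1 = y`.
* `image_convex`: `(1 - t) μ y + t μ y' = μ (c t)`, `t ∈ [0, 1]`.
* `image_open`: `μ` is open at every point of `Ω` (`HasStrictFDerivAt.map_nhds_eq_of_surj` / `_of_equiv`).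
* `image_noline`: suppose `x + t • v ∈ μ '' Ω` for all real `t`, `v ≠ 0`. Let `d t ∈ Ω` with `μ (d t) = x + t • v` (unique by `mu_inj`). For every real `a` and `b > 0`, `good (d a) (d (a + b))` gives a lift `c` from
  `d a` with direction `b • v`, and `c s = d (a + s b)` for `s ∈ [0, 1]` by `mu_inj`. So `F(t) = f (d t)` is strictly concave on every interval `[a, a + b]` (`lift_strict`), so on `ℝ`, and `F > 0`. A
  concave function on `ℝ` bounded below is constant: contradiction to strict concavity.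
  (E.g. `F (0) > (F (-t) + F t)/2`-type arguments: by concavity, for `F 1 ≠ F 0`, say slope `F 1 - F 0 = -s < 0`: `F (n) ≤ F 0 - n s → -∞`; if the slope is positive go to `-∞`;
  if `F 1 = F 0` then strict concavity gives `F (1/2) > F 1`, and the argument applies to the points `1/2, 1`.)
* `cone_of_potential`: `C = μ '' Ω`, `K' = μ '' K` (compact: `μ` is continuous on `Ω`); `S.dual hp g *ᵥ μ y = lam² (L g⁻¹)ᵀ μ y = μ (L g y)` (`eμ`).
-/

open scoped Matrix Topology

namespace TLK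

section
variable {m p : ℕ} {G : Type} [Group G] {L : G →* Matrix (Fin m) (Fin m) ℝ} {lam : G → ℝ}
  {Ω K : Set (Fin m → ℝ)} {φ : (Fin m → ℝ) → ℝ} {μ : (Fin m → ℝ) → Fin m → ℝ}
  {H : (Fin m → ℝ) → Matrix (Fin m) (Fin m) ℝ}

theorem mu_inj (hΩ : IsOpen Ω) (hG : HG L lam Ω φ μ H)
    (hall : ∀ y ∈ Ω, ∀ y' ∈ Ω, good μ Ω y y') : Set.InjOn μ Ω := by
  intro y hy y' hy' hμ
  obtain ⟨c, hc, hc1⟩ := hall y hy y' hy'
  have hc' : IsLift μ Ω 1 y (μ y' - μ y) (fun _ => y) := by
    refine ⟨continuousOn_const, fun t _ => hy, rfl, fun t _ => ?_⟩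
    rw [hμ, sub_self, smul_zero, add_zero]
  have h1 := lift_unique hΩ hG hc hc' 1 ⟨zero_le_one, le_rfl⟩
  rw [← hc1, h1]

theorem image_convex (hall : ∀ y ∈ Ω, ∀ y' ∈ Ω, good μ Ω y y') : Convex ℝ (μ '' Ω) := by
  rintro _ ⟨y, hy, rfl⟩ _ ⟨y', hy', rfl⟩ a b ha hb hab
  obtain ⟨c, hc, hc1⟩ := hall y hy y' hy'
  have hb1 : b ∈ Set.Icc (0 : ℝ) 1 := ⟨hb, by linarith⟩
  refine ⟨c b, hc.mem b hb1, ?_⟩
  rw [hc.eq b hb1, smul_sub]
  have h1 : a = 1 - b := by linarith
  rw [h1, sub_smul, one_smul]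
  abel

private theorem mulL_surj (hG : HG L lam Ω φ μ H) {y : Fin m → ℝ} (hy : y ∈ Ω) :
    (mulL (H y)).range = ⊤ := by
  have hinj : Function.Injective (Matrix.mulVecLin (H y)) := by
    rw [← LinearMap.ker_eq_bot, LinearMap.ker_eq_bot']
    intro v hv
    by_contra hv0
    have h1 := hG.pos y hy v hv0
    have h2 : H y *ᵥ v = 0 := hv
    rw [h2, dotProduct_zero] at h1
    exact lt_irrefl _ h1
  have hsurj := LinearMap.injective_iff_surjective.1 hinj
  rw [eq_top_iff]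
  intro v _
  obtain ⟨w, hw⟩ := hsurj v
  exact ⟨w, hw⟩

theorem image_open (hΩ : IsOpen Ω) (hG : HG L lam Ω φ μ H) : IsOpen (μ '' Ω) := by
  rw [isOpen_iff_mem_nhds]
  rintro _ ⟨y, hy, rfl⟩
  rw [← (hG.dμ y hy).map_nhds_eq_of_surj (mulL_surj hG hy)]
  exact Filter.image_mem_map (hΩ.mem_nhds hy)

/-- a positive function on `ℝ` is not strictly concave -/
private theorem not_strict_concave {F : ℝ → ℝ} (hF : ∀ t, 0 < F t)
    (key : ∀ a a' : ℝ, a < a' → ∀ s : ℝ, 0 < s → s < 1 →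
      (1 - s) * F a + s * F a' < F ((1 - s) * a + s * a')) : False := by
  have hA : ∀ a a' : ℝ, a < a' → F a' < F a → False := by
    intro a a' haa hFF
    have hd : 0 < F a - F a' := by linarith
    have ha := hF a
    have ha' := hF a'
    obtain ⟨N, hN⟩ : ∃ N, N = F a / (F a - F a') := ⟨_, rfl⟩
    have hN1 : 1 < N := by
      rw [hN, lt_div_iff₀ hd]
      linarith
    have hN0 : 0 < N := by linarith
    have h1 := key a (a + N * (a' - a)) (by
      have := mul_pos hN0 (sub_pos.2 haa)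
      linarith) (1 / N) (by positivity) (by
      rw [div_lt_one hN0]
      exact hN1)
    have h2 : (1 - 1 / N) * a + 1 / N * (a + N * (a' - a)) = a' := by
      field_simp
      ring
    rw [h2] at h1
    have h3 : 0 < 1 / N * F (a + N * (a' - a)) := mul_pos (by positivity) (hF _)
    have h4 : 1 / N * F a = F a - F a' := by
      rw [hN]
      field_simp
    have h5 : (1 - 1 / N) * F a = F a' := by
      rw [sub_mul, one_mul, h4]
      ring
    linarith
  have hB : ∀ a a' : ℝ, a < a' → F a < F a' → False := by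
    intro a a' haa hFF
    have hd : 0 < F a' - F a := by linarith
    have ha := hF a
    have ha' := hF a'
    obtain ⟨N, hN⟩ : ∃ N, N = F a' / (F a' - F a) := ⟨_, rfl⟩
    have hN1 : 1 < N := by
      rw [hN, lt_div_iff₀ hd]
      linarith
    have hN0 : 0 < N := by linarith
    have h1 := key (a' - N * (a' - a)) a' (by
      have := mul_pos hN0 (sub_pos.2 haa)
      linarith) (1 - 1 / N) (by
      rw [sub_pos, div_lt_one hN0]
      exact hN1) (by
      have : 0 < 1 / N := by positivity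
      linarith)
    have h2 : (1 - (1 - 1 / N)) * (a' - N * (a' - a)) + (1 - 1 / N) * a' = a := by
      field_simp
      ring
    rw [h2] at h1
    have h3 : 0 < (1 - (1 - 1 / N)) * F (a' - N * (a' - a)) := by
      have h6 : (1 - (1 - 1 / N)) = 1 / N := by ring
      rw [h6]
      exact mul_pos (by positivity) (hF _)
    have h4 : 1 / N * F a' = F a' - F a := by
      rw [hN]
      field_simp
    have h5 : (1 - 1 / N) * F a' = F a := by
      rw [sub_mul, one_mul, h4]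
      ring
    linarith
  rcases lt_trichotomy (F 0) (F 1) with h | h | h
  · exact hB 0 1 one_pos h
  · have h1 := key 0 1 one_pos (1 / 2) (by norm_num) (by norm_num)
    have h2 : (1 - 1 / 2 : ℝ) * 0 + 1 / 2 * 1 = 1 / 2 := by norm_num
    rw [h2, h] at h1
    exact hA (1 / 2) 1 (by norm_num) (by linarith)
  · exact hA 0 1 one_pos h

theorem image_noline (hΩ : IsOpen Ω) (hG : HG L lam Ω φ μ H) (hfp : ∀ y ∈ Ω, 0 < ff φ μ y)
    (hall : ∀ y ∈ Ω, ∀ y' ∈ Ω, good μ Ω y y') (x v : Fin m → ℝ) (hv : v ≠ 0) :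
    ∃ t : ℝ, x + t • v ∉ μ '' Ω := by
  by_contra hcon
  push Not at hcon
  choose d hd hμd using hcon
  refine not_strict_concave (F := fun t => ff φ μ (d t)) (fun t => hfp _ (hd t)) ?_
  intro a a' haa s hs hs1
  obtain ⟨c, hc, hc1⟩ := hall (d a) (hd a) (d a') (hd a')
  have hdir : μ (d a') - μ (d a) = (a' - a) • v := by
    rw [hμd, hμd, sub_smul]
    abel
  have hdir0 : μ (d a') - μ (d a) ≠ 0 := by
    rw [hdir]
    exact smul_ne_zero (sub_pos.2 haa).ne' hv
  have hcs : c s = d ((1 - s) * a + s * a') := by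
    have hsI : s ∈ Set.Icc (0 : ℝ) 1 := ⟨hs.le, hs1.le⟩
    refine mu_inj hΩ hG hall (hc.mem s hsI) (hd _) ?_
    rw [hc.eq s hsI, hdir, hμd, hμd, smul_smul, add_assoc, ← add_smul]
    congr 2
    ring
  have h01 : (0 : ℝ) ∈ Set.Icc (0 : ℝ) 1 := ⟨le_rfl, zero_le_one⟩
  have h11 : (1 : ℝ) ∈ Set.Icc (0 : ℝ) 1 := ⟨zero_le_one, le_rfl⟩
  have h1 := (lift_strict hΩ hG hdir0 hc).2 h01 h11 zero_ne_one
    (show (0 : ℝ) < 1 - s by linarith) hs (by ring)
  simp only [smul_eq_mul, mul_zero, mul_one, zero_add] at h1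
  rw [hc.zero, hc1, hcs] at h1
  exact h1

end

theorem Setting.cone_of_potential {n p m : ℕ} {G : Type} [Group G] (S : Setting n p m G)
    (hp : 0 < p) (hm : 0 < m) {Ω K : Set (Fin m → ℝ)} (hA : Act p S.L S.lam Ω K)
    {φ : (Fin m → ℝ) → ℝ} {μ : (Fin m → ℝ) → Fin m → ℝ}
    {H : (Fin m → ℝ) → Matrix (Fin m) (Fin m) ℝ} (hG : HG S.L S.lam Ω φ μ H) :
    ∃ C K' : Set (Fin m → ℝ), Coc (S.dual hp) C K' ∧ PC C := by
  have hfp := ff_pos hA hp hm hG
  obtain ⟨ε, hε, hu⟩ := unif hA hG hfp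
  have hall : ∀ y ∈ Ω, ∀ y' ∈ Ω, good μ Ω y y' := fun y hy y' hy' =>
    good_all hA.isOpen hA.conn hG hfp hε hu hy hy'
  have heq : ∀ g, ∀ y ∈ Ω, S.dual hp g *ᵥ μ y = μ (S.L g *ᵥ y) := by
    intro g y hy
    rw [hG.eμ g y hy, S.dual_apply, Matrix.smul_mulVec]
  refine ⟨μ '' Ω, μ '' K, ⟨image_open hA.isOpen hG, hA.nonempty.image μ, ?_, ?_, Set.image_mono hA.subset, ?_⟩,
    ⟨image_open hA.isOpen hG, hA.nonempty.image μ, image_convex hall,
      image_noline hA.isOpen hG hfp hall⟩⟩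
  · rintro g _ ⟨y, hy, rfl⟩
    exact ⟨S.L g *ᵥ y, hA.maps g y hy, (heq g y hy).symm⟩
  · exact hA.compact.image_of_continuousOn fun y hy =>
      (hG.dμ y (hA.subset hy)).hasFDerivAt.continuousAt.continuousWithinAt
  · rintro _ ⟨y, hy, rfl⟩
    obtain ⟨g, hg⟩ := hA.cocompact y hy
    exact ⟨g, _, hg, (heq g y hy).symm⟩

end TLK
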