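import Pool.Agent.TLK.P3
import Pool.Agent.TLK.C6c
import Pool.Agent.TLK.C7
import Pool.Agent.TLK.A3
import Pool.Agent.TLK.A6d
import Pool.Agent.TLK.A7c

/-!
# [TLK-P4] assembly: `L` is diagonalizable over `ℝ` with positive eigenvalues

`diag_undual`: `Q ρ(a) = diag(c a) Q` for `ρ = S.dual hp`, i.e. `lam² Q (L a⁻¹)ᵀ = diag(c a) Q`. With `Q Q' = Q' Q = 1`: `(L a⁻¹)ᵀ = lam⁻² Q' diag(c a) Q`, so
(transpose, replace `a` by `a⁻¹`; or invert) `L a = lam² Qᵀ diag(c a)⁻¹ Q'ᵀ`. Put `P = Q'ᵀ`, `P' = Qᵀ` (`P * P' = (Q Q')ᵀ = 1`), `χ a i = lam² / c a i > 0`: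
`P * L a = diag(χ a) * P`. (Direct: `L a * (lam⁻² • Qᵀ diag(c a) Q'ᵀ) = 1` because `(L a⁻¹) = (…)ᵀ`.)
Density: `∏_i χ a i = det (L a)`, `∏ χ * lam^(2p) = 1` (`det_rel`), so `2 p log lam = - ∑ log χ_i = - 2 m log lam + ∑ log c_i`, i.e.
`2 (m + p) log lam = ∑ log c_i`. Given `d`, put `Λ = - (∑ d_i)/(2p)` and choose `a` with `|log c_i - (2 Λ - d_i)| ≤ B` for all `i`. As `∑ (2Λ - d_i) = 2 (m+p) Λ`:
`|log lam - Λ| ≤ m B / (2 (m+p)) ≤ B`, and `log χ_i - d_i = 2 (log lam - Λ) - (log c_i - (2Λ - d_i))` has absolute value `≤ 3 B`.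
-/

open scoped Matrix

namespace TLK

variable {n p m : ℕ} {G : Type} [Group G]

theorem Setting.diag_undual (S : Setting n p m G) (hp : 0 < p) {Q Q' : Matrix (Fin m) (Fin m) ℝ}
    {c : G → Fin m → ℝ} (h : Diag (S.dual hp) Q Q' c) :
    ∃ χ : G → Fin m → ℝ, Diag S.L Q'ᵀ Qᵀ χ := by
  have hlp : ∀ a, 0 < S.lam a := S.lam_pos
  -- the matrix identity
  have hkey : ∀ a, (S.L a⁻¹)ᵀ = (S.lam a ^ 2)⁻¹ • (Q' * Matrix.diagonal (c a) * Q) := by
    intro a
    have h1 := h.eq a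
    rw [S.dual_apply, Matrix.mul_smul] at h1
    have h2 : Q' * (S.lam a ^ 2 • (Q * (S.L a⁻¹)ᵀ)) = Q' * (Matrix.diagonal (c a) * Q) := by rw [h1]
    rw [Matrix.mul_smul, ← Matrix.mul_assoc, h.left, Matrix.one_mul, ← Matrix.mul_assoc] at h2
    rw [← h2, smul_smul, inv_mul_cancel₀ (pow_pos (hlp a) 2).ne', one_smul]
  have hLinv : ∀ a, S.L a⁻¹ = (S.lam a ^ 2)⁻¹ • (Qᵀ * Matrix.diagonal (c a) * Q'ᵀ) := by
    intro a
    have h1 := congrArg Matrix.transpose (hkey a)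
    rw [Matrix.transpose_transpose, Matrix.transpose_smul, Matrix.transpose_mul, Matrix.transpose_mul,
      Matrix.diagonal_transpose, ← Matrix.mul_assoc] at h1
    exact h1
  have hr : Q'ᵀ * Qᵀ = 1 := by rw [← Matrix.transpose_mul, h.right, Matrix.transpose_one]
  have hl : Qᵀ * Q'ᵀ = 1 := by rw [← Matrix.transpose_mul, h.left, Matrix.transpose_one]
  refine ⟨fun a i => S.lam a ^ 2 / c a i, hr, hl, fun a i => div_pos (pow_pos (hlp a) 2) (h.pos a i), ?_, ?_⟩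
  · intro a
    have h1 : S.L a * S.L a⁻¹ = 1 := by rw [← map_mul, mul_inv_cancel, map_one]
    have h2 : S.L a⁻¹ * S.L a = 1 := by rw [← map_mul, inv_mul_cancel, map_one]
    -- diag(χ) Q'ᵀ L(a⁻¹) = Q'ᵀ
    have h3 : Matrix.diagonal (fun i => S.lam a ^ 2 / c a i) * Q'ᵀ * S.L a⁻¹ = Q'ᵀ := by
      rw [hLinv a, Matrix.mul_smul]
      have h4 : Matrix.diagonal (fun i => S.lam a ^ 2 / c a i) * Q'ᵀ * (Qᵀ * Matrix.diagonal (c a) * Q'ᵀ) =
          Matrix.diagonal (fun i => S.lam a ^ 2 / c a i) * (Q'ᵀ * Qᵀ) * Matrix.diagonal (c a) * Q'ᵀ := by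
        simp only [Matrix.mul_assoc]
      rw [h4, hr, Matrix.mul_one, Matrix.diagonal_mul_diagonal]
      have h5 : (fun i => S.lam a ^ 2 / c a i * c a i) = fun _ => S.lam a ^ 2 := by
        funext i
        exact div_mul_cancel₀ _ (h.pos a i).ne'
      rw [h5]
      have h6 : Matrix.diagonal (fun _ : Fin m => S.lam a ^ 2) = (S.lam a ^ 2) • (1 : Matrix (Fin m) (Fin m) ℝ) := by
        rw [Matrix.smul_one_eq_diagonal]
      rw [h6, Matrix.smul_mul, Matrix.one_mul, smul_smul, inv_mul_cancel₀ (pow_pos (hlp a) 2).ne', one_smul]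
    calc Q'ᵀ * S.L a = (Matrix.diagonal (fun i => S.lam a ^ 2 / c a i) * Q'ᵀ * S.L a⁻¹) * S.L a := by rw [h3]
      _ = Matrix.diagonal (fun i => S.lam a ^ 2 / c a i) * Q'ᵀ * (S.L a⁻¹ * S.L a) := by
          simp only [Matrix.mul_assoc]
      _ = _ := by rw [h2, Matrix.mul_one]
  · -- density
    obtain ⟨B, hB⟩ := h.dense
    -- relation between `lam` and `c`
    have hlog : ∀ a, 2 * ((m : ℝ) + p) * Real.log (S.lam a) = ∑ i, Real.log (c a i) := by
      intro a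
      have h1 : |(S.dual hp a).det| = S.lam a ^ (2 * (m + p)) := S.dual_det hp a
      have h2 : (S.dual hp a).det = ∏ i, c a i := by
        have h3 : (Q * S.dual hp a).det = (Matrix.diagonal (c a) * Q).det := by rw [h.eq a]
        rw [Matrix.det_mul, Matrix.det_mul, Matrix.det_diagonal, mul_comm] at h3
        have h4 : Q.det ≠ 0 := by
          intro h0
          have := congrArg Matrix.det h.right
          rw [Matrix.det_mul, h0, zero_mul, Matrix.det_one] at this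
          exact zero_ne_one this
        exact mul_right_cancel₀ h4 h3
      rw [h2, abs_of_pos (Finset.prod_pos fun i _ => h.pos a i)] at h1
      have h5 := congrArg Real.log h1
      rw [Real.log_prod (fun i _ => (h.pos a i).ne'), Real.log_pow] at h5
      rw [h5]
      push_cast
      ring
    refine ⟨3 * |B|, fun d => ?_⟩
    set Λ : ℝ := -(∑ i, d i) / (2 * p) with hΛ
    have hp' : (0 : ℝ) < p := by exact_mod_cast hp
    obtain ⟨a, ha⟩ := hB (fun i => 2 * Λ - d i)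
    refine ⟨a, fun i => ?_⟩
    have hsum : ∑ i, (2 * Λ - d i) = 2 * ((m : ℝ) + p) * Λ := by
      rw [Finset.sum_sub_distrib]
      simp only [Finset.sum_const, Finset.card_univ, Fintype.card_fin, nsmul_eq_mul]
      have : ∑ i, d i = -(2 * p) * Λ := by
        rw [hΛ]; field_simp
      rw [this]; ring
    have h1 : |2 * ((m : ℝ) + p) * (Real.log (S.lam a) - Λ)| ≤ m * |B| := by
      rw [mul_sub, hlog a, ← hsum, ← Finset.sum_sub_distrib]
      refine (Finset.abs_sum_le_sum_abs _ _).trans ?_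
      refine (Finset.sum_le_sum fun i _ => (ha i).trans (le_abs_self B)).trans ?_
      simp
    have h2 : |Real.log (S.lam a) - Λ| ≤ |B| := by
      rw [abs_mul, abs_of_pos (by positivity : (0 : ℝ) < 2 * ((m : ℝ) + p))] at h1
      have h3 : (m : ℝ) * |B| ≤ 2 * ((m : ℝ) + p) * |B| := by
        have := abs_nonneg B
        nlinarith [(Nat.cast_nonneg m : (0 : ℝ) ≤ m)]
      have h4 := h1.trans h3
      exact le_of_mul_le_mul_left h4 (by positivity)
    have h3 : Real.log (S.lam a ^ 2 / c a i) = 2 * Real.log (S.lam a) - Real.log (c a i) := by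
      rw [Real.log_div (pow_pos (hlp a) 2).ne' (h.pos a i).ne', Real.log_pow]
      push_cast
      ring
    show |Real.log (S.lam a ^ 2 / c a i) - d i| ≤ 3 * |B|
    rw [h3]
    have h4 := (ha i).trans (le_abs_self B)
    have h5 : 2 * Real.log (S.lam a) - Real.log (c a i) - d i =
        2 * (Real.log (S.lam a) - Λ) - (Real.log (c a i) - (2 * Λ - d i)) := by ring
    rw [h5]
    rw [abs_le] at *
    constructor <;> linarith [h2.1, h2.2, h4.1, h4.2]

theorem Setting.diagH1 (S : Setting n p m G) (hp : 0 < p) (hm : 0 < m) {Ω K : Set (Fin m → ℝ)}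
    (h : Coc S.L Ω K) (hC : PC Ω) :
    ∃ (P P' : Matrix (Fin m) (Fin m) ℝ) (χ : G → Fin m → ℝ), Diag S.L P P' χ ∧
      ∀ x, x ∈ Ω ↔ ∀ i, 0 < (P *ᵥ x) i := by
  have hB : S.Bdd := scaling h hC
  obtain ⟨T, TP, TV, hT⟩ := S.exists_T hp hm hB
  obtain ⟨k, t, π, hS, hcomm⟩ := spec_of_comm h hC hT.commV
  have hdt : ∀ (k : ℕ) (π : Fin k → Matrix (Fin m) (Fin m) ℝ), Idem π →
      ∀ X : Matrix (Fin m) (Fin m) ℝ, (∀ i, π i * X = X * π i) → ∏ i, dt (π i) X = X.det :=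
    fun k π h1 X h2 => dt_prod h1 h2
  have hr := main_lemma h hC hS.toIdem hcomm (S.fin hp hB hdt hT hS) (S.star hp hB hdt hT hS)
  exact orthant h hC hS.toIdem hcomm hr

theorem Setting.diagH2 (S : Setting n p m G) (hp : 0 < p) (hm : 0 < m) {C K : Set (Fin m → ℝ)}
    (h : Coc (S.dual hp) C K) (hC : PC C) :
    ∃ (P P' : Matrix (Fin m) (Fin m) ℝ) (χ : G → Fin m → ℝ), Diag S.L P P' χ := by
  have hB : S.Bdd := S.bdd_of_dual hp h hC
  obtain ⟨T, TP, TV, hT⟩ := S.exists_T hp hm hB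
  have hc : ∀ a, TVᵀ * S.dual hp a = S.dual hp a * TVᵀ := by
    intro a
    rw [S.dual_apply, Matrix.mul_smul, Matrix.smul_mul, ← Matrix.transpose_mul, ← Matrix.transpose_mul,
      hT.commV]
  obtain ⟨k, t, π, hS, hcomm⟩ := spec_of_comm h hC hc
  have hS' : Spec TV t (fun i => (π i)ᵀ) := spec_transpose hS
  have hdt : ∀ (k : ℕ) (π : Fin k → Matrix (Fin m) (Fin m) ℝ), Idem π →
      ∀ X : Matrix (Fin m) (Fin m) ℝ, (∀ i, π i * X = X * π i) → ∏ i, dt (π i) X = X.det :=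
    fun k π h1 X h2 => dt_prod h1 h2
  have hcomm' : ∀ i a, (π i)ᵀ * S.L a = S.L a * (π i)ᵀ := fun i a =>
    (hS'.comm (S.L a) (hT.commV a).symm i).symm
  have hf := S.fin_dual hp hS'.toIdem hcomm' (S.fin hp hB hdt hT hS')
  have hst := S.star_dual hp hS'.toIdem hcomm' (S.star hp hB hdt hT hS')
  have hr := main_lemma h hC hS.toIdem hcomm (by simpa only [Matrix.transpose_transpose] using hf)
    (by simpa only [Matrix.transpose_transpose] using hst)
  obtain ⟨Q, Q', c, hQ, -⟩ := orthant h hC hS.toIdem hcomm hr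
  obtain ⟨χ, hχ⟩ := S.diag_undual hp hQ
  exact ⟨_, _, χ, hχ⟩

end TLK
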