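import Pool.Agent.TLK.F2
import Pool.Agent.TLK.K4
import Pool.Agent.TLK.P4
import Pool.Agent.TLK.H1

/-!
# Assembly of the geometric part: in both cases `L` is diagonal and `Ω` is an orthant
-/

open scoped Matrix

namespace TLK

theorem Setting.diag_all {n p m : ℕ} {G : Type} [Group G] (S : Setting n p m G) (hp : 0 < p)
    (hm : 0 < m) {Ω K : Set (Fin m → ℝ)} (hA : Act p S.L S.lam Ω K)
    (hH : (Convex ℝ Ω ∧ ∀ x v : Fin m → ℝ, v ≠ 0 → ∃ t : ℝ, x + t • v ∉ Ω) ∨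
      ∃ φ : (Fin m → ℝ) → ℝ, ContDiffOn ℝ 2 φ Ω ∧
        (∀ y ∈ Ω, ∀ v : Fin m → ℝ, v ≠ 0 → 0 < fderiv ℝ (fderiv ℝ φ) y v v) ∧
        ∀ g, ∀ y ∈ Ω, φ (S.L g *ᵥ y) = S.lam g ^ 2 * φ y) :
    ∃ (P P' : Matrix (Fin m) (Fin m) ℝ) (χ : G → Fin m → ℝ), Diag S.L P P' χ ∧
      ∀ x, x ∈ Ω ↔ ∀ i, 0 < (P *ᵥ x) i := by
  rcases hH with ⟨hc, hl⟩ | ⟨φ, h1, h2, h3⟩
  · exact S.diagH1 hp hm hA.toCoc ⟨hA.isOpen, hA.nonempty, hc, hl⟩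
  · obtain ⟨μ, H, hG⟩ := exists_HG hA.isOpen hA.maps h1 h2 h3
    obtain ⟨C, K', hC, hPC⟩ := S.cone_of_potential hp hm hA hG
    obtain ⟨P, P', χ, hD⟩ := S.diagH2 hp hm hC hPC
    obtain ⟨P1, P1', hD1, hΩ⟩ := orthantH2 hp hA hG hD
    exact ⟨P1, P1', χ, hD1, hΩ⟩

end TLK
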