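import Pool.Agent.TLK.H0

/-!
# Lifts of segments through `μ` (definition only)
-/

open scoped Matrix

namespace TLK

/-- `c : [0, T] → Ω` is a continuous lift through `μ` of the segment `t ↦ μ y + t η`, starting at `y` -/
structure IsLift {m : ℕ} (μ : (Fin m → ℝ) → Fin m → ℝ) (Ω : Set (Fin m → ℝ)) (T : ℝ)
    (y η : Fin m → ℝ) (c : ℝ → Fin m → ℝ) : Prop where
  cont : ContinuousOn c (Set.Icc 0 T)
  mem : ∀ t ∈ Set.Icc 0 T, c t ∈ Ω
  zero : c 0 = y
  eq : ∀ t ∈ Set.Icc 0 T, μ (c t) = μ y + t • η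

end TLK
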