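import Pool.Agent.TLK.K0

/-!
# [TLK-K1a] local injectivity of `μ`, uniqueness of lifts

PROOF of `loc_inj`: `H y` is injective (`pos`: `H y v = 0` gives `v ⬝ H y v = 0`), so it is invertible (finite dimension); the strict derivative
of `μ` at `y` is invertible: `HasStrictFDerivAt.toOpenPartialHomeomorph` (inverse function theorem) is injective on its source, or
`HasStrictFDerivAt.injOn…` (antilipschitz); `Ω` is open.

PROOF of `lift_unique`: the set `{t ∈ [0,T] | c t = c' t}` is closed in `[0, T]`, contains `0`, and is open in `[0, T]`: if `c t = c' t = x`, both `c s`, `c' s`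
are near `x` for `s` near `t` and have the same image under `μ`, which is injective near `x`. `[0, T]` is preconnected.
(Or: `IsClosed.Icc_subset_of_forall_exists_gt`, or `IsSeparatedMap` / `IsLocallyInjective` lemmas of Mathlib on the subtype.)
-/

open scoped Matrix Topology

namespace TLK

variable {m p : ℕ} {G : Type} [Group G] {L : G →* Matrix (Fin m) (Fin m) ℝ} {lam : G → ℝ}
  {Ω K : Set (Fin m → ℝ)} {φ : (Fin m → ℝ) → ℝ} {μ : (Fin m → ℝ) → Fin m → ℝ}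
  {H : (Fin m → ℝ) → Matrix (Fin m) (Fin m) ℝ}

theorem K1a_inj (hG : HG L lam Ω φ μ H) {y : Fin m → ℝ} (hy : y ∈ Ω) :
    Function.Injective (mulL (H y)) := by
  rw [injective_iff_map_eq_zero]
  intro v hv
  rw [mulL_apply] at hv
  by_contra h0
  have h1 := hG.pos y hy v h0
  rw [hv, dotProduct_zero] at h1
  exact lt_irrefl _ h1

theorem K1a_equiv (hG : HG L lam Ω φ μ H) {y : Fin m → ℝ} (hy : y ∈ Ω) :
    ∃ e : (Fin m → ℝ) ≃L[ℝ] (Fin m → ℝ), (e : (Fin m → ℝ) →L[ℝ] (Fin m → ℝ)) = mulL (H y) := by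
  refine ⟨(LinearEquiv.ofInjectiveEndo (mulL (H y) : (Fin m → ℝ) →ₗ[ℝ] (Fin m → ℝ))
    (K1a_inj hG hy)).toContinuousLinearEquiv, ?_⟩
  ext v
  rfl

theorem loc_inj (hΩ : IsOpen Ω) (hG : HG L lam Ω φ μ H) {y : Fin m → ℝ} (hy : y ∈ Ω) :
    ∃ V ∈ 𝓝 y, V ⊆ Ω ∧ Set.InjOn μ V := by
  obtain ⟨e, he⟩ := K1a_equiv hG hy
  have h1 : HasStrictFDerivAt μ (e : (Fin m → ℝ) →L[ℝ] (Fin m → ℝ)) y := by
    rw [he]
    exact hG.dμ y hy
  refine ⟨(h1.toOpenPartialHomeomorph μ).source ∩ Ω, ?_, Set.inter_subset_right, ?_⟩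
  · exact Filter.inter_mem ((h1.toOpenPartialHomeomorph μ).open_source.mem_nhds
      h1.mem_toOpenPartialHomeomorph_source) (hΩ.mem_nhds hy)
  · exact ((h1.toOpenPartialHomeomorph μ).injOn).mono Set.inter_subset_left

theorem lift_unique (hΩ : IsOpen Ω) (hG : HG L lam Ω φ μ H) {T : ℝ} {y η : Fin m → ℝ}
    {c c' : ℝ → Fin m → ℝ} (hc : IsLift μ Ω T y η c) (hc' : IsLift μ Ω T y η c') :
    ∀ t ∈ Set.Icc 0 T, c t = c' t := by
  have hcl : IsClosed ({t : ℝ | c t = c' t} ∩ Set.Icc 0 T) := by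
    have h1 := (hc.cont.prodMk hc'.cont).preimage_isClosed_of_isClosed isClosed_Icc
      (isClosed_diagonal (X := Fin m → ℝ))
    rw [Set.inter_comm] at h1
    exact h1
  have h0 : (0 : ℝ) ∈ {t : ℝ | c t = c' t} := hc.zero.trans hc'.zero.symm
  refine hcl.Icc_subset_of_forall_exists_gt h0 ?_
  rintro x ⟨hx, hx0, hxT⟩ b hb
  have hxI : x ∈ Set.Icc 0 T := ⟨hx0, hxT.le⟩
  obtain ⟨V, hV, -, hinj⟩ := loc_inj hΩ hG (hc.mem x hxI)
  have h1 : ∀ᶠ s in 𝓝[Set.Icc 0 T] x, c s ∈ V := (hc.cont x hxI).eventually hV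
  have h2 : ∀ᶠ s in 𝓝[Set.Icc 0 T] x, c' s ∈ V :=
    (hc'.cont x hxI).eventually (by
      have h3 : c x = c' x := hx
      rw [← h3]
      exact hV)
  have h3 : 𝓝[>] x ≤ 𝓝[Set.Icc 0 T] x :=
    nhdsWithin_le_of_mem (Icc_mem_nhdsGT_of_mem ⟨hx0, hxT⟩)
  have h4 : ∀ᶠ s in 𝓝[>] x, s ∈ Set.Icc 0 T := Icc_mem_nhdsGT_of_mem ⟨hx0, hxT⟩
  have h5 : ∀ᶠ s in 𝓝[>] x, s ∈ Set.Ioc x b := Ioc_mem_nhdsGT hb
  obtain ⟨s, hs1, hs2, hs3, hs4⟩ := ((h1.filter_mono h3).and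
    ((h2.filter_mono h3).and (h4.and h5))).exists
  refine ⟨s, hinj hs1 hs2 ?_, hs4⟩
  rw [hc.eq s hs3, hc'.eq s hs3]

end TLK
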