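import Pool.Agent.TLK.K1a

/-!
# [TLK-K1b] stability of lifts

PROOF of `stable`. It suffices to treat `T = 1` (if `T = 0` take `c' = fun _ => z.1`, and `V ∈ 𝓝 (c 0) = 𝓝 y`; if `T > 0` replace `η` by `T • η`, `c` by `t ↦ c (T t)`,
the map `(z, ζ) ↦ (z, T • ζ)` is continuous).
Mathlib: `IsLocalHomeomorph.exists_lift_nhds` (file `Mathlib/Topology/Homotopy/Lifting.lean`): for a local homeomorphism `p : E → X`, `f : C(I × A, X)`, a
set-theoretic lift `g : I × A → E` of `f`, continuous on `{0} × A` and on `I × {a}`, there are `N ∈ 𝓝 a` and `g'` continuous on `I × N`, `p ∘ g' = f`, `g' = g` on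
`{0} × A ∪ I × {a}`. To have a global set-theoretic lift use `E = Ω ⊕ X` (`Ω` as a subtype, `X = Fin m → ℝ`), `p = Sum.elim (fun z => μ z) id`, a local
homeomorphism (`Sum`: check with `IsLocalHomeomorph.mk` / open inclusions; `μ` restricted to `Ω` is a local homeomorphism by
the inverse function theorem, `HasStrictFDerivAt.toOpenPartialHomeomorph`, the derivative `H y` being invertible).
`A = Ω × X`, `a = (y, η)`, `f (t, (z, ζ)) = μ z + t • ζ`, `g (0, (z, ζ)) = inl z`, `g (t, a) = inl (c t)`, `g (t, b) = inr (f (t, b))` otherwise. For `b ∈ N` the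
path `t ↦ g' (t, b)` is continuous and starts in the clopen set `range inl`, so it stays there and gives a lift `c_b`.
`b ↦ c_b 1` is continuous on `N` and equals `c 1` at `a`, so it is in `V` for `b` near `a`. Finally `Ω × X` is open in `X × X`: a neighbourhood of
`a` in `A` gives a neighbourhood of `(y, η)` in `X × X`.
(Alternative without this lemma: cover `[0, 1]` by finitely many small intervals and use local inverses of `μ`, by induction.)

PROOF of `lift_tendsto`: for every `V ∈ 𝓝 (c T)`, `stable` gives for large `n` a lift `c'` on `[0, T]` from `z n` with direction `ζ n` and `c' T ∈ V`; by `lift_unique` (`cn n`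
restricted to `[0, T]`) `cn n T = c' T ∈ V`.
-/

open scoped Matrix Topology

namespace TLK

variable {m p : ℕ} {G : Type} [Group G] {L : G →* Matrix (Fin m) (Fin m) ℝ} {lam : G → ℝ}
  {Ω K : Set (Fin m → ℝ)} {φ : (Fin m → ℝ) → ℝ} {μ : (Fin m → ℝ) → Fin m → ℝ}
  {H : (Fin m → ℝ) → Matrix (Fin m) (Fin m) ℝ}

/-- local inverse of `μ` -/
theorem K1b_loc (hΩ : IsOpen Ω) (hG : HG L lam Ω φ μ H) {y : Fin m → ℝ} (hy : y ∈ Ω) :
    ∃ e : OpenPartialHomeomorph (Fin m → ℝ) (Fin m → ℝ), y ∈ e.source ∧ e.source ⊆ Ω ∧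
      ∀ x ∈ e.source, e x = μ x := by
  classical
  have hinj : Function.Injective (Matrix.mulVecLin (H y)) := by
    rw [injective_iff_map_eq_zero]
    intro v hv
    by_contra hne
    have h1 := hG.pos y hy v hne
    have h2 : H y *ᵥ v = 0 := hv
    rw [h2, dotProduct_zero] at h1
    exact lt_irrefl _ h1
  let A : (Fin m → ℝ) ≃L[ℝ] (Fin m → ℝ) :=
    (LinearEquiv.ofInjectiveEndo (Matrix.mulVecLin (H y)) hinj).toContinuousLinearEquiv
  have hA : (A : (Fin m → ℝ) →L[ℝ] (Fin m → ℝ)) = mulL (H y) := by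
    ext v i
    rfl
  have hd : HasStrictFDerivAt μ (A : (Fin m → ℝ) →L[ℝ] (Fin m → ℝ)) y := by
    rw [hA]; exact hG.dμ y hy
  refine ⟨(hd.toOpenPartialHomeomorph μ).restrOpen Ω hΩ, ?_, ?_, ?_⟩
  · rw [OpenPartialHomeomorph.restrOpen_source]
    exact ⟨hd.mem_toOpenPartialHomeomorph_source, hy⟩
  · rw [OpenPartialHomeomorph.restrOpen_source]
    exact Set.inter_subset_right
  · intro x _
    rw [OpenPartialHomeomorph.coe_restrOpen, HasStrictFDerivAt.toOpenPartialHomeomorph_coe]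

/-- the property to be propagated along the lift -/
def K1b_P {m : ℕ} (μ : (Fin m → ℝ) → Fin m → ℝ) (Ω : Set (Fin m → ℝ)) (y η : Fin m → ℝ)
    (c : ℝ → Fin m → ℝ) (t : ℝ) : Prop :=
  ∀ V ∈ 𝓝 (c t), ∀ᶠ z in 𝓝 (y, η), ∃ c', IsLift μ Ω t z.1 z.2 c' ∧ c' t ∈ V

theorem K1b_step (hΩ : IsOpen Ω) (hG : HG L lam Ω φ μ H) {T : ℝ} {y η : Fin m → ℝ}
    {c : ℝ → Fin m → ℝ} (hc : IsLift μ Ω T y η c) {t0 : ℝ} (ht0 : t0 ∈ Set.Icc 0 T) :
    ∃ δ > 0, ∀ s t, 0 ≤ s → s ≤ t → t ≤ T → |s - t0| < δ → |t - t0| < δ →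
      K1b_P μ Ω y η c s → K1b_P μ Ω y η c t := by
  obtain ⟨e, he0, hes, hee⟩ := K1b_loc hΩ hG (hc.mem t0 ht0)
  have hyΩ : y ∈ Ω := by
    rw [← hc.zero]; exact hc.mem 0 ⟨le_refl _, ht0.1.trans ht0.2⟩
  have hT0 : 0 ≤ T := ht0.1.trans ht0.2
  -- continuity of μ at y
  have hμy : ContinuousAt μ y := (hG.dμ y hyΩ).continuousAt
  have htar : μ (c t0) ∈ e.target := by
    rw [← hee _ he0]; exact e.map_source he0
  obtain ⟨r, hr, hball⟩ := Metric.isOpen_iff.1 e.open_target _ htar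
  -- δ from continuity
  have hcont : ContinuousWithinAt c (Set.Icc 0 T) t0 := hc.cont t0 ht0
  have h1 : ∀ᶠ τ in 𝓝[Set.Icc 0 T] t0, c τ ∈ e.source :=
    hcont (e.open_source.mem_nhds he0)
  have hcm : ContinuousWithinAt (fun τ => μ (c τ)) (Set.Icc 0 T) t0 := by
    have h2 : ContinuousWithinAt (fun τ : ℝ => μ y + τ • η) (Set.Icc 0 T) t0 := by
      apply Continuous.continuousWithinAt
      fun_prop
    exact h2.congr (fun τ hτ => hc.eq τ hτ) (hc.eq t0 ht0)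
  have h2 : ∀ᶠ τ in 𝓝[Set.Icc 0 T] t0, μ (c τ) ∈ Metric.ball (μ (c t0)) (r / 2) :=
    hcm (Metric.ball_mem_nhds _ (half_pos hr))
  obtain ⟨δ, hδ, hδ'⟩ := (Metric.nhdsWithin_basis_ball.eventually_iff).1 (h1.and h2)
  refine ⟨δ, hδ, ?_⟩
  intro s t hs hst htT hsd htd hP V hV
  have hmid : ∀ τ ∈ Set.Icc s t, c τ ∈ e.source ∧ μ (c τ) ∈ Metric.ball (μ (c t0)) (r / 2) := by
    intro τ hτ
    refine hδ' ⟨?_, ⟨hs.trans hτ.1, hτ.2.trans htT⟩⟩
    rw [Metric.mem_ball, Real.dist_eq]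
    rw [abs_lt] at hsd htd ⊢
    exact ⟨by linarith [hτ.1], by linarith [hτ.2]⟩
  have hsI : s ∈ Set.Icc s t := ⟨le_refl _, hst⟩
  have htI : t ∈ Set.Icc s t := ⟨hst, le_refl _⟩
  -- (a) lifts up to s ending in the source of e
  have ha := hP e.source (e.open_source.mem_nhds (hmid s hsI).1)
  -- (b) the segment stays in the ball
  have hb : ∀ᶠ z : (Fin m → ℝ) × (Fin m → ℝ) in 𝓝 (y, η), ∀ τ ∈ Set.Icc s t,
      μ z.1 + τ • z.2 ∈ Metric.ball (μ (c t0)) r := by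
    have hb1 : ∀ᶠ z : (Fin m → ℝ) × (Fin m → ℝ) in 𝓝 (y, η), dist (μ z.1) (μ y) < r / 4 := by
      have : ContinuousAt (fun z : (Fin m → ℝ) × (Fin m → ℝ) => μ z.1) (y, η) :=
        ContinuousAt.comp (f := fun z : (Fin m → ℝ) × (Fin m → ℝ) => z.1) (g := μ) hμy
          continuous_fst.continuousAt
      exact this (Metric.ball_mem_nhds _ (by linarith))
    have hb2 : ∀ᶠ z : (Fin m → ℝ) × (Fin m → ℝ) in 𝓝 (y, η), dist z.2 η < r / (4 * (T + 1)) := by
      have : ContinuousAt (fun z : (Fin m → ℝ) × (Fin m → ℝ) => z.2) (y, η) :=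
        continuous_snd.continuousAt
      exact this (Metric.ball_mem_nhds _ (by positivity))
    filter_upwards [hb1, hb2] with z hz1 hz2 τ hτ
    have hτ0 : 0 ≤ τ := hs.trans hτ.1
    have hτT : τ ≤ T := hτ.2.trans htT
    have hτI : τ ∈ Set.Icc 0 T := ⟨hτ0, hτT⟩
    have h3 := (hmid τ hτ).2
    rw [Metric.mem_ball, hc.eq τ hτI] at h3
    rw [Metric.mem_ball]
    have h4 : dist (μ z.1 + τ • z.2) (μ y + τ • η) ≤ dist (μ z.1) (μ y) + dist (τ • z.2) (τ • η) :=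
      dist_add_add_le _ _ _ _
    have h5 : dist (τ • z.2) (τ • η) = τ * dist z.2 η := by
      rw [dist_smul₀, Real.norm_eq_abs, abs_of_nonneg hτ0]
    have h6 : τ * dist z.2 η ≤ T * dist z.2 η :=
      mul_le_mul_of_nonneg_right hτT dist_nonneg
    have h7 : T * dist z.2 η ≤ (T + 1) * dist z.2 η :=
      mul_le_mul_of_nonneg_right (by linarith) dist_nonneg
    have h8 : (T + 1) * dist z.2 η ≤ r / 4 := by
      have h9 : (T + 1) * dist z.2 η ≤ (T + 1) * (r / (4 * (T + 1))) :=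
        mul_le_mul_of_nonneg_left hz2.le (by linarith)
      have h10 : (T + 1) * (r / (4 * (T + 1))) = r / 4 := by
        field_simp
      linarith
    have h11 := dist_triangle (μ z.1 + τ • z.2) (μ y + τ • η) (μ (c t0))
    rw [h5] at h4
    have h12 : τ * dist z.2 η ≤ r / 4 := by linarith
    have h13 : dist (μ z.1 + τ • z.2) (μ y + τ • η) < r / 4 + r / 4 := by linarith
    linarith
  -- (c) the end point is in V
  have hcv : ∀ᶠ z : (Fin m → ℝ) × (Fin m → ℝ) in 𝓝 (y, η), e.symm (μ z.1 + t • z.2) ∈ V := by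
    have h3 : μ y + t • η = μ (c t) := (hc.eq t ⟨hs.trans hst, htT⟩).symm
    have h4 : c t ∈ e.source := (hmid t htI).1
    have h5 : e.symm (μ y + t • η) = c t := by
      rw [h3, ← hee _ h4]; exact e.left_inv h4
    have h6 : μ y + t • η ∈ e.target := by
      rw [h3, ← hee _ h4]; exact e.map_source h4
    have h7 : ContinuousAt (fun z : (Fin m → ℝ) × (Fin m → ℝ) => μ z.1 + t • z.2) (y, η) := by
      have h8 : ContinuousAt (fun z : (Fin m → ℝ) × (Fin m → ℝ) => μ z.1) (y, η) :=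
        ContinuousAt.comp (f := fun z : (Fin m → ℝ) × (Fin m → ℝ) => z.1) (g := μ) hμy
          continuous_fst.continuousAt
      have h9 : ContinuousAt (fun z : (Fin m → ℝ) × (Fin m → ℝ) => t • z.2) (y, η) :=
        (continuous_snd.const_smul t).continuousAt
      exact h8.add h9
    have h10 : ContinuousAt (fun z : (Fin m → ℝ) × (Fin m → ℝ) => e.symm (μ z.1 + t • z.2)) (y, η) :=
      ContinuousAt.comp (f := fun z : (Fin m → ℝ) × (Fin m → ℝ) => μ z.1 + t • z.2) (g := e.symm)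
        (e.symm.continuousAt h6) h7
    have h11 : V ∈ 𝓝 (e.symm (μ (y, η).1 + t • (y, η).2)) := by
      show V ∈ 𝓝 (e.symm (μ y + t • η))
      rw [h5]; exact hV
    exact h10 h11
  filter_upwards [ha, hb, hcv] with z hza hzb hzc
  obtain ⟨c', hc', hc's⟩ := hza
  have hmatch : e.symm (μ z.1 + s • z.2) = c' s := by
    rw [← hc'.eq s ⟨hs, le_refl _⟩, ← hee _ hc's]
    exact e.left_inv hc's
  let c'' : ℝ → Fin m → ℝ := fun τ => if τ ≤ s then c' τ else e.symm (μ z.1 + τ • z.2)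
  have hl : ∀ τ, τ ≤ s → c'' τ = c' τ := fun τ hτ => if_pos hτ
  have hrr : ∀ τ, s ≤ τ → c'' τ = e.symm (μ z.1 + τ • z.2) := by
    intro τ hτ
    rcases hτ.eq_or_lt with h | h
    · rw [← h, hl s le_rfl, hmatch]
    · exact if_neg (not_le.2 h)
  refine ⟨c'', ⟨?_, ?_, ?_, ?_⟩, ?_⟩
  · rw [← Set.Icc_union_Icc_eq_Icc hs hst]
    apply ContinuousOn.union_of_isClosed _ _ isClosed_Icc isClosed_Icc
    · exact hc'.cont.congr fun τ hτ => hl τ hτ.2
    · have h3 : ContinuousOn (fun τ : ℝ => e.symm (μ z.1 + τ • z.2)) (Set.Icc s t) := by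
        apply ContinuousOn.comp e.continuousOn_symm (t := e.target)
        · apply Continuous.continuousOn
          fun_prop
        · intro τ hτ
          exact hball (hzb τ hτ)
      exact h3.congr fun τ hτ => hrr τ hτ.1
  · intro τ hτ
    rcases le_total τ s with h | h
    · rw [hl τ h]; exact hc'.mem τ ⟨hτ.1, h⟩
    · rw [hrr τ h]
      exact hes (e.map_target (hball (hzb τ ⟨h, hτ.2⟩)))
  · rw [hl 0 hs]; exact hc'.zero
  · intro τ hτ
    rcases le_total τ s with h | h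
    · rw [hl τ h]; exact hc'.eq τ ⟨hτ.1, h⟩
    · rw [hrr τ h]
      have h4 := hball (hzb τ ⟨h, hτ.2⟩)
      rw [← hee _ (e.map_target h4), e.right_inv h4]
  · rw [hrr t hst]; exact hzc

theorem stable (hΩ : IsOpen Ω) (hG : HG L lam Ω φ μ H) {T : ℝ} (hT : 0 ≤ T) {y η : Fin m → ℝ}
    {c : ℝ → Fin m → ℝ} (hc : IsLift μ Ω T y η c) {V : Set (Fin m → ℝ)} (hV : V ∈ 𝓝 (c T)) :
    ∀ᶠ z in 𝓝 (y, η), ∃ c', IsLift μ Ω T z.1 z.2 c' ∧ c' T ∈ V := by
  classical
  have hyΩ : y ∈ Ω := by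
    rw [← hc.zero]; exact hc.mem 0 ⟨le_refl _, hT⟩
  choose δ hδ hstep using fun t0 : Set.Icc (0 : ℝ) T => K1b_step hΩ hG hc t0.2
  obtain ⟨t, h0, hmono, ⟨n0, hn0⟩, hcov⟩ := exists_monotone_Icc_subset_open_cover_Icc hT
    (c := fun t0 : Set.Icc (0 : ℝ) T => {s : Set.Icc (0 : ℝ) T | |(s : ℝ) - t0| < δ t0})
    (by
      intro t0
      apply isOpen_lt
      · exact (continuous_subtype_val.sub continuous_const).abs
      · exact continuous_const)
    (by
      intro s _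
      rw [Set.mem_iUnion]
      refine ⟨s, ?_⟩
      show |(s : ℝ) - s| < δ s
      rw [sub_self, abs_zero]
      exact hδ s)
  have hP0 : K1b_P μ Ω y η c 0 := by
    intro V hV
    rw [hc.zero] at hV
    have h1 : ∀ᶠ z : (Fin m → ℝ) × (Fin m → ℝ) in 𝓝 (y, η), z.1 ∈ V ∩ Ω :=
      continuous_fst.continuousAt (Filter.inter_mem hV (hΩ.mem_nhds hyΩ))
    filter_upwards [h1] with z hz
    refine ⟨fun _ => z.1, ⟨continuousOn_const, fun _ _ => hz.2, rfl, ?_⟩, hz.1⟩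
    intro τ hτ
    have : τ = 0 := le_antisymm hτ.2 hτ.1
    rw [this, zero_smul, add_zero]
  have hall : ∀ n, K1b_P μ Ω y η c (t n) := by
    intro n
    induction n with
    | zero => rw [h0]; exact hP0
    | succ n ih =>
      obtain ⟨t0, ht0⟩ := hcov n
      have hle : t n ≤ t (n + 1) := hmono (Nat.le_succ n)
      have h1 : t n ∈ Set.Icc (t n) (t (n + 1)) := ⟨le_rfl, hle⟩
      have h2 : t (n + 1) ∈ Set.Icc (t n) (t (n + 1)) := ⟨hle, le_rfl⟩
      exact hstep t0 (t n) (t (n + 1)) (t n).2.1 hle (t (n + 1)).2.2 (ht0 h1) (ht0 h2) ih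
  have hT' := hall n0
  rw [hn0 n0 le_rfl] at hT'
  exact hT' V hV

theorem lift_tendsto (hΩ : IsOpen Ω) (hG : HG L lam Ω φ μ H) {T : ℝ} (hT : 0 ≤ T) (hT1 : T ≤ 1)
    {y η : Fin m → ℝ} {c : ℝ → Fin m → ℝ} (hc : IsLift μ Ω T y η c)
    {z ζ : ℕ → Fin m → ℝ} {cn : ℕ → ℝ → Fin m → ℝ} (hcn : ∀ n, IsLift μ Ω 1 (z n) (ζ n) (cn n))
    (hz : Filter.Tendsto z Filter.atTop (𝓝 y)) (hζ : Filter.Tendsto ζ Filter.atTop (𝓝 η)) :
    Filter.Tendsto (fun n => cn n T) Filter.atTop (𝓝 (c T)) := by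
  intro V hV
  have h1 := stable hΩ hG hT hc hV
  have h2 : Filter.Tendsto (fun n => (z n, ζ n)) Filter.atTop (𝓝 (y, η)) := hz.prodMk_nhds hζ
  have h3 := h2.eventually h1
  rw [Filter.mem_map]
  filter_upwards [h3] with n hn
  obtain ⟨c', hc', hc'T⟩ := hn
  have hsub : Set.Icc (0 : ℝ) T ⊆ Set.Icc 0 1 := Set.Icc_subset_Icc_right hT1
  have h4 : IsLift μ Ω T (z n) (ζ n) (cn n) :=
    ⟨(hcn n).cont.mono hsub, fun τ hτ => (hcn n).mem τ (hsub hτ), (hcn n).zero,
      fun τ hτ => (hcn n).eq τ (hsub hτ)⟩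
  have h5 := lift_unique hΩ hG h4 hc' T ⟨hT, le_rfl⟩
  show cn n T ∈ V
  rw [h5]
  exact hc'T

end TLK
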