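import Pool.Agent.TLK.K1a
import Pool.Agent.TLK.H2

/-!
# [TLK-K2a] derivatives along lifts, concavity of `f`

PROOF of `lift_deriv`: near `x = c t`, `μ` has a local inverse with derivative `(H x)⁻¹` (`HasStrictFDerivAt.to_localInverse`, or
`HasFDerivAt.of_local_left_inverse` type lemmas); `c s` is continuous and `μ (c s) = μ y + s η`, so `c s = (local inverse) (μ y + s η)` for `s` near `t` in `[0, T]`.
(Or directly: `HasStrictFDerivAt` gives `‖μ (c s) - μ (c t) - H (c s - c t)‖ = o(‖c s - c t‖)`, with `‖H v‖ ≥ κ ‖v‖`.)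
PROOF of `lift_ff_deriv`: chain rule with `ff_deriv`: `-(H x x) ⬝ (H⁻¹ η) = -(x ⬝ H H⁻¹ η) = -(x ⬝ η)` (`H` symmetric).
PROOF of `lift_concave`: the derivative `-(η ⬝ c t)` of `f ∘ c` has derivative `-(η ⬝ (H (c t))⁻¹ η) ≤ 0` (`< 0` if `η ≠ 0`, `T > 0`), so it is antitone (strictly):
`AntitoneOn.concaveOn_of_deriv` or `concaveOn_of_deriv2_nonpos`-type lemmas (`interior (Icc 0 T) = Ioo 0 T`).
-/

open scoped Matrix Topology

namespace TLK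

variable {m p : ℕ} {G : Type} [Group G] {L : G →* Matrix (Fin m) (Fin m) ℝ} {lam : G → ℝ}
  {Ω K : Set (Fin m → ℝ)} {φ : (Fin m → ℝ) → ℝ} {μ : (Fin m → ℝ) → Fin m → ℝ}
  {H : (Fin m → ℝ) → Matrix (Fin m) (Fin m) ℝ}

theorem K2a_inj (hG : HG L lam Ω φ μ H) {y : Fin m → ℝ} (hy : y ∈ Ω) :
    Function.Injective (Matrix.mulVecLin (H y)) := by
  rw [injective_iff_map_eq_zero]
  intro v hv
  by_contra hne
  have h1 := hG.pos y hy v hne
  have h2 : H y *ᵥ v = 0 := hv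
  rw [h2, dotProduct_zero] at h1
  exact lt_irrefl _ h1

theorem K2a_det (hG : HG L lam Ω φ μ H) {y : Fin m → ℝ} (hy : y ∈ Ω) : IsUnit (H y).det := by
  rw [isUnit_iff_ne_zero]
  intro h0
  obtain ⟨v, hv, hv0⟩ := Matrix.exists_mulVec_eq_zero_iff.2 h0
  apply hv
  apply K2a_inj hG hy
  rw [map_zero]
  exact hv0

theorem K2a_inv_mulVec (hG : HG L lam Ω φ μ H) {y : Fin m → ℝ} (hy : y ∈ Ω) (v : Fin m → ℝ) :
    (H y)⁻¹ *ᵥ (H y *ᵥ v) = v := by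
  rw [Matrix.mulVec_mulVec, Matrix.nonsing_inv_mul _ (K2a_det hG hy), Matrix.one_mulVec]

theorem K2a_mulVec_inv (hG : HG L lam Ω φ μ H) {y : Fin m → ℝ} (hy : y ∈ Ω) (v : Fin m → ℝ) :
    H y *ᵥ ((H y)⁻¹ *ᵥ v) = v := by
  rw [Matrix.mulVec_mulVec, Matrix.mul_nonsing_inv _ (K2a_det hG hy), Matrix.one_mulVec]

theorem K2a_pos (hG : HG L lam Ω φ μ H) {y : Fin m → ℝ} (hy : y ∈ Ω) {η : Fin m → ℝ}
    (hη : η ≠ 0) : 0 < η ⬝ᵥ ((H y)⁻¹ *ᵥ η) := by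
  have h1 := K2a_mulVec_inv hG hy η
  have h2 : (H y)⁻¹ *ᵥ η ≠ 0 := by
    intro h
    rw [h, Matrix.mulVec_zero] at h1
    exact hη h1.symm
  have h3 := hG.pos y hy _ h2
  rw [h1, dotProduct_comm] at h3
  exact h3

theorem K2a_nonneg (hG : HG L lam Ω φ μ H) {y : Fin m → ℝ} (hy : y ∈ Ω) (η : Fin m → ℝ) :
    0 ≤ η ⬝ᵥ ((H y)⁻¹ *ᵥ η) := by
  by_cases hη : η = 0
  · rw [hη, zero_dotProduct]
  · exact (K2a_pos hG hy hη).le

theorem lift_deriv (hΩ : IsOpen Ω) (hG : HG L lam Ω φ μ H) {T : ℝ} {y η : Fin m → ℝ}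
    {c : ℝ → Fin m → ℝ} (hc : IsLift μ Ω T y η c) {t : ℝ} (ht : t ∈ Set.Icc 0 T) :
    HasDerivWithinAt c ((H (c t))⁻¹ *ᵥ η) (Set.Icc 0 T) t := by
  have hx : c t ∈ Ω := hc.mem t ht
  let A : (Fin m → ℝ) ≃L[ℝ] (Fin m → ℝ) :=
    (LinearEquiv.ofInjectiveEndo (Matrix.mulVecLin (H (c t))) (K2a_inj hG hx)).toContinuousLinearEquiv
  have hAapp : ∀ v, A v = H (c t) *ᵥ v := fun v => rfl
  have hA : (A : (Fin m → ℝ) →L[ℝ] (Fin m → ℝ)) = mulL (H (c t)) := by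
    ext v i
    rfl
  have hd : HasStrictFDerivAt μ (A : (Fin m → ℝ) →L[ℝ] (Fin m → ℝ)) (c t) := by
    rw [hA]; exact hG.dμ _ hx
  have hinv := hd.to_localInverse
  have hleft := hd.eventually_left_inverse
  have hct : ContinuousWithinAt c (Set.Icc 0 T) t := hc.cont t ht
  have hev : ∀ᶠ s in 𝓝[Set.Icc 0 T] t, hd.localInverse μ A (c t) (μ (c s)) = c s := hct hleft
  have hev2 : ∀ᶠ s in 𝓝[Set.Icc 0 T] t, c s = hd.localInverse μ A (c t) (μ y + s • η) := by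
    filter_upwards [hev, self_mem_nhdsWithin] with s hs hsI
    rw [← hc.eq s hsI, hs]
  have hlin : HasDerivAt (fun s : ℝ => μ y + s • η) η t := by
    have h1 : HasDerivAt (fun s : ℝ => s • η) ((1 : ℝ) • η) t := (hasDerivAt_id t).smul_const η
    rw [one_smul] at h1
    exact h1.const_add (μ y)
  have hpt : μ y + t • η = μ (c t) := (hc.eq t ht).symm
  have hcomp : HasDerivWithinAt (fun s : ℝ => hd.localInverse μ A (c t) (μ y + s • η))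
      ((A.symm : (Fin m → ℝ) →L[ℝ] (Fin m → ℝ)) η) (Set.Icc 0 T) t := by
    have h1 : HasFDerivAt (hd.localInverse μ A (c t))
        (A.symm : (Fin m → ℝ) →L[ℝ] (Fin m → ℝ)) (μ y + t • η) := by
      rw [hpt]; exact hinv.hasFDerivAt
    exact h1.comp_hasDerivWithinAt t hlin.hasDerivWithinAt
  have hval : (A.symm : (Fin m → ℝ) →L[ℝ] (Fin m → ℝ)) η = (H (c t))⁻¹ *ᵥ η := by
    show A.symm η = (H (c t))⁻¹ *ᵥ η
    rw [ContinuousLinearEquiv.symm_apply_eq, hAapp, K2a_mulVec_inv hG hx]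
  rw [hval] at hcomp
  exact hcomp.congr_of_eventuallyEq hev2 (by rw [hpt, hd.localInverse_apply_image])

theorem lift_ff_deriv (hΩ : IsOpen Ω) (hG : HG L lam Ω φ μ H) {T : ℝ} {y η : Fin m → ℝ}
    {c : ℝ → Fin m → ℝ} (hc : IsLift μ Ω T y η c) {t : ℝ} (ht : t ∈ Set.Icc 0 T) :
    HasDerivWithinAt (fun s => ff φ μ (c s)) (-(η ⬝ᵥ c t)) (Set.Icc 0 T) t := by
  have hx : c t ∈ Ω := hc.mem t ht
  have h1 := (ff_deriv hG hx).comp_hasDerivWithinAt t (lift_deriv hΩ hG hc ht)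
  have h2 : (-dotL (H (c t) *ᵥ c t)) ((H (c t))⁻¹ *ᵥ η) = -(η ⬝ᵥ c t) := by
    show -(dotL (H (c t) *ᵥ c t) ((H (c t))⁻¹ *ᵥ η)) = -(η ⬝ᵥ c t)
    rw [dotL_apply, neg_inj]
    have h3 : (H (c t) *ᵥ c t) ⬝ᵥ ((H (c t))⁻¹ *ᵥ η) = c t ⬝ᵥ (H (c t) *ᵥ ((H (c t))⁻¹ *ᵥ η)) := by
      rw [Matrix.dotProduct_mulVec (c t), ← Matrix.mulVec_transpose, hG.symm _ hx]
    rw [h3, K2a_mulVec_inv hG hx, dotProduct_comm]
  rw [h2] at h1
  exact h1

theorem K2a_dot (hΩ : IsOpen Ω) (hG : HG L lam Ω φ μ H) {T : ℝ} {y η : Fin m → ℝ}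
    {c : ℝ → Fin m → ℝ} (hc : IsLift μ Ω T y η c) {t : ℝ} (ht : t ∈ Set.Icc 0 T) :
    HasDerivWithinAt (fun s => -(η ⬝ᵥ c s)) (-(η ⬝ᵥ ((H (c t))⁻¹ *ᵥ η))) (Set.Icc 0 T) t := by
  have h1 := (dotL η).hasFDerivAt.comp_hasDerivWithinAt t (lift_deriv hΩ hG hc ht)
  have h2 := h1.neg
  have h3 : ∀ s, -(η ⬝ᵥ c s) = (-((dotL η) ∘ c)) s := by
    intro s
    show -(η ⬝ᵥ c s) = -(dotL η (c s))
    rw [dotL_apply]
  rw [dotL_apply] at h2
  exact h2.congr (fun s _ => h3 s) (h3 t)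

theorem K2a_deriv (hΩ : IsOpen Ω) (hG : HG L lam Ω φ μ H) {T : ℝ} {y η : Fin m → ℝ}
    {c : ℝ → Fin m → ℝ} (hc : IsLift μ Ω T y η c) {t : ℝ} (ht : t ∈ Set.Ioo 0 T) :
    deriv (fun s => ff φ μ (c s)) t = -(η ⬝ᵥ c t) :=
  ((lift_ff_deriv hΩ hG hc (Set.Ioo_subset_Icc_self ht)).hasDerivAt
    (Icc_mem_nhds ht.1 ht.2)).deriv

theorem K2a_ffcont (hΩ : IsOpen Ω) (hG : HG L lam Ω φ μ H) {T : ℝ} {y η : Fin m → ℝ}
    {c : ℝ → Fin m → ℝ} (hc : IsLift μ Ω T y η c) :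
    ContinuousOn (fun s => ff φ μ (c s)) (Set.Icc 0 T) :=
  fun _ ht => (lift_ff_deriv hΩ hG hc ht).continuousWithinAt

theorem lift_concave (hΩ : IsOpen Ω) (hG : HG L lam Ω φ μ H) {T : ℝ} {y η : Fin m → ℝ}
    {c : ℝ → Fin m → ℝ} (hc : IsLift μ Ω T y η c) :
    ConcaveOn ℝ (Set.Icc 0 T) (fun s => ff φ μ (c s)) := by
  apply AntitoneOn.concaveOn_of_deriv (convex_Icc 0 T) (K2a_ffcont hΩ hG hc)
  · rw [interior_Icc]
    intro t ht
    exact ((lift_ff_deriv hΩ hG hc (Set.Ioo_subset_Icc_self ht)).hasDerivAt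
      (Icc_mem_nhds ht.1 ht.2)).differentiableAt.differentiableWithinAt
  · rw [interior_Icc]
    have hanti : AntitoneOn (fun s => -(η ⬝ᵥ c s)) (Set.Icc 0 T) := by
      apply antitoneOn_of_deriv_nonpos (convex_Icc 0 T)
      · exact fun _ ht => (K2a_dot hΩ hG hc ht).continuousWithinAt
      · rw [interior_Icc]
        intro t ht
        exact ((K2a_dot hΩ hG hc (Set.Ioo_subset_Icc_self ht)).hasDerivAt
          (Icc_mem_nhds ht.1 ht.2)).differentiableAt.differentiableWithinAt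
      · rw [interior_Icc]
        intro t ht
        rw [((K2a_dot hΩ hG hc (Set.Ioo_subset_Icc_self ht)).hasDerivAt
          (Icc_mem_nhds ht.1 ht.2)).deriv]
        exact neg_nonpos.2 (K2a_nonneg hG (hc.mem t (Set.Ioo_subset_Icc_self ht)) η)
    intro a ha b hb hab
    rw [K2a_deriv hΩ hG hc ha, K2a_deriv hΩ hG hc hb]
    exact hanti (Set.Ioo_subset_Icc_self ha) (Set.Ioo_subset_Icc_self hb) hab

theorem lift_strict (hΩ : IsOpen Ω) (hG : HG L lam Ω φ μ H) {T : ℝ} {y η : Fin m → ℝ} (hη : η ≠ 0)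
    {c : ℝ → Fin m → ℝ} (hc : IsLift μ Ω T y η c) :
    StrictConcaveOn ℝ (Set.Icc 0 T) (fun s => ff φ μ (c s)) := by
  apply StrictAntiOn.strictConcaveOn_of_deriv (convex_Icc 0 T) (K2a_ffcont hΩ hG hc)
  rw [interior_Icc]
  have hanti : StrictAntiOn (fun s => -(η ⬝ᵥ c s)) (Set.Icc 0 T) := by
    apply strictAntiOn_of_deriv_neg (convex_Icc 0 T)
    · exact fun _ ht => (K2a_dot hΩ hG hc ht).continuousWithinAt
    · rw [interior_Icc]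
      intro t ht
      rw [((K2a_dot hΩ hG hc (Set.Ioo_subset_Icc_self ht)).hasDerivAt
        (Icc_mem_nhds ht.1 ht.2)).deriv]
      exact neg_lt_zero.2 (K2a_pos hG (hc.mem t (Set.Ioo_subset_Icc_self ht)) hη)
  intro a ha b hb hab
  rw [K2a_deriv hΩ hG hc ha, K2a_deriv hΩ hG hc hb]
  exact hanti (Set.Ioo_subset_Icc_self ha) (Set.Ioo_subset_Icc_self hb) hab

end TLK
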