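import Pool.Agent.TLK.K1c
import Pool.Agent.TLK.K2a

/-!
# [TLK-K2b] extension of lifts

`c` is a lift on `[0, T']` for all `0 ≤ T' < T`, and `f (c t) ≥ l > 0` for `0 ≤ t < T`. CLAIM: there is a lift on `[0, T]`.
PROOF. Let `ε` be as in `unif` (hypothesis `hu`).
Case 1: for some `t ∈ [0, T)`, `η' = (T - t) • η` satisfies `η' ⬝ (H (c t))⁻¹ η' ≤ ε² f (c t)`: there is a lift `d` on `[0, 1]` from `c t` with direction `η'`; define
`c' s = c s` for `s ≤ t`, `c' s = d ((s - t)/(T - t))` for `s ≥ t`: continuous on `[0, T]` (`d 0 = c t`), `μ (c' s) = μ (c t) + ((s - t)/(T - t)) (T - t) η = μ y + s η`.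
Case 2: for all `t ∈ [0, T)`: `(T - t)² q(t) > ε² f (c t) ≥ ε² l`, `q(t) = η ⬝ (H (c t))⁻¹ η`. On `[0, T)` the function `F(t) = f (c t)` is differentiable with
derivative `-(η ⬝ c t)`, whose derivative is `-q(t)` (`lift_ff_deriv`, `lift_deriv`; on the open interval `(0, T)` these are ordinary derivatives). The function
`E(t) = -(η ⬝ c t) + ε² l / (T - t)` has derivative `-q(t) + ε² l/(T - t)² < 0`, so `E` is antitone on `[0, T)`, `E ≤ E 0`. The function
`F(t) - ε² l log (T - t)` has derivative `E(t) ≤ E 0`, so `F(t) ≤ F 0 - ε² l log T + ε² l log (T - t) + |E 0| T` on `[0, T)`, which tends to `-∞` as `t → T`: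
contradiction to `F > 0`.
-/

open scoped Matrix Topology

namespace TLK

variable {m p : ℕ} {G : Type} [Group G] {L : G →* Matrix (Fin m) (Fin m) ℝ} {lam : G → ℝ}
  {Ω K : Set (Fin m → ℝ)} {φ : (Fin m → ℝ) → ℝ} {μ : (Fin m → ℝ) → Fin m → ℝ}
  {H : (Fin m → ℝ) → Matrix (Fin m) (Fin m) ℝ}

theorem K2b_dot (hΩ : IsOpen Ω) (hG : HG L lam Ω φ μ H) {T : ℝ} {y η : Fin m → ℝ}
    {c : ℝ → Fin m → ℝ} (hc : IsLift μ Ω T y η c) {t : ℝ} (ht : t ∈ Set.Icc 0 T) :
    HasDerivWithinAt (fun s => -(η ⬝ᵥ c s)) (-(η ⬝ᵥ ((H (c t))⁻¹ *ᵥ η))) (Set.Icc 0 T) t := by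
  have h1 := (dotL η).hasFDerivAt.comp_hasDerivWithinAt t (lift_deriv hΩ hG hc ht)
  have h2 := h1.neg
  have h3 : ∀ s, -(η ⬝ᵥ c s) = (-((dotL η) ∘ c)) s := by
    intro s
    show -(η ⬝ᵥ c s) = -(dotL η (c s))
    rw [dotL_apply]
  rw [dotL_apply] at h2
  exact h2.congr (fun s _ => h3 s) (h3 t)

theorem K2b_nhds {T t T' : ℝ} (ht' : t < T') :
    Set.Icc 0 T' ∈ 𝓝[Set.Ico 0 T] t := by
  rw [mem_nhdsWithin]
  exact ⟨Set.Iio T', isOpen_Iio, ht', fun s hs => ⟨hs.2.1, le_of_lt hs.1⟩⟩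

theorem extend (hΩ : IsOpen Ω) (hG : HG L lam Ω φ μ H) {ε : ℝ} (hε : 0 < ε)
    (hu : ∀ y ∈ Ω, ∀ η : Fin m → ℝ, η ⬝ᵥ ((H y)⁻¹ *ᵥ η) ≤ ε ^ 2 * ff φ μ y →
      ∃ c, IsLift μ Ω 1 y η c)
    {T : ℝ} (hT : 0 < T) {y η : Fin m → ℝ} {c : ℝ → Fin m → ℝ}
    (hc : ∀ T', 0 ≤ T' → T' < T → IsLift μ Ω T' y η c) {l : ℝ} (hl : 0 < l)
    (hf : ∀ t, 0 ≤ t → t < T → l ≤ ff φ μ (c t)) :
    ∃ c', IsLift μ Ω T y η c' := by
  classical
  by_cases hcase : ∃ t, 0 ≤ t ∧ t < T ∧
      (T - t) ^ 2 * (η ⬝ᵥ ((H (c t))⁻¹ *ᵥ η)) ≤ ε ^ 2 * ff φ μ (c t)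
  · obtain ⟨t, ht0, htT, hle⟩ := hcase
    have hTt : 0 < T - t := sub_pos.2 htT
    have hct := hc t ht0 htT
    have htI : t ∈ Set.Icc 0 t := ⟨ht0, le_rfl⟩
    have hx : c t ∈ Ω := hct.mem t htI
    obtain ⟨d, hd⟩ := hu (c t) hx ((T - t) • η) (by
      rw [Matrix.mulVec_smul, dotProduct_smul, smul_dotProduct, smul_eq_mul, smul_eq_mul]
      have : (T - t) * ((T - t) * (η ⬝ᵥ ((H (c t))⁻¹ *ᵥ η))) =
        (T - t) ^ 2 * (η ⬝ᵥ ((H (c t))⁻¹ *ᵥ η)) := by ring
      rw [this]; exact hle)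
    let c' : ℝ → Fin m → ℝ := fun s => if s ≤ t then c s else d ((s - t) / (T - t))
    have hlc : ∀ s, s ≤ t → c' s = c s := fun s hs => if_pos hs
    have hrc : ∀ s, t ≤ s → c' s = d ((s - t) / (T - t)) := by
      intro s hs
      rcases hs.eq_or_lt with h | h
      · rw [← h, hlc t le_rfl, sub_self, zero_div, hd.zero]
      · exact if_neg (not_le.2 h)
    have hmap : ∀ s ∈ Set.Icc t T, (s - t) / (T - t) ∈ Set.Icc (0 : ℝ) 1 := by
      intro s hs
      exact ⟨div_nonneg (sub_nonneg.2 hs.1) hTt.le,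
        (div_le_one hTt).2 (sub_le_sub_right hs.2 t)⟩
    refine ⟨c', ⟨?_, ?_, ?_, ?_⟩⟩
    · rw [← Set.Icc_union_Icc_eq_Icc ht0 htT.le]
      apply ContinuousOn.union_of_isClosed _ _ isClosed_Icc isClosed_Icc
      · exact hct.cont.congr fun s hs => hlc s hs.2
      · have h3 : ContinuousOn (fun s : ℝ => d ((s - t) / (T - t))) (Set.Icc t T) := by
          apply ContinuousOn.comp hd.cont (t := Set.Icc 0 1)
          · apply Continuous.continuousOn
            fun_prop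
          · intro s hs
            exact hmap s hs
        exact h3.congr fun s hs => hrc s hs.1
    · intro s hs
      rcases le_total s t with h | h
      · rw [hlc s h]; exact hct.mem s ⟨hs.1, h⟩
      · rw [hrc s h]; exact hd.mem _ (hmap s ⟨h, hs.2⟩)
    · rw [hlc 0 ht0]; exact hct.zero
    · intro s hs
      rcases le_total s t with h | h
      · rw [hlc s h]; exact hct.eq s ⟨hs.1, h⟩
      · rw [hrc s h, hd.eq _ (hmap s ⟨h, hs.2⟩), hct.eq t htI, smul_smul, add_assoc, ← add_smul]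
        congr 2
        field_simp
        ring
  · exfalso
    push Not at hcase
    set κ : ℝ := ε ^ 2 * l with hκ
    have hκ0 : 0 < κ := by positivity
    have hq : ∀ t, 0 ≤ t → t < T → κ / (T - t) ^ 2 < η ⬝ᵥ ((H (c t))⁻¹ *ᵥ η) := by
      intro t ht0 htT
      have h1 := hcase t ht0 htT
      have h2 : 0 < T - t := sub_pos.2 htT
      rw [div_lt_iff₀ (by positivity)]
      have h3 : κ ≤ ε ^ 2 * ff φ μ (c t) := by
        rw [hκ]
        exact mul_le_mul_of_nonneg_left (hf t ht0 htT) (by positivity)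
      linarith [mul_comm ((T - t) ^ 2) (η ⬝ᵥ ((H (c t))⁻¹ *ᵥ η))]
    -- derivatives
    have hd1 : ∀ t ∈ Set.Ico 0 T, HasDerivWithinAt (fun s => ff φ μ (c s)) (-(η ⬝ᵥ c t))
        (Set.Ico 0 T) t := by
      intro t ht
      have hT' : 0 ≤ (t + T) / 2 := by linarith [ht.1]
      have hT'' : (t + T) / 2 < T := by linarith [ht.2]
      have htT' : t < (t + T) / 2 := by linarith [ht.2]
      exact (lift_ff_deriv hΩ hG (hc _ hT' hT'') ⟨ht.1, htT'.le⟩).mono_of_mem_nhdsWithin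
        (K2b_nhds htT')
    have hd2 : ∀ t ∈ Set.Ico 0 T, HasDerivWithinAt (fun s => -(η ⬝ᵥ c s))
        (-(η ⬝ᵥ ((H (c t))⁻¹ *ᵥ η))) (Set.Ico 0 T) t := by
      intro t ht
      have hT' : 0 ≤ (t + T) / 2 := by linarith [ht.1]
      have hT'' : (t + T) / 2 < T := by linarith [ht.2]
      have htT' : t < (t + T) / 2 := by linarith [ht.2]
      exact (K2b_dot hΩ hG (hc _ hT' hT'') ⟨ht.1, htT'.le⟩).mono_of_mem_nhdsWithin
        (K2b_nhds htT')
    have hlin : ∀ t : ℝ, HasDerivAt (fun s : ℝ => T - s) (-1) t := fun t =>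
      (hasDerivAt_id t).const_sub T
    -- the function E
    have hEd : ∀ t ∈ Set.Ico 0 T, HasDerivWithinAt (fun s => -(η ⬝ᵥ c s) + κ * (T - s)⁻¹)
        (-(η ⬝ᵥ ((H (c t))⁻¹ *ᵥ η)) + κ * (-(-1) / (T - t) ^ 2)) (Set.Ico 0 T) t := by
      intro t ht
      have h2 : T - t ≠ 0 := (sub_pos.2 ht.2).ne'
      exact (hd2 t ht).add (((hlin t).fun_inv h2).const_mul κ).hasDerivWithinAt
    have hnhds : ∀ t ∈ Set.Ioo 0 T, Set.Ico 0 T ∈ 𝓝 t := fun t ht => Ico_mem_nhds ht.1 ht.2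
    have hEanti : AntitoneOn (fun s => -(η ⬝ᵥ c s) + κ * (T - s)⁻¹) (Set.Ico 0 T) := by
      apply antitoneOn_of_deriv_nonpos (convex_Ico 0 T)
      · exact fun t ht => (hEd t ht).continuousWithinAt
      · rw [interior_Ico]
        intro t ht
        exact ((hEd t (Set.Ioo_subset_Ico_self ht)).hasDerivAt
          (hnhds t ht)).differentiableAt.differentiableWithinAt
      · rw [interior_Ico]
        intro t ht
        rw [((hEd t (Set.Ioo_subset_Ico_self ht)).hasDerivAt (hnhds t ht)).deriv]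
        have h1 := hq t ht.1.le ht.2
        have h2 : κ * (-(-1) / (T - t) ^ 2) = κ / (T - t) ^ 2 := by ring
        rw [h2]
        linarith
    set E0 : ℝ := -(η ⬝ᵥ c 0) + κ * (T - 0)⁻¹ with hE0
    have h0I : (0 : ℝ) ∈ Set.Ico 0 T := ⟨le_rfl, hT⟩
    have hEle : ∀ t ∈ Set.Ico 0 T, -(η ⬝ᵥ c t) + κ * (T - t)⁻¹ ≤ E0 := fun t ht =>
      hEanti h0I ht ht.1
    -- the function F - κ log (T - t) - E0 t
    have hΦd : ∀ t ∈ Set.Ico 0 T, HasDerivWithinAt
        (fun s => ff φ μ (c s) - κ * Real.log (T - s) - E0 * s)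
        (-(η ⬝ᵥ c t) - κ * (-1 / (T - t)) - E0 * 1) (Set.Ico 0 T) t := by
      intro t ht
      have h2 : T - t ≠ 0 := (sub_pos.2 ht.2).ne'
      exact ((hd1 t ht).sub (((hlin t).log h2).const_mul κ).hasDerivWithinAt).sub
        (((hasDerivAt_id t).const_mul E0).hasDerivWithinAt)
    have hΦanti : AntitoneOn (fun s => ff φ μ (c s) - κ * Real.log (T - s) - E0 * s)
        (Set.Ico 0 T) := by
      apply antitoneOn_of_deriv_nonpos (convex_Ico 0 T)
      · exact fun t ht => (hΦd t ht).continuousWithinAt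
      · rw [interior_Ico]
        intro t ht
        exact ((hΦd t (Set.Ioo_subset_Ico_self ht)).hasDerivAt
          (hnhds t ht)).differentiableAt.differentiableWithinAt
      · rw [interior_Ico]
        intro t ht
        rw [((hΦd t (Set.Ioo_subset_Ico_self ht)).hasDerivAt (hnhds t ht)).deriv]
        have h1 := hEle t (Set.Ioo_subset_Ico_self ht)
        have h2 : κ * (-1 / (T - t)) = - (κ * (T - t)⁻¹) := by ring
        rw [h2]
        linarith
    have hF0 : 0 < ff φ μ (c 0) := hl.trans_le (hf 0 le_rfl hT)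
    set A : ℝ := (ff φ μ (c 0) + |E0| * T) / κ with hA
    have hA0 : 0 ≤ A := by positivity
    have hκA : κ * A = ff φ μ (c 0) + |E0| * T := by
      rw [hA]; field_simp
    set t : ℝ := T - T * Real.exp (-A) with ht
    have hexp : Real.exp (-A) ≤ 1 := Real.exp_le_one_iff.2 (neg_nonpos.2 hA0)
    have hexp0 : 0 < Real.exp (-A) := Real.exp_pos _
    have ht0 : 0 ≤ t := by
      rw [ht]
      nlinarith
    have htT : t < T := by
      rw [ht]
      nlinarith [mul_pos hT hexp0]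
    have h1 : ff φ μ (c t) - κ * Real.log (T - t) - E0 * t ≤
        ff φ μ (c 0) - κ * Real.log (T - 0) - E0 * 0 := hΦanti h0I ⟨ht0, htT⟩ ht0
    have h2 : Real.log (T - t) = Real.log T - A := by
      have h3 : T - t = T * Real.exp (-A) := by rw [ht]; ring
      rw [h3, Real.log_mul hT.ne' hexp0.ne', Real.log_exp]; ring
    rw [h2, sub_zero, mul_zero, sub_zero] at h1
    have h4 : E0 * t ≤ |E0| * T := by
      calc E0 * t ≤ |E0| * t := mul_le_mul_of_nonneg_right (le_abs_self _) ht0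
        _ ≤ |E0| * T := mul_le_mul_of_nonneg_left htT.le (abs_nonneg _)
    have h5 := hf t ht0 htT
    have h6 : κ * (Real.log T - A) = κ * Real.log T - κ * A := by ring
    rw [h6, hκA] at h1
    linarith

end TLK
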