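import Pool.Agent.TLK.K1b

/-!
# [TLK-K3a] openness of the set of good pairs

`good y y'` : there is a lift `c` on `[0, 1]` from `y` with direction `μ y' - μ y` and `c 1 = y'`.

PROOF of `good_open`: let `c` be the lift for `(y, y')`. `loc_inj` gives `V ∈ 𝓝 y'`, `V ⊆ Ω`, `μ` injective on `V`. The map `(z, z') ↦ (z, μ z' - μ z)` is continuous at `(y, y')`, so by
`stable` (`T = 1`) for `(z, z')` near `(y, y')` with `z' ∈ V` there is a lift `c'` from `z` with direction `μ z' - μ z` and `c' 1 ∈ V`; `μ (c' 1) = μ z'`, so `c' 1 = z'`.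
-/

open scoped Matrix Topology

namespace TLK

variable {m p : ℕ} {G : Type} [Group G] {L : G →* Matrix (Fin m) (Fin m) ℝ} {lam : G → ℝ}
  {Ω K : Set (Fin m → ℝ)} {φ : (Fin m → ℝ) → ℝ} {μ : (Fin m → ℝ) → Fin m → ℝ}
  {H : (Fin m → ℝ) → Matrix (Fin m) (Fin m) ℝ}

/-- the segment from `μ y` to `μ y'` lifts to a path from `y` to `y'` -/
def good (μ : (Fin m → ℝ) → Fin m → ℝ) (Ω : Set (Fin m → ℝ)) (y y' : Fin m → ℝ) : Prop :=
  ∃ c, IsLift μ Ω 1 y (μ y' - μ y) c ∧ c 1 = y'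

theorem good_open (hΩ : IsOpen Ω) (hG : HG L lam Ω φ μ H) {y y' : Fin m → ℝ} (hy : y ∈ Ω)
    (hy' : y' ∈ Ω) (h : good μ Ω y y') : ∀ᶠ z in 𝓝 (y, y'), good μ Ω z.1 z.2 := by
  obtain ⟨c, hc, hc1⟩ := h
  obtain ⟨V, hV, hVΩ, hinj⟩ := loc_inj hΩ hG hy'
  have hV1 : V ∈ 𝓝 (c 1) := by rw [hc1]; exact hV
  have hst := stable hΩ hG (zero_le_one' ℝ) hc hV1
  have hμy : ContinuousAt μ y := (hG.dμ y hy).continuousAt
  have hμy' : ContinuousAt μ y' := (hG.dμ y' hy').continuousAt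
  have hcont : Filter.Tendsto (fun z : (Fin m → ℝ) × (Fin m → ℝ) => (z.1, μ z.2 - μ z.1))
      (𝓝 (y, y')) (𝓝 (y, μ y' - μ y)) := by
    refine Filter.Tendsto.prodMk_nhds continuousAt_fst ?_
    refine Filter.Tendsto.sub ?_ ?_
    · exact hμy'.tendsto.comp (continuousAt_snd (p := (y, y')))
    · exact hμy.tendsto.comp (continuousAt_fst (p := (y, y')))
  have h1 := hcont.eventually hst
  have h2 : ∀ᶠ z in 𝓝 (y, y'), z.2 ∈ V := (continuousAt_snd (p := (y, y'))).eventually hV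
  filter_upwards [h1, h2] with z hz1 hz2
  obtain ⟨c', hc', hc'1⟩ := hz1
  refine ⟨c', hc', hinj hc'1 hz2 ?_⟩
  have := hc'.eq 1 ⟨zero_le_one, le_rfl⟩
  rw [this]
  simp

end TLK
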