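import Pool.Agent.TLK.K3a
import Pool.Agent.TLK.K2b

/-!
# [TLK-K3b] limits of good pairs: the segment lifts

PROOF of `lift_of_lim`: `(z n, z' n) → (y, y')` in `Ω × Ω`, lifts `cn n` of direction `ζ n = μ (z' n) - μ (z n) → η = μ y' - μ y`. CLAIM: for every `T ∈ [0, 1]` there is a lift of
`(y, η)` on `[0, T]`. `l = min (f y) (f y') > 0`. (a) if `c` is a lift on `[0, T]`, `T ≤ 1`, then `f (c t) ≥ l` for `t ≤ T`: `f (cn n t) ≥ (1 - t) f (z n) + t f (z' n)` by `lift_concave`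
(`cn n 0 = z n`, `cn n 1 = z' n`), let `n → ∞` (`lift_tendsto` for the restriction of `c` to `[0, t]`, `ff_cont`): `f (c t) ≥ (1 - t) f y + t f y' ≥ l`. (b) Let `T*` be the supremum of the `T ∈ [0, 1]` such that a
lift on `[0, T]` exists. By uniqueness (`lift_unique`) the lifts glue to one function `c` on `[0, T*)`; by (a) and `extend` there is a lift on `[0, T*]` (if `T* = 0` trivial).
If `T* < 1`: `η' = δ η` for small `δ > 0` satisfies the condition of `hu` at `c T*` (`f > 0`), so the lift extends to `[0, T* + δ]`: contradiction. So `T* = 1`.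
(The function `c` in (b): for `t < T*` choose a lift on some `[0, T]` with `T > t`, e.g. `T = (t + T*)/2`, and evaluate it at `t`.)
-/

open scoped Matrix Topology

namespace TLK

variable {m p : ℕ} {G : Type} [Group G] {L : G →* Matrix (Fin m) (Fin m) ℝ} {lam : G → ℝ}
  {Ω K : Set (Fin m → ℝ)} {φ : (Fin m → ℝ) → ℝ} {μ : (Fin m → ℝ) → Fin m → ℝ}
  {H : (Fin m → ℝ) → Matrix (Fin m) (Fin m) ℝ}

theorem lift_restrict {T T' : ℝ} (hTT : T' ≤ T) {y η : Fin m → ℝ} {c : ℝ → Fin m → ℝ}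
    (hc : IsLift μ Ω T y η c) : IsLift μ Ω T' y η c where
  cont := hc.cont.mono (Set.Icc_subset_Icc_right hTT)
  mem t ht := hc.mem t ⟨ht.1, ht.2.trans hTT⟩
  zero := hc.zero
  eq t ht := hc.eq t ⟨ht.1, ht.2.trans hTT⟩

theorem lift_congr {T : ℝ} (hT : 0 ≤ T) {y η : Fin m → ℝ} {c c' : ℝ → Fin m → ℝ}
    (hc : IsLift μ Ω T y η c) (h : ∀ t ∈ Set.Icc 0 T, c' t = c t) : IsLift μ Ω T y η c' where
  cont := hc.cont.congr h
  mem t ht := by rw [h t ht]; exact hc.mem t ht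
  zero := by rw [h 0 ⟨le_refl _, hT⟩]; exact hc.zero
  eq t ht := by rw [h t ht]; exact hc.eq t ht

/-- gluing of lifts -/
theorem lift_glue {T δ : ℝ} (hT : 0 ≤ T) (hδ : 0 < δ) {y η : Fin m → ℝ} {c d : ℝ → Fin m → ℝ}
    (hc : IsLift μ Ω T y η c) (hd : IsLift μ Ω 1 (c T) (δ • η) d) :
    ∃ c', IsLift μ Ω (T + δ) y η c' := by
  have hcase : ∀ s, s ∈ Set.Icc T (T + δ) → (s - T) / δ ∈ Set.Icc (0 : ℝ) 1 := by
    intro s hs
    refine ⟨div_nonneg (by linarith [hs.1]) hδ.le, ?_⟩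
    rw [div_le_one hδ]
    linarith [hs.2]
  have h1 : ∀ s ∈ Set.Icc 0 T, (if s ≤ T then c s else d ((s - T) / δ)) = c s := fun s hs =>
    if_pos hs.2
  have h2 : ∀ s ∈ Set.Icc T (T + δ), (if s ≤ T then c s else d ((s - T) / δ)) = d ((s - T) / δ) := by
    intro s hs
    by_cases hsT : s ≤ T
    · have : s = T := le_antisymm hsT hs.1
      rw [if_pos hsT, this, sub_self, zero_div, hd.zero]
    · rw [if_neg hsT]
  have hsplit : ∀ s ∈ Set.Icc 0 (T + δ), s ∈ Set.Icc 0 T ∨ s ∈ Set.Icc T (T + δ) := by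
    intro s hs
    rcases le_total s T with h | h
    · exact Or.inl ⟨hs.1, h⟩
    · exact Or.inr ⟨h, hs.2⟩
  refine ⟨fun s => if s ≤ T then c s else d ((s - T) / δ), ?_, ?_, ?_, ?_⟩
  · have h3 : ContinuousOn (fun s => if s ≤ T then c s else d ((s - T) / δ)) (Set.Icc 0 T) :=
      hc.cont.congr h1
    have h4 : ContinuousOn (fun s => if s ≤ T then c s else d ((s - T) / δ))
        (Set.Icc T (T + δ)) := by
      refine ContinuousOn.congr (f := fun s => d ((s - T) / δ)) ?_ h2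
      exact hd.cont.comp (by fun_prop) (fun s hs => hcase s hs)
    refine (h3.union_of_isClosed h4 isClosed_Icc isClosed_Icc).mono ?_
    intro s hs
    exact hsplit s hs
  · intro s hs
    rcases hsplit s hs with h | h
    · rw [h1 s h]
      exact hc.mem s h
    · rw [h2 s h]
      exact hd.mem _ (hcase s h)
  · show (if (0 : ℝ) ≤ T then c 0 else d ((0 - T) / δ)) = y
    rw [if_pos hT]
    exact hc.zero
  · intro s hs
    rcases hsplit s hs with h | h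
    · rw [h1 s h]
      exact hc.eq s h
    · rw [h2 s h, hd.eq _ (hcase s h), hc.eq T ⟨hT, le_refl _⟩, smul_smul, add_assoc, ← add_smul,
        div_mul_cancel₀ _ hδ.ne']
      congr 2
      ring

theorem lift_of_lim (hΩ : IsOpen Ω) (hG : HG L lam Ω φ μ H) (hfp : ∀ y ∈ Ω, 0 < ff φ μ y) {ε : ℝ} (hε : 0 < ε)
    (hu : ∀ y ∈ Ω, ∀ η : Fin m → ℝ, η ⬝ᵥ ((H y)⁻¹ *ᵥ η) ≤ ε ^ 2 * ff φ μ y →
      ∃ c, IsLift μ Ω 1 y η c)
    {y y' : Fin m → ℝ} (hy : y ∈ Ω) (hy' : y' ∈ Ω) {z z' : ℕ → Fin m → ℝ}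
    (hzΩ : ∀ n, z n ∈ Ω) (hzΩ' : ∀ n, z' n ∈ Ω) (hg : ∀ n, good μ Ω (z n) (z' n))
    (hz : Filter.Tendsto z Filter.atTop (𝓝 y)) (hz' : Filter.Tendsto z' Filter.atTop (𝓝 y')) :
    ∃ c, IsLift μ Ω 1 y (μ y' - μ y) c := by
  classical
  choose cn hcn hcn1 using hg
  have hμc : ∀ x ∈ Ω, ContinuousAt μ x := fun x hx => (hG.dμ x hx).hasFDerivAt.continuousAt
  have hffc : ∀ x ∈ Ω, ContinuousAt (ff φ μ) x := fun x hx =>
    (ff_cont hG).continuousAt (hΩ.mem_nhds hx)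
  have hζ : Filter.Tendsto (fun n => μ (z' n) - μ (z n)) Filter.atTop (𝓝 (μ y' - μ y)) :=
    ((hμc y' hy').tendsto.comp hz').sub ((hμc y hy).tendsto.comp hz)
  set l := min (ff φ μ y) (ff φ μ y') with hl
  have hlpos : 0 < l := lt_min (hfp y hy) (hfp y' hy')
  -- (a)
  have hlow : ∀ T, 0 ≤ T → T ≤ 1 → ∀ c, IsLift μ Ω T y (μ y' - μ y) c → l ≤ ff φ μ (c T) := by
    intro T hT0 hT1 c hc
    have h1 := lift_tendsto hΩ hG hT0 hT1 hc hcn hz hζ
    have hcT : c T ∈ Ω := hc.mem T ⟨hT0, le_refl _⟩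
    have h2 : Filter.Tendsto (fun n => ff φ μ (cn n T)) Filter.atTop (𝓝 (ff φ μ (c T))) :=
      (hffc _ hcT).tendsto.comp h1
    have h3 : Filter.Tendsto (fun n => (1 - T) * ff φ μ (z n) + T * ff φ μ (z' n)) Filter.atTop
        (𝓝 ((1 - T) * ff φ μ y + T * ff φ μ y')) :=
      (((hffc y hy).tendsto.comp hz).const_mul _).add (((hffc y' hy').tendsto.comp hz').const_mul _)
    have h4 : (1 - T) * ff φ μ y + T * ff φ μ y' ≤ ff φ μ (c T) := by
      refine le_of_tendsto_of_tendsto' h3 h2 (fun n => ?_)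
      have h5 := (lift_concave hΩ hG (hcn n)).2 (show (0 : ℝ) ∈ Set.Icc 0 1 from
        ⟨le_refl _, zero_le_one⟩) (show (1 : ℝ) ∈ Set.Icc 0 1 from ⟨zero_le_one, le_refl _⟩)
        (show 0 ≤ 1 - T by linarith) hT0 (by ring)
      simp only [smul_eq_mul, mul_zero, mul_one, zero_add] at h5
      rw [(hcn n).zero, hcn1 n] at h5
      exact h5
    refine le_trans ?_ h4
    have h6 : l ≤ ff φ μ y := min_le_left _ _
    have h7 : l ≤ ff φ μ y' := min_le_right _ _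
    nlinarith
  -- (b)
  let S : Set ℝ := {T | 0 ≤ T ∧ T ≤ 1 ∧ ∃ c, IsLift μ Ω T y (μ y' - μ y) c}
  have h0S : (0 : ℝ) ∈ S := by
    refine ⟨le_refl _, zero_le_one, fun _ => y, continuousOn_const, fun _ _ => hy, rfl, ?_⟩
    intro t ht
    have : t = 0 := le_antisymm ht.2 ht.1
    rw [this, zero_smul, add_zero]
  have hbdd : BddAbove S := ⟨1, fun T hT => hT.2.1⟩
  set Ts := sSup S with hTs
  have hTs0 : 0 ≤ Ts := le_csSup hbdd h0S
  have hTs1 : Ts ≤ 1 := csSup_le ⟨0, h0S⟩ (fun T hT => hT.2.1)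
  have hlift : ∃ c, IsLift μ Ω Ts y (μ y' - μ y) c := by
    rcases hTs0.eq_or_lt with h | h
    · rw [← h]
      exact h0S.2.2
    · have hex : ∀ t, t < Ts → ∃ T, T ∈ S ∧ t < T := by
        intro t ht
        obtain ⟨T, hT, htT⟩ := exists_lt_of_lt_csSup ⟨0, h0S⟩ ht
        exact ⟨T, hT, htT⟩
      let c : ℝ → Fin m → ℝ := fun t => if ht : t < Ts then (hex t ht).choose_spec.1.2.2.choose t
        else y
      have hcl : ∀ T', 0 ≤ T' → T' < Ts → IsLift μ Ω T' y (μ y' - μ y) c := by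
        intro T' hT'0 hT'
        obtain ⟨T1, hT1, hT1'⟩ := hex T' hT'
        obtain ⟨-, -, c1, hc1⟩ := hT1
        refine lift_congr hT'0 (lift_restrict hT1'.le hc1) (fun t ht => ?_)
        have htTs : t < Ts := ht.2.trans_lt hT'
        have h8 := (hex t htTs).choose_spec.1.2.2.choose_spec
        have h9 : t < (hex t htTs).choose := (hex t htTs).choose_spec.2
        show (if ht : t < Ts then (hex t ht).choose_spec.1.2.2.choose t else y) = c1 t
        rw [dif_pos htTs]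
        exact lift_unique hΩ hG (T := t) (lift_restrict h9.le h8)
          (lift_restrict (ht.2.trans hT1'.le) hc1) t ⟨ht.1, le_refl _⟩
      refine extend hΩ hG hε hu h hcl hlpos (fun t ht0 ht => ?_)
      exact hlow t ht0 (ht.le.trans hTs1) c (hcl t ht0 ht)
  rcases hTs1.eq_or_lt with h1 | h1
  · rw [← h1]
    exact hlift
  · exfalso
    obtain ⟨c, hc⟩ := hlift
    have hx : c Ts ∈ Ω := hc.mem Ts ⟨hTs0, le_refl _⟩
    have hfx := hfp _ hx
    set q := (μ y' - μ y) ⬝ᵥ ((H (c Ts))⁻¹ *ᵥ (μ y' - μ y)) with hq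
    obtain ⟨δ, hδ0, hδ1, hδ2⟩ : ∃ δ : ℝ, 0 < δ ∧ δ ≤ 1 - Ts ∧
        δ ^ 2 * q ≤ ε ^ 2 * ff φ μ (c Ts) := by
      have hcont : Filter.Tendsto (fun δ : ℝ => δ ^ 2 * q) (𝓝 0) (𝓝 (0 ^ 2 * q)) :=
        (Continuous.tendsto (by fun_prop) 0)
      have hlt : (0 : ℝ) ^ 2 * q < ε ^ 2 * ff φ μ (c Ts) := by
        rw [zero_pow two_ne_zero, zero_mul]
        positivity
      have hev := hcont.eventually (gt_mem_nhds hlt)
      have hev2 : ∀ᶠ δ : ℝ in 𝓝[>] 0, δ ^ 2 * q < ε ^ 2 * ff φ μ (c Ts) :=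
        hev.filter_mono nhdsWithin_le_nhds
      have hev3 : ∀ᶠ δ : ℝ in 𝓝[>] 0, δ < 1 - Ts :=
        (gt_mem_nhds (show (0 : ℝ) < 1 - Ts by linarith)).filter_mono nhdsWithin_le_nhds
      have hev4 : ∀ᶠ δ : ℝ in 𝓝[>] 0, 0 < δ := eventually_mem_nhdsWithin
      obtain ⟨δ, h5, h6, h7⟩ := (hev2.and (hev3.and hev4)).exists
      exact ⟨δ, h7, h6.le, h5.le⟩
    have hqδ : (δ • (μ y' - μ y)) ⬝ᵥ ((H (c Ts))⁻¹ *ᵥ (δ • (μ y' - μ y))) ≤
        ε ^ 2 * ff φ μ (c Ts) := by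
      rw [Matrix.mulVec_smul, smul_dotProduct, dotProduct_smul, smul_eq_mul, smul_eq_mul,
        ← mul_assoc, ← pow_two]
      exact hδ2
    obtain ⟨d, hd⟩ := hu _ hx _ hqδ
    obtain ⟨c', hc'⟩ := lift_glue hTs0 hδ0 hc hd
    have hmem : Ts + δ ∈ S := ⟨by linarith, by linarith, c', hc'⟩
    have := le_csSup hbdd hmem
    linarith

end TLK
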