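import Pool.Agent.TLK.K3b

/-!
# [TLK-K3c] every segment between points of the image lifts

PROOF of `good_all`: the set `S` of good pairs in `Ω × Ω` is open (`good_open`), closed in `Ω × Ω` (sequences; `lift_of_lim`: the limit pair has a lift `c` on `[0, 1]`, and
`c 1 = lim cn n 1 = lim z' n = y'` by `lift_tendsto` with `T = 1`), and nonempty (`(y, y)`, constant lift); `Ω × Ω` is preconnected (`IsPreconnected.prod`), so `S = Ω × Ω`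
(e.g. `IsPreconnected.subset_of_closure_inter_subset`).
-/

open scoped Matrix Topology

namespace TLK

variable {m p : ℕ} {G : Type} [Group G] {L : G →* Matrix (Fin m) (Fin m) ℝ} {lam : G → ℝ}
  {Ω K : Set (Fin m → ℝ)} {φ : (Fin m → ℝ) → ℝ} {μ : (Fin m → ℝ) → Fin m → ℝ}
  {H : (Fin m → ℝ) → Matrix (Fin m) (Fin m) ℝ}

theorem K3c_self {y : Fin m → ℝ} (hy : y ∈ Ω) : good μ Ω y y := by
  refine ⟨fun _ => y, ⟨continuousOn_const, fun _ _ => hy, rfl, fun t _ => ?_⟩, rfl⟩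
  rw [sub_self, smul_zero, add_zero]

theorem K3c_cont (hG : HG L lam Ω φ μ H) {y : Fin m → ℝ} (hy : y ∈ Ω) : ContinuousAt μ y :=
  (hG.dμ y hy).hasFDerivAt.continuousAt

theorem K3c_lim (hΩ : IsOpen Ω) (hG : HG L lam Ω φ μ H)
    (hfp : ∀ y ∈ Ω, 0 < ff φ μ y) {ε : ℝ} (hε : 0 < ε)
    (hu : ∀ y ∈ Ω, ∀ η : Fin m → ℝ, η ⬝ᵥ ((H y)⁻¹ *ᵥ η) ≤ ε ^ 2 * ff φ μ y →
      ∃ c, IsLift μ Ω 1 y η c)
    {y y' : Fin m → ℝ} (hy : y ∈ Ω) (hy' : y' ∈ Ω) {z z' : ℕ → Fin m → ℝ}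
    (hzΩ : ∀ n, z n ∈ Ω) (hzΩ' : ∀ n, z' n ∈ Ω) (hg : ∀ n, good μ Ω (z n) (z' n))
    (hz : Filter.Tendsto z Filter.atTop (𝓝 y)) (hz' : Filter.Tendsto z' Filter.atTop (𝓝 y')) :
    good μ Ω y y' := by
  obtain ⟨c, hc⟩ := lift_of_lim hΩ hG hfp hε hu hy hy' hzΩ hzΩ' hg hz hz'
  choose cn hcn using hg
  have h1 : Filter.Tendsto (fun n => μ (z' n) - μ (z n)) Filter.atTop (𝓝 (μ y' - μ y)) :=
    ((K3c_cont hG hy').tendsto.comp hz').sub ((K3c_cont hG hy).tendsto.comp hz)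
  have h2 := lift_tendsto hΩ hG zero_le_one le_rfl hc (fun n => (hcn n).1) hz h1
  refine ⟨c, hc, ?_⟩
  refine tendsto_nhds_unique h2 ?_
  exact hz'.congr fun n => ((hcn n).2).symm

theorem good_all (hΩ : IsOpen Ω) (hconn : IsPreconnected Ω) (hG : HG L lam Ω φ μ H)
    (hfp : ∀ y ∈ Ω, 0 < ff φ μ y) {ε : ℝ} (hε : 0 < ε)
    (hu : ∀ y ∈ Ω, ∀ η : Fin m → ℝ, η ⬝ᵥ ((H y)⁻¹ *ᵥ η) ≤ ε ^ 2 * ff φ μ y →
      ∃ c, IsLift μ Ω 1 y η c)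
    {y y' : Fin m → ℝ} (hy : y ∈ Ω) (hy' : y' ∈ Ω) : good μ Ω y y' := by
  have hs : IsPreconnected (Ω ×ˢ Ω) := hconn.prod hconn
  have hopen : IsOpen {q : (Fin m → ℝ) × (Fin m → ℝ) | q ∈ Ω ×ˢ Ω ∧ good μ Ω q.1 q.2} := by
    rw [isOpen_iff_mem_nhds]
    rintro ⟨a, b⟩ ⟨hab, hgab⟩
    exact Filter.Eventually.and ((hΩ.prod hΩ).mem_nhds hab)
      (good_open hΩ hG hab.1 hab.2 hgab)
  have hsub : Ω ×ˢ Ω ⊆ {q : (Fin m → ℝ) × (Fin m → ℝ) | q ∈ Ω ×ˢ Ω ∧ good μ Ω q.1 q.2} := by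
    refine hs.subset_of_closure_inter_subset hopen
      ⟨(y, y), ⟨hy, hy⟩, ⟨hy, hy⟩, K3c_self hy⟩ ?_
    rintro ⟨a, b⟩ ⟨hcl, hab⟩
    obtain ⟨q, hq, hlim⟩ := mem_closure_iff_seq_limit.1 hcl
    refine ⟨hab, K3c_lim hΩ hG hfp hε hu hab.1 hab.2 (fun n => (hq n).1.1) (fun n => (hq n).1.2)
      (fun n => (hq n).2) ?_ ?_⟩
    · exact (continuous_fst.tendsto _).comp hlim
    · exact (continuous_snd.tendsto _).comp hlim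
  exact (hsub (Set.mk_mem_prod hy hy')).2

end TLK
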