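import Pool.Agent.TLK.Y7

/-!
# The theorem for LCK manifolds with a locally conformally product structure, tube case
-/

open scoped Matrix NumberField ContDiff

namespace TLK

/-- The tube `ℝ^m + i Ω ⊆ ℂ^m`. -/
def dom {m : ℕ} (Ω : Set (Fin m → ℝ)) : Set (Fin m → ℂ) :=
  {w | (fun j => (w j).im) ∈ Ω}

/-- `∂f/∂w_l = (∂f/∂x_l - i ∂f/∂y_l) / 2`, where `w_l = x_l + i y_l`. -/
noncomputable def dw {m : ℕ} (l : Fin m) (f : (Fin m → ℂ) → ℂ) (w : Fin m → ℂ) : ℂ :=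
  (fderiv ℝ f w (Pi.single l 1) - Complex.I * fderiv ℝ f w (Pi.single l Complex.I)) / 2

/-- `g` is (the coefficient matrix of) a Kähler metric `∑ g_jk dw_j dw̄_k` on `ℝ^m + i Ω`: smooth, Hermitian positive
definite, and the form `i ∑ g_jk dw_j ∧ dw̄_k` is closed. -/
structure IsKahler {m : ℕ} (Ω : Set (Fin m → ℝ)) (g : (Fin m → ℂ) → Matrix (Fin m) (Fin m) ℂ) :
    Prop where
  smooth : ∀ j k, ContDiffOn ℝ ∞ (fun w => g w j k) (dom Ω)
  hermitian : ∀ w ∈ dom Ω, (g w)ᴴ = g w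
  posDef : ∀ w ∈ dom Ω, ∀ v : Fin m → ℂ, v ≠ 0 →
    0 < (∑ j, ∑ k, g w j k * v j * (starRingEnd ℂ) (v k)).re
  closed : ∀ w ∈ dom Ω, ∀ j k l, dw l (fun x => g x j k) w = dw j (fun x => g x l k) w

/-- `Γ` acts properly discontinuously and cocompactly on `ℂ^p × (ℝ^m + i Ω)` by maps
`γ (z, w) = (A z + a, L w + b)` and multiplies the Kähler product metric `|dz|² + ∑ g_jk dw_j dw̄_k` by `lam²`:
`|A z| = lam |z|` (part of `IsForm`) and `Lᵀ g(L w + b) L = lam² g(w)`. So the quotient is an LCK manifold whose Weyl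
structure has reducible holonomy. -/
structure IsLCKTube {p m : ℕ} (Ω : Set (Fin m → ℝ)) (Γ : Subgroup (Equiv.Perm (Amb p m)))
    (g : (Fin m → ℂ) → Matrix (Fin m) (Fin m) ℂ) : Prop extends IsTubeGroup Ω Γ where
  kahler : IsKahler Ω g
  homothety : ∀ γ ∈ Γ, ∀ lam A a L b, IsForm γ lam A a L b → ∀ w ∈ dom Ω,
    (L.map Complex.ofReal)ᵀ * g (fun j => (∑ k, (L j k : ℂ) * w k) + (b j : ℂ)) * L.map Complex.ofReal =
      ((lam ^ 2 : ℝ) : ℂ) • g w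

/-- `∂φ/∂y_j` -/
noncomputable def pd {m : ℕ} (j : Fin m) (φ : (Fin m → ℝ) → ℝ) (y : Fin m → ℝ) : ℝ :=
  fderiv ℝ φ y (Pi.single j 1)

/-- `φ (L y) = lam ^ 2 * φ y` on `Ω`, for all `γ ∈ Γ` -/
def IsAut {p m : ℕ} (Ω : Set (Fin m → ℝ)) (Γ : Subgroup (Equiv.Perm (Amb p m)))
    (φ : (Fin m → ℝ) → ℝ) : Prop :=
  ∀ γ ∈ Γ, ∀ lam A a L b, IsForm γ lam A a L b → ∀ y ∈ Ω, φ (L *ᵥ y) = lam ^ 2 * φ y

/-- The metric `g` has a potential `φ (Im w)`, i.e. `g_jk = ∂²/∂w_j∂w̄_k φ(Im w) = (1/4) (∂_j ∂_k φ)(Im w)`, which is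
automorphic: `φ (L y) = lam ^ 2 * φ y`. -/
def AutPotential {p m : ℕ} (Ω : Set (Fin m → ℝ)) (Γ : Subgroup (Equiv.Perm (Amb p m)))
    (g : (Fin m → ℂ) → Matrix (Fin m) (Fin m) ℂ) : Prop :=
  ∃ φ : (Fin m → ℝ) → ℝ, ContDiffOn ℝ 2 φ Ω ∧
    (∀ w ∈ dom Ω, ∀ j k, g w j k = ((pd j (pd k φ) (fun l => (w l).im) / 4 : ℝ) : ℂ)) ∧
    IsAut Ω Γ φ

/-- The statement of the theorem. -/
def StatementLCK : Prop :=
  ∀ (p m : ℕ), 0 < p → 0 < m → ∀ (Ω : Set (Fin m → ℝ)), IsOpen Ω → IsConnected Ω →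
    ∀ (Γ : Subgroup (Equiv.Perm (Amb p m))) (g : (Fin m → ℂ) → Matrix (Fin m) (Fin m) ℂ),
      IsLCKTube Ω Γ g → ((Convex ℝ Ω ∧ NoLine Ω) ∨ AutPotential Ω Γ g) → Conclusion Ω Γ

theorem pd_pd {m : ℕ} {Ω : Set (Fin m → ℝ)} (hΩ : IsOpen Ω) {φ : (Fin m → ℝ) → ℝ}
    (hφ : ContDiffOn ℝ 2 φ Ω) {y : Fin m → ℝ} (hy : y ∈ Ω) (j k : Fin m) :
    pd j (pd k φ) y = fderiv ℝ (fderiv ℝ φ) y (Pi.single j 1) (Pi.single k 1) := by
  have h1 : ContDiffOn ℝ 1 (fderiv ℝ φ) Ω := hφ.fderiv_of_isOpen hΩ (by norm_num)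
  have h2 : DifferentiableAt ℝ (fderiv ℝ φ) y :=
    (h1.differentiableOn (by norm_num)).differentiableAt (hΩ.mem_nhds hy)
  have h3 : pd k φ = fun x => (fderiv ℝ φ x) (Pi.single k 1) := rfl
  show fderiv ℝ (pd k φ) y (Pi.single j 1) = _
  rw [h3, fderiv_clm_apply h2 (differentiableAt_const _)]
  simp

theorem hasPotential_of_aut {p m : ℕ} {Ω : Set (Fin m → ℝ)} (hΩ : IsOpen Ω)
    {Γ : Subgroup (Equiv.Perm (Amb p m))}
    {g : (Fin m → ℂ) → Matrix (Fin m) (Fin m) ℂ} (h : IsLCKTube Ω Γ g) (hg : AutPotential Ω Γ g) :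
    HasPotential Ω Γ := by
  obtain ⟨φ, h1, h2, h3⟩ := hg
  refine ⟨φ, h1, fun y hy v hv => ?_, h3⟩
  set w : Fin m → ℂ := fun j => Complex.I * (y j : ℂ) with hw
  have hwim : (fun j => (w j).im) = y := by
    funext j
    simp [hw]
  have hwd : w ∈ dom Ω := by
    show (fun j => (w j).im) ∈ Ω
    rw [hwim]; exact hy
  have hv' : (fun j => ((v j : ℝ) : ℂ)) ≠ 0 := by
    intro h0
    apply hv
    funext j
    have := congrFun h0 j
    simpa using this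
  have hpos := h.kahler.posDef w hwd (fun j => ((v j : ℝ) : ℂ)) hv'
  have hval : (∑ j, ∑ k, g w j k * ((v j : ℝ) : ℂ) * (starRingEnd ℂ) ((v k : ℝ) : ℂ)).re =
      fderiv ℝ (fderiv ℝ φ) y v v / 4 := by
    have hvs : v = ∑ j, v j • (Pi.single j (1 : ℝ) : Fin m → ℝ) := by
      funext i
      simp [Finset.sum_apply, Pi.single_apply]
    have h4 : fderiv ℝ (fderiv ℝ φ) y v v =
        ∑ j, ∑ k, v j * v k * fderiv ℝ (fderiv ℝ φ) y (Pi.single j 1) (Pi.single k 1) := by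
      conv_lhs => rw [hvs]
      simp only [map_sum, map_smul, _root_.sum_apply, _root_.smul_apply, smul_eq_mul,
        Finset.mul_sum]
      refine Finset.sum_comm.trans (Finset.sum_congr rfl fun j _ => Finset.sum_congr rfl fun k _ => ?_)
      ring
    rw [h4, Finset.sum_div]
    simp only [Complex.re_sum]
    refine Finset.sum_congr rfl fun j _ => ?_
    rw [Finset.sum_div]
    refine Finset.sum_congr rfl fun k _ => ?_
    rw [h2 w hwd j k, hwim, pd_pd hΩ h1 hy j k, Complex.conj_ofReal, ← Complex.ofReal_mul, ← Complex.ofReal_mul, Complex.ofReal_re]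
    ring
  rw [hval] at hpos
  linarith

theorem mainLCK : StatementLCK := by
  intro p m hp hm Ω hΩ hcon Γ g hΓ hH
  refine main p m hp hm Ω hΩ hcon Γ hΓ.toIsTubeGroup ?_
  rcases hH with hH | hH
  · exact Or.inl hH
  · exact Or.inr (hasPotential_of_aut hΩ hΓ hH)

end TLK
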