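import Pool.Agent.TLK.A0
import Pool.Agent.TLK.C7

/-!
# [TLK-N1a] the characteristic polynomial of `R g`

PROOF. Over `ℝ`: `Θ` conjugates `R g` (acting on `ℝ^n`) into `A g × L g` on `CP p × (Fin m → ℝ)` (`hΘ`), so
`(R g).charpoly.map = (A g as real linear map).charpoly * (L g).charpoly` (`LinearMap.charpoly_prodMap`, `LinearEquiv.charpoly_conj`, `Matrix.charpoly_map`,
`LinearMap.charpoly_toMatrix`), and `(L g).charpoly = (diagonal (χ g)).charpoly = ∏ (X - C (χ g i))` (`P * L g * P' = diagonal`, `Matrix.charpoly` of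
similar matrices; `Matrix.charpoly_units_conj`). `cA` = the charpoly of the real linear map `A g`, mapped to `ℂ`: monic of degree `finrank ℝ (CP p) = 2 p`.
If `r : ℂ` is a root of `cA`, there are real vectors `u, w : CP p`, not both `0`, with `A (u) = (re r) u - (im r) w`, `A w = (im r) u + (re r) w` (an eigenvector
`u + i w` of the complexification: take a real matrix of `A g` in a real basis, a complex eigenvector of it, real and imaginary parts).
`‖A u‖² + ‖A w‖² = |r|² (‖u‖² + ‖w‖²)` (expand: the mixed terms cancel, real inner product) and it is also `lam² (‖u‖² + ‖w‖²)`. So `‖r‖ = lam`.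
Last part: `A g z = α • z`, `z ≠ 0`: then `u = z`, `w = ∓ i z` satisfy the equations above for `r = α` (real linear map `A g`, `A (i z) = α i z`), so `α` is an
eigenvalue of the complexified real matrix, a root of `cA`.
-/

open scoped Matrix
open Polynomial

namespace TLK

variable {n p m : ℕ} {G : Type} [Group G]

theorem charpoly_diag {m : ℕ} {Lm P P' : Matrix (Fin m) (Fin m) ℝ} {c : Fin m → ℝ}
    (h1 : P * P' = 1) (h1' : P' * P = 1) (h2 : P * Lm = Matrix.diagonal c * P) :
    Lm.charpoly = ∏ i, (X - C (c i)) := by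
  have h3 : P * Lm * P' = Matrix.diagonal c := by rw [h2, mul_assoc, h1, mul_one]
  have h4 : (P * Lm * P').charpoly = Lm.charpoly := by
    rw [Matrix.charpoly_mul_comm, ← mul_assoc, h1', one_mul]
  rw [← h4, h3, Matrix.charpoly_diagonal]

theorem ev_iff {N : ℕ} (M : Matrix (Fin N) (Fin N) ℂ) (r : ℂ) :
    M.charpoly.IsRoot r ↔ ∃ v : Fin N → ℂ, v ≠ 0 ∧ M *ᵥ v = r • v := by
  rw [← Matrix.charpoly_toLin', ← Module.End.hasEigenvalue_iff_isRoot_charpoly]
  constructor
  · intro h
    obtain ⟨v, hv⟩ := h.exists_hasEigenvector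
    refine ⟨v, hv.2, ?_⟩
    have := hv.apply_eq_smul
    rwa [Matrix.toLin'_apply] at this
  · rintro ⟨v, hv, h⟩
    refine Module.End.hasEigenvalue_of_hasEigenvector (x := v) ⟨?_, hv⟩
    rw [Module.End.mem_eigenspace_iff, Matrix.toLin'_apply, h]

theorem rot_norm {p : ℕ} (u w : CP p) (a b : ℝ) :
    ‖(a : ℝ) • u - (b : ℝ) • w‖ ^ 2 + ‖(b : ℝ) • u + (a : ℝ) • w‖ ^ 2
      = (a ^ 2 + b ^ 2) * (‖u‖ ^ 2 + ‖w‖ ^ 2) := by
  simp only [EuclideanSpace.norm_sq_eq]
  rw [← Finset.sum_add_distrib, ← Finset.sum_add_distrib, Finset.mul_sum]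
  refine Finset.sum_congr rfl (fun i _ => ?_)
  simp only [PiLp.sub_apply, PiLp.add_apply, PiLp.smul_apply, Complex.sq_norm,
    Complex.normSq_apply, Complex.real_smul]
  simp
  ring

theorem Setting.charpoly_factor (S : Setting n p m G) {P P' : Matrix (Fin m) (Fin m) ℝ}
    {χ : G → Fin m → ℝ} (hD : Diag S.L P P' χ) (g : G) :
    ∃ cA : ℂ[X], cA.Monic ∧ cA.natDegree = 2 * p ∧
      (S.R g).charpoly.map (Int.castRingHom ℂ) = (∏ i, (X - C ((χ g i : ℝ) : ℂ))) * cA ∧
      (∀ r : ℂ, cA.IsRoot r → ‖r‖ = S.lam g) ∧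
      (∀ (α : ℂ) (z : CP p), z ≠ 0 → S.A g z = α • z → cA.IsRoot α) := by
  classical
  let Ag : CP p →ₗ[ℝ] CP p := (S.A g).restrictScalars ℝ
  let b := Module.finBasis ℝ (CP p)
  let M := LinearMap.toMatrix b b Ag
  have hN : Module.finrank ℝ (CP p) = 2 * p := by
    rw [finrank_real_of_complex, finrank_euclideanSpace_fin]
  have hM : M.charpoly = Ag.charpoly := LinearMap.charpoly_toMatrix Ag b
  let MC : Matrix (Fin (Module.finrank ℝ (CP p))) (Fin (Module.finrank ℝ (CP p))) ℂ :=
    M.map (algebraMap ℝ ℂ)
  have hMC : MC.charpoly = M.charpoly.map (algebraMap ℝ ℂ) := Matrix.charpoly_map M _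
  -- factorization over the reals
  have hfacR : (S.R g).charpoly.map (Int.castRingHom ℝ) = (∏ i, (X - C (χ g i))) * M.charpoly := by
    have h1 : (S.R g).charpoly.map (Int.castRingHom ℝ)
        = ((S.R g).map (Int.cast : ℤ → ℝ)).charpoly := (Matrix.charpoly_map (S.R g) _).symm
    have h2 : S.Θ.conj (Matrix.toLin' ((S.R g).map (Int.cast : ℤ → ℝ)))
        = Ag.prodMap (Matrix.toLin' (S.L g)) := by
      apply LinearMap.ext
      intro x
      have h := S.hΘ g (S.Θ.symm x)
      rw [LinearEquiv.apply_symm_apply] at h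
      rw [LinearEquiv.conj_apply_apply, Matrix.toLin'_apply, h]
      rfl
    rw [h1, ← Matrix.charpoly_toLin', ← LinearEquiv.charpoly_conj S.Θ, h2,
      LinearMap.charpoly_prodMap, Matrix.charpoly_toLin', charpoly_diag hD.right hD.left (hD.eq g),
      hM, mul_comm]
  have hvec : ∀ (r : ℂ) (v : Fin (Module.finrank ℝ (CP p)) → ℂ), MC *ᵥ v = r • v ↔
      (M *ᵥ (fun i => (v i).re) = fun i => r.re * (v i).re - r.im * (v i).im) ∧
      (M *ᵥ (fun i => (v i).im) = fun i => r.im * (v i).re + r.re * (v i).im) := by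
    intro r v
    have hre : ∀ i, ((MC *ᵥ v) i).re = (M *ᵥ (fun i => (v i).re)) i := by
      intro i
      simp [MC, Matrix.mulVec, dotProduct]
    have him : ∀ i, ((MC *ᵥ v) i).im = (M *ᵥ (fun i => (v i).im)) i := by
      intro i
      simp [MC, Matrix.mulVec, dotProduct]
    constructor
    · intro h
      constructor
      · funext i
        rw [← hre, h]
        simp
      · funext i
        rw [← him, h]
        simp [add_comm]
    · rintro ⟨h1, h2⟩
      funext i
      apply Complex.ext
      · rw [hre, h1]; simp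
      · rw [him, h2]; simp [add_comm]
  have hMb : ∀ v, b.equivFun.symm (M *ᵥ v) = S.A g (b.equivFun.symm v) := by
    intro v
    have h1 : M *ᵥ v = b.equivFun (Ag (b.equivFun.symm v)) := by
      have h := LinearMap.toMatrix_mulVec_repr b b Ag (b.equivFun.symm v)
      have h3 : ⇑(b.repr (b.equivFun.symm v)) = v := b.equivFun.apply_symm_apply v
      rw [h3] at h
      exact h
    rw [h1, LinearEquiv.symm_apply_apply]
    rfl
  refine ⟨MC.charpoly, Matrix.charpoly_monic _, ?_, ?_, ?_, ?_⟩
  · rw [Matrix.charpoly_natDegree_eq_dim, Fintype.card_fin, hN]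
  · have h := congrArg (Polynomial.map (algebraMap ℝ ℂ)) hfacR
    have hc : (algebraMap ℝ ℂ).comp (Int.castRingHom ℝ) = Int.castRingHom ℂ := RingHom.ext_int _ _
    rw [Polynomial.map_map, hc, Polynomial.map_mul, ← hMC, Polynomial.map_prod] at h
    simpa using h
  · intro r hr
    obtain ⟨v, hv0, hv⟩ := (ev_iff MC r).1 hr
    obtain ⟨h1, h2⟩ := (hvec r v).1 hv
    set u := b.equivFun.symm (fun i => (v i).re) with hu
    set w := b.equivFun.symm (fun i => (v i).im) with hw
    have hAu : S.A g u = r.re • u - r.im • w := by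
      rw [hu, ← hMb, h1, hw, ← map_smul, ← map_smul, ← map_sub]
      rfl
    have hAw : S.A g w = r.im • u + r.re • w := by
      rw [hw, ← hMb, h2, hu, ← map_smul, ← map_smul, ← map_add]
      rfl
    have hne : u ≠ 0 ∨ w ≠ 0 := by
      by_contra hcon
      push Not at hcon
      apply hv0
      have e1 := b.equivFun.symm.map_eq_zero_iff.1 hcon.1
      have e2 := b.equivFun.symm.map_eq_zero_iff.1 hcon.2
      funext i
      exact Complex.ext (congrFun e1 i) (congrFun e2 i)
    have hpos : 0 < ‖u‖ ^ 2 + ‖w‖ ^ 2 := by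
      rcases hne with h | h
      · have := norm_pos_iff.2 h
        positivity
      · have := norm_pos_iff.2 h
        positivity
    have h3 := rot_norm u w r.re r.im
    rw [← hAu, ← hAw, S.norm_A, S.norm_A] at h3
    have h4 : (S.lam g) ^ 2 = r.re ^ 2 + r.im ^ 2 := by
      apply mul_right_cancel₀ hpos.ne'
      rw [← h3]; ring
    have h5 : ‖r‖ ^ 2 = (S.lam g) ^ 2 := by
      rw [h4, Complex.sq_norm, Complex.normSq_apply]; ring
    exact (pow_left_inj₀ (norm_nonneg _) (S.lam_pos g).le two_ne_zero).1 h5
  · intro α z hz hα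
    rw [ev_iff]
    -- `u = z`, `w = - i z`
    obtain ⟨w, hw⟩ : ∃ w : CP p, w = (-Complex.I) • z := ⟨_, rfl⟩
    refine ⟨fun i => ((b.equivFun z i : ℝ) : ℂ) + Complex.I * ((b.equivFun w i : ℝ) : ℂ), ?_, ?_⟩
    · intro h
      apply hz
      have : b.equivFun z = 0 := by
        funext i
        have h1 := congrArg Complex.re (congrFun h i)
        simpa using h1
      exact b.equivFun.map_eq_zero_iff.1 this
    · rw [hvec]
      have e1 : (fun i => (((b.equivFun z i : ℝ) : ℂ) + Complex.I * ((b.equivFun w i : ℝ) : ℂ)).re)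
          = b.equivFun z := by funext i; simp
      have e2 : (fun i => (((b.equivFun z i : ℝ) : ℂ) + Complex.I * ((b.equivFun w i : ℝ) : ℂ)).im)
          = b.equivFun w := by funext i; simp
      have hM' : ∀ y, M *ᵥ (b.equivFun y) = b.equivFun (S.A g y) := by
        intro y
        have h := hMb (b.equivFun y)
        rw [LinearEquiv.symm_apply_apply] at h
        rw [← h, LinearEquiv.apply_symm_apply]
      have hαz : α • z = α.re • z - α.im • w := by
        have h0 : α = (α.re : ℂ) + α.im * Complex.I := (Complex.re_add_im α).symm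
        have h1 : α • z = (α.re : ℂ) • z + (α.im : ℂ) • (Complex.I • z) := by
          conv_lhs => rw [h0]
          rw [add_smul, mul_smul]
        rw [h1]
        rw [hw]
        simp only [neg_smul, smul_neg, sub_neg_eq_add]
        rfl
      have hαw : α • w = α.im • z + α.re • w := by
        have h2 : α • w = (-Complex.I) • (α • z) := by
          rw [hw, smul_smul, smul_smul, mul_comm]
        rw [h2, hαz, smul_sub]
        have h3 : (-Complex.I) • (α.re • z) = α.re • w := by
          rw [hw, smul_comm]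
        have h4 : (-Complex.I) • (α.im • w) = -(α.im • z) := by
          rw [smul_comm, hw, smul_smul]
          simp
        rw [h3, h4]
        abel
      have hAw : S.A g w = α • w := by
        rw [hw, map_smul, hα, smul_comm]
      rw [e1, e2, hM', hM', hα, hAw, hαz, hαw]
      have f1 : b.equivFun (α.re • z - α.im • w)
          = α.re • b.equivFun z - α.im • b.equivFun w := by
        rw [map_sub, map_smul, map_smul]
      have f2 : b.equivFun (α.im • z + α.re • w)
          = α.im • b.equivFun z + α.re • b.equivFun w := by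
        rw [map_add, map_smul, map_smul]
      rw [f1, f2]
      constructor
      · funext i
        have a1 := congrFun e1 i
        have a2 := congrFun e2 i
        simp only at a1 a2
        rw [a1, a2]
        simp
      · funext i
        have a1 := congrFun e1 i
        have a2 := congrFun e2 i
        simp only at a1 a2
        rw [a1, a2]
        simp

end TLK
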