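import Mathlib

/-!
# [TLK-N1b] an irreducibility criterion (pure algebra)

`f : ℤ[X]` monic, `|f(0)| = 1`, `f = ∏_{i : Fin m} (X - exp(-x_i)) * cA` over `ℂ`, `cA` monic of degree `2 p`, all roots of `cA` have absolute value `l = exp((∑ x_i)/(2p))`;
`x_i > 0`, and `x_{i0} > (2p - 1) ∑_{i ≠ i0} x_i`. Then `f` is irreducible over `ℚ`.

PROOF. `f` is monic, so it suffices: `f` is irreducible in `ℤ[X]` (`Polynomial.Monic.irreducible_iff_irreducible_map_fraction_map`), and for this
(`Polynomial.Monic.irreducible_iff…` / `Monic.irreducible_of…`): if `f = q r` with monic `q, r : ℤ[X]` then `q = 1` or `r = 1` (`f ≠ 1` because its degree is `m + 2 p > 0`).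
Let `f = q r`. `q(0) r(0) = f(0) = ±1`, so `|q(0)| = 1`. Over `ℂ` the multiset of roots of `q` is a submultiset of the roots of `f`; roots of `f` = roots `{exp(-x_i)}` plus
roots of `cA` (multisets, `2 p` elements of absolute value `l`). So the roots of `q` are `{exp(-x_i) : i ∈ I}` plus `k` elements of absolute value `l`, with `I ⊆ Fin m` a
finset and `k ≤ 2 p` (unique factorization: e.g. `Multiset.le_add…`: every submultiset of `s + t` is `s' + t'` with `s' ≤ s`, `t' ≤ t`; and `s' ≤ Finset.univ.val.map (…)`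
is the image of a finset: `Multiset.le_map…`). The product of the absolute values of the roots is `|q(0)| = 1`:
`∑_{i ∈ I} x_i = k (∑ x_i)/(2p)`. Write `X' = ∑_{i ≠ i0} x_i`, `x = x_{i0}`, `x > (2p - 1) X'`.
Case `i0 ∈ I`: `x + ∑_{I ∖ i0} x_i = (k/(2p)) (x + X')`. If `k ≤ 2p - 1`: `x (1 - k/(2p)) ≤ (k/(2p)) X'`, i.e. `x (2p - k) ≤ k X'`, so `x ≤ x (2p - k) ≤ (2p - 1) X'`, contradiction. So `k = 2p`
and `∑_I x_i = ∑ x_i`, so `I = univ` (`x_i > 0`): `q` has degree `m + 2p`, `r = 1`.
Case `i0 ∉ I`: `(k/(2p)) (x + X') = ∑_I x_i ≤ X'`. If `k ≥ 1`: `x + X' ≤ 2p X'`, contradiction. So `k = 0`, `∑_I x_i = 0`, `I = ∅`: `q = 1`.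
-/

open Polynomial

namespace TLK

/-- a submultiset of an image is the image of a submultiset -/
theorem ms_le_map {α β : Type} (g : α → β) (u : Multiset α) (s : Multiset β) (h : s ≤ u.map g) :
    ∃ v ≤ u, s = v.map g := by
  induction u using Quotient.inductionOn with
  | _ l =>
  induction s using Quotient.inductionOn with
  | _ l1 =>
  have h' : (l1 : Multiset β) ≤ ((l.map g : List β) : Multiset β) := h
  rw [Multiset.coe_le] at h'
  obtain ⟨l2, hl2, hsub⟩ := h'
  obtain ⟨l3, hl3, rfl⟩ := List.sublist_map_iff.1 hsub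
  refine ⟨(l3 : Multiset α), Multiset.coe_le.2 hl3.subperm, ?_⟩
  exact (Quotient.sound hl2.symm)

/-- a submultiset of a sum splits -/
theorem ms_le_add {β : Type} (q s t : Multiset β) (h : q ≤ s + t) :
    ∃ s' ≤ s, ∃ t' ≤ t, q = s' + t' := by
  classical
  refine ⟨q ∩ s, Multiset.inter_le_right, q - s, ?_, ?_⟩
  · rw [tsub_le_iff_left]; exact h
  · rw [add_comm, Multiset.sub_add_inter]

theorem log_norm_prod (s : Multiset ℂ) (h : (0 : ℂ) ∉ s) :
    (s.map (fun z => Real.log ‖z‖)).sum = Real.log ‖s.prod‖ := by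
  induction s using Multiset.induction_on with
  | empty => simp
  | cons a s ih =>
    have ha : a ≠ 0 := fun h' => h (by rw [h']; exact Multiset.mem_cons_self _ _)
    have hs : (0 : ℂ) ∉ s := fun h' => h (Multiset.mem_cons_of_mem h')
    rw [Multiset.map_cons, Multiset.sum_cons, ih hs, Multiset.prod_cons, norm_mul,
      Real.log_mul (norm_ne_zero_iff.2 ha)]
    rw [norm_ne_zero_iff]
    exact Multiset.prod_ne_zero hs

theorem irr_crit_key {m p : ℕ} (hp : 0 < p)
    (x : Fin m → ℝ) (hx : ∀ i, 0 < x i) (i0 : Fin m)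
    (hbig : (2 * p - 1 : ℝ) * ∑ i ∈ Finset.univ.erase i0, x i < x i0)
    (cA : ℂ[X]) (hA : cA.Monic) (hdeg : cA.natDegree = 2 * p)
    (hroot : ∀ r : ℂ, cA.IsRoot r → ‖r‖ = Real.exp ((∑ i, x i) / (2 * p)))
    (q : ℂ[X]) (hq : q.Monic) (hqd : q ∣ (∏ i, (X - C ((Real.exp (-x i) : ℝ) : ℂ))) * cA)
    (hq0 : ‖q.coeff 0‖ = 1) : q.natDegree = 0 ∨ q.natDegree = m + 2 * p := by
  classical
  set P : ℂ[X] := ∏ i, (X - C ((Real.exp (-x i) : ℝ) : ℂ)) with hP
  have hPm : P.Monic := monic_prod_of_monic _ _ (fun i _ => monic_X_sub_C _)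
  have hPr : P.roots = Finset.univ.val.map (fun i => ((Real.exp (-x i) : ℝ) : ℂ)) := by
    rw [hP]
    have h := roots_multiset_prod_X_sub_C
      (Finset.univ.val.map (fun i : Fin m => ((Real.exp (-x i) : ℝ) : ℂ)))
    rw [Multiset.map_map] at h
    exact h
  have hF : (P * cA) ≠ 0 := (hPm.mul hA).ne_zero
  have hle : q.roots ≤ P.roots + cA.roots := by
    rw [← roots_mul hF]
    exact roots.le_of_dvd hF hqd
  obtain ⟨s', hs', t', ht', hst⟩ := ms_le_add _ _ _ hle
  rw [hPr] at hs'
  obtain ⟨v, hv, hsv⟩ := ms_le_map _ _ _ hs'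
  have hvn : v.Nodup := Multiset.nodup_of_le hv Finset.univ.nodup
  let I : Finset (Fin m) := ⟨v, hvn⟩
  have hsI : s' = I.val.map (fun i => ((Real.exp (-x i) : ℝ) : ℂ)) := hsv
  -- degree
  have hdegq : q.natDegree = I.card + t'.card := by
    rw [(IsAlgClosed.splits q).natDegree_eq_card_roots, hst, hsI, Multiset.card_add,
      Multiset.card_map]
    rfl
  have htcard : t'.card ≤ 2 * p := by
    calc t'.card ≤ cA.roots.card := Multiset.card_le_card ht'
      _ ≤ cA.natDegree := cA.card_roots'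
      _ = 2 * p := hdeg
  have ht'norm : ∀ z ∈ t', Real.log ‖z‖ = (∑ i, x i) / (2 * p) := by
    intro z hz
    have h1 : z ∈ cA.roots := Multiset.mem_of_le ht' hz
    rw [mem_roots hA.ne_zero] at h1
    rw [hroot z h1, Real.log_exp]
  have h0 : (0 : ℂ) ∉ q.roots := by
    intro h
    rw [mem_roots hq.ne_zero, IsRoot.def, ← coeff_zero_eq_eval_zero] at h
    rw [h, norm_zero] at hq0
    exact zero_ne_one hq0
  have hsum : (q.roots.map (fun z => Real.log ‖z‖)).sum = 0 := by
    rw [log_norm_prod _ h0]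
    have h1 := (IsAlgClosed.splits q).coeff_zero_eq_prod_roots_of_monic hq
    have h2 : ‖q.roots.prod‖ = 1 := by
      rw [h1, norm_mul, norm_pow, norm_neg, norm_one, one_pow, one_mul] at hq0
      exact hq0
    rw [h2, Real.log_one]
  have hsum2 : (q.roots.map (fun z => Real.log ‖z‖)).sum
      = -∑ i ∈ I, x i + t'.card * ((∑ i, x i) / (2 * p)) := by
    rw [hst, Multiset.map_add, Multiset.sum_add, hsI, Multiset.map_map]
    congr 1
    · rw [← Finset.sum_neg_distrib]
      refine Finset.sum_congr rfl (fun i _ => ?_)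
      simp only [Function.comp_apply]
      rw [Complex.norm_real, Real.norm_eq_abs, abs_of_pos (Real.exp_pos _), Real.log_exp]
    · rw [Multiset.map_congr rfl ht'norm, Multiset.map_const', Multiset.sum_replicate,
        nsmul_eq_mul]
  have hp' : (0 : ℝ) < 2 * p := by positivity
  have hkey : ∑ i ∈ I, x i * (2 * p) = t'.card * ∑ i, x i := by
    have h1 : ∑ i ∈ I, x i = t'.card * ((∑ i, x i) / (2 * p)) := by
      rw [hsum] at hsum2; linarith
    rw [← Finset.sum_mul, h1]
    field_simp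
  rw [← Finset.sum_mul] at hkey
  have hXi : ∑ i, x i = x i0 + ∑ i ∈ Finset.univ.erase i0, x i :=
    (Finset.add_sum_erase _ _ (Finset.mem_univ i0)).symm
  set X' : ℝ := ∑ i ∈ Finset.univ.erase i0, x i with hX'
  have hX'0 : 0 ≤ X' := Finset.sum_nonneg (fun i _ => (hx i).le)
  have hx0 := hx i0
  have hp1 : (1 : ℝ) ≤ p := by exact_mod_cast hp
  by_cases hi0 : i0 ∈ I
  · right
    have hIsum : ∑ i ∈ I, x i = x i0 + ∑ i ∈ I.erase i0, x i :=
      (Finset.add_sum_erase _ _ hi0).symm
    have hE0 : 0 ≤ ∑ i ∈ I.erase i0, x i := Finset.sum_nonneg (fun i _ => (hx i).le)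
    have hk : t'.card = 2 * p := by
      by_contra hne
      have hlt : t'.card + 1 ≤ 2 * p := by omega
      have hlt' : (t'.card : ℝ) + 1 ≤ 2 * p := by exact_mod_cast hlt
      rw [hIsum, hXi] at hkey
      -- (x + E) 2p = k (x + X')
      have h1 : x i0 * (2 * p - t'.card) ≤ t'.card * X' := by nlinarith
      have h2 : x i0 ≤ x i0 * (2 * p - t'.card) := by nlinarith
      have h3 : (t'.card : ℝ) * X' ≤ (2 * p - 1) * X' := by nlinarith
      linarith
    have hsumI : ∑ i ∈ I, x i = ∑ i, x i := by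
      rw [hk] at hkey
      push_cast at hkey
      have : (∑ i ∈ I, x i) * (2 * p) = (∑ i, x i) * (2 * p) := by rw [hkey]; ring
      exact mul_right_cancel₀ hp'.ne' this
    have hIu : I = Finset.univ := by
      by_contra hne
      have : ∑ i ∈ I, x i < ∑ i, x i := by
        obtain ⟨j, hj⟩ : ∃ j, j ∉ I := by
          by_contra hall
          push Not at hall
          exact hne (Finset.eq_univ_iff_forall.2 hall)
        exact Finset.sum_lt_sum_of_subset (Finset.subset_univ _) (Finset.mem_univ j) hj (hx j)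
          (fun i _ _ => (hx i).le)
      linarith
    rw [hdegq, hk, hIu, Finset.card_univ, Fintype.card_fin]
  · left
    have hIle : ∑ i ∈ I, x i ≤ X' := by
      refine Finset.sum_le_sum_of_subset_of_nonneg ?_ (fun i _ _ => (hx i).le)
      intro i hi
      exact Finset.mem_erase.2 ⟨fun h => hi0 (h ▸ hi), Finset.mem_univ _⟩
    have hk : t'.card = 0 := by
      by_contra hne
      have h1 : (1 : ℝ) ≤ t'.card := by exact_mod_cast Nat.one_le_iff_ne_zero.2 hne
      rw [hXi] at hkey
      have h2 : x i0 + X' ≤ t'.card * (x i0 + X') := by nlinarith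
      have h3 : (∑ i ∈ I, x i) * (2 * p) ≤ X' * (2 * p) :=
        mul_le_mul_of_nonneg_right hIle hp'.le
      nlinarith
    have hI0 : I = ∅ := by
      rw [hk] at hkey
      by_contra hne
      obtain ⟨j, hj⟩ := Finset.nonempty_iff_ne_empty.2 hne
      have : 0 < ∑ i ∈ I, x i := Finset.sum_pos (fun i _ => hx i) ⟨j, hj⟩
      have h4 : 0 < (∑ i ∈ I, x i) * (2 * p) := mul_pos this hp'
      rw [hkey] at h4
      simp at h4
    rw [hdegq, hk, hI0]
    rfl

theorem irr_crit {m p : ℕ} (hp : 0 < p) (f : ℤ[X]) (hf : f.Monic) (h0 : |f.coeff 0| = 1)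
    (x : Fin m → ℝ) (hx : ∀ i, 0 < x i) (i0 : Fin m)
    (hbig : (2 * p - 1 : ℝ) * ∑ i ∈ Finset.univ.erase i0, x i < x i0)
    (cA : ℂ[X]) (hA : cA.Monic) (hdeg : cA.natDegree = 2 * p)
    (hfac : f.map (Int.castRingHom ℂ) = (∏ i, (X - C ((Real.exp (-x i) : ℝ) : ℂ))) * cA)
    (hroot : ∀ r : ℂ, cA.IsRoot r → ‖r‖ = Real.exp ((∑ i, x i) / (2 * p))) :
    Irreducible (f.map (Int.castRingHom ℚ)) := by
  classical
  have hPm : (∏ i, (X - C ((Real.exp (-x i) : ℝ) : ℂ))).Monic :=
    monic_prod_of_monic _ _ (fun i _ => monic_X_sub_C _)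
  have hdegf : f.natDegree = m + 2 * p := by
    rw [← hf.natDegree_map (Int.castRingHom ℂ), hfac, hPm.natDegree_mul hA,
      natDegree_prod_of_monic _ _ (fun i _ => monic_X_sub_C _), hdeg]
    simp only [natDegree_X_sub_C, Finset.sum_const, Finset.card_univ, Fintype.card_fin,
      smul_eq_mul, mul_one]
  have hirr : Irreducible f := by
    rw [hf.irreducible_iff_natDegree]
    refine ⟨?_, ?_⟩
    · intro h1
      rw [h1, natDegree_one] at hdegf
      omega
    · intro q r hq hr hqr
      have hc : |q.coeff 0| = 1 := by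
        have h1 : q.coeff 0 * r.coeff 0 = f.coeff 0 := by rw [← hqr, mul_coeff_zero]
        have h2 : |q.coeff 0| * |r.coeff 0| = 1 := by rw [← abs_mul, h1, h0]
        exact Int.eq_one_of_mul_eq_one_right (abs_nonneg _) h2
      have hc' : ‖(q.map (Int.castRingHom ℂ)).coeff 0‖ = 1 := by
        rw [coeff_map]
        simp only [eq_intCast]
        rw [Complex.norm_intCast]
        exact_mod_cast hc
      have h := irr_crit_key hp x hx i0 hbig cA hA hdeg hroot (q.map (Int.castRingHom ℂ))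
        (hq.map _) (by rw [← hfac, ← hqr, Polynomial.map_mul]; exact dvd_mul_right _ _) hc'
      rw [hq.natDegree_map] at h
      rcases h with h | h
      · exact Or.inl h
      · right
        have h1 : f.natDegree = q.natDegree + r.natDegree := by rw [← hqr, hq.natDegree_mul hr]
        omega
  exact (hf.irreducible_iff_irreducible_map_fraction_map (K := ℚ)).1 hirr

end TLK
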