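import Mathlib

/-!
# [TLK-N2] the Galois argument: `p = 1` (pure algebra)

`f : ℚ[X]` monic irreducible, over `ℂ`: `f = ∏_{i : Fin m} (X - exp(-x_i)) * cA`, all roots of `cA` have absolute value `l = exp((∑ x_i)/(2p)) > 1`, `x_i > 0`,
`x_{i0} > 5 ∑_{i ≠ i0} x_i`. CLAIM: if `α, β` are roots of `cA` then `β = α` or `β = ᾱ`.

PROOF. Suppose `β ≠ α` and `β ≠ ᾱ`. `α α̅ = l² = β β̄`. `β̄ ≠ α` too. `ᾱ, β̄` are roots of `f` (rational coefficients). `Ā = algebraicClosure ℚ ℂ` is normal over `ℚ`; `f` irreducible, `α` and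
`χ0 = exp(-x_{i0})` are roots of `f`, so there is a `ℚ`-automorphism `s` of `Ā` with `s α = χ0` (`isConjRoot_iff_exists_algEquiv`, both have minimal polynomial `f`). `α, ᾱ, β, β̄ ∈ Ā`. Then
`χ0 * s ᾱ = s (α ᾱ) = s (β β̄) = s β * s β̄`. `s ᾱ, s β, s β̄` are roots of `f`; `s β ≠ χ0`, `s β̄ ≠ χ0` since `β, β̄ ≠ α` and `s` is injective.
Every root of `f` has absolute value `≤ l` (it is `exp(-x_i) < 1 < l` or a root of `cA`), so `|left| ≤ exp(-x_{i0}) l`. Every root `r ≠ χ0` of `f` is `exp(-x_i)` with `i ≠ i0`, of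
absolute value `≥ exp(-X')`, `X' = ∑_{i ≠ i0} x_i`, or a root of `cA` of absolute value `l ≥ 1 ≥ exp(-X')`. So `|right| ≥ exp(-2 X')`. So
`exp(-2 X') ≤ exp(-x_{i0} + (x_{i0} + X')/(2p))`, `x_{i0} (1 - 1/(2p)) ≤ (2 + 1/(2p)) X'`, and as `p ≥ 1`: `x_{i0}/2 ≤ (5/2) X'`, `x_{i0} ≤ 5 X'`: contradiction.
-/

open Polynomial

namespace TLK

theorem galois_p {m p : ℕ} (hp : 0 < p) (f : ℚ[X]) (hf : f.Monic) (hirr : Irreducible f)
    (x : Fin m → ℝ) (hx : ∀ i, 0 < x i) (i0 : Fin m)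
    (hbig : 5 * ∑ i ∈ Finset.univ.erase i0, x i < x i0)
    (cA : ℂ[X])
    (hfac : f.map (algebraMap ℚ ℂ) = (∏ i, (X - C ((Real.exp (-x i) : ℝ) : ℂ))) * cA)
    (hroot : ∀ r : ℂ, cA.IsRoot r → ‖r‖ = Real.exp ((∑ i, x i) / (2 * p)))
    {α β : ℂ} (hα : cA.IsRoot α) (hβ : cA.IsRoot β) : β = α ∨ β = (starRingEnd ℂ) α := by
  classical
  by_contra hcon
  push Not at hcon
  obtain ⟨hne1, hne2⟩ := hcon
  have hne3 : (starRingEnd ℂ) β ≠ α := by
    intro h
    apply hne2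
    rw [← h, Complex.conj_conj]
  -- roots of `f`
  have hev : ∀ r : ℂ, aeval r f = (f.map (algebraMap ℚ ℂ)).eval r := fun r => by
    rw [eval_map_algebraMap]
  have hrootf : ∀ r : ℂ, aeval r f = 0 →
      (∃ i, r = ((Real.exp (-x i) : ℝ) : ℂ)) ∨ cA.IsRoot r := by
    intro r hr
    rw [hev, hfac, eval_mul, eval_prod, mul_eq_zero, Finset.prod_eq_zero_iff] at hr
    rcases hr with ⟨i, _, hi⟩ | hr
    · left
      refine ⟨i, ?_⟩
      rw [eval_sub, eval_X, eval_C] at hi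
      exact sub_eq_zero.1 hi
    · exact Or.inr hr
  have hrootA : ∀ r : ℂ, cA.IsRoot r → aeval r f = 0 := by
    intro r hr
    rw [hev, hfac, eval_mul, hr.eq_zero, mul_zero]
  have hconjroot : ∀ r : ℂ, aeval r f = 0 → aeval ((starRingEnd ℂ) r) f = 0 := by
    intro r hr
    have h := Polynomial.aeval_algHom_apply ((Complex.conjAe.restrictScalars ℚ).toAlgHom) r f
    rw [hr, map_zero] at h
    exact h
  have hχ : aeval ((Real.exp (-x i0) : ℝ) : ℂ) f = 0 := by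
    rw [hev, hfac, eval_mul, eval_prod, Finset.prod_eq_zero (Finset.mem_univ i0), zero_mul]
    rw [eval_sub, eval_X, eval_C, sub_self]
  -- the automorphism
  let A := algebraicClosure ℚ ℂ
  have iA : IsAlgClosure ℚ A := algebraicClosure.isAlgClosure ℚ ℂ
  have iN : Normal ℚ A := IsAlgClosure.normal ℚ A
  have hmemA : ∀ r : ℂ, aeval r f = 0 → r ∈ A := fun r hr =>
    mem_algebraicClosure_iff.2 ⟨f, hf.ne_zero, hr⟩
  have hmin : ∀ (r : A), aeval (r : ℂ) f = 0 → minpoly ℚ r = f := by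
    intro r hr
    have h1 : minpoly ℚ r = minpoly ℚ (r : ℂ) :=
      (minpoly.algebraMap_eq (A := ℚ) (B := A) (B' := ℂ) (algebraMap A ℂ).injective r).symm
    rw [h1]
    exact (minpoly.eq_of_irreducible_of_monic hirr hr hf).symm
  have hfα := hrootA α hα
  have hfβ := hrootA β hβ
  have hfα' := hconjroot α hfα
  have hfβ' := hconjroot β hfβ
  let a : A := ⟨α, hmemA _ hfα⟩
  let b : A := ⟨β, hmemA _ hfβ⟩
  let a' : A := ⟨(starRingEnd ℂ) α, hmemA _ hfα'⟩
  let b' : A := ⟨(starRingEnd ℂ) β, hmemA _ hfβ'⟩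
  let c : A := ⟨((Real.exp (-x i0) : ℝ) : ℂ), hmemA _ hχ⟩
  obtain ⟨σ, hσ⟩ : ∃ σ : A ≃ₐ[ℚ] A, σ a = c :=
    isConjRoot_iff_exists_algEquiv.1
      (show minpoly ℚ c = minpoly ℚ a from (hmin c hχ).trans (hmin a hfα).symm)
  have hσroot : ∀ r : A, aeval (r : ℂ) f = 0 → aeval ((σ r : A) : ℂ) f = 0 := by
    intro r hr
    have h1 : aeval r f = 0 := by
      have h := Polynomial.aeval_algebraMap_apply ℂ r f
      rw [show algebraMap A ℂ r = (r : ℂ) from rfl, hr] at h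
      exact ((algebraMap A ℂ).injective (h.symm.trans (map_zero _).symm))
    have h4 := Polynomial.aeval_algHom_apply (σ : A →ₐ[ℚ] A) r f
    rw [h1, map_zero] at h4
    have h5 := Polynomial.aeval_algebraMap_apply ℂ (σ r) f
    have h6 : aeval (σ r) f = 0 := h4
    rw [h6, map_zero] at h5
    exact h5
  -- the multiplicative relation
  have hnorm : ‖α‖ = ‖β‖ := by rw [hroot α hα, hroot β hβ]
  have hrel : a * a' = b * b' := by
    apply Subtype.ext
    show α * (starRingEnd ℂ) α = β * (starRingEnd ℂ) β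
    rw [Complex.mul_conj, Complex.mul_conj, Complex.normSq_eq_norm_sq, Complex.normSq_eq_norm_sq,
      hnorm]
  have hrel2 : c * σ a' = σ b * σ b' := by
    rw [← hσ, ← map_mul, ← map_mul, hrel]
  have hrel3 : ((Real.exp (-x i0) : ℝ) : ℂ) * ((σ a' : A) : ℂ) = ((σ b : A) : ℂ) * ((σ b' : A) : ℂ) :=
    congrArg (fun v : A => (v : ℂ)) hrel2
  -- sizes
  have hXi : ∑ i, x i = x i0 + ∑ i ∈ Finset.univ.erase i0, x i :=
    (Finset.add_sum_erase _ _ (Finset.mem_univ i0)).symm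
  set X' : ℝ := ∑ i ∈ Finset.univ.erase i0, x i with hX'
  have hX'0 : 0 ≤ X' := Finset.sum_nonneg (fun i _ => (hx i).le)
  have hx0 := hx i0
  have hp1 : (1 : ℝ) ≤ p := by exact_mod_cast hp
  have hq0 : 0 ≤ (∑ i, x i) / (2 * p) :=
    div_nonneg (Finset.sum_nonneg (fun i _ => (hx i).le)) (by positivity)
  have hle : ∀ r : ℂ, aeval r f = 0 → ‖r‖ ≤ Real.exp ((∑ i, x i) / (2 * p)) := by
    intro r hr
    rcases hrootf r hr with ⟨i, rfl⟩ | h
    · rw [Complex.norm_real, Real.norm_eq_abs, abs_of_pos (Real.exp_pos _)]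
      apply Real.exp_le_exp.2
      have := hx i
      linarith
    · exact (hroot r h).le
  have hge : ∀ r : ℂ, aeval r f = 0 → r ≠ ((Real.exp (-x i0) : ℝ) : ℂ) → Real.exp (-X') ≤ ‖r‖ := by
    intro r hr hne
    rcases hrootf r hr with ⟨i, rfl⟩ | h
    · rw [Complex.norm_real, Real.norm_eq_abs, abs_of_pos (Real.exp_pos _)]
      apply Real.exp_le_exp.2
      have hi : i ≠ i0 := fun h => hne (by rw [h])
      have : x i ≤ X' := Finset.single_le_sum (f := x) (fun j _ => (hx j).le)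
        (Finset.mem_erase.2 ⟨hi, Finset.mem_univ i⟩)
      linarith
    · rw [hroot r h]
      apply Real.exp_le_exp.2
      linarith
  have hb1 : ((σ b : A) : ℂ) ≠ ((Real.exp (-x i0) : ℝ) : ℂ) := by
    intro h
    have h1 : σ b = σ a := by rw [hσ]; exact Subtype.ext h
    exact hne1 (congrArg (fun v : A => (v : ℂ)) (σ.injective h1))
  have hb2 : ((σ b' : A) : ℂ) ≠ ((Real.exp (-x i0) : ℝ) : ℂ) := by
    intro h
    have h1 : σ b' = σ a := by rw [hσ]; exact Subtype.ext h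
    exact hne3 (congrArg (fun v : A => (v : ℂ)) (σ.injective h1))
  have h1 := hle _ (hσroot a' hfα')
  have h2 := hge _ (hσroot b hfβ) hb1
  have h3 := hge _ (hσroot b' hfβ') hb2
  have h4 := congrArg norm hrel3
  rw [norm_mul, norm_mul, Complex.norm_real, Real.norm_eq_abs, abs_of_pos (Real.exp_pos _)] at h4
  have h5 : Real.exp (-X') * Real.exp (-X') ≤ Real.exp (-x i0) * Real.exp ((∑ i, x i) / (2 * p)) := by
    calc Real.exp (-X') * Real.exp (-X') ≤ ‖((σ b : A) : ℂ)‖ * ‖((σ b' : A) : ℂ)‖ :=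
          mul_le_mul h2 h3 (Real.exp_pos _).le (norm_nonneg _)
      _ = Real.exp (-x i0) * ‖((σ a' : A) : ℂ)‖ := h4.symm
      _ ≤ _ := mul_le_mul_of_nonneg_left h1 (Real.exp_pos _).le
  rw [← Real.exp_add, ← Real.exp_add, Real.exp_le_exp] at h5
  have h6 : (∑ i, x i) / (2 * p) ≤ (∑ i, x i) / 2 := by
    apply div_le_div_of_nonneg_left (Finset.sum_nonneg (fun i _ => (hx i).le)) (by norm_num)
    linarith
  rw [hXi] at h5 h6
  linarith

end TLK
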