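import Pool.Agent.TLK.N1a
import Pool.Agent.TLK.N1b
import Pool.Agent.TLK.N2

/-!
# [TLK-N1c] `p = 1` and a generating element

PROOF. Let `B ≥ 0` be a bound of `hD.dense`, `i0 : Fin m` (`0 < m`). Choose `g` with `|log χ_i(g) + (B + 1)| ≤ B` for `i ≠ i0` and `|log χ_{i0}(g) + D| ≤ B`, with
`D = B + 1 + (2 p + 5) m (2 B + 1)`. So `x_i = - log χ_i(g)` satisfies `1 ≤ x_i ≤ 2 B + 1` for `i ≠ i0`, `x_{i0} ≥ 1 + (2p + 5) m (2B + 1) > (2p + 5) ∑_{i ≠ i0} x_i`. `χ_i = exp(-x_i)`.
`charpoly_factor` gives `cA`. `det (L g) = ∏ χ_i = exp(-∑ x_i)` (`hD.eq`, `P * P' = 1`), so `lam^(2p) = exp(∑ x_i)` (`det_rel`), `lam = exp((∑ x_i)/(2p))`.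
`f = (R g).charpoly` is monic and `|f.coeff 0| = |det (R g)| = 1` (`R g * R g⁻¹ = 1`; `Matrix.det_eq_sign_charpoly_coeff`). `irr_crit`: `f` is irreducible over `ℚ`. `galois_p` (for
`f.map (Int.castRingHom ℚ)`, mapped to `ℂ` it is `f.map (Int.castRingHom ℂ)`): any two roots `α, β` of `cA` satisfy `β = α` or `β = ᾱ`. `f` over `ℂ` is separable
(irreducible over `ℚ`, characteristic `0`), so `cA` has `2 p` distinct roots (`cA ∣ f.map`; splits over `ℂ`): `2 p ≤ 2`, `p = 1`; and with `p = 1` there are two distinct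
roots, so the roots are not real (if `α` real then all roots equal `α`). The `χ_i(g)` are distinct (separable). `A g` is complex linear on `CP p` of dimension `p = 1`: `A g z = α • z` for
some `α : ℂ` (take `z0 ≠ 0`, `A g z0 = α z0`), a root of `cA` (last part of `charpoly_factor`), so `α` is not real.
-/

open scoped Matrix
open Polynomial

namespace TLK

variable {n p m : ℕ} {G : Type} [Group G]

/-- `R g0` has irreducible characteristic polynomial, distinct eigenvalues `χ g0 i`, and `A g0` is multiplication by the nonreal number `α` -/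
structure Setting.Gen (S : Setting n p m G) (χ : G → Fin m → ℝ) (g0 : G) (α : ℂ) : Prop where
  irr : Irreducible ((S.R g0).charpoly.map (Int.castRingHom ℚ))
  inj : Function.Injective (χ g0)
  A0 : ∀ z, S.A g0 z = α • z
  im : α.im ≠ 0

theorem Setting.exists_gen (S : Setting n p m G) (hp : 0 < p) (hm : 0 < m)
    {P P' : Matrix (Fin m) (Fin m) ℝ} {χ : G → Fin m → ℝ} (hD : Diag S.L P P' χ) :
    p = 1 ∧ ∃ g0 α, S.Gen χ g0 α := by
  classical
  obtain ⟨B0, hB0⟩ := hD.dense
  obtain ⟨B, hBn, hB⟩ : ∃ B : ℝ, 0 ≤ B ∧ ∀ d : Fin m → ℝ, ∃ a, ∀ i,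
      |Real.log (χ a i) - d i| ≤ B :=
    ⟨|B0|, abs_nonneg _, fun d => by
      obtain ⟨a, ha⟩ := hB0 d
      exact ⟨a, fun i => (ha i).trans (le_abs_self _)⟩⟩
  let i0 : Fin m := ⟨0, hm⟩
  set D : ℝ := B + 1 + (2 * p + 5) * (m * (2 * B + 1)) with hDd
  obtain ⟨g, hg⟩ := hB (fun i => if i = i0 then -D else -(B + 1))
  obtain ⟨x, hxd⟩ : ∃ x : Fin m → ℝ, ∀ i, x i = -Real.log (χ g i) := ⟨_, fun _ => rfl⟩
  have hxe : ∀ i, Real.exp (-x i) = χ g i := fun i => by
    rw [hxd, neg_neg, Real.exp_log (hD.pos g i)]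
  have hx1 : ∀ i, i ≠ i0 → 1 ≤ x i ∧ x i ≤ 2 * B + 1 := by
    intro i hi
    have h := hg i
    rw [if_neg hi, abs_le] at h
    rw [hxd]
    constructor <;> linarith [h.1, h.2]
  have hx0 : 1 + (2 * p + 5) * (m * (2 * B + 1)) ≤ x i0 := by
    have h := hg i0
    rw [if_pos rfl, abs_le] at h
    rw [hxd]
    linarith [h.1, h.2]
  have hp0 : (0 : ℝ) < p := by exact_mod_cast hp
  have hm0 : (0 : ℝ) < m := by exact_mod_cast hm
  have hbase : 0 ≤ (2 * (p : ℝ) + 5) * (m * (2 * B + 1)) := by positivity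
  have hxpos : ∀ i, 0 < x i := by
    intro i
    by_cases hi : i = i0
    · rw [hi]; linarith
    · linarith [(hx1 i hi).1]
  set X' : ℝ := ∑ i ∈ Finset.univ.erase i0, x i with hX'
  have hX'0 : 0 ≤ X' := Finset.sum_nonneg (fun i _ => (hxpos i).le)
  have hX'le : X' ≤ m * (2 * B + 1) := by
    calc X' ≤ ∑ i ∈ Finset.univ.erase i0, (2 * B + 1) :=
          Finset.sum_le_sum (fun i hi => (hx1 i (Finset.ne_of_mem_erase hi)).2)
      _ = ((Finset.univ.erase i0).card : ℝ) * (2 * B + 1) := by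
          rw [Finset.sum_const, nsmul_eq_mul]
      _ ≤ m * (2 * B + 1) := by
          refine mul_le_mul_of_nonneg_right ?_ (by linarith)
          have : (Finset.univ.erase i0).card ≤ m := by
            calc (Finset.univ.erase i0).card ≤ (Finset.univ : Finset (Fin m)).card :=
                  Finset.card_le_card (Finset.erase_subset _ _)
              _ = m := by rw [Finset.card_univ, Fintype.card_fin]
          exact_mod_cast this
  have hbigall : (2 * (p : ℝ) + 5) * X' < x i0 := by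
    have : (2 * (p : ℝ) + 5) * X' ≤ (2 * (p : ℝ) + 5) * (m * (2 * B + 1)) :=
      mul_le_mul_of_nonneg_left hX'le (by positivity)
    linarith
  have hbig1 : (2 * (p : ℝ) - 1) * X' < x i0 := by nlinarith
  have hbig2 : 5 * X' < x i0 := by nlinarith
  obtain ⟨cA, hAm, hAd, hfac, hroot, heig⟩ := S.charpoly_factor hD g
  have hfac' : (S.R g).charpoly.map (Int.castRingHom ℂ)
      = (∏ i, (X - C ((Real.exp (-x i) : ℝ) : ℂ))) * cA := by
    rw [hfac]
    congr 1
    exact Finset.prod_congr rfl (fun i _ => by rw [hxe])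
  -- `lam`
  have hdetL : (S.L g).det = ∏ i, χ g i := by
    have h1 := congrArg Matrix.det (hD.eq g)
    rw [Matrix.det_mul, Matrix.det_mul, Matrix.det_diagonal, mul_comm] at h1
    have h2 : P.det ≠ 0 := by
      intro h
      have h3 := congrArg Matrix.det hD.right
      rw [Matrix.det_mul, h, zero_mul, Matrix.det_one] at h3
      exact zero_ne_one h3
    exact mul_right_cancel₀ h2 h1
  have hlam : S.lam g = Real.exp ((∑ i, x i) / (2 * p)) := by
    have h1 := S.det_rel g
    rw [hdetL, abs_of_pos (Finset.prod_pos (fun i _ => hD.pos g i))] at h1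
    have h2 : ∏ i, χ g i = Real.exp (-∑ i, x i) := by
      rw [← Finset.sum_neg_distrib, Real.exp_sum]
      exact Finset.prod_congr rfl (fun i _ => (hxe i).symm)
    rw [h2] at h1
    have h3 : S.lam g ^ (2 * p) = Real.exp ((∑ i, x i) / (2 * p)) ^ (2 * p) := by
      rw [← Real.exp_nat_mul]
      have h4 : ((2 * p : ℕ) : ℝ) * ((∑ i, x i) / (2 * p)) = ∑ i, x i := by
        push_cast
        field_simp
      rw [h4]
      calc S.lam g ^ (2 * p) = Real.exp (∑ i, x i) * (Real.exp (-∑ i, x i) * S.lam g ^ (2 * p)) := by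
            rw [← mul_assoc, ← Real.exp_add, add_neg_cancel, Real.exp_zero, one_mul]
        _ = Real.exp (∑ i, x i) := by rw [h1, mul_one]
    exact (pow_left_inj₀ (S.lam_pos g).le (Real.exp_pos _).le (by omega)).1 h3
  have hroot' : ∀ r : ℂ, cA.IsRoot r → ‖r‖ = Real.exp ((∑ i, x i) / (2 * p)) := by
    intro r hr
    rw [hroot r hr, hlam]
  have hcoeff : |(S.R g).charpoly.coeff 0| = 1 := by
    have h1 : (S.R g).det * (S.R g⁻¹).det = 1 := by
      rw [← Matrix.det_mul, ← map_mul, mul_inv_cancel, map_one, Matrix.det_one]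
    have h2 : |(S.R g).det| = 1 := Int.isUnit_iff_abs_eq.1 (IsUnit.of_mul_eq_one _ h1)
    rw [Matrix.det_eq_sign_charpoly_coeff, abs_mul, abs_pow, abs_neg, abs_one, one_pow,
      one_mul] at h2
    exact h2
  have hirr := irr_crit hp (S.R g).charpoly (Matrix.charpoly_monic _) hcoeff x hxpos i0 hbig1 cA
    hAm hAd hfac' hroot'
  have hc : (algebraMap ℚ ℂ).comp (Int.castRingHom ℚ) = Int.castRingHom ℂ := RingHom.ext_int _ _
  have hfacQ : ((S.R g).charpoly.map (Int.castRingHom ℚ)).map (algebraMap ℚ ℂ)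
      = (∏ i, (X - C ((Real.exp (-x i) : ℝ) : ℂ))) * cA := by
    rw [Polynomial.map_map, hc, hfac']
  have hgal := fun {α β : ℂ} (hα : cA.IsRoot α) (hβ : cA.IsRoot β) =>
    galois_p hp ((S.R g).charpoly.map (Int.castRingHom ℚ)) ((Matrix.charpoly_monic _).map _) hirr
      x hxpos i0 hbig2 cA hfacQ hroot' hα hβ
  -- separability
  have hsep : (((S.R g).charpoly.map (Int.castRingHom ℚ)).map (algebraMap ℚ ℂ)).Separable :=
    (hirr.separable).map
  have hnod : (((S.R g).charpoly.map (Int.castRingHom ℚ)).map (algebraMap ℚ ℂ)).roots.Nodup :=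
    nodup_roots hsep
  have hPm : (∏ i, (X - C ((Real.exp (-x i) : ℝ) : ℂ))).Monic :=
    monic_prod_of_monic _ _ (fun i _ => monic_X_sub_C _)
  have hPr : (∏ i, (X - C ((Real.exp (-x i) : ℝ) : ℂ))).roots
      = Finset.univ.val.map (fun i => ((Real.exp (-x i) : ℝ) : ℂ)) := by
    have h := roots_multiset_prod_X_sub_C
      (Finset.univ.val.map (fun i : Fin m => ((Real.exp (-x i) : ℝ) : ℂ)))
    rw [Multiset.map_map] at h
    exact h
  rw [hfacQ, roots_mul (hPm.mul hAm).ne_zero, hPr] at hnod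
  obtain ⟨hn1, hn2, _⟩ := Multiset.nodup_add.1 hnod
  have hcardA : cA.roots.toFinset.card = 2 * p := by
    rw [Multiset.toFinset_card_of_nodup hn2, ← (IsAlgClosed.splits cA).natDegree_eq_card_roots, hAd]
  have hinj : Function.Injective (χ g) := by
    intro i j hij
    refine Multiset.inj_on_of_nodup_map hn1 i (Finset.mem_univ i) j (Finset.mem_univ j) ?_
    rw [hxe, hxe, hij]
  have hmemA : ∀ r, r ∈ cA.roots.toFinset ↔ cA.IsRoot r := fun r => by
    rw [Multiset.mem_toFinset, mem_roots hAm.ne_zero]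
  have hsub : ∀ α, cA.IsRoot α → cA.roots.toFinset ⊆ {α, (starRingEnd ℂ) α} := by
    intro α hα r hr
    rw [hmemA] at hr
    rw [Finset.mem_insert, Finset.mem_singleton]
    exact hgal hα hr
  have hp1 : p = 1 := by
    obtain ⟨α, hα⟩ := IsAlgClosed.exists_root cA (by
      rw [degree_eq_natDegree hAm.ne_zero, hAd]
      exact_mod_cast (by omega : 2 * p ≠ 0))
    have h1 := Finset.card_le_card (hsub α hα)
    have h2 : ({α, (starRingEnd ℂ) α} : Finset ℂ).card ≤ 2 := Finset.card_le_two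
    rw [hcardA] at h1
    omega
  have him : ∀ α, cA.IsRoot α → α.im ≠ 0 := by
    intro α hα h
    have h1 : (starRingEnd ℂ) α = α := Complex.conj_eq_iff_im.2 h
    have h2 := hsub α hα
    rw [h1, Finset.pair_eq_singleton] at h2
    have h3 := Finset.card_le_card h2
    rw [hcardA, Finset.card_singleton] at h3
    omega
  have hfr : Module.finrank ℂ (CP p) = 1 := by rw [finrank_euclideanSpace_fin, hp1]
  have hz : ∃ z : CP p, z ≠ 0 := by
    have : Nonempty (Fin p) := ⟨⟨0, hp⟩⟩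
    exact exists_ne 0
  obtain ⟨z, hz⟩ := hz
  have hall := (finrank_eq_one_iff_of_nonzero' z hz).1 hfr
  obtain ⟨α, hα⟩ := hall (S.A g z)
  refine ⟨hp1, g, α, hirr, hinj, ?_, him α (heig α z hz hα.symm)⟩
  intro y
  obtain ⟨c, rfl⟩ := hall y
  rw [map_smul, ← hα, smul_comm]

end TLK
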