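import Pool.Agent.TLK.N1c

/-!
# [TLK-N3a] the number field

`f = (R g0).charpoly` over `ℚ`, irreducible monic of degree `n`. `K = AdjoinRoot f`, `θ = root f`.

PROOF of `exists_field`. `NumberField (AdjoinRoot f)`: characteristic zero, finite dimensional over `ℚ` (`AdjoinRoot` of a monic polynomial; `AdjoinRoot.powerBasis'`), `finrank = natDegree f = n`.
`ev = AdjoinRoot.liftAlgHom` (`AdjoinRoot.liftHom`) with `θ ↦ R g0` (rational matrix), as `aeval (R g0) f = 0` (Cayley-Hamilton, `Matrix.aeval_self_charpoly`, `Matrix.charpoly_map`). `σ i = AdjoinRoot.lift …` with `θ ↦ χ g0 i`, a real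
root of `f` (`charpoly_factor`: `∏ (X - χ_i)` divides `f` over `ℂ`; the value of `f` at the real number `χ g0 i` is `0` in `ℂ`, so in `ℝ`). `τ`: `θ ↦ α`: `A g0 z = α z` for a nonzero `z` (`0 < p`), so `α` is a root
of `cA` (`charpoly_factor`). `adj`: `Algebra.adjoin ℚ {θ} = ⊤` (`AdjoinRoot.adjoinRoot_eq_top`).

PROOF of `ev_apply`: both sides are `ℚ`-linear in `κ` and compatible with multiplication by `θ`: the set of `κ` for which the two identities hold for all `x` is a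
subalgebra containing `θ` (`hΘ`, `A0`, `P * L g0 = diagonal (χ g0) * P`, so `P (L g0 v) i = χ g0 i * (P v) i`); use `Algebra.adjoin_induction` with `adj`. (`(ev κ).map Rat.cast` is multiplicative:
`Matrix.map_mul`; `Matrix.mulVec_mulVec`.)
-/

open scoped Matrix
open Polynomial

namespace TLK

variable {n p m : ℕ} {G : Type} [Group G]

structure Setting.FK (S : Setting n p m G) (χ : G → Fin m → ℝ) (g0 : G) (α : ℂ)
    {K : Type} [Field K] [NumberField K] (θ : K) (ev : K →+* Matrix (Fin n) (Fin n) ℚ)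
    (σ : Fin m → K →+* ℝ) (τ : K →+* ℂ) : Prop where
  adj : Algebra.adjoin ℚ {θ} = ⊤
  deg : Module.finrank ℚ K = n
  rat : ∀ q : ℚ, ev (algebraMap ℚ K q) = algebraMap ℚ _ q
  ev_θ : ev θ = (S.R g0).map (Int.cast : ℤ → ℚ)
  sig : ∀ i, σ i θ = χ g0 i
  tau : τ θ = α

theorem Setting.exists_field (S : Setting n p m G) (hp : 0 < p)
    {P P' : Matrix (Fin m) (Fin m) ℝ} {χ : G → Fin m → ℝ} (hD : Diag S.L P P' χ) {g0 : G} {α : ℂ}
    (hg : S.Gen χ g0 α) :
    ∃ (K : Type) (_ : Field K) (_ : NumberField K) (θ : K) (ev : K →+* Matrix (Fin n) (Fin n) ℚ)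
      (σ : Fin m → K →+* ℝ) (τ : K →+* ℂ), S.FK χ g0 α θ ev σ τ := by
  classical
  obtain ⟨cA, hAm, hAd, hfac, hroot, heig⟩ := S.charpoly_factor hD g0
  set f : ℚ[X] := (S.R g0).charpoly.map (Int.castRingHom ℚ) with hf
  have hfm : f.Monic := (Matrix.charpoly_monic _).map _
  have hfd : f.natDegree = n := by
    rw [hf, (Matrix.charpoly_monic _).natDegree_map, Matrix.charpoly_natDegree_eq_dim,
      Fintype.card_fin]
  have : Fact (Irreducible f) := ⟨hg.irr⟩
  have hfC : f.map (algebraMap ℚ ℂ) = (∏ i, (X - C ((χ g0 i : ℝ) : ℂ))) * cA := by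
    have hc : (algebraMap ℚ ℂ).comp (Int.castRingHom ℚ) = Int.castRingHom ℂ := RingHom.ext_int _ _
    rw [← hfac, hf, Polynomial.map_map, hc]
  -- the matrix
  set M : Matrix (Fin n) (Fin n) ℚ := (S.R g0).map (Int.cast : ℤ → ℚ) with hM
  have hMf : aeval M f = 0 := by
    have h1 : M.charpoly = f := by
      rw [hM, hf]
      exact Matrix.charpoly_map (S.R g0) (Int.castRingHom ℚ)
    rw [← h1]
    exact Matrix.aeval_self_charpoly M
  let ev : AdjoinRoot f →+* Matrix (Fin n) (Fin n) ℚ :=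
    Ideal.Quotient.lift (Ideal.span {f}) (aeval M : ℚ[X] →ₐ[ℚ] Matrix (Fin n) (Fin n) ℚ).toRingHom
      (by
        intro a ha
        obtain ⟨b, rfl⟩ := Ideal.mem_span_singleton.1 ha
        show aeval M (f * b) = 0
        rw [map_mul, hMf, zero_mul])
  have hev : ∀ g : ℚ[X], ev (AdjoinRoot.mk f g) = aeval M g := fun g => rfl
  have hσ0 : ∀ i, f.eval₂ (algebraMap ℚ ℝ) (χ g0 i) = 0 := by
    intro i
    have h1 : (f.map (algebraMap ℚ ℂ)).eval ((χ g0 i : ℝ) : ℂ) = 0 := by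
      rw [hfC, eval_mul, eval_prod, Finset.prod_eq_zero (Finset.mem_univ i), zero_mul]
      rw [eval_sub, eval_X, eval_C, sub_self]
    have h2 : ((f.eval₂ (algebraMap ℚ ℝ) (χ g0 i) : ℝ) : ℂ) = 0 := by
      rw [← h1, eval_map]
      have h3 := Polynomial.hom_eval₂ f (algebraMap ℚ ℝ) Complex.ofRealHom (χ g0 i)
      rw [show Complex.ofRealHom.comp (algebraMap ℚ ℝ) = algebraMap ℚ ℂ from
        RingHom.ext_rat _ _] at h3
      exact h3
    exact_mod_cast h2
  have hτ0 : f.eval₂ (algebraMap ℚ ℂ) α = 0 := by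
    have hz : ∃ z : CP p, z ≠ 0 := by
      have : Nonempty (Fin p) := ⟨⟨0, hp⟩⟩
      exact exists_ne 0
    obtain ⟨z, hz⟩ := hz
    have h1 := heig α z hz (hg.A0 z)
    rw [← eval_map, hfC, eval_mul, h1.eq_zero, mul_zero]
  refine ⟨AdjoinRoot f, inferInstance, inferInstance, AdjoinRoot.root f, ev,
    fun i => AdjoinRoot.lift (algebraMap ℚ ℝ) (χ g0 i) (hσ0 i),
    AdjoinRoot.lift (algebraMap ℚ ℂ) α hτ0, ?_⟩
  refine ⟨?_, ?_, ?_, ?_, ?_, ?_⟩
  · convert! AdjoinRoot.adjoinRoot_eq_top (f := f)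
  · have h1 := (AdjoinRoot.powerBasis (f := f) hfm.ne_zero).finrank
    rw [AdjoinRoot.powerBasis_dim, hfd] at h1
    convert! h1
  · intro q
    have h1 : algebraMap ℚ (AdjoinRoot f) q = AdjoinRoot.mk f (C q) := by
      have h2 : algebraMap ℚ (AdjoinRoot f) = (AdjoinRoot.mk f).comp C := RingHom.ext_rat _ _
      rw [h2]
      rfl
    rw [h1, hev, aeval_C]
  · show ev (AdjoinRoot.mk f X) = _
    rw [hev, aeval_X]
  · intro i
    exact AdjoinRoot.lift_root (hσ0 i)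
  · exact AdjoinRoot.lift_root hτ0

theorem Setting.ev_apply (S : Setting n p m G)
    {P P' : Matrix (Fin m) (Fin m) ℝ} {χ : G → Fin m → ℝ} (hD : Diag S.L P P' χ) {g0 : G} {α : ℂ}
    (hg : S.Gen χ g0 α) {K : Type} [Field K] [NumberField K] {θ : K}
    {ev : K →+* Matrix (Fin n) (Fin n) ℚ} {σ : Fin m → K →+* ℝ} {τ : K →+* ℂ}
    (hK : S.FK χ g0 α θ ev σ τ) (κ : K) (x : Fin n → ℝ) :
    (S.Θ ((ev κ).map (Rat.cast : ℚ → ℝ) *ᵥ x)).1 = τ κ • (S.Θ x).1 ∧
      ∀ i, (P *ᵥ (S.Θ ((ev κ).map (Rat.cast : ℚ → ℝ) *ᵥ x)).2) i = σ i κ * (P *ᵥ (S.Θ x).2) i := by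
  classical
  have hκ : κ ∈ Algebra.adjoin ℚ {θ} := by rw [hK.adj]; exact Algebra.mem_top
  induction hκ using Algebra.adjoin_induction generalizing x with
  | mem y hy =>
    rw [Set.mem_singleton_iff] at hy
    subst hy
    have h1 : (ev y).map (Rat.cast : ℚ → ℝ) = (S.R g0).map (Int.cast : ℤ → ℝ) := by
      rw [hK.ev_θ]
      ext i j
      simp
    rw [h1, S.hΘ, hK.tau]
    refine ⟨hg.A0 _, fun i => ?_⟩
    rw [hK.sig]
    simp only
    rw [Matrix.mulVec_mulVec, hD.eq, ← Matrix.mulVec_mulVec, Matrix.mulVec_diagonal]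
  | algebraMap q =>
    have h1 : (ev (algebraMap ℚ K q)).map (Rat.cast : ℚ → ℝ) *ᵥ x = (q : ℝ) • x := by
      rw [hK.rat]
      funext i
      have h2 : ∀ j, (((algebraMap ℚ (Matrix (Fin n) (Fin n) ℚ) q).map (Rat.cast : ℚ → ℝ)) i j) * x j
          = if i = j then (q : ℝ) * x j else 0 := by
        intro j
        rw [Matrix.map_apply, Matrix.algebraMap_matrix_apply]
        split_ifs <;> simp
      simp only [Matrix.mulVec, dotProduct]
      rw [Finset.sum_congr rfl (fun j _ => h2 j), Finset.sum_ite_eq]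
      simp
    rw [h1, map_smul]
    refine ⟨?_, fun i => ?_⟩
    · rw [eq_ratCast, map_ratCast]
      show (q : ℝ) • (S.Θ x).1 = (q : ℂ) • (S.Θ x).1
      rw [← Complex.ofReal_ratCast]
      rfl
    · rw [eq_ratCast, map_ratCast]
      show (P *ᵥ ((q : ℝ) • (S.Θ x).2)) i = _
      rw [Matrix.mulVec_smul]
      rfl
  | add a b _ _ iha ihb =>
    have h1 : (ev (a + b)).map (Rat.cast : ℚ → ℝ) *ᵥ x
        = (ev a).map (Rat.cast : ℚ → ℝ) *ᵥ x + (ev b).map (Rat.cast : ℚ → ℝ) *ᵥ x := by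
      rw [← Matrix.add_mulVec]
      congr 1
      ext i j
      simp
    rw [h1, map_add]
    refine ⟨?_, fun i => ?_⟩
    · rw [Prod.fst_add, (iha x).1, (ihb x).1, map_add, add_smul]
    · rw [Prod.snd_add, Matrix.mulVec_add, Pi.add_apply, (iha x).2 i, (ihb x).2 i, map_add, add_mul]
  | mul a b _ _ iha ihb =>
    have h1 : (ev (a * b)).map (Rat.cast : ℚ → ℝ) *ᵥ x
        = (ev a).map (Rat.cast : ℚ → ℝ) *ᵥ ((ev b).map (Rat.cast : ℚ → ℝ) *ᵥ x) := by
      rw [Matrix.mulVec_mulVec, map_mul]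
      congr 1
      exact Matrix.map_mul (L := ev a) (M := ev b) (f := Rat.castHom ℝ)
    rw [h1]
    refine ⟨?_, fun i => ?_⟩
    · rw [(iha _).1, (ihb x).1, smul_smul, map_mul]
    · rw [(iha _).2 i, (ihb x).2 i, map_mul, mul_assoc]

end TLK
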