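import Pool.Agent.TLK.N3a

/-!
# [TLK-N3b] the identification `ℚ^n = K`

PROOF. (1) There is a rational vector `w0` with `z0 = (Θ w0).1 ≠ 0` and `v i = (P (Θ w0).2) i > 0` for all `i`: the set of real `x` with `(Θ x).1 ≠ 0` and `(P (Θ x).2) i > 0` is open and nonempty (`Θ` is bijective; take
`Θ⁻¹ (z, P' (fun _ => 1))` with `z ≠ 0`, `0 < p`) and rational vectors are dense in `ℝ^n` (`Rat.denseRange_cast`, `DenseRange` for products `Pi`, or approximate each coordinate).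
(2) `κ ↦ ev κ *ᵥ w0` is `ℚ`-linear `K → ℚ^n` (`rat`), injective: if `κ ≠ 0` and `ev κ *ᵥ w0 = 0` then `w0 = ev (κ⁻¹ * κ) *ᵥ w0 = 0`, but `w0 ≠ 0`. Dimensions: `finrank ℚ K = n` (`deg`): bijective. `e` = the inverse.
(3) `e (ev κ *ᵥ x) = κ * e x`: write `x = ev (e x) *ᵥ w0`. `e w0 = 1`.
(4) `eq1, eq2`: `x = ev (e x) *ᵥ w0`, `ev_apply` with the real vector `w0` (the cast of `ev κ *ᵥ w0` is `(ev κ).map cast *ᵥ (cast w0)`).
-/

open scoped Matrix
open Polynomial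

namespace TLK

variable {n p m : ℕ} {G : Type} [Group G]

theorem cast_mulVec {n : ℕ} (M : Matrix (Fin n) (Fin n) ℚ) (w : Fin n → ℚ) :
    (fun j => ((M *ᵥ w) j : ℝ)) = M.map (Rat.cast : ℚ → ℝ) *ᵥ (fun j => (w j : ℝ)) := by
  funext i
  simp [Matrix.mulVec, dotProduct]

theorem Setting.exists_e (S : Setting n p m G) (hp : 0 < p)
    {P P' : Matrix (Fin m) (Fin m) ℝ} {χ : G → Fin m → ℝ} (hD : Diag S.L P P' χ) {g0 : G} {α : ℂ}
    (hg : S.Gen χ g0 α) {K : Type} [Field K] [NumberField K] {θ : K}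
    {ev : K →+* Matrix (Fin n) (Fin n) ℚ} {σ : Fin m → K →+* ℝ} {τ : K →+* ℂ}
    (hK : S.FK χ g0 α θ ev σ τ) :
    ∃ (e : (Fin n → ℚ) ≃ₗ[ℚ] K) (z0 : CP p) (v : Fin m → ℝ), z0 ≠ 0 ∧ (∀ i, 0 < v i) ∧
      (∀ κ x, e (ev κ *ᵥ x) = κ * e x) ∧
      (∀ x : Fin n → ℚ, (S.Θ (fun j => (x j : ℝ))).1 = τ (e x) • z0) ∧
      ∀ (x : Fin n → ℚ) (i : Fin m), (P *ᵥ (S.Θ (fun j => (x j : ℝ))).2) i = σ i (e x) * v i := by
  classical
  have hz : ∃ z : CP p, z ≠ 0 := by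
    have : Nonempty (Fin p) := ⟨⟨0, hp⟩⟩
    exact exists_ne 0
  obtain ⟨z, hz⟩ := hz
  -- a rational point in the open set
  have hdense : DenseRange (fun (q : Fin n → ℚ) (j : Fin n) => (q j : ℝ)) :=
    DenseRange.piMap (fun _ => Rat.denseRange_cast)
  have hcont : Continuous (S.Θ : (Fin n → ℝ) → CP p × (Fin m → ℝ)) :=
    LinearMap.continuous_of_finiteDimensional (S.Θ : (Fin n → ℝ) →ₗ[ℝ] CP p × (Fin m → ℝ))
  have hcontP : ∀ i, Continuous (fun x => (P *ᵥ (S.Θ x).2) i) := by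
    intro i
    have h1 : Continuous (fun y : Fin m → ℝ => (P *ᵥ y) i) :=
      (continuous_apply i).comp
        (LinearMap.continuous_of_finiteDimensional (Matrix.mulVecLin P))
    exact h1.comp (continuous_snd.comp hcont)
  have hopen : IsOpen {x : Fin n → ℝ | (S.Θ x).1 ≠ 0 ∧ ∀ i, 0 < (P *ᵥ (S.Θ x).2) i} := by
    have h1 : IsOpen {x : Fin n → ℝ | (S.Θ x).1 ≠ 0} :=
      isOpen_ne.preimage (continuous_fst.comp hcont)
    have h2 : IsOpen {x : Fin n → ℝ | ∀ i, 0 < (P *ᵥ (S.Θ x).2) i} := by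
      rw [Set.ofPred_forall]
      exact isOpen_iInter_of_finite (fun i => isOpen_lt continuous_const (hcontP i))
    exact h1.inter h2
  obtain ⟨w0, hw0, hw0'⟩ := hdense.exists_mem_open hopen
    ⟨S.Θ.symm (z, P' *ᵥ (fun _ => 1)), by
      rw [Set.mem_ofPred_eq, LinearEquiv.apply_symm_apply]
      refine ⟨hz, fun i => ?_⟩
      simp only
      rw [Matrix.mulVec_mulVec, hD.right, Matrix.one_mulVec]
      exact one_pos⟩
  have hw00 : w0 ≠ 0 := by
    rintro rfl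
    apply hw0
    have h1 : (fun j : Fin n => (((0 : Fin n → ℚ) j : ℚ) : ℝ)) = 0 := by funext j; simp
    rw [h1, map_zero]
    rfl
  let φ : K →ₗ[ℚ] (Fin n → ℚ) :=
    { toFun := fun κ => ev κ *ᵥ w0
      map_add' := fun a b => by rw [map_add, Matrix.add_mulVec]
      map_smul' := fun q κ => by
        rw [Algebra.smul_def, map_mul, hK.rat, ← Algebra.smul_def, Matrix.smul_mulVec]
        rfl }
  have hφ : ∀ κ, φ κ = ev κ *ᵥ w0 := fun _ => rfl
  have hinj : Function.Injective φ := by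
    rw [injective_iff_map_eq_zero]
    intro κ hκ
    by_contra hne
    apply hw00
    have h1 : ev (κ⁻¹ * κ) *ᵥ w0 = 0 := by
      rw [map_mul, ← Matrix.mulVec_mulVec, ← hφ κ, hκ, Matrix.mulVec_zero]
    rwa [inv_mul_cancel₀ hne, map_one, Matrix.one_mulVec] at h1
  let e' : K ≃ₗ[ℚ] (Fin n → ℚ) := LinearMap.linearEquivOfInjective φ hinj (by
    rw [hK.deg, Module.finrank_fin_fun])
  have he' : ∀ κ, e' κ = ev κ *ᵥ w0 := fun κ => rfl
  have hex : ∀ x, ev (e'.symm x) *ᵥ w0 = x := fun x => by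
    rw [← he', LinearEquiv.apply_symm_apply]
  refine ⟨e'.symm, (S.Θ (fun j => (w0 j : ℝ))).1, fun i => (P *ᵥ (S.Θ (fun j => (w0 j : ℝ))).2) i,
    hw0, hw0', ?_, ?_, ?_⟩
  · intro κ x
    rw [LinearEquiv.symm_apply_eq, he', map_mul, ← Matrix.mulVec_mulVec, hex]
  · intro x
    have h1 := (S.ev_apply hD hg hK (e'.symm x) (fun j => (w0 j : ℝ))).1
    rw [← cast_mulVec, hex] at h1
    exact h1
  · intro x i
    have h1 := (S.ev_apply hD hg hK (e'.symm x) (fun j => (w0 j : ℝ))).2 i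
    rw [← cast_mulVec, hex] at h1
    exact h1

end TLK
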