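import Pool.Agent.TLK.N3b

/-!
# [TLK-N3c] the units

PROOF. (1) `R g` commutes with `R g0`: through `Θ` (real, injective) this is `A g A g0 = A g0 A g` (`A g0` is multiplication by the complex number `α`, `A g` is complex linear) and
`L g L g0 = L g0 L g` (both are `P' diagonal P`). So `R g * R g0 = R g0 * R g` (cast to `ℝ`, injective).
(2) Hence the `ℚ`-linear map `x ↦ R g x` commutes with `ev κ` for all `κ` (`adj`, `ev θ = R g0`, adjoin induction). Let `w0 = e⁻¹ 1` and `κ_g = e (R g w0)`. For `x = ev (e x) w0`: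
`e (R g x) = e (R g (ev (e x) w0)) = e (ev (e x) (R g w0)) = e x * κ_g`.
(3) `κ_g` is integral: `f_g = (R g).charpoly` (integral, monic) satisfies `f_g (R g) = 0`, so `0 = e (f_g(R g) w0) = f_g(κ_g)`. And `κ_{g h} = κ_g κ_h`, `κ_1 = 1`, so `κ_g` is a unit of `𝓞 K` with inverse
`κ_{g⁻¹}`; `u : G →* (𝓞 K)ˣ`.
(4) `σ i (κ_g) = χ g i`: `eq2` for `x = R g w0`: `(P (Θ (R g w0)).2) i = (P (L g (Θ w0).2)) i = χ g i * v i` and it is `σ i (κ_g) * v i`; `v i > 0` (`e w0 = 1`, `eq2` for `w0`: `(P (Θ w0).2) i = v i`).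
(5) `lam`: `‖A g z0‖ = lam ‖z0‖`, and `A g z0 = (Θ (R g w0)).1 = τ (κ_g) z0`: `‖τ (κ_g)‖ = lam g`.
-/

open scoped Matrix NumberField
open Polynomial

namespace TLK

variable {n p m : ℕ} {G : Type} [Group G]

theorem castI_mulVec {n : ℕ} (M : Matrix (Fin n) (Fin n) ℤ) (w : Fin n → ℚ) :
    (fun j => ((M.map (Int.cast : ℤ → ℚ) *ᵥ w) j : ℝ))
      = M.map (Int.cast : ℤ → ℝ) *ᵥ (fun j => (w j : ℝ)) := by
  funext i
  simp [Matrix.mulVec, dotProduct]

theorem Setting.L_comm (S : Setting n p m G) {P P' : Matrix (Fin m) (Fin m) ℝ}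
    {χ : G → Fin m → ℝ} (hD : Diag S.L P P' χ) (g h : G) : S.L g * S.L h = S.L h * S.L g := by
  have e1 : P * (S.L g * S.L h) = P * (S.L h * S.L g) := by
    have a1 : P * (S.L g * S.L h) = Matrix.diagonal (χ g) * Matrix.diagonal (χ h) * P := by
      rw [← mul_assoc, hD.eq g, mul_assoc, hD.eq h, mul_assoc]
    have a2 : P * (S.L h * S.L g) = Matrix.diagonal (χ h) * Matrix.diagonal (χ g) * P := by
      rw [← mul_assoc, hD.eq h, mul_assoc, hD.eq g, mul_assoc]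
    rw [a1, a2, Matrix.diagonal_mul_diagonal, Matrix.diagonal_mul_diagonal]
    congr 2
    funext i
    exact mul_comm _ _
  have e2 := congrArg (fun X => P' * X) e1
  simp only [← mul_assoc, hD.left, one_mul] at e2
  simpa [mul_assoc] using e2

theorem Setting.R_comm (S : Setting n p m G)
    {P P' : Matrix (Fin m) (Fin m) ℝ} {χ : G → Fin m → ℝ} (hD : Diag S.L P P' χ) {g0 : G} {α : ℂ}
    (hg : S.Gen χ g0 α) (g : G) : S.R g * S.R g0 = S.R g0 * S.R g := by
  have h1 : ∀ x : Fin n → ℝ, (S.R g).map (Int.cast : ℤ → ℝ) *ᵥ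
      ((S.R g0).map (Int.cast : ℤ → ℝ) *ᵥ x) = (S.R g0).map (Int.cast : ℤ → ℝ) *ᵥ
      ((S.R g).map (Int.cast : ℤ → ℝ) *ᵥ x) := by
    intro x
    apply S.Θ.injective
    rw [S.hΘ, S.hΘ, S.hΘ, S.hΘ]
    apply Prod.ext
    · simp only
      rw [hg.A0, hg.A0, map_smul]
    · simp only
      rw [Matrix.mulVec_mulVec, Matrix.mulVec_mulVec, S.L_comm hD]
  have h2 : (S.R g * S.R g0).map (Int.cast : ℤ → ℝ) = (S.R g0 * S.R g).map (Int.cast : ℤ → ℝ) := by
    have e1 : (S.R g * S.R g0).map (Int.cast : ℤ → ℝ)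
        = (S.R g).map (Int.cast : ℤ → ℝ) * (S.R g0).map (Int.cast : ℤ → ℝ) :=
      Matrix.map_mul (f := Int.castRingHom ℝ)
    have e2 : (S.R g0 * S.R g).map (Int.cast : ℤ → ℝ)
        = (S.R g0).map (Int.cast : ℤ → ℝ) * (S.R g).map (Int.cast : ℤ → ℝ) :=
      Matrix.map_mul (f := Int.castRingHom ℝ)
    rw [e1, e2]
    apply Matrix.ext_of_mulVec_single
    intro i
    have := h1 (Pi.single i 1)
    rwa [Matrix.mulVec_mulVec, Matrix.mulVec_mulVec] at this
  ext i j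
  have h3 := congrFun (congrFun h2 i) j
  simpa using h3

theorem Setting.exists_u (S : Setting n p m G)
    {P P' : Matrix (Fin m) (Fin m) ℝ} {χ : G → Fin m → ℝ} (hD : Diag S.L P P' χ) {g0 : G} {α : ℂ}
    (hg : S.Gen χ g0 α) {K : Type} [Field K] [NumberField K] {θ : K}
    {ev : K →+* Matrix (Fin n) (Fin n) ℚ} {σ : Fin m → K →+* ℝ} {τ : K →+* ℂ}
    (hK : S.FK χ g0 α θ ev σ τ) {e : (Fin n → ℚ) ≃ₗ[ℚ] K} {z0 : CP p} {v : Fin m → ℝ}
    (hz0 : z0 ≠ 0) (hv : ∀ i, 0 < v i) (he : ∀ κ x, e (ev κ *ᵥ x) = κ * e x)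
    (h1 : ∀ x : Fin n → ℚ, (S.Θ (fun j => (x j : ℝ))).1 = τ (e x) • z0)
    (h2 : ∀ (x : Fin n → ℚ) (i : Fin m), (P *ᵥ (S.Θ (fun j => (x j : ℝ))).2) i = σ i (e x) * v i) :
    ∃ u : G →* (𝓞 K)ˣ,
      (∀ g x, e ((S.R g).map (Int.cast : ℤ → ℚ) *ᵥ x) = ((u g : 𝓞 K) : K) * e x) ∧
      (∀ g i, σ i ((u g : 𝓞 K) : K) = χ g i) ∧ (∀ g, ‖τ ((u g : 𝓞 K) : K)‖ = S.lam g) := by
  classical
  obtain ⟨w0, hw0⟩ : ∃ w0 : Fin n → ℚ, e w0 = 1 := ⟨e.symm 1, e.apply_symm_apply 1⟩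
  have hev : ∀ x, ev (e x) *ᵥ w0 = x := by
    intro x
    apply e.injective
    rw [he, hw0, mul_one]
  have hevinj : ∀ a b, ev a = ev b → a = b := by
    intro a b hab
    have h3 := he a w0
    have h4 := he b w0
    rw [hw0, mul_one] at h3 h4
    rw [← h3, ← h4, hab]
  -- `ev κ` commutes with `R g`
  have hcomm : ∀ (g : G) (κ : K), (S.R g).map (Int.cast : ℤ → ℚ) * ev κ
      = ev κ * (S.R g).map (Int.cast : ℤ → ℚ) := by
    intro g κ
    have hκ : κ ∈ Algebra.adjoin ℚ {θ} := by rw [hK.adj]; exact Algebra.mem_top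
    induction hκ using Algebra.adjoin_induction with
    | mem y hy =>
      rw [Set.mem_singleton_iff] at hy
      subst hy
      rw [hK.ev_θ]
      have e1 : (S.R g * S.R g0).map (Int.cast : ℤ → ℚ)
          = (S.R g).map (Int.cast : ℤ → ℚ) * (S.R g0).map (Int.cast : ℤ → ℚ) :=
        Matrix.map_mul (f := Int.castRingHom ℚ)
      have e2 : (S.R g0 * S.R g).map (Int.cast : ℤ → ℚ)
          = (S.R g0).map (Int.cast : ℤ → ℚ) * (S.R g).map (Int.cast : ℤ → ℚ) :=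
        Matrix.map_mul (f := Int.castRingHom ℚ)
      rw [← e1, ← e2, S.R_comm hD hg]
    | algebraMap q => rw [hK.rat]; exact (Algebra.commutes q _).symm
    | add a b _ _ iha ihb => rw [map_add, mul_add, add_mul, iha, ihb]
    | mul a b _ _ iha ihb => rw [map_mul, ← mul_assoc, iha, mul_assoc, ihb, mul_assoc]
  obtain ⟨κ, hκ⟩ : ∃ κ : G → K, ∀ g, κ g = e ((S.R g).map (Int.cast : ℤ → ℚ) *ᵥ w0) :=
    ⟨_, fun _ => rfl⟩
  have hκe : ∀ g x, e ((S.R g).map (Int.cast : ℤ → ℚ) *ᵥ x) = κ g * e x := by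
    intro g x
    conv_lhs => rw [← hev x]
    rw [Matrix.mulVec_mulVec, hcomm, ← Matrix.mulVec_mulVec, he, hκ, mul_comm]
  have hκev : ∀ g, ev (κ g) = (S.R g).map (Int.cast : ℤ → ℚ) := by
    intro g
    apply Matrix.ext_of_mulVec_single
    intro i
    apply e.injective
    rw [he, hκe]
  have hone : κ 1 = 1 := by
    rw [hκ, map_one]
    have : (1 : Matrix (Fin n) (Fin n) ℤ).map (Int.cast : ℤ → ℚ) = 1 :=
      Matrix.map_one _ Int.cast_zero Int.cast_one
    rw [this, Matrix.one_mulVec, hw0]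
  have hmul : ∀ g h, κ (g * h) = κ g * κ h := by
    intro g h
    apply hevinj
    rw [map_mul, hκev, hκev, hκev, map_mul]
    exact Matrix.map_mul (f := Int.castRingHom ℚ)
  have hint : ∀ g, IsIntegral ℤ (κ g) := by
    intro g
    refine ⟨(S.R g).charpoly, Matrix.charpoly_monic _, ?_⟩
    apply hevinj
    rw [map_zero]
    have h3 : ev (eval₂ (algebraMap ℤ K) (κ g) (S.R g).charpoly)
        = aeval (ev (κ g)) ((S.R g).charpoly.map (Int.castRingHom ℚ)) := by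
      have h4 : eval₂ (algebraMap ℤ K) (κ g) (S.R g).charpoly
          = eval (κ g) ((S.R g).charpoly.map (algebraMap ℤ K)) := by rw [eval_map]
      rw [eval₂_eq_sum_range, map_sum]
      rw [Polynomial.aeval_eq_sum_range]
      rw [(Matrix.charpoly_monic _).natDegree_map]
      refine Finset.sum_congr rfl (fun k _ => ?_)
      rw [map_mul, map_pow, coeff_map]
      rw [Algebra.smul_def]
      congr 1
      simp
    rw [h3, hκev]
    have h5 : ((S.R g).map (Int.cast : ℤ → ℚ)).charpoly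
        = (S.R g).charpoly.map (Int.castRingHom ℚ) :=
      Matrix.charpoly_map (S.R g) (Int.castRingHom ℚ)
    rw [← h5]
    exact Matrix.aeval_self_charpoly _
  let f : G →* 𝓞 K :=
    { toFun := fun g => ⟨κ g, hint g⟩
      map_one' := by apply NumberField.RingOfIntegers.ext; exact hone
      map_mul' := fun g h => by apply NumberField.RingOfIntegers.ext; exact hmul g h }
  have hf : ∀ g, ((f.toHomUnits g : 𝓞 K) : K) = κ g := by
    intro g
    rw [MonoidHom.coe_toHomUnits]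
    exact NumberField.RingOfIntegers.map_mk (κ g) (hint g)
  have hcw : ∀ g, S.Θ (fun j => (((S.R g).map (Int.cast : ℤ → ℚ) *ᵥ w0) j : ℝ))
      = (S.A g (S.Θ (fun j => (w0 j : ℝ))).1, S.L g *ᵥ (S.Θ (fun j => (w0 j : ℝ))).2) := by
    intro g
    rw [castI_mulVec, S.hΘ]
  refine ⟨f.toHomUnits, ?_, ?_, ?_⟩
  · intro g x
    rw [hf, hκe]
  · intro g i
    rw [hf]
    have h3 := h2 ((S.R g).map (Int.cast : ℤ → ℚ) *ᵥ w0) i
    rw [← hκ, hcw] at h3
    simp only at h3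
    rw [Matrix.mulVec_mulVec, hD.eq, ← Matrix.mulVec_mulVec, Matrix.mulVec_diagonal, h2, hw0,
      map_one, one_mul] at h3
    exact (mul_right_cancel₀ (hv i).ne' h3).symm
  · intro g
    rw [hf]
    have h3 := h1 ((S.R g).map (Int.cast : ℤ → ℚ) *ᵥ w0)
    rw [← hκ, hcw] at h3
    simp only at h3
    rw [h1, hw0, map_one, one_smul] at h3
    have h4 := congrArg norm h3
    rw [S.norm_A, norm_smul] at h4
    exact (mul_right_cancel₀ (norm_ne_zero_iff.2 hz0) h4).symm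

end TLK
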