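import Pool.Agent.TLK.Defs
import Pool.Agent.TLK.N3c

/-!
# [TLK-N4] the data `K, U` satisfy the conditions of Oeljeklaus and Toma

PROOF. `inj`: `σ i θ = χ g0 i` (`sig`) and `Gen.inj`. `deg`: `finrank = n = 2 p + m = m + 2` (`deg`, `dim_eq`, `p = 1`). `tau`: `τ θ = α`. `pos`: `σ i (u g) = χ g i > 0` (`hD.pos`). `cocompact`: `hD.dense`.
`discrete`: let `U = u.range`, `u g` with `|log σ_i(u g)| ≤ B` for all `i`. `det (L g) = ∏ χ_i(g)` (`hD.eq`, `P P' = 1`), so by `det_rel` (`p = 1`)
`‖τ (u g)‖² = lam² = ∏ χ_i(g)⁻¹ ≤ e^{m B}`, and `|σ_i(u g)| ≤ e^B`. The embeddings `K →+* ℂ` are exactly `Complex.ofRealHom.comp (σ i)` (`m` different ones), `τ` and its conjugate (different from each other and from the real ones, as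
`τ θ` is not real): together `m + 2 = finrank` (`NumberField.Embeddings.card`). So all conjugates of `u g` are bounded: finitely many
(`NumberField.Embeddings.finite_of_norm_le`), and `(𝓞 K)ˣ → K` is injective.
-/

open scoped Matrix NumberField

namespace TLK

variable {n p m : ℕ} {G : Type} [Group G]

theorem Setting.isOT (S : Setting n p m G) (hp1 : p = 1)
    {P P' : Matrix (Fin m) (Fin m) ℝ} {χ : G → Fin m → ℝ} (hD : Diag S.L P P' χ) {g0 : G} {α : ℂ}
    (hg : S.Gen χ g0 α) {K : Type} [Field K] [NumberField K] {θ : K}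
    {ev : K →+* Matrix (Fin n) (Fin n) ℚ} {σ : Fin m → K →+* ℝ} {τ : K →+* ℂ}
    (hK : S.FK χ g0 α θ ev σ τ) {u : G →* (𝓞 K)ˣ}
    (hσ : ∀ g i, σ i ((u g : 𝓞 K) : K) = χ g i) (hτ : ∀ g, ‖τ ((u g : 𝓞 K) : K)‖ = S.lam g) :
    IsOT σ τ u.range := by
  classical
  have hdeg : Module.finrank ℚ K = m + 2 := by
    rw [hK.deg, S.dim_eq, hp1]; ring
  -- all the complex embeddings
  have hemb : ∀ φ : K →+* ℂ, φ = τ ∨ φ = (starRingEnd ℂ).comp τ ∨
      ∃ i, φ = Complex.ofRealHom.comp (σ i) := by
    let Ψ : Option (Option (Fin m)) → (K →+* ℂ) := fun o =>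
      match o with
      | none => τ
      | some none => (starRingEnd ℂ).comp τ
      | some (some i) => Complex.ofRealHom.comp (σ i)
    have hv1 : Ψ none θ = α := hK.tau
    have hv2 : Ψ (some none) θ = (starRingEnd ℂ) α := by
      show (starRingEnd ℂ) (τ θ) = _
      rw [hK.tau]
    have hv3 : ∀ i, Ψ (some (some i)) θ = ((χ g0 i : ℝ) : ℂ) := by
      intro i
      show ((σ i θ : ℝ) : ℂ) = _
      rw [hK.sig]
    have hne1 : α ≠ (starRingEnd ℂ) α := fun h => hg.im (Complex.conj_eq_iff_im.1 h.symm)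
    have hne2 : ∀ r : ℝ, α ≠ (r : ℂ) := fun r h => hg.im (by rw [h]; exact Complex.ofReal_im r)
    have hne3 : ∀ r : ℝ, (starRingEnd ℂ) α ≠ (r : ℂ) := fun r h => hg.im (by
      have := congrArg Complex.im h
      rw [Complex.conj_im, Complex.ofReal_im] at this
      linarith)
    have hinj : Function.Injective Ψ := by
      intro a b hab
      have h : Ψ a θ = Ψ b θ := congrArg (fun φ : K →+* ℂ => φ θ) hab
      rcases a with _ | _ | i <;> rcases b with _ | _ | j
      · rfl
      · rw [hv1, hv2] at h; exact absurd h hne1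
      · rw [hv1, hv3] at h; exact absurd h (hne2 _)
      · rw [hv1, hv2] at h; exact absurd h.symm hne1
      · rfl
      · rw [hv2, hv3] at h; exact absurd h (hne3 _)
      · rw [hv1, hv3] at h; exact absurd h.symm (hne2 _)
      · rw [hv2, hv3] at h; exact absurd h.symm (hne3 _)
      · rw [hv3, hv3] at h
        have h2 : χ g0 i = χ g0 j := by exact_mod_cast h
        rw [hg.inj h2]
    have hcard : Fintype.card (Option (Option (Fin m))) = Fintype.card (K →+* ℂ) := by
      rw [NumberField.Embeddings.card, hdeg, Fintype.card_option, Fintype.card_option,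
        Fintype.card_fin]
    have hbij := (Fintype.bijective_iff_injective_and_card Ψ).2 ⟨hinj, hcard⟩
    intro φ
    obtain ⟨o, ho⟩ := hbij.2 φ
    rcases o with _ | _ | i
    · exact Or.inl ho.symm
    · exact Or.inr (Or.inl ho.symm)
    · exact Or.inr (Or.inr ⟨i, ho.symm⟩)
  have hdetL : ∀ g, (S.L g).det = ∏ i, χ g i := by
    intro g
    have h1 := congrArg Matrix.det (hD.eq g)
    rw [Matrix.det_mul, Matrix.det_mul, Matrix.det_diagonal, mul_comm] at h1
    have h2 : P.det ≠ 0 := by
      intro h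
      have h3 := congrArg Matrix.det hD.right
      rw [Matrix.det_mul, h, zero_mul, Matrix.det_one] at h3
      exact zero_ne_one h3
    exact mul_right_cancel₀ h2 h1
  refine ⟨?_, hdeg, ⟨θ, by rw [hK.tau]; exact hg.im⟩, ?_, ?_, ?_⟩
  · intro i j hij
    apply hg.inj
    rw [← hK.sig, ← hK.sig, hij]
  · rintro _ ⟨g, rfl⟩ i
    rw [hσ]
    exact hD.pos g i
  · intro B
    have hfin := NumberField.Embeddings.finite_of_norm_le K ℂ
      (Real.exp |B| + (1 + Real.exp (m * |B|)))
    refine (hfin.preimage (f := fun w : (𝓞 K)ˣ => ((w : 𝓞 K) : K)) ?_).subset ?_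
    · intro a _ b _ hab
      exact Units.ext (NumberField.RingOfIntegers.ext hab)
    · rintro w ⟨⟨g, rfl⟩, hw⟩
      refine ⟨NumberField.RingOfIntegers.isIntegral_coe _, ?_⟩
      have hBi : ∀ i, |Real.log (χ g i)| ≤ |B| := fun i => by
        rw [← hσ]
        exact (hw i).trans (le_abs_self B)
      have hlam : S.lam g ≤ 1 + Real.exp (m * |B|) := by
        have h1 := S.det_rel g
        have hpp : 2 * p = 2 := by omega
        rw [hpp, hdetL, abs_of_pos (Finset.prod_pos (fun i _ => hD.pos g i))] at h1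
        have h2 : Real.exp (-(m * |B|)) ≤ ∏ i, χ g i := by
          have h3 : ∏ i, χ g i = Real.exp (∑ i, Real.log (χ g i)) := by
            rw [Real.exp_sum]
            exact Finset.prod_congr rfl (fun i _ => (Real.exp_log (hD.pos g i)).symm)
          rw [h3]
          apply Real.exp_le_exp.2
          have h4 : ∑ i : Fin m, (-|B|) ≤ ∑ i, Real.log (χ g i) :=
            Finset.sum_le_sum (fun i _ => (abs_le.1 (hBi i)).1)
          rw [Finset.sum_const, Finset.card_univ, Fintype.card_fin, nsmul_eq_mul] at h4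
          linarith
        have h5 : S.lam g ^ 2 ≤ Real.exp (m * |B|) := by
          have h6 : Real.exp (-(m * |B|)) * S.lam g ^ 2 ≤ 1 := by
            calc Real.exp (-(m * |B|)) * S.lam g ^ 2 ≤ (∏ i, χ g i) * S.lam g ^ 2 :=
                  mul_le_mul_of_nonneg_right h2 (sq_nonneg _)
              _ = 1 := by simpa using h1
          rw [Real.exp_neg] at h6
          have h7 := Real.exp_pos (m * |B|)
          calc S.lam g ^ 2 = Real.exp (m * |B|) * ((Real.exp (m * |B|))⁻¹ * S.lam g ^ 2) := by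
                rw [← mul_assoc, mul_inv_cancel₀ h7.ne', one_mul]
            _ ≤ Real.exp (m * |B|) * 1 := mul_le_mul_of_nonneg_left h6 h7.le
            _ = _ := mul_one _
        nlinarith [sq_nonneg (S.lam g - 1)]
      have hE := Real.exp_pos |B|
      have hE' := Real.exp_pos (m * |B|)
      intro φ
      rcases hemb φ with rfl | rfl | ⟨i, rfl⟩
      · rw [hτ]; linarith
      · show ‖(starRingEnd ℂ) (τ _)‖ ≤ _
        rw [RCLike.norm_conj, hτ]
        linarith
      · show ‖((σ i _ : ℝ) : ℂ)‖ ≤ _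
        rw [Complex.norm_real, Real.norm_eq_abs, hσ, abs_of_pos (hD.pos g i)]
        have h1 : χ g i ≤ Real.exp |B| := by
          rw [← Real.log_le_iff_le_exp (hD.pos g i)]
          exact (abs_le.1 (hBi i)).2
        linarith
  · obtain ⟨B, hB⟩ := hD.dense
    refine ⟨B, fun c => ?_⟩
    obtain ⟨g, hgc⟩ := hB c
    refine ⟨u g, ⟨g, rfl⟩, fun i => ?_⟩
    rw [hσ]
    exact hgc i

end TLK
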