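import Pool.Agent.TLK.C3
import Pool.Agent.TLK.C4

/-!
# [TLK-P1] spectral decomposition of matrices commuting with `ρ`; scaling elements

PROOF of `spec_of_comm`: `exists_spec S` with: for a polynomial `q`, `aeval S q` commutes with all `ρ a` (`Polynomial.aeval` induction, or
`Commute` and `Algebra.adjoin`; e.g. `Polynomial.induction_on`). `hn`: `no_nilp` for `u = aeval S q`. `hr`: `no_rot` for `e = aeval S q`, `N = aeval S r`:
`e * N = N` is given and `N * e = e * N` (polynomials in `S` commute). Finally `Spec.comm` for `X = ρ a` gives `ρ a * π i = π i * ρ a`.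

PROOF of `scaling`: `K' = K ∪ {x0}`, `x0 ∈ C`, compact, contained in `C`; let `B` be the bound of `plemma` for `K'` (cone property: `smul_mem h`).
Given `s > 0`: `s⁻¹ • x0 ∈ C`, choose `g` with `ρ g *ᵥ (s⁻¹ • x0) ∈ K`. `X = s⁻¹ • ρ g`, `Y = s • ρ g⁻¹` are inverse to each other, preserve `C`
(`smul_mem`), and `X *ᵥ x0 ∈ K`.
-/

open scoped Matrix

namespace TLK

theorem P1_aeval {m : ℕ} {S X : Matrix (Fin m) (Fin m) ℝ} (hS : S * X = X * S) (q : Polynomial ℝ) :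
    Polynomial.aeval S q * X = X * Polynomial.aeval S q := by
  induction q using Polynomial.induction_on with
  | C a => rw [Polynomial.aeval_C]; exact Algebra.commutes a X
  | add p q hp hq => rw [map_add, add_mul, mul_add, hp, hq]
  | monomial n a ih =>
    rw [pow_succ, ← mul_assoc, map_mul, Polynomial.aeval_X, mul_assoc, hS, ← mul_assoc, ih, mul_assoc]

theorem spec_of_comm {m : ℕ} {G : Type} [Group G] {ρ : G →* Matrix (Fin m) (Fin m) ℝ}
    {C K : Set (Fin m → ℝ)} (h : Coc ρ C K) (hC : PC C) {S : Matrix (Fin m) (Fin m) ℝ}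
    (hS : ∀ a, S * ρ a = ρ a * S) :
    ∃ (k : ℕ) (t : Fin k → ℝ) (π : Fin k → Matrix (Fin m) (Fin m) ℝ), Spec S t π ∧
      ∀ i a, π i * ρ a = ρ a * π i := by
  have hc : ∀ q : Polynomial ℝ, ∀ a, Polynomial.aeval S q * ρ a = ρ a * Polynomial.aeval S q :=
    fun q a => P1_aeval (hS a) q
  obtain ⟨k, t, π, hsp⟩ := exists_spec S (fun q hq => no_nilp h hC hq (hc q))
    (fun q r he heN hN => no_rot h hC he heN
      (by rw [← map_mul, mul_comm, map_mul, heN]) hN (hc q) (hc r))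
  exact ⟨k, t, π, hsp, fun i a => (hsp.comm (ρ a) (hS a).symm i).symm⟩

theorem scaling {m : ℕ} {G : Type} [Group G] {ρ : G →* Matrix (Fin m) (Fin m) ℝ}
    {C K : Set (Fin m → ℝ)} (h : Coc ρ C K) (hC : PC C) :
    ∃ B : ℝ, ∀ s : ℝ, 0 < s → ∃ g, Bd (s⁻¹ • ρ g) B ∧ Bd (s • ρ g⁻¹) B := by
  obtain ⟨x0, hx0⟩ := h.nonempty
  have hs : ∀ s : ℝ, 0 < s → ∀ x ∈ C, s • x ∈ C := fun s hs x hx => smul_mem h hs hx
  obtain ⟨B, hB⟩ := plemma (K' := K ∪ {x0}) hC hs (h.compact.union isCompact_singleton)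
    (Set.union_subset h.subset (Set.singleton_subset_iff.2 hx0))
  refine ⟨B, fun s hs0 => ?_⟩
  obtain ⟨g, hg⟩ := h.cocompact _ (hs s⁻¹ (inv_pos.2 hs0) x0 hx0)
  have h1 : ρ g * ρ g⁻¹ = 1 := by rw [← map_mul, mul_inv_cancel, map_one]
  have h2 : ρ g⁻¹ * ρ g = 1 := by rw [← map_mul, inv_mul_cancel, map_one]
  refine ⟨g, hB _ _ ?_ ?_ ?_ ?_ ⟨x0, Or.inr rfl, Or.inl ?_⟩⟩
  · rw [Matrix.smul_mul, Matrix.mul_smul, smul_smul, h1, inv_mul_cancel₀ hs0.ne', one_smul]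
  · rw [Matrix.smul_mul, Matrix.mul_smul, smul_smul, h2, mul_inv_cancel₀ hs0.ne', one_smul]
  · intro x hx
    rw [Matrix.smul_mulVec]
    exact hs _ (inv_pos.2 hs0) _ (h.maps g x hx)
  · intro x hx
    rw [Matrix.smul_mulVec]
    exact hs _ hs0 _ (h.maps g⁻¹ x hx)
  · rw [Matrix.smul_mulVec, ← Matrix.mulVec_smul]
    exact hg

end TLK
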