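import Pool.Agent.TLK.P1
import Pool.Agent.TLK.C5
import Pool.Agent.TLK.A0

/-!
# [TLK-P2] the dual representation `ρ g = lam² (L g)⁻ᵀ`

`S.dual hp : G →* Matrix`, `S.dual hp g = (S.lam g)^2 • (S.L g⁻¹)ᵀ` (definition proved from `lam_one`, `lam_mul`).

* `dual_det`: `|det (lam² (L g⁻¹)ᵀ)| = lam^(2m) |det (L g)|⁻¹ = lam^(2m) lam^(2p)` (`det_rel`; `L g * L g⁻¹ = 1`).
* `spec_transpose`: `Sᵀ = ∑ t_i π_iᵀ`; `X * S = S * X ↔ Sᵀ Xᵀ = Xᵀ Sᵀ`, etc.: if `Spec Sᵀ t π'` then `Spec S t (fun i => (π' i)ᵀ)`.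
* `bdd_of_dual`: `scaling` for `ρ = S.dual hp` gives `B`. Let `X = s⁻¹ • ρ g`, `Y = s • ρ g⁻¹`, `X Y = 1`, entries bounded by `B`:
  `c⁻¹ ≤ |det X| ≤ c` with `c ≥ 1` depending on `B, m` (`dt_bound` with `π = 1`, or directly). `lam^(2(m+p)) = |det (ρ g)| = s^m |det X|`.
  `(L g⁻¹)ᵀ = lam⁻² s X` and `(L g)ᵀ = lam² s⁻¹ Y` (since `ρ g⁻¹ = lam⁻² (L g)ᵀ = s⁻¹ Y`).
  For `σ > 0` use `s = σ ^ (-(m+p)/p)` (real power): `lam² s⁻¹ = (s^m |det X|)^(1/(m+p)) s⁻¹ = s^(-p/(m+p)) |det X|^(1/(m+p)) = σ |det X|^(1/(m+p))`,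
  so `σ⁻¹ • L g = |det X|^(1/(m+p)) Yᵀ` and `σ • L g⁻¹ = |det X|^(-1/(m+p)) Xᵀ` are bounded by `c * |B|` (use `c^(1/(m+p)) ≤ c`).
  (To avoid real powers of `lam`: put `q = lam² s⁻¹ σ⁻¹ > 0`; then `q^(m+p) = |det X|` because `s^p = σ^(-(m+p))`; so `q ≤ c` and `q⁻¹ ≤ c`
  (if `q > c ≥ 1` then `q^(m+p) > c`).)
-/

open scoped Matrix

namespace TLK

variable {n p m : ℕ} {G : Type} [Group G]

/-- the dual representation `g ↦ lam² (L g)⁻ᵀ` -/
noncomputable def Setting.dual (S : Setting n p m G) (hp : 0 < p) : G →* Matrix (Fin m) (Fin m) ℝ where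
  toFun g := (S.lam g) ^ 2 • (S.L g⁻¹)ᵀ
  map_one' := by rw [S.lam_one hp]; simp
  map_mul' g h := by
    rw [S.lam_mul hp, mul_inv_rev, map_mul, Matrix.transpose_mul, mul_pow, Matrix.smul_mul, Matrix.mul_smul,
      smul_smul]

theorem Setting.dual_apply (S : Setting n p m G) (hp : 0 < p) (g : G) :
    S.dual hp g = (S.lam g) ^ 2 • (S.L g⁻¹)ᵀ := rfl

theorem P2_det_inv (S : Setting n p m G) (g : G) : |(S.L g).det| * |(S.L g⁻¹).det| = 1 := by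
  rw [← abs_mul, ← Matrix.det_mul, ← map_mul, mul_inv_cancel, map_one, Matrix.det_one, abs_one]

theorem P2_lam_inv (S : Setting n p m G) (hp : 0 < p) (g : G) : S.lam g⁻¹ = (S.lam g)⁻¹ := by
  apply eq_inv_of_mul_eq_one_left
  rw [← S.lam_mul hp, inv_mul_cancel, S.lam_one hp]

/-- the bounds for `q` -/
theorem P2_root {q c d : ℝ} (hq : 0 < q) (hc : 1 ≤ c) {k : ℕ} (hk : 0 < k) (h : q ^ k = d)
    (h1 : c⁻¹ ≤ d) (h2 : d ≤ c) : q ≤ c ∧ q⁻¹ ≤ c := by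
  have hc0 : 0 < c := by linarith
  constructor
  · by_contra hne
    push Not at hne
    have h3 : q ≤ q ^ k := le_self_pow₀ (by linarith) hk.ne'
    linarith
  · rw [inv_le_comm₀ hq hc0]
    by_contra hne
    push Not at hne
    have h4 : c⁻¹ ≤ 1 := inv_le_one_of_one_le₀ hc
    have h3 : q ^ k ≤ q := pow_le_of_le_one hq.le (by linarith) hk.ne'
    linarith

theorem Setting.dual_det (S : Setting n p m G) (hp : 0 < p) (g : G) :
    |(S.dual hp g).det| = S.lam g ^ (2 * (m + p)) := by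
  have h1 : |(S.L g).det| * |(S.L g⁻¹).det| = 1 := P2_det_inv S g
  have h2 := S.det_rel g
  have h3 : |(S.L g⁻¹).det| = S.lam g ^ (2 * p) := by
    have h4 : |(S.L g).det| ≠ 0 := by
      intro h5
      rw [h5, zero_mul] at h2
      exact zero_ne_one h2
    exact mul_left_cancel₀ h4 (h1.trans h2.symm)
  rw [S.dual_apply hp, Matrix.det_smul, Matrix.det_transpose, abs_mul, h3, Fintype.card_fin,
    abs_of_pos (pow_pos (pow_pos (S.lam_pos g) 2) m), ← pow_mul, ← pow_add, mul_add]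

theorem spec_transpose {m k : ℕ} {S : Matrix (Fin m) (Fin m) ℝ} {t : Fin k → ℝ}
    {π : Fin k → Matrix (Fin m) (Fin m) ℝ} (h : Spec Sᵀ t π) : Spec S t (fun i => (π i)ᵀ) := by
  refine { mul_self := ?_, mul_ne := ?_, sum := ?_, ne := ?_, inj := h.inj, eq := ?_, comm := ?_ }
  · intro i
    rw [← Matrix.transpose_mul, h.mul_self]
  · intro i j hij
    rw [← Matrix.transpose_mul, h.mul_ne j i hij.symm, Matrix.transpose_zero]
  · rw [← Matrix.transpose_sum, h.sum, Matrix.transpose_one]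
  · intro i hi
    exact h.ne i (by rw [← Matrix.transpose_transpose (π i), hi, Matrix.transpose_zero])
  · have h1 := congrArg Matrix.transpose h.eq
    rw [Matrix.transpose_transpose, Matrix.transpose_sum] at h1
    rw [h1]
    exact Finset.sum_congr rfl fun i _ => Matrix.transpose_smul _ _
  · intro X hX i
    have h1 : Xᵀ * Sᵀ = Sᵀ * Xᵀ := by rw [← Matrix.transpose_mul, ← Matrix.transpose_mul, hX]
    have h2 := congrArg Matrix.transpose (h.comm Xᵀ h1 i)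
    rw [Matrix.transpose_mul, Matrix.transpose_mul, Matrix.transpose_transpose] at h2
    exact h2.symm

theorem Setting.bdd_of_dual (S : Setting n p m G) (hp : 0 < p) {C K : Set (Fin m → ℝ)}
    (h : Coc (S.dual hp) C K) (hC : PC C) : S.Bdd := by
  obtain ⟨B, hB⟩ := scaling h hC
  obtain ⟨c, hc, hdt⟩ := dt_bound (π := (1 : Matrix (Fin m) (Fin m) ℝ)) (mul_one 1) B
  have hdt1 : ∀ X : Matrix (Fin m) (Fin m) ℝ, dt 1 X = X.det := by
    intro X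
    unfold dt
    rw [sub_self, zero_add, mul_one]
  refine ⟨c * B, fun σ hσ => ?_⟩
  -- the parameter
  have hp' : (0 : ℝ) < p := Nat.cast_pos.2 hp
  obtain ⟨s, hs, hsp⟩ : ∃ s : ℝ, 0 < s ∧ s ^ p * σ ^ (m + p) = 1 := by
    refine ⟨σ ^ (-((m + p : ℕ) : ℝ) / p), Real.rpow_pos_of_pos hσ _, ?_⟩
    rw [← Real.rpow_natCast, ← Real.rpow_mul hσ.le, div_mul_cancel₀ _ hp'.ne', ← Real.rpow_natCast,
      ← Real.rpow_add hσ, neg_add_cancel, Real.rpow_zero]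
  obtain ⟨g, hX, hY⟩ := hB s hs
  have hl := S.lam_pos g
  have hXY : (s⁻¹ • S.dual hp g) * (s • S.dual hp g⁻¹) = 1 := by
    rw [Matrix.smul_mul, Matrix.mul_smul, smul_smul, ← map_mul, mul_inv_cancel, map_one,
      inv_mul_cancel₀ hs.ne', one_smul]
  obtain ⟨h1, h2⟩ := hdt _ _ hXY (by rw [one_mul, mul_one]) (by rw [one_mul, mul_one]) hX hY
  rw [hdt1] at h1 h2
  have hdet : |(s⁻¹ • S.dual hp g).det| = (s⁻¹) ^ m * S.lam g ^ (2 * (m + p)) := by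
    rw [Matrix.det_smul, Fintype.card_fin, abs_mul, S.dual_det hp g,
      abs_of_pos (pow_pos (inv_pos.2 hs) m)]
  have hq : 0 < S.lam g ^ 2 * s⁻¹ * σ⁻¹ := by positivity
  have hqd : (S.lam g ^ 2 * s⁻¹ * σ⁻¹) ^ (m + p) = |(s⁻¹ • S.dual hp g).det| := by
    rw [hdet, mul_pow, mul_pow, ← pow_mul, inv_pow σ, pow_add s⁻¹ m p]
    have h3 : s⁻¹ ^ p * (σ ^ (m + p))⁻¹ = 1 := by
      rw [inv_pow, ← mul_inv, hsp, inv_one]
    calc S.lam g ^ (2 * (m + p)) * (s⁻¹ ^ m * s⁻¹ ^ p) * (σ ^ (m + p))⁻¹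
        = s⁻¹ ^ m * S.lam g ^ (2 * (m + p)) * (s⁻¹ ^ p * (σ ^ (m + p))⁻¹) := by ring
      _ = _ := by rw [h3, mul_one]
  obtain ⟨hq1, hq2⟩ := P2_root hq hc (by omega : 0 < m + p) hqd h1 h2
  have hLg : ∀ i j, (σ⁻¹ • S.L g) i j
      = (S.lam g ^ 2 * s⁻¹ * σ⁻¹) * (s • S.dual hp g⁻¹) j i := by
    intro i j
    rw [S.dual_apply hp, inv_inv, P2_lam_inv S hp]
    simp only [Matrix.smul_apply, Matrix.transpose_apply, smul_eq_mul]
    field_simp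
  have hLg' : ∀ i j, (σ • S.L g⁻¹) i j
      = (S.lam g ^ 2 * s⁻¹ * σ⁻¹)⁻¹ * (s⁻¹ • S.dual hp g) j i := by
    intro i j
    rw [S.dual_apply hp]
    simp only [Matrix.smul_apply, Matrix.transpose_apply, smul_eq_mul]
    field_simp
  refine ⟨g, fun i j => ?_, fun i j => ?_⟩
  · rw [hLg, abs_mul, abs_of_pos hq]
    exact mul_le_mul hq1 (hY j i) (abs_nonneg _) (by linarith)
  · rw [hLg', abs_mul, abs_of_pos (inv_pos.2 hq)]
    exact mul_le_mul hq2 (hX j i) (abs_nonneg _) (by linarith)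

end TLK
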