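import Pool.Agent.TLK.P2

/-!
# [TLK-P3] transport of (Fin) and (Star) to the dual representation

`ρ = S.dual hp`, `π' i = (π i)ᵀ`, the `π i` orthogonal idempotents commuting with all `L g`. `N_j = rank (π j)`.
`ρ a = lam² • (L a⁻¹)ᵀ`; by `dt_smul`, `dt_transpose`: `dt (π' j) (ρ a) = (lam²) ^ rank (π' j) * dt (π j) (L a⁻¹)`, `rank πᵀ = rank π`.
`∏_j dt (π' j) (ρ a) = det (ρ a)` (`dt_prod`; `Idem (π')`), `|det (ρ a)| = lam ^ (2 (m + p))` (`dual_det`).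

`fin_dual`: let `c⁻¹ ≤ v j = |dt (π' j) (ρ a)| ≤ c` for all `j`. If `k = 0` the set has at most one element. Otherwise `c ≥ 1` (as `c⁻¹ ≤ v ≤ c`, `c > 0`) and
`c^(-k) ≤ lam^(2 (m+p)) = ∏ v_j ≤ c^k`, so `c'⁻¹ ≤ lam ≤ c'` with `c' = c^k` (`≥ 1`) and `u j = |dt (π j) (L a⁻¹)| = v j * lam^(-2 N_j) ∈ [c''⁻¹, c'']` with
`c'' = c * c'^(2 m)` (`N_j ≤ m`). By `hFin c''` the vector `u` lies in a finite set. And
`lam (a⁻¹)^(2p) |det L a⁻¹| = 1` with `∏ u_j = |det (L a⁻¹)|` gives `lam a ^ (2p) = ∏ u_j` (`lam a * lam a⁻¹ = 1`), so `lam a` is the nonnegative `2p`-th root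
of `∏ u_j`: a function of `u`. So `v j = lam^(2 N_j) u j` is a function of `u`: `v` lies in the image of a finite set.

`star_dual`: if `|dt (π' j) (ρ a)| = 1` for all `j` then `lam ^ (2 (m+p)) = 1`, `lam a = 1` (positive), so `ρ a = (L a⁻¹)ᵀ`, `ρ a⁻¹ = (L a)ᵀ`, `|dt (π j) (L a⁻¹)| = 1`,
`ρ a * (1 - π' i) = ((1 - π i) * L a⁻¹)ᵀ = (L a⁻¹ * (1 - π i))ᵀ`, `ρ a⁻¹ * (1 - π' i) = (L a * (1 - π i))ᵀ`, `ρ a * π' i = (L a⁻¹ * π i)ᵀ`. So `hStar i B` for `a⁻¹`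
gives the bound.
-/

open scoped Matrix

namespace TLK

variable {n p m : ℕ} {G : Type} [Group G]

theorem P3_idem {k : ℕ} {π : Fin k → Matrix (Fin m) (Fin m) ℝ} (hπ : Idem π) :
    Idem (fun i => (π i)ᵀ) where
  mul_self i := by
    show (π i)ᵀ * (π i)ᵀ = (π i)ᵀ
    rw [← Matrix.transpose_mul, hπ.mul_self]
  mul_ne i j hij := by
    show (π i)ᵀ * (π j)ᵀ = 0
    rw [← Matrix.transpose_mul, hπ.mul_ne j i hij.symm, Matrix.transpose_zero]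
  sum := by
    show ∑ i, (π i)ᵀ = 1
    rw [← Matrix.transpose_sum, hπ.sum, Matrix.transpose_one]
  ne i h := hπ.ne i (Matrix.transpose_eq_zero.1 h)

theorem P3_comm (S : Setting n p m G) (hp : 0 < p) {π : Matrix (Fin m) (Fin m) ℝ}
    (hcomm : ∀ a, π * S.L a = S.L a * π) (a : G) : πᵀ * S.dual hp a = S.dual hp a * πᵀ := by
  rw [S.dual_apply, Matrix.mul_smul, Matrix.smul_mul, ← Matrix.transpose_mul,
    ← Matrix.transpose_mul, hcomm]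

theorem P3_key (S : Setting n p m G) (hp : 0 < p) {π : Matrix (Fin m) (Fin m) ℝ}
    (hπ : π * π = π) (hcomm : ∀ a, π * S.L a = S.L a * π) (a : G) :
    dt πᵀ (S.dual hp a) = (S.lam a ^ 2) ^ π.rank * dt π (S.L a⁻¹) := by
  have h1 : πᵀ * πᵀ = πᵀ := by rw [← Matrix.transpose_mul, hπ]
  have h2 : πᵀ * (S.L a⁻¹)ᵀ = (S.L a⁻¹)ᵀ * πᵀ := by
    rw [← Matrix.transpose_mul, ← Matrix.transpose_mul, hcomm]
  rw [S.dual_apply, dt_smul h1 h2, Matrix.rank_transpose, dt_transpose (hcomm a⁻¹)]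

theorem P3_prod (S : Setting n p m G) (hp : 0 < p) {k : ℕ}
    {π : Fin k → Matrix (Fin m) (Fin m) ℝ} (hπ : Idem π) (hcomm : ∀ i a, π i * S.L a = S.L a * π i)
    (a : G) : ∏ j, |dt (π j)ᵀ (S.dual hp a)| = S.lam a ^ (2 * (m + p)) := by
  rw [← S.dual_det hp a, ← dt_prod (P3_idem hπ) (X := S.dual hp a)
    (fun i => P3_comm S hp (hcomm i) a), Finset.abs_prod]

theorem P3_lam_inv (S : Setting n p m G) (hp : 0 < p) (a : G) : S.lam a * S.lam a⁻¹ = 1 := by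
  rw [← S.lam_mul hp, mul_inv_cancel, S.lam_one hp]

theorem P3_lam_pow (S : Setting n p m G) (hp : 0 < p) {k : ℕ}
    {π : Fin k → Matrix (Fin m) (Fin m) ℝ} (hπ : Idem π) (hcomm : ∀ i a, π i * S.L a = S.L a * π i)
    (a : G) : ∏ j, |dt (π j) (S.L a⁻¹)| = S.lam a ^ (2 * p) := by
  rw [← Finset.abs_prod, dt_prod hπ (fun i => hcomm i a⁻¹)]
  have h1 := S.det_rel a⁻¹
  have h2 : S.lam a ^ (2 * p) * S.lam a⁻¹ ^ (2 * p) = 1 := by
    rw [← mul_pow, P3_lam_inv S hp a, one_pow]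
  have h3 : S.lam a⁻¹ ^ (2 * p) ≠ 0 := pow_ne_zero _ (S.lam_pos _).ne'
  exact mul_right_cancel₀ h3 (h1.trans h2.symm)

theorem P3_ge {x c : ℝ} (hc : 1 ≤ c) {N : ℕ} (hN : N ≠ 0) (h : x ^ N ≤ c) :
    x ≤ c := by
  by_contra hlt
  rw [not_le] at hlt
  have h1 : 1 ≤ x := hc.trans hlt.le
  have h2 : x ≤ x ^ N := le_self_pow₀ h1 hN
  linarith

theorem P3_le {x c : ℝ} (hx : 0 < x) (hc : 1 ≤ c) {N : ℕ} (hN : N ≠ 0) (h : c⁻¹ ≤ x ^ N) :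
    c⁻¹ ≤ x := by
  have hc0 : 0 < c := by linarith
  have h1 : (x⁻¹) ^ N ≤ c := by
    rw [inv_pow]
    exact inv_le_of_inv_le₀ hc0 h
  exact inv_le_of_inv_le₀ hx (P3_ge hc hN h1)

theorem P3_fin (S : Setting n p m G) (hp : 0 < p) {k : ℕ}
    {π : Fin k → Matrix (Fin m) (Fin m) ℝ} (hπ : Idem π) (hcomm : ∀ i a, π i * S.L a = S.L a * π i)
    (hFin : ∀ c : ℝ, {v : Fin k → ℝ | ∃ a : G, (∀ j, v j = |dt (π j) (S.L a)|) ∧
      ∀ j, c⁻¹ ≤ v j ∧ v j ≤ c}.Finite) {c : ℝ} (hc : 1 ≤ c) :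
    {v : Fin k → ℝ | ∃ a : G, (∀ j, v j = |dt (π j)ᵀ (S.dual hp a)|) ∧
      ∀ j, c⁻¹ ≤ v j ∧ v j ≤ c}.Finite := by
  have hc0 : 0 < c := by linarith
  have hc1 : 1 ≤ c ^ k := one_le_pow₀ hc
  have hc10 : 0 < c ^ k := by linarith
  let F : (Fin k → ℝ) → Fin k → ℝ := fun u j =>
    (((∏ i, u i) ^ (((2 * p : ℕ) : ℝ)⁻¹)) ^ 2) ^ (π j).rank * u j
  refine ((hFin (c * ((c ^ k) ^ 2) ^ m)).image F).subset ?_
  rintro v ⟨a, hv, hb⟩
  have hlam : 0 < S.lam a := S.lam_pos a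
  have hN : 2 * (m + p) ≠ 0 := by omega
  have hprod : ∏ j, v j = S.lam a ^ (2 * (m + p)) := by
    rw [← P3_prod S hp hπ hcomm a]
    exact Finset.prod_congr rfl fun j _ => hv j
  have hup : S.lam a ^ (2 * (m + p)) ≤ c ^ k := by
    rw [← hprod]
    calc ∏ j, v j ≤ ∏ _j : Fin k, c :=
          Finset.prod_le_prod (fun j _ => (inv_nonneg.2 hc0.le).trans (hb j).1) fun j _ => (hb j).2
      _ = c ^ k := by rw [Finset.prod_const, Finset.card_univ, Fintype.card_fin]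
  have hlo : (c ^ k)⁻¹ ≤ S.lam a ^ (2 * (m + p)) := by
    rw [← hprod]
    calc (c ^ k)⁻¹ = ∏ _j : Fin k, c⁻¹ := by
          rw [Finset.prod_const, Finset.card_univ, Fintype.card_fin, inv_pow]
      _ ≤ ∏ j, v j :=
          Finset.prod_le_prod (fun j _ => inv_nonneg.2 hc0.le) fun j _ => (hb j).1
  have hle : S.lam a ≤ c ^ k := P3_ge hc1 hN hup
  have hge : (c ^ k)⁻¹ ≤ S.lam a := P3_le hlam hc1 hN hlo
  have hkey : ∀ j, v j = (S.lam a ^ 2) ^ (π j).rank * |dt (π j) (S.L a⁻¹)| := by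
    intro j
    rw [hv j, P3_key S hp (hπ.mul_self j) (hcomm j) a, abs_mul,
      abs_of_pos (pow_pos (pow_pos hlam 2) _)]
  have hrank : ∀ j, (π j).rank ≤ m := fun j => by
    have := (π j).rank_le_width
    exact this
  have hA1 : ∀ j, (S.lam a ^ 2) ^ (π j).rank ≤ ((c ^ k) ^ 2) ^ m := by
    intro j
    calc (S.lam a ^ 2) ^ (π j).rank ≤ ((c ^ k) ^ 2) ^ (π j).rank := by
          gcongr
      _ ≤ ((c ^ k) ^ 2) ^ m := pow_le_pow_right₀ (one_le_pow₀ hc1) (hrank j)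
  have hA2 : ∀ j, (((c ^ k) ^ 2) ^ m)⁻¹ ≤ (S.lam a ^ 2) ^ (π j).rank := by
    intro j
    calc (((c ^ k) ^ 2) ^ m)⁻¹ ≤ (((c ^ k) ^ 2) ^ (π j).rank)⁻¹ := by
          refine inv_anti₀ (by positivity) (pow_le_pow_right₀ (one_le_pow₀ hc1) (hrank j))
      _ = (((c ^ k)⁻¹) ^ 2) ^ (π j).rank := by rw [inv_pow, inv_pow]
      _ ≤ (S.lam a ^ 2) ^ (π j).rank := by
          have : 0 ≤ (c ^ k)⁻¹ := inv_nonneg.2 hc10.le
          gcongr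
  refine ⟨fun j => |dt (π j) (S.L a⁻¹)|, ⟨a⁻¹, fun j => rfl, fun j => ?_⟩, ?_⟩
  · have hL : 0 < (S.lam a ^ 2) ^ (π j).rank := by positivity
    have hC : 0 < ((c ^ k) ^ 2) ^ m := by positivity
    have hvj := hkey j
    obtain ⟨hb1, hb2⟩ := hb j
    have hv0 : 0 < v j := lt_of_lt_of_le (inv_pos.2 hc0) hb1
    constructor
    · show (c * ((c ^ k) ^ 2) ^ m)⁻¹ ≤ |dt (π j) (S.L a⁻¹)|
      rw [mul_inv]
      have h1 : |dt (π j) (S.L a⁻¹)| = v j * ((S.lam a ^ 2) ^ (π j).rank)⁻¹ := by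
        rw [hvj]
        field_simp
      rw [h1]
      exact mul_le_mul hb1 (inv_anti₀ hL (hA1 j)) (inv_nonneg.2 hC.le) hv0.le
    · show |dt (π j) (S.L a⁻¹)| ≤ c * ((c ^ k) ^ 2) ^ m
      have h1 : |dt (π j) (S.L a⁻¹)| = v j * ((S.lam a ^ 2) ^ (π j).rank)⁻¹ := by
        rw [hvj]
        field_simp
      rw [h1]
      refine mul_le_mul hb2 (inv_le_of_inv_le₀ hC (hA2 j)) (inv_nonneg.2 hL.le) hc0.le
  · funext j
    show (((∏ i, |dt (π i) (S.L a⁻¹)|) ^ (((2 * p : ℕ) : ℝ)⁻¹)) ^ 2) ^ (π j).rank *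
      |dt (π j) (S.L a⁻¹)| = v j
    rw [P3_lam_pow S hp hπ hcomm a, Real.pow_rpow_inv_natCast hlam.le (by omega), hkey j]

theorem Setting.fin_dual (S : Setting n p m G) (hp : 0 < p) {k : ℕ}
    {π : Fin k → Matrix (Fin m) (Fin m) ℝ} (hπ : Idem π) (hcomm : ∀ i a, π i * S.L a = S.L a * π i)
    (hFin : ∀ c : ℝ, {v : Fin k → ℝ | ∃ a : G, (∀ j, v j = |dt (π j) (S.L a)|) ∧
      ∀ j, c⁻¹ ≤ v j ∧ v j ≤ c}.Finite) (c : ℝ) :
    {v : Fin k → ℝ | ∃ a : G, (∀ j, v j = |dt (π j)ᵀ (S.dual hp a)|) ∧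
      ∀ j, c⁻¹ ≤ v j ∧ v j ≤ c}.Finite := by
  by_cases hc : 0 < c
  · refine (P3_fin S hp hπ hcomm hFin (le_max_right c 1)).subset ?_
    rintro v ⟨a, hv, hb⟩
    refine ⟨a, hv, fun j => ⟨?_, (hb j).2.trans (le_max_left c 1)⟩⟩
    exact (inv_anti₀ hc (le_max_left c 1)).trans (hb j).1
  · refine (Set.finite_singleton (0 : Fin k → ℝ)).subset ?_
    rintro v ⟨a, hv, hb⟩
    rw [not_lt] at hc
    refine Set.mem_singleton_iff.2 (funext fun j => ?_)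
    have h1 : 0 ≤ v j := by
      rw [hv j]
      exact abs_nonneg _
    exact le_antisymm ((hb j).2.trans hc) h1

theorem P3_bd {X Y : Matrix (Fin m) (Fin m) ℝ} {B : ℝ} (h : Bd X B) (he : X = Yᵀ) :
    Bd Y B := by
  subst he
  exact fun i j => h j i

theorem P3_tr {π X : Matrix (Fin m) (Fin m) ℝ} (h : π * X = X * π) :
    Xᵀ * (1 - πᵀ) = (X * (1 - π))ᵀ := by
  have h1 : X * (1 - π) = (1 - π) * X := by rw [mul_sub, sub_mul, h, mul_one, one_mul]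
  rw [h1, Matrix.transpose_mul, Matrix.transpose_sub, Matrix.transpose_one]

theorem Setting.star_dual (S : Setting n p m G) (hp : 0 < p) {k : ℕ}
    {π : Fin k → Matrix (Fin m) (Fin m) ℝ} (hπ : Idem π) (hcomm : ∀ i a, π i * S.L a = S.L a * π i)
    (hStar : ∀ i (B : ℝ), ∃ B' : ℝ, ∀ a : G, (∀ j, |dt (π j) (S.L a)| = 1) →
      Bd (S.L a * (1 - π i)) B → Bd (S.L a⁻¹ * (1 - π i)) B → Bd (S.L a * π i) B')
    (i : Fin k) (B : ℝ) : ∃ B' : ℝ, ∀ a : G, (∀ j, |dt (π j)ᵀ (S.dual hp a)| = 1) →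
      Bd (S.dual hp a * (1 - (π i)ᵀ)) B → Bd (S.dual hp a⁻¹ * (1 - (π i)ᵀ)) B →
      Bd (S.dual hp a * (π i)ᵀ) B' := by
  obtain ⟨B', hB'⟩ := hStar i B
  refine ⟨B', fun a ha h1 h2 => ?_⟩
  have hlam : 0 < S.lam a := S.lam_pos a
  have hN : 2 * (m + p) ≠ 0 := by omega
  have h3 : S.lam a ^ (2 * (m + p)) = 1 := by
    rw [← P3_prod S hp hπ hcomm a]
    exact Finset.prod_eq_one fun j _ => ha j
  have h4 : S.lam a = 1 := (pow_eq_one_iff_of_nonneg hlam.le hN).1 h3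
  have h5 : S.lam a⁻¹ = 1 := by
    have := P3_lam_inv S hp a
    rwa [h4, one_mul] at this
  have h6 : S.dual hp a = (S.L a⁻¹)ᵀ := by
    rw [S.dual_apply, h4, one_pow, one_smul]
  have h7 : S.dual hp a⁻¹ = (S.L a)ᵀ := by
    rw [S.dual_apply, h5, one_pow, one_smul, inv_inv]
  have h8 : ∀ j, |dt (π j) (S.L a⁻¹)| = 1 := by
    intro j
    have h := ha j
    rw [P3_key S hp (hπ.mul_self j) (hcomm j) a, h4, one_pow, one_pow, one_mul] at h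
    exact h
  rw [h6, P3_tr (hcomm i a⁻¹)] at h1
  rw [h7, P3_tr (hcomm i a)] at h2
  have h9 := hB' a⁻¹ h8 (P3_bd h1 rfl) (by rw [inv_inv]; exact P3_bd h2 rfl)
  rw [h6, ← Matrix.transpose_mul, hcomm i a⁻¹]
  exact fun x y => h9 y x

end TLK
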