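import Pool.Agent.TLK.Z4
import Pool.Agent.TLK.N4

/-!
# Field data (definition only)
-/

open scoped Matrix NumberField

namespace TLK

/-- the field data attached to a tube group: `ℚ^n = K` through `e`, `R γ` is multiplication by the unit `u γ`, and
`Θ x = (τ(e x) z0, (σ_i(e x) v_i)_i)` in the coordinates given by `P` on the second factor. -/
structure FD {n p m : ℕ} {Γ : Subgroup (Equiv.Perm (Amb p m))} (S : Setting n p m Γ) (c : Γ → W p m)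
    (P P' : Matrix (Fin m) (Fin m) ℝ) {K : Type} [Field K] [NumberField K] (σ : Fin m → K →+* ℝ)
    (τ : K →+* ℂ) (u : Γ →* (𝓞 K)ˣ) (e : (Fin n → ℚ) ≃ₗ[ℚ] K) (z0 : EuclideanSpace ℂ (Fin p))
    (v : Fin m → ℝ) : Prop where
  form : ∀ γ : Γ, IsForm γ.1 (S.lam γ) (S.A γ) (c γ).1 (S.L γ) (c γ).2
  lattice : ∀ w : W p m, trans w ∈ Γ ↔ ∃ x : Fin n → ℤ, w = S.Θ (fun j => (x j : ℝ))
  p_eq : p = 1
  right : P * P' = 1
  left : P' * P = 1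
  z0_ne : z0 ≠ 0
  v_pos : ∀ i, 0 < v i
  e_R : ∀ g x, e ((S.R g).map (Int.cast : ℤ → ℚ) *ᵥ x) = ((u g : 𝓞 K) : K) * e x
  eq1 : ∀ x : Fin n → ℚ, (S.Θ (fun j => (x j : ℝ))).1 = τ (e x) • z0
  eq2 : ∀ (x : Fin n → ℚ) (i : Fin m), (P *ᵥ (S.Θ (fun j => (x j : ℝ))).2) i = σ i (e x) * v i
  AP : ∀ g z, S.A g z = τ ((u g : 𝓞 K) : K) • z
  LP : ∀ g y i, (P *ᵥ (S.L g *ᵥ y)) i = σ i ((u g : 𝓞 K) : K) * (P *ᵥ y) i
  ne : ∃ g, u g ≠ 1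

end TLK
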