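import Pool.Agent.TLK.Y0

/-!
# [TLK-Y1] existence of the field data

`AP`: `p = 1`, so `z = t • z0` with `t : ℂ`; `A g z0 = (Θ (R g w0)).1 = τ (u g * 1) z0` with `w0 = e⁻¹ 1` (`(Θ w0).1 = τ 1 • z0 = z0`; `hΘ`; the cast of `(R g).map Int.cast *ᵥ w0` to `ℝ`), `A g` complex linear.
`LP`: `P L g = diagonal (χ g) P` (`hD.eq`) and `σ i (u g) = χ g i`. `ne`: by `hD.dense` (and `0 < m`) there is `g` with `log χ_0(g) ≠ 0`, so `χ_0(g) ≠ 1 = σ_0(1)`, so `u g ≠ 1`.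
-/

open scoped Matrix NumberField

namespace TLK

theorem exists_FD {n p m : ℕ} (hp : 0 < p) (hm : 0 < m) {Γ : Subgroup (Equiv.Perm (Amb p m))} (S : Setting n p m Γ)
    {c : Γ → W p m} (hc : ∀ γ : Γ, IsForm γ.1 (S.lam γ) (S.A γ) (c γ).1 (S.L γ) (c γ).2)
    (hΛ : ∀ v : W p m, trans v ∈ Γ ↔ ∃ x : Fin n → ℤ, v = S.Θ (fun j => (x j : ℝ)))
    {P P' : Matrix (Fin m) (Fin m) ℝ} {χ : Γ → Fin m → ℝ} (hD : Diag S.L P P' χ) :
    ∃ (K : Type) (_ : Field K) (_ : NumberField K) (σ : Fin m → K →+* ℝ) (τ : K →+* ℂ)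
      (u : Γ →* (𝓞 K)ˣ) (e : (Fin n → ℚ) ≃ₗ[ℚ] K) (z0 : EuclideanSpace ℂ (Fin p)) (v : Fin m → ℝ),
      IsOT σ τ u.range ∧ FD S c P P' σ τ u e z0 v := by
  obtain ⟨hp1, g0, α, hg⟩ := S.exists_gen hp hm hD
  obtain ⟨K, _, _, θ, ev, σ, τ, hK⟩ := S.exists_field hp hD hg
  obtain ⟨e, z0, v, hz0, hv, he, h1, h2⟩ := S.exists_e hp hD hg hK
  obtain ⟨u, hu, hσ, hτ⟩ := S.exists_u hD hg hK hz0 hv he h1 h2
  refine ⟨K, _, _, σ, τ, u, e, z0, v, S.isOT hp1 hD hg hK hσ hτ, ⟨hc, hΛ, hp1, hD.right, hD.left, hz0, hv, hu,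
    h1, h2, ?_, ?_, ?_⟩⟩
  · -- AP
    intro g z
    have hp1' := hp1
    subst hp1
    have hz : ∀ z : EuclideanSpace ℂ (Fin 1), z = (z 0 / z0 0) • z0 := by
      have h00 : z0 0 ≠ 0 := by
        intro h0
        apply hz0
        ext i
        rw [Subsingleton.elim i 0, h0]; rfl
      intro z
      ext i
      rw [Subsingleton.elim i 0]
      simp [h00]
    have hz0' : S.A g z0 = τ ((u g : 𝓞 K) : K) • z0 := by
      set w0 : Fin n → ℚ := e.symm 1 with hw0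
      have hw : (S.Θ (fun j => (w0 j : ℝ))).1 = z0 := by
        rw [h1 w0, hw0, LinearEquiv.apply_symm_apply, map_one, one_smul]
      have h3 := h1 ((S.R g).map (Int.cast : ℤ → ℚ) *ᵥ w0)
      rw [hu, hw0, LinearEquiv.apply_symm_apply, mul_one, ← hw0] at h3
      have h4 : (fun j => ((((S.R g).map (Int.cast : ℤ → ℚ) *ᵥ w0) j : ℚ) : ℝ)) =
          (S.R g).map (Int.cast : ℤ → ℝ) *ᵥ (fun j => (w0 j : ℝ)) := by
        funext j
        simp [Matrix.mulVec, dotProduct]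
      rw [h4, S.hΘ, hw] at h3
      exact h3
    rw [hz z, map_smul, hz0', smul_comm]
  · -- LP
    intro g y i
    rw [hσ g i, Matrix.mulVec_mulVec, hD.eq g, ← Matrix.mulVec_mulVec, Matrix.mulVec_diagonal]
  · -- ne
    obtain ⟨B, hB⟩ := hD.dense
    obtain ⟨g, hg⟩ := hB (fun _ => |B| + 1)
    refine ⟨g, fun h0 => ?_⟩
    have h3 := hg ⟨0, hm⟩
    rw [← hσ g ⟨0, hm⟩, h0] at h3
    simp only [Units.val_one, map_one, Real.log_one, zero_sub, abs_neg] at h3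
    have h4 := le_abs_self (|B| + 1)
    have h5 := le_abs_self B
    linarith

end TLK
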