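import Pool.Agent.TLK.Y0

/-!
# [TLK-Y2] the translation parts
-/

open scoped Matrix NumberField

namespace TLK

theorem FD.cocycle {n p m : ℕ} {Γ : Subgroup (Equiv.Perm (Amb p m))} {S : Setting n p m Γ} {c : Γ → W p m}
    {P P' : Matrix (Fin m) (Fin m) ℝ} {K : Type} [Field K] [NumberField K] {σ : Fin m → K →+* ℝ}
    {τ : K →+* ℂ} {u : Γ →* (𝓞 K)ˣ} {e : (Fin n → ℚ) ≃ₗ[ℚ] K} {z0 : EuclideanSpace ℂ (Fin p)}
    {v : Fin m → ℝ} (h : FD S c P P' σ τ u e z0 v) :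
    ∃ (w : W p m) (d : K) (κ : Γ → K), ∀ γ : Γ, (∃ x : Fin n → ℤ, κ γ = d * e (fun j => (x j : ℚ))) ∧
      (c γ).1 + S.A γ w.1 - w.1 = τ (κ γ) • z0 ∧
      ∀ i, (P *ᵥ ((c γ).2 + S.L γ *ᵥ w.2 - w.2)) i = σ i (κ γ) * v i := by
  classical
  have hp : 0 < p := by rw [h.p_eq]; exact Nat.one_pos
  obtain ⟨g0, hg0⟩ := h.ne
  set u0 : K := ((u g0 : 𝓞 K) : K) with hu0
  have hu0ne : u0 ≠ 1 := by
    intro h0
    apply hg0
    ext
    rw [← hu0, h0]
    simp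
  have h1u0 : (1 : K) - u0 ≠ 0 := sub_ne_zero.2 (Ne.symm hu0ne)
  -- cocycle relations
  have hc1 : ∀ γ δ : Γ, (c (γ * δ)).1 = τ ((u γ : 𝓞 K) : K) • (c δ).1 + (c γ).1 := by
    intro γ δ
    obtain ⟨-, -, ha, -, -⟩ := IsForm.unique hp (h.form (γ * δ)) ((h.form γ).mul (h.form δ))
    rw [ha, h.AP]
  have hc2 : ∀ (γ δ : Γ) (i : Fin m), (P *ᵥ (c (γ * δ)).2) i =
      σ i ((u γ : 𝓞 K) : K) * (P *ᵥ (c δ).2) i + (P *ᵥ (c γ).2) i := by
    intro γ δ i
    obtain ⟨-, -, -, -, hb⟩ := IsForm.unique hp (h.form (γ * δ)) ((h.form γ).mul (h.form δ))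
    rw [hb, Matrix.mulVec_add, Pi.add_apply, h.LP]
  -- elements with trivial linear part are translations in the lattice
  have hlat : ∀ δ : Γ, u δ = 1 → ∃ x : Fin n → ℤ, c δ = S.Θ (fun j => (x j : ℝ)) := by
    intro δ hδ
    apply (h.lattice (c δ)).1
    have hA : ∀ z, S.A δ z = z := by
      intro z
      rw [h.AP, hδ]; simp
    have hL : S.L δ = 1 := by
      have h1 : P * S.L δ = P := by
        ext i j
        have h2 := h.LP δ (Pi.single j 1) i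
        rw [hδ] at h2
        simp only [Units.val_one, map_one, one_mul, Matrix.mulVec_mulVec] at h2
        simpa using h2
      calc S.L δ = (P' * P) * S.L δ := by rw [h.left, Matrix.one_mul]
        _ = P' * (P * S.L δ) := by rw [Matrix.mul_assoc]
        _ = 1 := by rw [h1, h.left]
    have h3 : trans (c δ) = δ.1 := by
      apply Equiv.ext
      intro x
      rw [(h.form δ).apply x, hA, hL]
      refine Prod.ext rfl ?_
      funext j
      simp only [trans, shift, Equiv.coe_fn_mk, Matrix.one_apply]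
      congr 1
      rw [Finset.sum_eq_single j]
      · simp
      · intro k _ hk
        simp [Ne.symm hk]
      · simp
    rw [h3]
    exact δ.2
  -- the commutator
  have hcomm : ∀ γ : Γ, ∃ x : Fin n → ℤ, c (γ * g0 * (g0 * γ)⁻¹) = S.Θ (fun j => (x j : ℝ)) := by
    intro γ
    apply hlat
    rw [map_mul, map_inv, map_mul, map_mul, mul_comm (u γ) (u g0), mul_inv_cancel]
  choose x0 hx0 using hcomm
  set d : K := (1 - u0)⁻¹ with hd
  have hτ1 : (1 : ℂ) - τ u0 ≠ 0 := by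
    rw [← map_one τ, ← map_sub]
    exact fun h0 => h1u0 ((map_eq_zero τ).1 h0)
  have hσ1 : ∀ i, (1 : ℝ) - σ i u0 ≠ 0 := by
    intro i
    rw [← map_one (σ i), ← map_sub]
    exact fun h0 => h1u0 ((map_eq_zero (σ i)).1 h0)
  refine ⟨((1 - τ u0)⁻¹ • (c g0).1, P' *ᵥ (fun i => (1 - σ i u0)⁻¹ * (P *ᵥ (c g0).2) i)), d,
    fun γ => d * e (fun j => (x0 γ j : ℚ)), fun γ => ⟨⟨x0 γ, rfl⟩, ?_, ?_⟩⟩
  · -- first component
    have e1 := h.eq1 (fun j => (x0 γ j : ℚ))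
    simp only [Rat.cast_intCast] at e1
    have e2 := hc1 (γ * g0 * (g0 * γ)⁻¹) (g0 * γ)
    have hu1 : u (γ * g0 * (g0 * γ)⁻¹) = 1 := by
      rw [map_mul, map_inv, map_mul, map_mul, mul_comm (u γ) (u g0), mul_inv_cancel]
    rw [inv_mul_cancel_right, hu1, hx0 γ, e1, hc1 γ g0, hc1 g0 γ] at e2
    simp only [Units.val_one, map_one, one_smul] at e2
    rw [h.AP]
    have e3 : (1 - τ u0) • ((c γ).1 + τ ((u γ : 𝓞 K) : K) • ((1 - τ u0)⁻¹ • (c g0).1) - (1 - τ u0)⁻¹ • (c g0).1) =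
        τ (e (fun j => (x0 γ j : ℚ))) • z0 := by
      have e4 : (1 - τ u0) • ((c γ).1 + τ ((u γ : 𝓞 K) : K) • ((1 - τ u0)⁻¹ • (c g0).1) - (1 - τ u0)⁻¹ • (c g0).1) =
          (1 - τ u0) • (c γ).1 + τ ((u γ : 𝓞 K) : K) • (((1 - τ u0) * (1 - τ u0)⁻¹) • (c g0).1) -
            ((1 - τ u0) * (1 - τ u0)⁻¹) • (c g0).1 := by
        module
      rw [e4, mul_inv_cancel₀ hτ1, one_smul]
      have e5 : τ ((u γ : 𝓞 K) : K) • (c g0).1 + (c γ).1 =
        τ u0 • (c γ).1 + (c g0).1 + τ (e fun j => ((x0 γ j : ℤ) : ℚ)) • z0 := e2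
      have e6 : τ (e fun j => ((x0 γ j : ℤ) : ℚ)) • z0 =
          τ ((u γ : 𝓞 K) : K) • (c g0).1 + (c γ).1 - (τ u0 • (c γ).1 + (c g0).1) := by
        rw [e5]; abel
      rw [e6]
      module
    have e7 : τ (d * e (fun j => (x0 γ j : ℚ))) • z0 = (1 - τ u0)⁻¹ • (τ (e (fun j => (x0 γ j : ℚ))) • z0) := by
      rw [map_mul, hd, map_inv₀, map_sub, map_one, mul_smul]
    rw [e7, ← e3, inv_smul_smul₀ hτ1]
  · intro i
    have e1 := h.eq2 (fun j => (x0 γ j : ℚ)) i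
    simp only [Rat.cast_intCast] at e1
    have e2 := hc2 (γ * g0 * (g0 * γ)⁻¹) (g0 * γ) i
    have hu1 : u (γ * g0 * (g0 * γ)⁻¹) = 1 := by
      rw [map_mul, map_inv, map_mul, map_mul, mul_comm (u γ) (u g0), mul_inv_cancel]
    rw [inv_mul_cancel_right, hu1, hx0 γ, e1, hc2 γ g0 i, hc2 g0 γ i] at e2
    simp only [Units.val_one, map_one, one_mul] at e2
    have hw : ∀ j, (P *ᵥ (P' *ᵥ (fun i => (1 - σ i u0)⁻¹ * (P *ᵥ (c g0).2) i))) j =
        (1 - σ j u0)⁻¹ * (P *ᵥ (c g0).2) j := by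
      intro j
      rw [Matrix.mulVec_mulVec, h.right, Matrix.one_mulVec]
    rw [Matrix.mulVec_sub, Matrix.mulVec_add, Pi.sub_apply, Pi.add_apply, h.LP, hw, map_mul, hd, map_inv₀,
      map_sub, map_one]
    have h3 := hσ1 i
    field_simp
    linear_combination e2

end TLK
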