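import Pool.Agent.TLK.Y0

open scoped Matrix NumberField

namespace TLK

theorem denoms {n : ℕ} {K : Type} [Field K] [NumberField K] (e : (Fin n → ℚ) ≃ₗ[ℚ] K) (d : K) :
    ∃ N : ℕ, 0 < N ∧ ∀ x : Fin n → ℤ, (∃ a : 𝓞 K, (a : K) = N * e (fun j => (x j : ℚ))) ∧
      ∃ b : 𝓞 K, (b : K) = N * (d * e (fun j => (x j : ℚ))) := by
  classical
  -- a common denominator for a single element
  have hone : ∀ k : K, ∃ N : ℕ, 0 < N ∧ ∃ a : 𝓞 K, (a : K) = N * k := by
    intro k
    have halg : IsAlgebraic ℤ k := (IsFractionRing.isAlgebraic_iff ℤ ℚ K).2 (Algebra.IsAlgebraic.isAlgebraic k)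
    obtain ⟨N, a, hN, ha⟩ := IsAlgebraic.exists_nsmul_eq (𝓞 K) halg
    refine ⟨N, Nat.pos_of_ne_zero hN, a, ?_⟩
    show algebraMap (𝓞 K) K a = _
    rw [← ha, nsmul_eq_mul]
  choose N hN a ha using hone
  set M : ℕ := ∏ j : Fin n, (N (e (Pi.single j 1)) * N (d * e (Pi.single j 1))) with hM
  have hexp : ∀ x : Fin n → ℤ, e (fun j => (x j : ℚ)) = ∑ j, (x j : K) * e (Pi.single j 1) := by
    intro x
    have h1 : (fun j => (x j : ℚ)) = ∑ j, (x j : ℚ) • (Pi.single j (1 : ℚ) : Fin n → ℚ) := by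
      funext i
      simp [Finset.sum_apply, Pi.single_apply]
    rw [h1, map_sum]
    refine Finset.sum_congr rfl fun j _ => ?_
    rw [map_smul, Algebra.smul_def]
    simp
  refine ⟨M, Finset.prod_pos fun j _ => Nat.mul_pos (hN _) (hN _), fun x => ⟨?_, ?_⟩⟩
  · have h1 : ∀ j, ∃ b : 𝓞 K, (b : K) = (M : K) * e (Pi.single j 1) := by
      intro j
      have h2 : N (e (Pi.single j 1)) ∣ M :=
        (Dvd.intro _ rfl).trans (Finset.dvd_prod_of_mem _ (Finset.mem_univ j))
      obtain ⟨q, hq⟩ := h2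
      refine ⟨(q : 𝓞 K) * a (e (Pi.single j 1)), ?_⟩
      show algebraMap (𝓞 K) K _ = _
      rw [map_mul]
      have h3 := ha (e (Pi.single j 1))
      change algebraMap (𝓞 K) K _ = _ at h3
      rw [h3, hq]
      push_cast
      try simp only [map_natCast]
      ring
    choose b hb using h1
    refine ⟨∑ j, (x j : 𝓞 K) * b j, ?_⟩
    show algebraMap (𝓞 K) K _ = _
    rw [map_sum, hexp, Finset.mul_sum]
    refine Finset.sum_congr rfl fun j _ => ?_
    rw [map_mul]
    have h3 := hb j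
    change algebraMap (𝓞 K) K _ = _ at h3
    rw [h3]
    simp only [map_intCast]
    ring
  · have h1 : ∀ j, ∃ b : 𝓞 K, (b : K) = (M : K) * (d * e (Pi.single j 1)) := by
      intro j
      have h2 : N (d * e (Pi.single j 1)) ∣ M :=
        (Dvd.intro_left _ rfl).trans (Finset.dvd_prod_of_mem _ (Finset.mem_univ j))
      obtain ⟨q, hq⟩ := h2
      refine ⟨(q : 𝓞 K) * a (d * e (Pi.single j 1)), ?_⟩
      show algebraMap (𝓞 K) K _ = _
      rw [map_mul]
      have h3 := ha (d * e (Pi.single j 1))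
      change algebraMap (𝓞 K) K _ = _ at h3
      rw [h3, hq]
      push_cast
      try simp only [map_natCast]
      ring
    choose b hb using h1
    refine ⟨∑ j, (x j : 𝓞 K) * b j, ?_⟩
    show algebraMap (𝓞 K) K _ = _
    rw [map_sum, hexp, Finset.mul_sum, Finset.mul_sum]
    refine Finset.sum_congr rfl fun j _ => ?_
    rw [map_mul]
    have h3 := hb j
    change algebraMap (𝓞 K) K _ = _ at h3
    rw [h3]
    simp only [map_intCast]
    ring

theorem finite_index {n : ℕ} {K : Type} [Field K] [NumberField K] (e : (Fin n → ℚ) ≃ₗ[ℚ] K) (N : ℕ)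
    (hN : 0 < N) : ∃ F : Finset (𝓞 K), ∀ a : 𝓞 K, ∃ f ∈ F, ∃ x : Fin n → ℤ,
      (a : K) = (f : K) + N * e (fun j => (x j : ℚ)) := by
  classical
  -- basis of the ring of integers
  set bs := Module.Free.chooseBasis ℤ (𝓞 K) with hbs
  have hNK : (N : K) ≠ 0 := by exact_mod_cast hN.ne'
  -- denominators
  have h1 : ∀ i, ∃ D : ℕ, 0 < D ∧ ∃ x : Fin n → ℤ, (D : K) * (bs i : K) = N * e (fun j => (x j : ℚ)) := by
    intro i
    set y : Fin n → ℚ := e.symm ((bs i : K) / N) with hy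
    set D : ℕ := ∏ j, (y j).den with hD
    have hD0 : 0 < D := Finset.prod_pos fun j _ => (y j).pos
    have h2 : ∀ j, ∃ z : ℤ, (D : ℚ) * y j = z := by
      intro j
      obtain ⟨q, hq⟩ : (y j).den ∣ D := Finset.dvd_prod_of_mem _ (Finset.mem_univ j)
      refine ⟨q * (y j).num, ?_⟩
      rw [hq]
      push_cast
      have h3 : ((y j).den : ℚ) * y j = (y j).num := by
        rw [mul_comm]; exact Rat.mul_den_eq_num (y j)
      rw [← h3]; ring
    choose z hz using h2
    refine ⟨D, hD0, z, ?_⟩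
    have h3 : (fun j => (z j : ℚ)) = (D : ℚ) • y := by
      funext j
      rw [← hz j]; rfl
    rw [h3, map_smul, hy, LinearEquiv.apply_symm_apply, Algebra.smul_def]
    simp only [map_natCast]
    field_simp
  choose D hD x hx using h1
  set M : ℕ := ∏ i, D i with hM
  have hM0 : 0 < M := Finset.prod_pos fun i _ => hD i
  have h2 : ∀ i, ∃ x : Fin n → ℤ, (M : K) * (bs i : K) = N * e (fun j => (x j : ℚ)) := by
    intro i
    obtain ⟨q, hq⟩ : D i ∣ M := Finset.dvd_prod_of_mem _ (Finset.mem_univ i)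
    refine ⟨fun j => q * x i j, ?_⟩
    have h3 : (fun j => ((((q : ℤ) * x i j : ℤ)) : ℚ)) = (q : ℚ) • (fun j => (x i j : ℚ)) := by
      funext j
      simp
    rw [h3, map_smul, Algebra.smul_def, hq]
    try simp only [map_natCast]
    push_cast
    linear_combination (q : K) * hx i
  choose x' hx' using h2
  -- representatives
  refine ⟨(Finset.univ : Finset (Module.Free.ChooseBasisIndex ℤ (𝓞 K) → Fin M)).image
    (fun r => ∑ i, ((r i : ℕ) : ℤ) • bs i), fun a => ?_⟩
  set co := bs.repr a with hco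
  have ha : a = ∑ i, co i • bs i := (bs.sum_repr a).symm
  refine ⟨∑ i, ((⟨(co i % M).toNat, by
      have h3 := Int.emod_lt_of_pos (co i) (by exact_mod_cast hM0 : (0 : ℤ) < M)
      have h4 := Int.emod_nonneg (co i) (by exact_mod_cast hM0.ne' : (M : ℤ) ≠ 0)
      omega⟩ : Fin M) : ℤ) • bs i, Finset.mem_image_of_mem _ (Finset.mem_univ _),
      fun j => ∑ i, (co i / M) * x' i j, ?_⟩
  have h5 : (fun j => ((∑ i, (co i / M) * x' i j : ℤ) : ℚ)) =
      ∑ i, ((co i / M : ℤ) : ℚ) • (fun j => (x' i j : ℚ)) := by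
    funext j
    simp [Finset.sum_apply]
  rw [h5, map_sum]
  conv_lhs => rw [ha]
  show algebraMap (𝓞 K) K _ = algebraMap (𝓞 K) K _ + _
  rw [map_sum, map_sum, Finset.mul_sum, ← Finset.sum_add_distrib]
  refine Finset.sum_congr rfl fun i _ => ?_
  have h10 : e (((co i / M : ℤ) : ℚ) • (fun j => (x' i j : ℚ))) = ((co i / M : ℤ) : K) * e (fun j => (x' i j : ℚ)) := by
    rw [LinearEquiv.map_smul, Algebra.smul_def, map_intCast]
  rw [h10]
  have h6 := hx' i
  change (M : K) * algebraMap (𝓞 K) K _ = _ at h6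
  simp only [zsmul_eq_mul, map_mul, map_intCast]
  have h7 : (((co i % M).toNat : ℤ)) = co i % M :=
    Int.toNat_of_nonneg (Int.emod_nonneg (co i) (by exact_mod_cast hM0.ne' : (M : ℤ) ≠ 0))
  have h8 : ((((co i % M).toNat : ℤ) : ℤ) : K) = ((co i % M : ℤ) : K) := by rw [h7]
  have h9 : ((co i : ℤ) : K) = ((co i % M : ℤ) : K) + (M : K) * ((co i / M : ℤ) : K) := by
    conv_lhs => rw [← Int.emod_add_mul_ediv (co i) M]
    push_cast
    ring
  rw [h8, h9]
  linear_combination ((co i / M : ℤ) : K) * h6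

end TLK
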