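import Pool.Agent.TLK.Y2
import Pool.Agent.TLK.Y3

/-!
# [TLK-Y4] the affine isomorphism `Φ`

PROOF. `p = 1` (`subst` `h.p_eq` if possible, or use `Subsingleton`/`Fin 1`-type arguments after `obtain rfl`). `ζ z = z 0 / z0 0` (`z0 0 ≠ 0` because `z0 ≠ 0`), complex linear bijection `CP 1 → ℂ`, `z = ζ z • z0`. `Φ x = (N * ζ (x.1 - w.1), fun i => N * (∑ k, P i k * (x.2 k - w.2 k)) / v i)`; the
inverse: `(s, y) ↦ ((s / N) • z0 + w.1, fun k => (∑ i, P' k i * (v i * y i / N)) + w.2 k)` (`P' P = P P' = 1` cast to `ℂ`). Build `Φ` as an `AffineEquiv` from an equivalence and its linear part (`AffineEquiv.mk'`, `AffineEquiv.ofLinearEquiv`, or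
`LinearEquiv.toAffineEquiv` composed with a translation `AffineEquiv.constVAdd`).
-/

open scoped Matrix NumberField

namespace TLK

theorem Y4_sum {m : ℕ} {P P' : Matrix (Fin m) (Fin m) ℝ} (hr : P * P' = 1) (y : Fin m → ℂ)
    (i : Fin m) : ∑ k, (P i k : ℂ) * ∑ j, (P' k j : ℂ) * y j = y i := by
  have h : ∀ j, ∑ k, (P i k : ℂ) * (P' k j : ℂ) = if i = j then 1 else 0 := by
    intro j
    have h1 : (P * P') i j = (1 : Matrix (Fin m) (Fin m) ℝ) i j := by rw [hr]
    rw [Matrix.mul_apply, Matrix.one_apply] at h1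
    have h2 := congrArg (Complex.ofReal) h1
    rw [Complex.ofReal_sum] at h2
    simp only [Complex.ofReal_mul] at h2
    rw [h2]
    split_ifs <;> simp
  simp_rw [Finset.mul_sum]
  rw [Finset.sum_comm]
  have h3 : ∀ j, ∑ k, (P i k : ℂ) * ((P' k j : ℂ) * y j) = (if i = j then 1 else 0) * y j := by
    intro j
    rw [← h j, Finset.sum_mul]
    exact Finset.sum_congr rfl fun k _ => by ring
  simp_rw [h3]
  simp

/-- the linear part -/
noncomputable def Y4_lin {m : ℕ} {P P' : Matrix (Fin m) (Fin m) ℝ} (hr : P * P' = 1)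
    (hl : P' * P = 1) {z0 : EuclideanSpace ℂ (Fin 1)} (hz0 : z0 0 ≠ 0) {v : Fin m → ℝ}
    (hv : ∀ i, 0 < v i) {N : ℕ} (hN : 0 < N) : Amb 1 m ≃ₗ[ℂ] (ℂ × (Fin m → ℂ)) where
  toFun x := ((N : ℂ) * (x.1 0 / z0 0), fun i => (N : ℂ) * (∑ k, (P i k : ℂ) * x.2 k) / (v i : ℂ))
  map_add' x y := by
    refine Prod.ext ?_ (funext fun i => ?_)
    · simp only [Prod.fst_add, PiLp.add_apply]
      ring
    · simp only [Prod.snd_add, Pi.add_apply, mul_add, Finset.sum_add_distrib]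
      ring
  map_smul' c x := by
    refine Prod.ext ?_ (funext fun i => ?_)
    · simp only [Prod.smul_fst, PiLp.smul_apply, smul_eq_mul, RingHom.id_apply]
      ring
    · simp only [Prod.smul_snd, Pi.smul_apply, smul_eq_mul, RingHom.id_apply]
      have : ∀ k, (P i k : ℂ) * (c * x.2 k) = c * ((P i k : ℂ) * x.2 k) := fun k => by ring
      simp_rw [this]
      rw [← Finset.mul_sum]
      ring
  invFun s := ((s.1 / (N : ℂ)) • z0, fun k => ∑ i, (P' k i : ℂ) * ((v i : ℂ) * s.2 i / (N : ℂ)))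
  left_inv x := by
    have hN' : (N : ℂ) ≠ 0 := Nat.cast_ne_zero.2 hN.ne'
    refine Prod.ext ?_ (funext fun i => ?_)
    · ext j
      have hj : j = 0 := Subsingleton.elim _ _
      subst hj
      simp only [PiLp.smul_apply, smul_eq_mul]
      field_simp
    · simp only
      have h1 : ∀ j, (v j : ℂ) * ((N : ℂ) * (∑ k, (P j k : ℂ) * x.2 k) / (v j : ℂ)) / (N : ℂ) =
          ∑ k, (P j k : ℂ) * x.2 k := by
        intro j
        have hvj : (v j : ℂ) ≠ 0 := Complex.ofReal_ne_zero.2 (hv j).ne'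
        field_simp
      simp_rw [h1]
      exact Y4_sum hl x.2 i
  right_inv s := by
    have hN' : (N : ℂ) ≠ 0 := Nat.cast_ne_zero.2 hN.ne'
    refine Prod.ext ?_ (funext fun i => ?_)
    · simp only [PiLp.smul_apply, smul_eq_mul]
      field_simp
    · simp only
      rw [Y4_sum hr (fun j => (v j : ℂ) * s.2 j / (N : ℂ)) i]
      have hvi : (v i : ℂ) ≠ 0 := Complex.ofReal_ne_zero.2 (hv i).ne'
      field_simp

theorem exists_Phi {p m : ℕ} (hp : p = 1) {P P' : Matrix (Fin m) (Fin m) ℝ} (hr : P * P' = 1)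
    (hl : P' * P = 1) {z0 : EuclideanSpace ℂ (Fin p)} (hz0 : z0 ≠ 0) {v : Fin m → ℝ} (hv : ∀ i, 0 < v i)
    (w : W p m) {N : ℕ} (hN : 0 < N) :
    ∃ Φ : Amb p m ≃ᵃ[ℂ] (ℂ × (Fin m → ℂ)), ∀ x : Amb p m,
      x.1 = w.1 + ((Φ x).1 / N) • z0 ∧
      ∀ i, (Φ x).2 i = N * (∑ k, (P i k : ℂ) * (x.2 k - (w.2 k : ℂ))) / (v i : ℂ) := by
  subst hp
  have hz : z0 0 ≠ 0 := by
    intro h
    apply hz0
    ext j
    have hj : j = 0 := Subsingleton.elim _ _
    subst hj
    rw [h]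
    rfl
  have hN' : (N : ℂ) ≠ 0 := Nat.cast_ne_zero.2 hN.ne'
  set E := Y4_lin hr hl hz hv hN with hE
  set q : Amb 1 m := (w.1, fun k => (w.2 k : ℂ)) with hq
  refine ⟨AffineEquiv.mk' (fun x : Amb 1 m => E (x - q)) E q ?_, ?_⟩
  · intro x
    rw [sub_self, map_zero]
    simp
  · intro x
    have e0 : ((AffineEquiv.mk' (fun x : Amb 1 m => E (x - q)) E q
      (by intro x; rw [sub_self, map_zero]; simp)) x : ℂ × (Fin m → ℂ)) = E (x - q) := rfl
    have e1 : E (x - q) = ((N : ℂ) * ((x.1 - w.1) 0 / z0 0),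
        fun i => (N : ℂ) * (∑ k, (P i k : ℂ) * (x.2 k - (w.2 k : ℂ))) / (v i : ℂ)) := rfl
    refine ⟨?_, ?_⟩
    · rw [e0, e1]
      ext j
      have hj : j = 0 := Subsingleton.elim _ _
      subst hj
      simp only [PiLp.add_apply, PiLp.smul_apply, PiLp.sub_apply, smul_eq_mul]
      field_simp
      ring
    · intro i
      rw [e0, e1]

end TLK
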