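import Pool.Agent.TLK.Y4

/-!
# [TLK-Y5] `Φ` conjugates `Γ` into `U ⋉ 𝓞 K`

PROOF of `conj_otMap`: `γ x = (A x.1 + (c γ).1, L x.2 + (c γ).2)` (`form`). First component: `x.1 = w.1 + (s / N) z0`, `s = (Φ x).1`; `A x.1 + c1 = A w.1 + c1 + (s/N) τ(u) z0 = w.1 + τ(κ) z0 + (s/N) τ(u) z0` (`AP`, property of `κ`), and it is `w.1 + ((Φ (γ x)).1 / N) z0`; `z0 ≠ 0`:
`(Φ (γ x)).1 = N τ(κ) + τ(u) s`, and `N τ(κ) = τ(N κ) = τ(a)`. Second component: `∑_k P i k ((γ x).2 k - w.2 k) = ∑_k P i k ((L (x.2 - w.2)) k + (c.2 + L w.2 - w.2) k) = σ_i(u) ∑_k P i k (x.2 k - w.2 k) + σ_i(κ) v i` (`LP` for the real and imaginary parts of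
`x.2 - w.2`, i.e. the matrix identity `P * L = diagonal(σ_i(u)) * P`).

PROOF of `mem_tube`: `Im ((Φ x).2 i) = N (P (Im x.2))_i / v i`, of the sign of `(P (Im x.2))_i`.
-/

open scoped Matrix NumberField

namespace TLK

/-- `P L = diagonal * P`, entrywise -/
theorem Y5_PL {m : ℕ} {P L : Matrix (Fin m) (Fin m) ℝ} {s : Fin m → ℝ}
    (h : ∀ y i, (P *ᵥ (L *ᵥ y)) i = s i * (P *ᵥ y) i) (y : Fin m → ℂ) (i : Fin m) :
    ∑ k, (P i k : ℂ) * ∑ j, (L k j : ℂ) * y j = (s i : ℂ) * ∑ k, (P i k : ℂ) * y k := by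
  have h1 : ∀ j, ∑ k, P i k * L k j = s i * P i j := by
    intro j
    have h2 := h (Pi.single j 1) i
    rw [Matrix.mulVec_mulVec] at h2
    simp only [Matrix.mulVec_single_one, Matrix.col_apply, Matrix.mul_apply] at h2
    exact h2
  have h3 : ∀ j, ∑ k, (P i k : ℂ) * (L k j : ℂ) = (s i : ℂ) * (P i j : ℂ) := by
    intro j
    have h4 := congrArg Complex.ofReal (h1 j)
    rw [Complex.ofReal_sum] at h4
    simp only [Complex.ofReal_mul] at h4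
    exact h4
  simp_rw [Finset.mul_sum]
  rw [Finset.sum_comm]
  refine Finset.sum_congr rfl fun j _ => ?_
  have h5 : ∀ k, (P i k : ℂ) * ((L k j : ℂ) * y j) = (P i k : ℂ) * (L k j : ℂ) * y j :=
    fun k => by ring
  simp_rw [h5]
  rw [← Finset.sum_mul, h3]
  ring

theorem FD.conj_otMap {n p m : ℕ} {Γ : Subgroup (Equiv.Perm (Amb p m))} {S : Setting n p m Γ} {c : Γ → W p m}
    {P P' : Matrix (Fin m) (Fin m) ℝ} {K : Type} [Field K] [NumberField K] {σ : Fin m → K →+* ℝ}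
    {τ : K →+* ℂ} {u : Γ →* (𝓞 K)ˣ} {e : (Fin n → ℚ) ≃ₗ[ℚ] K} {z0 : EuclideanSpace ℂ (Fin p)}
    {v : Fin m → ℝ} (h : FD S c P P' σ τ u e z0 v) {w : W p m} {N : ℕ} (hN : 0 < N)
    {Φ : Amb p m ≃ᵃ[ℂ] (ℂ × (Fin m → ℂ))}
    (hΦ : ∀ x : Amb p m, x.1 = w.1 + ((Φ x).1 / N) • z0 ∧
      ∀ i, (Φ x).2 i = N * (∑ k, (P i k : ℂ) * (x.2 k - (w.2 k : ℂ))) / (v i : ℂ))
    {γ : Γ} {κ : K} (h1 : (c γ).1 + S.A γ w.1 - w.1 = τ κ • z0)
    (h2 : ∀ i, (P *ᵥ ((c γ).2 + S.L γ *ᵥ w.2 - w.2)) i = σ i κ * v i) {a : 𝓞 K} (ha : (a : K) = N * κ)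
    (x : Amb p m) : Φ (γ.1 x) = otMap σ τ (u γ) a (Φ x) := by
  have hN' : (N : ℂ) ≠ 0 := Nat.cast_ne_zero.2 hN.ne'
  have hf := (h.form γ).apply x
  obtain ⟨hx1, hx2⟩ := hΦ x
  obtain ⟨hy1, hy2⟩ := hΦ (γ.1 x)
  have g1 : (γ.1 x).1 = S.A γ x.1 + (c γ).1 := by rw [hf]
  have g2 : ∀ j, (γ.1 x).2 j = (∑ k, (S.L γ j k : ℂ) * x.2 k) + ((c γ).2 j : ℂ) := by
    intro j; rw [hf]
  refine Prod.ext ?_ (funext fun i => ?_)
  · -- first component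
    have e1 : S.A γ x.1 + (c γ).1 = w.1 + (τ κ + ((Φ x).1 / N) * τ ((u γ : 𝓞 K) : K)) • z0 := by
      conv_lhs => rw [hx1]
      rw [map_add, map_smul, h.AP γ z0, add_smul, mul_smul, ← h1]
      abel
    have e2 : ((Φ (γ.1 x)).1 / N) • z0 =
        (τ κ + ((Φ x).1 / N) * τ ((u γ : 𝓞 K) : K)) • z0 := by
      have e3 := hy1
      rw [g1, e1] at e3
      exact (add_left_cancel e3).symm
    have e4 : (Φ (γ.1 x)).1 / N = τ κ + ((Φ x).1 / N) * τ ((u γ : 𝓞 K) : K) :=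
      smul_left_injective ℂ h.z0_ne e2
    have e5 : (Φ (γ.1 x)).1 = N * (τ κ + ((Φ x).1 / N) * τ ((u γ : 𝓞 K) : K)) := by
      rw [← e4, mul_div_cancel₀ _ hN']
    rw [e5]
    show _ = τ ((u γ : 𝓞 K) : K) * (Φ x).1 + τ (a : K)
    rw [ha, map_mul, map_natCast]
    field_simp
    ring
  · show (Φ (γ.1 x)).2 i = (σ i ((u γ : 𝓞 K) : K) : ℂ) * (Φ x).2 i + (σ i (a : K) : ℂ)
    have hvi : (v i : ℂ) ≠ 0 := Complex.ofReal_ne_zero.2 (h.v_pos i).ne'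
    rw [hy2 i, hx2 i]
    -- the key sum
    have k1 : ∀ k, (γ.1 x).2 k - (w.2 k : ℂ) =
        (∑ j, (S.L γ k j : ℂ) * (x.2 j - (w.2 j : ℂ))) +
          ((((c γ).2 + S.L γ *ᵥ w.2 - w.2) k : ℝ) : ℂ) := by
      intro k
      rw [g2 k]
      simp only [Pi.add_apply, Pi.sub_apply, Matrix.mulVec, dotProduct, mul_sub,
        Finset.sum_sub_distrib, Complex.ofReal_add, Complex.ofReal_sub, Complex.ofReal_sum,
        Complex.ofReal_mul]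
      ring
    have k2 : ∑ k, (P i k : ℂ) * ((γ.1 x).2 k - (w.2 k : ℂ)) =
        (σ i ((u γ : 𝓞 K) : K) : ℂ) * ∑ k, (P i k : ℂ) * (x.2 k - (w.2 k : ℂ)) +
          (σ i κ : ℂ) * (v i : ℂ) := by
      simp_rw [k1, mul_add]
      rw [Finset.sum_add_distrib, Y5_PL (fun y i => h.LP γ y i)]
      congr 1
      have k3 := congrArg Complex.ofReal (h2 i)
      rw [Matrix.mulVec, dotProduct, Complex.ofReal_sum, Complex.ofReal_mul] at k3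
      simp only [Complex.ofReal_mul] at k3
      exact k3
    rw [k2, ha, map_mul, map_natCast]
    push_cast
    field_simp

theorem mem_tube {p m : ℕ} {Ω : Set (Fin m → ℝ)} {P : Matrix (Fin m) (Fin m) ℝ} {v : Fin m → ℝ}
    (hv : ∀ i, 0 < v i) {w : W p m} {N : ℕ} (hN : 0 < N) {Φ : Amb p m ≃ᵃ[ℂ] (ℂ × (Fin m → ℂ))}
    (hΦ : ∀ x : Amb p m, ∀ i, (Φ x).2 i = N * (∑ k, (P i k : ℂ) * (x.2 k - (w.2 k : ℂ))) / (v i : ℂ))
    (hΩ : ∀ y, y ∈ Ω ↔ ∀ i, 0 < (P *ᵥ y) i) (x : Amb p m) :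
    x ∈ tube p Ω ↔ ∀ i, 0 < ((Φ x).2 i).im := by
  show (fun j => (x.2 j).im) ∈ Ω ↔ _
  rw [hΩ]
  refine forall_congr' fun i => ?_
  have h1 : ((Φ x).2 i).im = (N / v i) * (P *ᵥ fun j => (x.2 j).im) i := by
    rw [hΦ x i]
    have h2 : (N : ℂ) * (∑ k, (P i k : ℂ) * (x.2 k - (w.2 k : ℂ))) / (v i : ℂ) =
        ((N / v i : ℝ) : ℂ) * ∑ k, (P i k : ℂ) * (x.2 k - (w.2 k : ℂ)) := by
      push_cast
      ring
    rw [h2, Complex.im_ofReal_mul, Complex.im_sum]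
    congr 1
    rw [Matrix.mulVec, dotProduct]
    refine Finset.sum_congr rfl fun k _ => ?_
    rw [Complex.im_ofReal_mul, Complex.sub_im, Complex.ofReal_im, sub_zero]
  have h3 : (0 : ℝ) < N / v i := div_pos (Nat.cast_pos.2 hN) (hv i)
  rw [h1]
  exact ⟨fun h => mul_pos h3 h, fun h => (mul_pos_iff_of_pos_left h3).1 h⟩

end TLK
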