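import Pool.Agent.TLK.Defs

/-!
# [TLK-Y6] finite index in `U ⋉ 𝓞 K`

`Γ'` is a subgroup of `otGroup σ τ u.range`; for every `γ` there is an element of `Γ'` with linear part `u γ` and translation part in `𝓞 K`, and `Γ'` contains the translations by `b ∈ T`, where `𝓞 K = F + T`, `F` finite.
CLAIM: `Γ'.relIndex (otGroup …) ≠ 0`.
PROOF. Let `t a : Equiv.Perm (ℂ × (Fin m → ℂ))` be the translation `x ↦ otMap σ τ 1 a x`, an element of `otGroup`. Let `g ∈ otGroup`, `g = otMap (u γ) a`. Choose `g' ∈ Γ'`, `g' = otMap (u γ) a'`. Then `g = t (a - a') * g'`; `a - a' = f + b` with `f ∈ F`,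
`b ∈ T`: `g = t f * (t b * g')`, `t b * g' ∈ Γ'`. So the left cosets of `Γ'.subgroupOf (otGroup)` in `otGroup` are represented by the finite set `{t f : f ∈ F}`: the quotient is finite, so the index is not zero
(`Subgroup.relIndex`, `Subgroup.index_ne_zero_of_finite`, `Finite.of_surjective`).
-/

open scoped Matrix NumberField

namespace TLK

/-- the translation by `a` -/
def Y6_tr {K : Type} [Field K] [NumberField K] {m : ℕ} (σ : Fin m → K →+* ℝ) (τ : K →+* ℂ)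
    (a : 𝓞 K) : Equiv.Perm (ℂ × (Fin m → ℂ)) where
  toFun x := (x.1 + τ (a : K), fun i => x.2 i + (σ i (a : K) : ℂ))
  invFun x := (x.1 - τ (a : K), fun i => x.2 i - (σ i (a : K) : ℂ))
  left_inv x := by ext <;> simp
  right_inv x := by ext <;> simp

theorem Y6_tr_apply {K : Type} [Field K] [NumberField K] {m : ℕ} (σ : Fin m → K →+* ℝ)
    (τ : K →+* ℂ) (a : 𝓞 K) (x : ℂ × (Fin m → ℂ)) : Y6_tr σ τ a x = otMap σ τ 1 a x := by
  unfold otMap
  simp [Y6_tr]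

theorem Y6_tr_mem {K : Type} [Field K] [NumberField K] {m : ℕ} (σ : Fin m → K →+* ℝ)
    (τ : K →+* ℂ) (U : Subgroup (𝓞 K)ˣ) (a : 𝓞 K) : Y6_tr σ τ a ∈ otGroup σ τ U :=
  ⟨1, U.one_mem, a, fun x => Y6_tr_apply σ τ a x⟩

theorem relIndex_ne {K : Type} [Field K] [NumberField K] {m : ℕ} {σ : Fin m → K →+* ℝ} {τ : K →+* ℂ}
    {U : Subgroup (𝓞 K)ˣ} (Γ' : Subgroup (Equiv.Perm (ℂ × (Fin m → ℂ))))
    (h1 : ∀ u ∈ U, ∃ g ∈ Γ', ∃ a : 𝓞 K, ∀ x, g x = otMap σ τ u a x)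
    (T : Set (𝓞 K)) (h2 : ∀ b ∈ T, ∃ g ∈ Γ', ∀ x, g x = otMap σ τ 1 b x)
    (F : Finset (𝓞 K)) (h3 : ∀ a : 𝓞 K, ∃ f ∈ F, ∃ b ∈ T, a = f + b) :
    Γ'.relIndex (otGroup σ τ U) ≠ 0 := by
  unfold Subgroup.relIndex
  haveI : Finite (otGroup σ τ U ⧸ Γ'.subgroupOf (otGroup σ τ U)) := by
    refine Finite.of_surjective (α := F)
      (fun f => (QuotientGroup.mk ⟨Y6_tr σ τ f.1, Y6_tr_mem σ τ U f.1⟩ :
        otGroup σ τ U ⧸ Γ'.subgroupOf (otGroup σ τ U))) ?_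
    intro q
    obtain ⟨⟨g, hg⟩, rfl⟩ := QuotientGroup.mk_surjective q
    obtain ⟨u, hu, a, ha⟩ := hg
    obtain ⟨g', hg', a', ha'⟩ := h1 u hu
    obtain ⟨f, hf, b, hb, hab⟩ := h3 (a - a')
    obtain ⟨k, hk, hkb⟩ := h2 b hb
    refine ⟨⟨f, hf⟩, ?_⟩
    rw [QuotientGroup.eq]
    rw [Subgroup.mem_subgroupOf]
    have key : ((⟨Y6_tr σ τ f, Y6_tr_mem σ τ U f⟩ : otGroup σ τ U)⁻¹ * ⟨g, ⟨u, hu, a, ha⟩⟩ :
        otGroup σ τ U).1 = k * g' := by
      rw [Subgroup.coe_mul, Subgroup.coe_inv]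
      rw [inv_mul_eq_iff_eq_mul]
      apply Equiv.ext
      intro x
      have e1 : (a : 𝓞 K) = f + b + a' := by rw [← hab]; ring
      rw [Equiv.Perm.mul_apply, Equiv.Perm.mul_apply, ha', hkb, Y6_tr_apply, ha, e1]
      simp only [otMap, Units.val_one, map_add, map_one, Complex.ofReal_add, Complex.ofReal_one,
        one_mul]
      refine Prod.ext ?_ (funext fun i => ?_)
      · simp only; ring
      · simp only; ring
    show _ ∈ Γ'
    rw [key]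
    exact Γ'.mul_mem hk hg'
  exact Subgroup.index_ne_zero_of_finite

end TLK
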