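import Pool.Agent.TLK.Y1
import Pool.Agent.TLK.Y5
import Pool.Agent.TLK.Y6
import Pool.Agent.TLK.F3

/-!
# Assembly: the main theorem
-/

open scoped Matrix NumberField

namespace TLK

theorem conclusion_of_FD {n p m : ℕ} {Ω : Set (Fin m → ℝ)} {Γ : Subgroup (Equiv.Perm (Amb p m))}
    {S : Setting n p m Γ} {c : Γ → W p m}
    {P P' : Matrix (Fin m) (Fin m) ℝ} {K : Type} [Field K] [NumberField K] {σ : Fin m → K →+* ℝ}
    {τ : K →+* ℂ} {u : Γ →* (𝓞 K)ˣ} {e : (Fin n → ℚ) ≃ₗ[ℚ] K} {z0 : EuclideanSpace ℂ (Fin p)}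
    {v : Fin m → ℝ} (hOT : IsOT σ τ u.range) (h : FD S c P P' σ τ u e z0 v)
    (hΩ : ∀ y, y ∈ Ω ↔ ∀ i, 0 < (P *ᵥ y) i) : Conclusion Ω Γ := by
  obtain ⟨w, d, κ, hκ⟩ := h.cocycle
  obtain ⟨N, hN, hden⟩ := denoms e d
  obtain ⟨F, hF⟩ := finite_index e N hN
  obtain ⟨Φ, hΦ⟩ := exists_Phi h.p_eq h.right h.left h.z0_ne h.v_pos w hN
  -- the translation part of `Φ γ Φ⁻¹`
  have hconj : ∀ γ : Γ, ∃ a : 𝓞 K, ∀ x, Φ (γ.1 x) = otMap σ τ (u γ) a (Φ x) := by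
    intro γ
    obtain ⟨⟨x0, hx0⟩, h1, h2⟩ := hκ γ
    obtain ⟨b, hb⟩ := (hden x0).2
    refine ⟨b, fun x => h.conj_otMap hN hΦ h1 h2 (a := b) ?_ x⟩
    rw [hb, hx0]
  -- translations
  have htr : ∀ (x0 : Fin n → ℤ) (a : 𝓞 K), (a : K) = N * e (fun j => (x0 j : ℚ)) →
      ∃ γ : Γ, ∀ x, Φ (γ.1 x) = otMap σ τ 1 a (Φ x) := by
    intro x0 a ha
    set t : W p m := S.Θ (fun j => (x0 j : ℝ)) with ht
    have hmem : trans t ∈ Γ := (h.lattice t).2 ⟨x0, rfl⟩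
    have hf := h.form ⟨trans t, hmem⟩
    have hp : 0 < p := by rw [h.p_eq]; exact Nat.one_pos
    obtain ⟨-, hA, hc1, hL, hc2⟩ := IsForm.unique hp hf (IsForm.trans t)
    refine ⟨⟨trans t, hmem⟩, fun x => ?_⟩
    have e1 := h.eq1 (fun j => (x0 j : ℚ))
    have e2 := h.eq2 (fun j => (x0 j : ℚ))
    simp only [Rat.cast_intCast] at e1 e2
    have hu : u ⟨trans t, hmem⟩ = 1 := by
      have h3 := h.AP ⟨trans t, hmem⟩ z0
      rw [hA, LinearMap.id_apply] at h3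
      have h4 : τ (((u ⟨trans t, hmem⟩ : 𝓞 K) : K)) = 1 := by
        have h5 : (τ (((u ⟨trans t, hmem⟩ : 𝓞 K) : K)) - 1) • z0 = 0 := by
          rw [sub_smul, one_smul, ← h3, sub_self]
        rcases smul_eq_zero.1 h5 with h6 | h6
        · exact sub_eq_zero.1 h6
        · exact absurd h6 h.z0_ne
      have h7 : (((u ⟨trans t, hmem⟩ : 𝓞 K) : K)) = 1 := τ.injective (by rw [h4, map_one])
      ext
      rw [h7]
      simp
    have hres := h.conj_otMap hN hΦ (γ := ⟨trans t, hmem⟩) (κ := e (fun j => (x0 j : ℚ)))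
      (by rw [hA, hc1, LinearMap.id_apply, add_sub_cancel_right]; exact e1)
      (by
        intro i
        rw [hL, hc2, Matrix.one_mulVec, add_sub_cancel_right]; exact e2 i) ha x
    rw [hu] at hres
    exact hres
  refine ⟨h.p_eq, K, inferInstance, inferInstance, σ, τ, u.range, hOT, Φ, ?_, ?_, ?_⟩
  · exact fun x => mem_tube h.v_pos hN (fun x => (hΦ x).2) hΩ x
  · rintro _ ⟨γ, hγ, rfl⟩
    obtain ⟨a, ha⟩ := hconj ⟨γ, hγ⟩
    refine ⟨u ⟨γ, hγ⟩, ⟨_, rfl⟩, a, fun x => ?_⟩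
    have := ha (Φ.symm x)
    rw [AffineEquiv.apply_symm_apply] at this
    exact this
  · refine relIndex_ne _ ?_ {b : 𝓞 K | ∃ x : Fin n → ℤ, (b : K) = N * e (fun j => (x j : ℚ))} ?_ F ?_
    · rintro _ ⟨γ, rfl⟩
      obtain ⟨a, ha⟩ := hconj γ
      refine ⟨_, Subgroup.mem_map_of_mem _ γ.2, a, fun x => ?_⟩
      have := ha (Φ.symm x)
      rw [AffineEquiv.apply_symm_apply] at this
      exact this
    · rintro b ⟨x0, hb⟩
      obtain ⟨γ, hγ⟩ := htr x0 b hb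
      refine ⟨_, Subgroup.mem_map_of_mem _ γ.2, fun x => ?_⟩
      have := hγ (Φ.symm x)
      rw [AffineEquiv.apply_symm_apply] at this
      exact this
    · intro a
      obtain ⟨f, hf, x0, hx0⟩ := hF a
      obtain ⟨b, hb⟩ := (hden x0).1
      refine ⟨f, hf, b, ⟨x0, hb⟩, ?_⟩
      apply NumberField.RingOfIntegers.ext
      rw [hx0, ← hb]
      exact (map_add (algebraMap (𝓞 K) K) f b).symm

theorem main : Statement := by
  intro p m hp hm Ω hΩ hcon Γ hΓ hH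
  obtain ⟨n, S, c, hc, hΛ⟩ := exists_setting hp hcon.nonempty hΓ
  obtain ⟨K, hA⟩ := exists_act hp hΩ hcon hΓ S hc hΛ
  obtain ⟨P, P', χ, hD, hO⟩ := S.diag_all hp hm hA (by
    rcases hH with ⟨h1, h2⟩ | ⟨φ, h1, h2, h3⟩
    · exact Or.inl ⟨h1, h2⟩
    · exact Or.inr ⟨φ, h1, h2, fun g y hy => h3 g.1 g.2 _ _ _ _ _ (hc g) y hy⟩)
  obtain ⟨K, _, _, σ, τ, u, e, z0, v, hOT, hFD⟩ := exists_FD hp hm S hc hΛ hD
  exact conclusion_of_FD hOT hFD hO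

end TLK
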