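import Pool.Agent.TLK.Defs

/-!
# [TLK-Z1] algebra of the forms `γ (z, w) = (A z + a, L w + b)`
-/

open scoped Matrix

namespace TLK

variable {p m : ℕ}

theorem IsForm.unique (hp : 0 < p) {γ : Equiv.Perm (Amb p m)} {lam lam' : ℝ}
    {A A' : EuclideanSpace ℂ (Fin p) →ₗ[ℂ] EuclideanSpace ℂ (Fin p)} {a a' : EuclideanSpace ℂ (Fin p)}
    {L L' : Matrix (Fin m) (Fin m) ℝ} {b b' : Fin m → ℝ} (h : IsForm γ lam A a L b)
    (h' : IsForm γ lam' A' a' L' b') : lam = lam' ∧ A = A' ∧ a = a' ∧ L = L' ∧ b = b' := by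
  have h0 : ((A 0 + a, fun j => (∑ k, (L j k : ℂ) * (0 : Fin m → ℂ) k) + (b j : ℂ)) : Amb p m) =
      (A' 0 + a', fun j => (∑ k, (L' j k : ℂ) * (0 : Fin m → ℂ) k) + (b' j : ℂ)) := by
    rw [← h.apply (0, 0), ← h'.apply (0, 0)]
  have ha : a = a' := by
    have := congrArg Prod.fst h0
    simpa using this
  have hb : b = b' := by
    funext j
    have := congrFun (congrArg Prod.snd h0) j
    simpa using this
  have hA : A = A' := by
    apply LinearMap.ext
    intro z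
    have h1 : ((A z + a, fun j => (∑ k, (L j k : ℂ) * (0 : Fin m → ℂ) k) + (b j : ℂ)) : Amb p m) =
        (A' z + a', fun j => (∑ k, (L' j k : ℂ) * (0 : Fin m → ℂ) k) + (b' j : ℂ)) := by
      rw [← h.apply (z, 0), ← h'.apply (z, 0)]
    have h2 := congrArg Prod.fst h1
    simp only [ha] at h2
    exact add_right_cancel h2
  refine ⟨?_, hA, ha, ?_, hb⟩
  · have hne : (EuclideanSpace.single (⟨0, hp⟩ : Fin p) (1 : ℂ)) ≠ 0 := by
      intro h3
      have := congrArg (fun v : EuclideanSpace ℂ (Fin p) => v ⟨0, hp⟩) h3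
      simp at this
    have h1 := h.norm_A (EuclideanSpace.single (⟨0, hp⟩ : Fin p) (1 : ℂ))
    have h2 := h'.norm_A (EuclideanSpace.single (⟨0, hp⟩ : Fin p) (1 : ℂ))
    rw [hA, h2] at h1
    have h3 : ‖(EuclideanSpace.single (⟨0, hp⟩ : Fin p) (1 : ℂ))‖ ≠ 0 := norm_ne_zero_iff.2 hne
    exact (mul_right_cancel₀ h3 h1).symm
  · ext j k
    have h1 : ((A 0 + a, fun j => (∑ l, (L j l : ℂ) * (Pi.single k (1 : ℂ) : Fin m → ℂ) l) + (b j : ℂ)) : Amb p m) =
        (A' 0 + a', fun j => (∑ l, (L' j l : ℂ) * (Pi.single k (1 : ℂ) : Fin m → ℂ) l) + (b' j : ℂ)) := by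
      rw [← h.apply (0, Pi.single k 1), ← h'.apply (0, Pi.single k 1)]
    have h2 := congrFun (congrArg Prod.snd h1) j
    simpa [hb, Pi.single_apply] using h2

theorem IsForm.mul {γ δ : Equiv.Perm (Amb p m)} {lam lam' : ℝ}
    {A A' : EuclideanSpace ℂ (Fin p) →ₗ[ℂ] EuclideanSpace ℂ (Fin p)} {a a' : EuclideanSpace ℂ (Fin p)}
    {L L' : Matrix (Fin m) (Fin m) ℝ} {b b' : Fin m → ℝ} (h : IsForm γ lam A a L b)
    (h' : IsForm δ lam' A' a' L' b') :
    IsForm (γ * δ) (lam * lam') (A ∘ₗ A') (A a' + a) (L * L') (L *ᵥ b' + b) := by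
  refine ⟨mul_pos h.lam_pos h'.lam_pos, fun z => ?_, fun x => ?_⟩
  · rw [LinearMap.comp_apply, h.norm_A, h'.norm_A, mul_assoc]
  · rw [Equiv.Perm.mul_apply, h'.apply, h.apply]
    refine Prod.ext ?_ ?_
    · simp [add_assoc]
    · funext j
      simp only [Matrix.mul_apply, Matrix.mulVec, dotProduct, Pi.add_apply, Complex.ofReal_add, Complex.ofReal_sum,
        Complex.ofReal_mul, mul_add, Finset.sum_add_distrib, Finset.mul_sum, Finset.sum_mul]
      rw [Finset.sum_comm]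
      simp only [mul_assoc, add_assoc]

theorem IsForm.one : IsForm (1 : Equiv.Perm (Amb p m)) 1 LinearMap.id 0 1 0 := by
  refine ⟨one_pos, fun z => by simp, fun x => ?_⟩
  refine Prod.ext (by simp) ?_
  funext j
  simp only [Equiv.Perm.coe_one, id_eq, Matrix.one_apply, Pi.zero_apply, Complex.ofReal_zero, add_zero]
  rw [Finset.sum_eq_single j]
  · simp
  · intro k _ hk
    simp [Ne.symm hk]
  · simp

theorem IsForm.trans (v : W p m) : IsForm (trans v) 1 LinearMap.id v.1 1 v.2 := by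
  refine ⟨one_pos, fun z => by simp, fun x => ?_⟩
  refine Prod.ext (by simp [TLK.trans, TLK.shift]) ?_
  funext j
  simp only [TLK.trans, TLK.shift, Equiv.coe_fn_mk, Matrix.one_apply]
  rw [Finset.sum_eq_single j]
  · simp
  · intro k _ hk
    simp [Ne.symm hk]
  · simp

theorem IsForm.conj {γ : Equiv.Perm (Amb p m)} {lam : ℝ}
    {A : EuclideanSpace ℂ (Fin p) →ₗ[ℂ] EuclideanSpace ℂ (Fin p)} {a : EuclideanSpace ℂ (Fin p)}
    {L : Matrix (Fin m) (Fin m) ℝ} {b : Fin m → ℝ} (h : IsForm γ lam A a L b) (v : W p m) :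
    γ * TLK.trans v * γ⁻¹ = TLK.trans (A v.1, L *ᵥ v.2) := by
  rw [mul_inv_eq_iff_eq_mul]
  apply Equiv.ext
  intro x
  rw [Equiv.Perm.mul_apply, Equiv.Perm.mul_apply, h.apply, h.apply]
  refine Prod.ext ?_ ?_
  · simp only [TLK.trans, TLK.shift, Equiv.coe_fn_mk, map_add]
    abel
  · funext j
    simp only [TLK.trans, TLK.shift, Equiv.coe_fn_mk, mul_add, Finset.sum_add_distrib, Matrix.mulVec, dotProduct,
      Complex.ofReal_sum, Complex.ofReal_mul]
    ring

theorem trans_add (v w : W p m) : TLK.trans (v + w) = TLK.trans v * TLK.trans w := by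
  apply Equiv.ext
  intro x
  rw [Equiv.Perm.mul_apply]
  refine Prod.ext ?_ ?_
  · simp only [TLK.trans, TLK.shift, Equiv.coe_fn_mk, Prod.fst_add]
    abel
  · funext j
    simp only [TLK.trans, TLK.shift, Equiv.coe_fn_mk, Prod.snd_add, Pi.add_apply, Complex.ofReal_add]
    ring

theorem trans_zero : TLK.trans (0 : W p m) = 1 := by
  apply Equiv.ext
  intro x
  refine Prod.ext ?_ ?_
  · simp [TLK.trans, TLK.shift]
  · funext j
    simp [TLK.trans, TLK.shift]

end TLK
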