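import Pool.Agent.TLK.Z1

/-!
# [TLK-Z2] the lattice of translations

PROOF. `Λ = {v | trans v ∈ Γ}` is an additive subgroup of `W p m` (`trans_add`, `trans_zero`, inverses), regarded as a `ℤ`-submodule. Let `x0 ∈ tube p Ω` (`Ω` nonempty) and
`K = {(x0.1 + v.1, x0.2 + v.2) : v ∈ closedBall 0 1 ⊆ W p m}` (`v.2` real, cast to `ℂ`): compact, contained in the tube (the imaginary part of the second component does not change). For `v ∈ Λ`, `‖v‖ ≤ 1`: `trans v` maps `x0 ∈ K` into `K`; by
`proper` there are finitely many such `trans v`, so finitely many `v` (`v` is determined by `trans v x0`). So `Λ` is discrete (`DiscreteTopology`: `0` is isolated in `Λ`), and it spans `W` over `ℝ`: `IsZLattice ℝ Λ`. So `Λ` has a `ℤ`-basis which is an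
`ℝ`-basis of `W` (`Module.Free.chooseBasis`, `Module.Basis.ofZLatticeBasis`); index it by `Fin n`; `Θ` = the inverse of `Basis.equivFun`. `v ∈ Λ` iff its coordinates are integers.
-/

open scoped Matrix

namespace TLK

private theorem trans_inj {p m : ℕ} {v w : W p m} (h : trans v = trans w) : v = w := by
  have h0 := congrArg (fun e : Equiv.Perm (Amb p m) => e 0) h
  have h1 : ((0 : EuclideanSpace ℂ (Fin p)) + v.1, fun j => (0 : ℂ) + (v.2 j : ℂ)) =
      ((0 : EuclideanSpace ℂ (Fin p)) + w.1, fun j => (0 : ℂ) + (w.2 j : ℂ)) := h0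
  rw [Prod.mk.injEq] at h1
  refine Prod.ext ?_ (funext fun j => ?_)
  · simpa using h1.1
  · have h2 := congrFun h1.2 j
    simpa using h2

/-- the lattice of translations -/
private def latt {p m : ℕ} (Γ : Subgroup (Equiv.Perm (Amb p m))) : AddSubgroup (W p m) where
  carrier := {v | trans v ∈ Γ}
  add_mem' := by
    intro v w hv hw
    have h1 : trans (v + w) ∈ Γ := by
      rw [trans_add]
      exact Γ.mul_mem hv hw
    exact h1
  zero_mem' := by
    have h1 : trans (0 : W p m) ∈ Γ := by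
      rw [trans_zero]
      exact Γ.one_mem
    exact h1
  neg_mem' := by
    intro v hv
    have h1 : trans (-v) = (trans v)⁻¹ := by
      rw [eq_inv_iff_mul_eq_one, ← trans_add, neg_add_cancel, trans_zero]
    have h2 : trans (-v) ∈ Γ := by
      rw [h1]
      exact Γ.inv_mem hv
    exact h2

private theorem mem_latt {p m : ℕ} {Γ : Subgroup (Equiv.Perm (Amb p m))} {v : W p m} :
    v ∈ latt Γ ↔ trans v ∈ Γ := Iff.rfl

theorem exists_lattice {p m : ℕ} {Ω : Set (Fin m → ℝ)} (hne : Ω.Nonempty)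
    {Γ : Subgroup (Equiv.Perm (Amb p m))} (h : IsTubeGroup Ω Γ) :
    ∃ (n : ℕ) (Θ : (Fin n → ℝ) ≃ₗ[ℝ] W p m), ∀ v : W p m,
      trans v ∈ Γ ↔ ∃ x : Fin n → ℤ, v = Θ (fun j => (x j : ℝ)) := by
  have : FiniteDimensional ℝ (W p m) := inferInstance
  have : ProperSpace (W p m) := FiniteDimensional.proper_real _
  obtain ⟨y, hy⟩ := hne
  let f : W p m → Amb p m := fun v => (v.1, fun j => (y j : ℂ) * Complex.I + (v.2 j : ℂ))
  have hf : Continuous f := by
    refine continuous_fst.prodMk (continuous_pi fun j => ?_)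
    exact continuous_const.add
      (Complex.continuous_ofReal.comp ((continuous_apply j).comp continuous_snd))
  have hfin := h.proper (f '' Metric.closedBall 0 1) (by
    rintro _ ⟨v, -, rfl⟩
    have h1 : (fun j => ((f v).2 j).im) = y := by
      funext j
      simp [f]
    have h2 : (fun j => ((f v).2 j).im) ∈ Ω := by
      rw [h1]
      exact hy
    exact h2) ((isCompact_closedBall _ _).image hf)
  have hft : ∀ v, trans v (f 0) = f v := by
    intro v
    have h1 : trans v (f 0) = ((f 0).1 + v.1, fun j => (f 0).2 j + (v.2 j : ℂ)) := rfl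
    rw [h1]
    refine Prod.ext ?_ (funext fun j => ?_)
    · simp [f]
    · simp [f]
  have hfin2 : {v : W p m | trans v ∈ Γ ∧ ‖v‖ ≤ 1}.Finite := by
    refine Set.Finite.of_finite_image (f := fun v => trans v) (hfin.subset ?_)
      (fun v _ w _ h => trans_inj h)
    rintro _ ⟨v, ⟨hv, hv1⟩, rfl⟩
    refine ⟨hv, f 0, ⟨0, by simp, rfl⟩, ?_⟩
    show trans v (f 0) ∈ _
    rw [hft]
    exact ⟨v, by simpa using hv1, rfl⟩
  let Λ : Submodule ℤ (W p m) := AddSubgroup.toIntSubmodule (latt Γ)
  have hΛ : ∀ v, v ∈ Λ ↔ trans v ∈ Γ := fun v => Iff.rfl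
  have hd : DiscreteTopology Λ := by
    refine discreteTopology_of_isOpen_singleton_zero
      (isOpen_singleton_of_finite_mem_nhds (0 : Λ) (s := {v : Λ | ‖(v : W p m)‖ ≤ 1}) ?_ ?_)
    · have h1 : Continuous (fun v : Λ => ‖(v : W p m)‖) := continuous_subtype_val.norm
      have h2 : {v : Λ | ‖(v : W p m)‖ < 1} ∈ nhds (0 : Λ) :=
        (isOpen_lt h1 continuous_const).mem_nhds (by simp)
      refine Filter.mem_of_superset h2 fun v hv => ?_
      have h3 : ‖(v : W p m)‖ < 1 := hv
      exact h3.le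
    · refine Set.Finite.of_finite_image (f := fun v : Λ => (v : W p m)) (hfin2.subset ?_)
        (fun v _ w _ h => Subtype.ext h)
      rintro _ ⟨v, hv, rfl⟩
      exact ⟨(hΛ _).1 v.2, hv⟩
  have hz : IsZLattice ℝ Λ := ⟨by
    have h1 : ((Λ : Set (W p m))) = {v : W p m | trans v ∈ Γ} := by
      ext v
      exact hΛ v
    rw [h1]
    exact h.span⟩
  have := ZLattice.module_finite ℝ Λ
  have := ZLattice.module_free ℝ Λ
  let b := Module.finBasis ℤ Λ
  let B := b.ofZLatticeBasis ℝ Λ
  have hB : ∀ x : Fin (Module.finrank ℤ Λ) → ℤ, B.equivFun.symm (fun j => (x j : ℝ)) =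
      ((∑ j, x j • b j : Λ) : W p m) := by
    intro x
    rw [Module.Basis.equivFun_symm_apply, Submodule.coe_sum]
    refine Finset.sum_congr rfl fun j _ => ?_
    rw [Module.Basis.ofZLatticeBasis_apply, Submodule.coe_smul, Int.cast_smul_eq_zsmul]
  refine ⟨Module.finrank ℤ Λ, B.equivFun.symm, fun v => ⟨fun hv => ?_, ?_⟩⟩
  · refine ⟨fun j => b.repr ⟨v, (hΛ v).2 hv⟩ j, ?_⟩
    rw [hB, b.sum_repr]
  · rintro ⟨x, rfl⟩
    rw [hB, ← hΛ]
    exact (∑ j, x j • b j : Λ).2

end TLK
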