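import Pool.Agent.TLK.Z2
import Pool.Agent.TLK.B1

/-!
# [TLK-Z3] the integral representation: construction of the `Setting`

PROOF. `n, Θ` from `exists_lattice`. For `γ : Γ` choose `lam, A, a, L, b` with `IsForm γ.1 lam A a L b` (`h.form`). By `unique` and `mul`, `one` (with `0 < p`): `L (γ δ) = L γ * L δ`, `L 1 = 1`, `A (γ δ) = A γ ∘ A δ`. For `x : Fin n → ℤ`, `v = Θ x`:
`trans v ∈ Γ`, so `γ * trans v * γ⁻¹ = trans (A v.1, L v.2) ∈ Γ` (`conj`), so `(A v.1, L v.2) = Θ x'` with `x'` integral, unique (`Θ` injective, cast injective). `x ↦ x'` is additive, so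
it is given by a matrix `R γ : Matrix (Fin n) (Fin n) ℤ` (columns: images of the standard basis vectors), and `Θ (R γ x) = (A γ (Θ x).1, L γ (Θ x).2)` for integral `x`, hence for real `x` (both sides
`ℝ`-linear, the standard basis spans). `R (γ δ) = R γ * R δ`, `R 1 = 1` because the real linear maps are multiplicative and `Θ` and the cast are injective.
-/

open scoped Matrix

namespace TLK

theorem exists_setting {p m : ℕ} (hp : 0 < p) {Ω : Set (Fin m → ℝ)} (hne : Ω.Nonempty)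
    {Γ : Subgroup (Equiv.Perm (Amb p m))} (h : IsTubeGroup Ω Γ) :
    ∃ (n : ℕ) (S : Setting n p m Γ) (c : Γ → W p m),
      (∀ γ : Γ, IsForm γ.1 (S.lam γ) (S.A γ) (c γ).1 (S.L γ) (c γ).2) ∧
      ∀ v : W p m, trans v ∈ Γ ↔ ∃ x : Fin n → ℤ, v = S.Θ (fun j => (x j : ℝ)) := by
  classical
  obtain ⟨n, Θ, hΛ⟩ := exists_lattice hne h
  choose lam A a L b hf using (fun γ : Γ => h.form γ.1 γ.2)
  have hmul : ∀ γ δ : Γ, lam (γ * δ) = lam γ * lam δ ∧ A (γ * δ) = A γ ∘ₗ A δ ∧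
      a (γ * δ) = A γ (a δ) + a γ ∧ L (γ * δ) = L γ * L δ ∧ b (γ * δ) = L γ *ᵥ b δ + b γ :=
    fun γ δ => (hf (γ * δ)).unique hp ((hf γ).mul (hf δ))
  have hone := (hf 1).unique hp (IsForm.one (p := p) (m := m))
  have hint : ∀ (γ : Γ) (x : Fin n → ℤ), ∃ x' : Fin n → ℤ,
      ((A γ (Θ (fun j => (x j : ℝ))).1, L γ *ᵥ (Θ (fun j => (x j : ℝ))).2) : W p m) =
        Θ (fun j => (x' j : ℝ)) := by
    intro γ x
    have h1 : trans (Θ (fun j => (x j : ℝ))) ∈ Γ := (hΛ _).2 ⟨x, rfl⟩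
    have h2 := Γ.mul_mem (Γ.mul_mem γ.2 h1) (Γ.inv_mem γ.2)
    rw [(hf γ).conj] at h2
    exact (hΛ _).1 h2
  choose R' hR' using fun (γ : Γ) (j : Fin n) => hint γ (Pi.single j 1)
  let Fm : Γ → (W p m →ₗ[ℝ] W p m) := fun γ =>
    ((A γ).restrictScalars ℝ).prodMap (Matrix.mulVecLin (L γ))
  have hFm : ∀ γ v, Fm γ v = (A γ v.1, L γ *ᵥ v.2) := fun _ _ => rfl
  let Rm : Γ → Matrix (Fin n) (Fin n) ℤ := fun γ => Matrix.of (fun i j => R' γ j i)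
  have hcast : ∀ j : Fin n, (fun i => (((Pi.single j 1 : Fin n → ℤ) i : ℤ) : ℝ)) =
      Pi.single j 1 := by
    intro j
    ext i
    by_cases hij : i = j
    · subst hij
      simp
    · simp [Pi.single_eq_of_ne hij]
  have hlin : ∀ γ, (Θ : (Fin n → ℝ) →ₗ[ℝ] W p m) ∘ₗ
      Matrix.mulVecLin ((Rm γ).map (Int.cast : ℤ → ℝ)) = Fm γ ∘ₗ (Θ : (Fin n → ℝ) →ₗ[ℝ] W p m) := by
    intro γ
    refine (Pi.basisFun ℝ (Fin n)).ext (fun j => ?_)
    rw [Pi.basisFun_apply]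
    show Θ (((Rm γ).map (Int.cast : ℤ → ℝ)) *ᵥ Pi.single j 1) = Fm γ (Θ (Pi.single j 1))
    rw [Matrix.mulVec_single_one, hFm]
    have h1 := hR' γ j
    rw [hcast j] at h1
    rw [h1]
    rfl
  have hΘ : ∀ γ x, Θ ((Rm γ).map (Int.cast : ℤ → ℝ) *ᵥ x) = (A γ (Θ x).1, L γ *ᵥ (Θ x).2) := by
    intro γ x
    have := LinearMap.congr_fun (hlin γ) x
    exact this
  have hinj : ∀ M N : Matrix (Fin n) (Fin n) ℤ,
      (∀ x : Fin n → ℝ, M.map (Int.cast : ℤ → ℝ) *ᵥ x = N.map (Int.cast : ℤ → ℝ) *ᵥ x) → M = N := by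
    intro M N hMN
    ext i j
    have h1 := congrFun (hMN (Pi.single j 1)) i
    rw [Matrix.mulVec_single_one, Matrix.mulVec_single_one] at h1
    have h2 : ((M i j : ℤ) : ℝ) = ((N i j : ℤ) : ℝ) := h1
    exact_mod_cast h2
  refine ⟨n, ⟨⟨⟨Rm, ?_⟩, ?_⟩, lam, fun γ => (hf γ).lam_pos, A, fun γ => (hf γ).norm_A,
    ⟨⟨L, hone.2.2.2.1⟩, fun γ δ => (hmul γ δ).2.2.2.1⟩, Θ, hΘ⟩, fun γ => (a γ, b γ), hf, hΛ⟩
  · refine hinj _ _ (fun x => ?_)
    apply Θ.injective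
    rw [hΘ, hone.2.1, hone.2.2.2.1, Matrix.map_one _ Int.cast_zero Int.cast_one, Matrix.one_mulVec,
      Matrix.one_mulVec]
    rfl
  · intro γ δ
    refine hinj _ _ (fun x => ?_)
    apply Θ.injective
    have e1 : ((Rm γ * Rm δ).map (Int.cast : ℤ → ℝ)) =
        (Rm γ).map (Int.cast : ℤ → ℝ) * (Rm δ).map (Int.cast : ℤ → ℝ) :=
      Matrix.map_mul (f := Int.castRingHom ℝ)
    show Θ ((Rm (γ * δ)).map (Int.cast : ℤ → ℝ) *ᵥ x) =
      Θ ((Rm γ * Rm δ).map (Int.cast : ℤ → ℝ) *ᵥ x)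
    rw [e1, ← Matrix.mulVec_mulVec, hΘ, hΘ, hΘ, (hmul γ δ).2.1, (hmul γ δ).2.2.2.1,
      ← Matrix.mulVec_mulVec]
    rfl

end TLK
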