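import Pool.Agent.TLK.Z3
import Pool.Agent.TLK.A0
import Pool.Agent.TLK.H0

/-!
# [TLK-Z4] the action of `L` on `Ω` is proper and cocompact

`toCoc`: `maps`: for `y ∈ Ω` the point `(0, i y)` is in the tube, `γ (0, i y) = (a, i L y + b)` has imaginary part `L y`, so `L y ∈ Ω`. Let `K0` be the compact set of `h.cocompact`, `K = {Im x.2 : x ∈ K0}` (compact, contained in `Ω`): for
`y ∈ Ω` choose `γ` with `γ (0, i y) ∈ K0`: `L γ y ∈ K`.

`prop`: let `K' ⊆ Ω` be compact. `F = Θ '' [0,1]^n ⊆ W p m` is compact and for every `w ∈ W p m` there is `v ∈ Λ = {v | trans v ∈ Γ}` with `w + v ∈ F` (coordinates: subtract floors; `hΛ`). Let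
`K1 = {(0, i y) : y ∈ K'} ∪ {(v.1, v.2 + i y) : v ∈ F, y ∈ K'}`: compact, contained in the tube. Let `X = L γ`, `y ∈ K'`, `X y ∈ K'`. Choose `v ∈ Λ` with `c γ + v ∈ F`, `δ = trans v * γ ∈ Γ`: `δ (0, i y) = ((c γ).1 + v.1, (c γ).2 + v.2 + i X y) ∈ K1` and `(0, i y) ∈ K1`. By
`h.proper K1` there are finitely many such `δ`, and `L δ = L γ = X` (`L (trans v) = 1` by `unique`, `0 < p`; `S.L` multiplicative). So finitely many `X`.

`det_rel`: `S.det_rel`.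
-/

open scoped Matrix

namespace TLK

/-- the point `(0, i y)` -/
noncomputable def ipt (p : ℕ) {m : ℕ} (y : Fin m → ℝ) : Amb p m :=
  (0, fun j => (y j : ℂ) * Complex.I)

/-- the imaginary part -/
def imp {p m : ℕ} (x : Amb p m) : Fin m → ℝ := fun j => (x.2 j).im

theorem imp_ipt {p m : ℕ} (y : Fin m → ℝ) : imp (ipt p y) = y := by
  funext j
  show ((y j : ℂ) * Complex.I).im = y j
  simp

theorem imp_apply {p m : ℕ} {γ : Equiv.Perm (Amb p m)} {lam : ℝ}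
    {A : EuclideanSpace ℂ (Fin p) →ₗ[ℂ] EuclideanSpace ℂ (Fin p)} {a : EuclideanSpace ℂ (Fin p)}
    {L : Matrix (Fin m) (Fin m) ℝ} {b : Fin m → ℝ} (h : IsForm γ lam A a L b) (x : Amb p m) :
    imp (γ x) = L *ᵥ imp x := by
  funext j
  rw [h.apply]
  show ((∑ k, (L j k : ℂ) * x.2 k) + (b j : ℂ)).im = ∑ k, L j k * (x.2 k).im
  rw [Complex.add_im, Complex.ofReal_im, add_zero, Complex.im_sum]
  refine Finset.sum_congr rfl (fun k _ => ?_)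
  rw [Complex.im_ofReal_mul]

theorem continuous_imp {p m : ℕ} : Continuous (imp : Amb p m → Fin m → ℝ) := by
  refine continuous_pi (fun j => ?_)
  exact Complex.continuous_im.comp ((continuous_apply j).comp continuous_snd)

theorem exists_coc {n p m : ℕ} {Ω : Set (Fin m → ℝ)} (hΩ : IsOpen Ω) (hne : Ω.Nonempty)
    {Γ : Subgroup (Equiv.Perm (Amb p m))} (h : IsTubeGroup Ω Γ) (S : Setting n p m Γ) {c : Γ → W p m}
    (hc : ∀ γ : Γ, IsForm γ.1 (S.lam γ) (S.A γ) (c γ).1 (S.L γ) (c γ).2) :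
    ∃ K : Set (Fin m → ℝ), Coc S.L Ω K := by
  obtain ⟨K0, hK0, hK0c, hcov⟩ := h.cocompact
  have hmem : ∀ y ∈ Ω, ipt p y ∈ tube p Ω := by
    intro y hy
    show imp (ipt p y) ∈ Ω
    rw [imp_ipt]
    exact hy
  refine ⟨imp '' K0, hΩ, hne, fun g y hy => ?_, hK0c.image continuous_imp, ?_, fun y hy => ?_⟩
  · have h1 : imp (g.1 (ipt p y)) ∈ Ω := h.maps g.1 g.2 _ (hmem y hy)
    rwa [imp_apply (hc g), imp_ipt] at h1
  · rintro _ ⟨x, hx, rfl⟩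
    exact hK0 hx
  · obtain ⟨γ, hγ, h1⟩ := hcov _ (hmem y hy)
    refine ⟨⟨γ, hγ⟩, γ (ipt p y), h1, ?_⟩
    rw [imp_apply (hc ⟨γ, hγ⟩), imp_ipt]

theorem finite_L {n p m : ℕ} (hp : 0 < p) {Ω : Set (Fin m → ℝ)}
    {Γ : Subgroup (Equiv.Perm (Amb p m))} (h : IsTubeGroup Ω Γ) (S : Setting n p m Γ) {c : Γ → W p m}
    (hc : ∀ γ : Γ, IsForm γ.1 (S.lam γ) (S.A γ) (c γ).1 (S.L γ) (c γ).2)
    (hΛ : ∀ v : W p m, trans v ∈ Γ ↔ ∃ x : Fin n → ℤ, v = S.Θ (fun j => (x j : ℝ)))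
    (K' : Set (Fin m → ℝ)) (hK' : K' ⊆ Ω) (hcomp : IsCompact K') :
    {X : Matrix (Fin m) (Fin m) ℝ | ∃ g, X = S.L g ∧ ∃ y ∈ K', X *ᵥ y ∈ K'}.Finite := by
  classical
  have hΘc : Continuous S.Θ :=
    (S.Θ : (Fin n → ℝ) →ₗ[ℝ] CP p × (Fin m → ℝ)).continuous_of_finiteDimensional
  let F : Set (W p m) := S.Θ '' (Set.univ.pi (fun _ => Set.Icc (0 : ℝ) 1))
  have hF : IsCompact F := (isCompact_univ_pi (fun _ => isCompact_Icc)).image hΘc
  have hv : ∀ w : W p m, ∃ v : W p m, trans v ∈ Γ ∧ w + v ∈ F := by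
    intro w
    refine ⟨S.Θ (fun j => ((-⌊S.Θ.symm w j⌋ : ℤ) : ℝ)), (hΛ _).2 ⟨_, rfl⟩, ?_⟩
    refine ⟨fun j => Int.fract (S.Θ.symm w j), fun j _ =>
      ⟨Int.fract_nonneg _, (Int.fract_lt_one _).le⟩, ?_⟩
    have h1 : (fun j => Int.fract (S.Θ.symm w j)) =
        S.Θ.symm w + fun j => ((-⌊S.Θ.symm w j⌋ : ℤ) : ℝ) := by
      funext j
      show Int.fract (S.Θ.symm w j) = S.Θ.symm w j + ((-⌊S.Θ.symm w j⌋ : ℤ) : ℝ)
      rw [Int.cast_neg, ← sub_eq_add_neg, Int.self_sub_floor]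
    rw [h1, map_add, LinearEquiv.apply_symm_apply]
  let K1 : Set (Amb p m) := (fun q : W p m × (Fin m → ℝ) =>
    ((q.1.1, fun j => ((q.1.2 j : ℝ) : ℂ) + (q.2 j : ℂ) * Complex.I) : Amb p m)) '' (F ×ˢ K') ∪
      (ipt p) '' K'
  have hK1c : IsCompact K1 := by
    refine ((hF.prod hcomp).image ?_).union (hcomp.image ?_)
    · refine Continuous.prodMk (continuous_fst.comp continuous_fst) (continuous_pi (fun j => ?_))
      fun_prop
    · refine Continuous.prodMk continuous_const (continuous_pi (fun j => ?_))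
      fun_prop
  have hK1 : K1 ⊆ tube p Ω := by
    rintro x (⟨⟨v, y⟩, ⟨hv1, hy⟩, rfl⟩ | ⟨y, hy, rfl⟩)
    · show (fun j => (((v.2 j : ℝ) : ℂ) + (y j : ℂ) * Complex.I).im) ∈ Ω
      have h1 : (fun j => (((v.2 j : ℝ) : ℂ) + (y j : ℂ) * Complex.I).im) = y := by
        funext j
        simp
      rw [h1]
      exact hK' hy
    · show imp (ipt p y) ∈ Ω
      rw [imp_ipt]
      exact hK' hy
  have hfin := h.proper K1 hK1 hK1c
  refine (hfin.image (fun δ => if hδ : δ ∈ Γ then S.L ⟨δ, hδ⟩ else 0)).subset ?_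
  rintro X ⟨g, rfl, y, hy, hXy⟩
  obtain ⟨v, hvΓ, hvF⟩ := hv (c g)
  have hδ : trans v * g.1 ∈ Γ := Γ.mul_mem hvΓ g.2
  refine ⟨trans v * g.1, ⟨hδ, ipt p y, Or.inr ⟨y, hy, rfl⟩, Or.inl ⟨(c g + v, S.L g *ᵥ y),
    ⟨hvF, hXy⟩, ?_⟩⟩, ?_⟩
  · rw [Equiv.Perm.mul_apply, (hc g).apply]
    refine Prod.ext ?_ (funext fun j => ?_)
    · show (c g).1 + v.1 = (S.A g (ipt p y).1 + (c g).1) + v.1
      have h1 : (ipt p y).1 = 0 := rfl
      rw [h1, map_zero, zero_add]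
    · show ((((c g).2 j + v.2 j : ℝ)) : ℂ) + (((S.L g *ᵥ y) j : ℝ) : ℂ) * Complex.I =
        ((∑ k, (S.L g j k : ℂ) * ((y k : ℂ) * Complex.I)) + ((c g).2 j : ℂ)) + (v.2 j : ℂ)
      have h1 : (((S.L g *ᵥ y) j : ℝ) : ℂ) = ∑ k, (S.L g j k : ℂ) * (y k : ℂ) := by
        show ((∑ k, S.L g j k * y k : ℝ) : ℂ) = _
        push_cast
        rfl
      rw [h1, Finset.sum_mul]
      push_cast
      simp only [mul_assoc]
      ring
  · simp only [dif_pos hδ]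
    have h1 : (⟨trans v * g.1, hδ⟩ : Γ) = ⟨trans v, hvΓ⟩ * g := rfl
    rw [h1, map_mul]
    have h2 := (hc ⟨trans v, hvΓ⟩).unique hp (IsForm.trans v)
    rw [h2.2.2.2.1, one_mul]

theorem exists_act {n p m : ℕ} (hp : 0 < p) {Ω : Set (Fin m → ℝ)} (hΩ : IsOpen Ω) (hcon : IsConnected Ω)
    {Γ : Subgroup (Equiv.Perm (Amb p m))} (h : IsTubeGroup Ω Γ) (S : Setting n p m Γ) {c : Γ → W p m}
    (hc : ∀ γ : Γ, IsForm γ.1 (S.lam γ) (S.A γ) (c γ).1 (S.L γ) (c γ).2)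
    (hΛ : ∀ v : W p m, trans v ∈ Γ ↔ ∃ x : Fin n → ℤ, v = S.Θ (fun j => (x j : ℝ))) :
    ∃ K : Set (Fin m → ℝ), Act p S.L S.lam Ω K := by
  obtain ⟨K, hK⟩ := exists_coc hΩ hcon.nonempty h S hc
  exact ⟨K, hK, hcon.isPreconnected, finite_L hp h S hc hΛ, S.lam_pos, S.det_rel⟩

end TLK
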